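import Pool.Agent.ZSA.Defs

/-!
# ZSA, row ANA: every sufficiently large m is big
-/

set_option autoImplicit false

namespace ZSA

open Finset Classical ZST

private theorem ana_pow (N : ℕ) : ∃ j0 : ℕ, ∀ j, j0 ≤ j → 1620 * N * j ^ 2 ≤ 2 ^ j := by
  have h := tendsto_pow_const_div_const_pow_of_one_lt 2 (one_lt_two : (1 : ℝ) < 2)
  have hpos : (0 : ℝ) < 1 / (1620 * N + 1) := by positivity
  have h0 : ∀ᶠ j : ℕ in Filter.atTop, 1620 * N * j ^ 2 ≤ 2 ^ j := by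
    filter_upwards [h.eventually (gt_mem_nhds hpos)] with j hj
    rw [div_lt_div_iff₀ (by positivity) (by positivity)] at hj
    have : (1620 * N * j ^ 2 : ℝ) ≤ 2 ^ j := by nlinarith [sq_nonneg (j : ℝ)]
    exact_mod_cast this
  exact Filter.eventually_atTop.1 h0

/-- ROW ANA. -/
theorem exists_big (N : ℕ) : ∃ m0, ∀ m, m0 ≤ m → Big N m := by
  obtain ⟨j0, hj0⟩ := ana_pow N
  refine ⟨2 ^ (4 * (j0 + N + 11)), fun m hm => ?_⟩
  set k := Nat.log 2 m with hk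
  set j := k / 4 with hj
  have hm1 : m ≠ 0 := by
    have : 0 < 2 ^ (4 * (j0 + N + 11)) := by positivity
    omega
  have hkle : 4 * (j0 + N + 11) ≤ k := Nat.le_log_of_pow_le (by norm_num) hm
  have hjle : j0 + N + 11 ≤ j := by omega
  have h2k : 2 ^ k ≤ m := Nat.pow_log_le_self 2 hm1
  have hR : 2 ^ j ≤ Rm m := by
    unfold Rm
    rw [Nat.le_sqrt, Nat.le_sqrt]
    calc 2 ^ j * 2 ^ j * (2 ^ j * 2 ^ j) = 2 ^ (4 * j) := by ring
      _ ≤ 2 ^ k := Nat.pow_le_pow_right (by norm_num) (by omega)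
      _ ≤ m := h2k
  have hjR : j < Rm m := (Nat.lt_two_pow_self (n := j)).trans_le hR
  have hN : N ≤ Rm m := by omega
  have hRpos : 0 < Rm m := by omega
  have hR4 : Rm m * Rm m ^ 3 ≤ m := by
    have h1 : Rm m ≤ Nat.sqrt (Nat.sqrt m) := le_rfl
    rw [Nat.le_sqrt, Nat.le_sqrt] at h1
    calc Rm m * Rm m ^ 3 = Rm m * Rm m * (Rm m * Rm m) := by ring
      _ ≤ m := h1
  have hR3 : Rm m ^ 3 ≤ m / Rm m := by
    rw [Nat.le_div_iff_mul_le hRpos]
    rw [mul_comm]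
    exact hR4
  have hdiv : m / Rm m * Rm m ≤ m := Nat.div_mul_le_self _ _
  have hmain : 20 * N * (k + 2) ^ 2 ≤ Rm m := by
    have h1 : k + 2 ≤ 9 * j := by omega
    calc 20 * N * (k + 2) ^ 2 ≤ 20 * N * (9 * j) ^ 2 := by gcongr
      _ = 1620 * N * j ^ 2 := by ring
      _ ≤ 2 ^ j := hj0 j (by omega)
      _ ≤ Rm m := hR
  refine ⟨hN, ?_, ?_, ?_⟩
  · unfold Em
    calc N * (20 * (m / Rm m) * (k + 2) ^ 2) = m / Rm m * (20 * N * (k + 2) ^ 2) := by ring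
      _ ≤ m / Rm m * Rm m := Nat.mul_le_mul_left _ hmain
      _ ≤ m := hdiv
  · unfold Em
    set R := Rm m with hRdef
    have h1 : R ≤ R ^ 2 := by nlinarith
    have h2 : R ^ 2 ≤ R ^ 3 := Nat.pow_le_pow_right hRpos (by norm_num)
    have h3 : N ≤ R ^ 2 := hN.trans h1
    omega
  · calc 10 ^ 13 ≤ 2 ^ 44 := by norm_num
      _ ≤ 2 ^ (4 * (j0 + N + 11)) := Nat.pow_le_pow_right (by norm_num) (by omega)
      _ ≤ m := hm

end ZSA
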