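import Pool.Agent.ZSA.Defs

/-!
# ZSA row APU: a short set which is nearly invariant under a long translation determines it
-/

namespace ZSA

open Finset Classical ZST

theorem APU_nz {G : Type} [AddCommGroup G] {C : ℕ} {d : G}
    (hd : addOrderOf d = 0 ∨ 2 * C < addOrderOf d) {k : ℕ} (hk : 0 < k) (hkC : k ≤ 2 * C) :
    k • d ≠ 0 := by
  intro h
  have h1 := addOrderOf_dvd_of_nsmul_eq_zero h
  rcases hd with h0 | h0
  · rw [h0] at h1
    have := Nat.eq_zero_of_zero_dvd h1
    omega
  · have := Nat.le_of_dvd hk h1
    omega

theorem APU_card {G : Type} [AddCommGroup G] (S : Finset G) (d : G) :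
    (S ∪ S.image (fun x => x + d)).card = S.card + (S \ S.image (fun x => x + d)).card := by
  have h1 : (S.image (fun x => x + d)).card = S.card :=
    card_image_of_injective _ (add_left_injective d)
  have h2 := card_union_of_disjoint (s := S \ S.image (fun x => x + d))
    (t := S.image (fun x => x + d)) sdiff_disjoint
  rw [sdiff_union_self_eq_union, h1] at h2
  omega

theorem APU_lt {G : Type} [AddCommGroup G] (S : Finset G) {C : ℕ} (hC : S.card ≤ C) {d : G}
    (hd : addOrderOf d = 0 ∨ 2 * C < addOrderOf d) (h2 : 2 ≤ S.card) (x : G) (k : ℕ)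
    (h : ∀ i ≤ k, x - i • d ∈ S) : k < S.card := by
  by_contra hk
  push Not at hk
  have h1 : ((range (S.card + 1)).image (fun i => x - i • d)).card ≤ S.card := by
    apply card_le_card
    intro y hy
    rw [mem_image] at hy
    obtain ⟨i, hi, rfl⟩ := hy
    rw [mem_range] at hi
    exact h i (by omega)
  rw [card_image_of_injOn, card_range] at h1
  · omega
  · have key : ∀ i j : ℕ, i < j → j ≤ S.card → x - i • d ≠ x - j • d := by
      intro i j hij hj he
      have h3 : (j - i) • d = 0 := by
        have h4 : i • d = j • d := by
          have := sub_right_inj.1 he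
          exact this
        have h5 : j • d = (j - i) • d + i • d := by
          rw [← add_nsmul]
          congr 1
          omega
        rw [h5] at h4
        have := h4.symm
        simpa using this
      exact APU_nz hd (by omega) (by omega) h3
    intro i hi j hj he
    simp only [coe_range, Set.mem_Iio] at hi hj
    rcases lt_trichotomy i j with h3 | h3 | h3
    · exact absurd he (key i j h3 (by omega))
    · exact h3
    · exact absurd he.symm (key j i h3 (by omega))

theorem APU_struct {G : Type} [AddCommGroup G] (S : Finset G) (C : ℕ) (h2 : 2 ≤ S.card)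
    (hC : S.card ≤ C) (d : G) (hd : addOrderOf d = 0 ∨ 2 * C < addOrderOf d)
    (h : (S ∪ S.image (fun x => x + d)).card ≤ S.card + 1) :
    ∃ s, S = (range S.card).image (fun i => s + i • d) := by
  have hT : (S \ S.image (fun x => x + d)).card ≤ 1 := by
    rw [APU_card] at h
    omega
  have hst : ∀ x ∈ S, ∃ k, k < S.card ∧ x - k • d ∈ S \ S.image (fun x => x + d) := by
    intro x hx
    have hex : ∃ k, x - (k + 1) • d ∉ S := by
      by_contra hcon
      push Not at hcon
      have := APU_lt S hC hd h2 x S.card (by
        intro i _
        rcases i with _ | i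
        · simpa using hx
        · exact hcon i)
      omega
    have hmin : ∀ i ≤ Nat.find hex, x - i • d ∈ S := by
      intro i hi
      rcases i with _ | i
      · simpa using hx
      · have := Nat.find_min hex (show i < Nat.find hex by omega)
        simpa using this
    refine ⟨Nat.find hex, APU_lt S hC hd h2 x _ hmin, ?_⟩
    rw [mem_sdiff]
    refine ⟨hmin _ le_rfl, ?_⟩
    intro h3
    rw [mem_image] at h3
    obtain ⟨y, hy, hy2⟩ := h3
    apply Nat.find_spec hex
    have : x - (Nat.find hex + 1) • d = y := by
      rw [add_nsmul, one_nsmul, ← sub_sub, ← hy2]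
      abel
    rw [this]
    exact hy
  have hne : S.Nonempty := card_pos.1 (by omega)
  obtain ⟨x0, hx0⟩ := hne
  obtain ⟨k0, -, hk0⟩ := hst x0 hx0
  refine ⟨x0 - k0 • d, ?_⟩
  apply eq_of_subset_of_card_le
  · intro x hx
    obtain ⟨k, hk, hk'⟩ := hst x hx
    have h3 := card_le_one.1 hT _ hk' _ hk0
    rw [mem_image]
    refine ⟨k, mem_range.2 hk, ?_⟩
    rw [← h3]
    abel
  · exact card_image_le.trans (by rw [card_range])

/-- ROW APU. -/
theorem ap_unique {G : Type} [AddCommGroup G] (S : Finset G) (C : ℕ) (h2 : 2 ≤ S.card)
    (hC : S.card ≤ C) (d d' : G) (hd : addOrderOf d = 0 ∨ 2 * C < addOrderOf d)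
    (hd' : addOrderOf d' = 0 ∨ 2 * C < addOrderOf d')
    (h : (S ∪ S.image (fun x => x + d)).card ≤ S.card + 1)
    (h' : (S ∪ S.image (fun x => x + d')).card ≤ S.card + 1) : d' = d ∨ d' = -d := by
  obtain ⟨s, hs⟩ := APU_struct S C h2 hC d hd h
  have hd0 : d' ≠ 0 := by
    have := APU_nz hd' (k := 1) (by omega) (by omega)
    simpa using this
  have hT : (S \ S.image (fun x => x + d')).card ≤ 1 := by
    rw [APU_card] at h'
    omega
  have hmem : ∀ i, i < S.card → s + i • d ∈ S := by
    intro i hi
    have : s + i • d ∈ (range S.card).image (fun i => s + i • d) :=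
      mem_image_of_mem _ (mem_range.2 hi)
    rw [← hs] at this
    exact this
  have hrep : ∀ x ∈ S, ∃ i, i < S.card ∧ s + i • d = x := by
    intro x hx
    rw [hs, mem_image] at hx
    obtain ⟨i, hi, hx⟩ := hx
    exact ⟨i, mem_range.1 hi, hx⟩
  -- a common element of S and S + d'
  obtain ⟨y, hy, hy'⟩ : ∃ y ∈ S, y ∈ S.image (fun x => x + d') := by
    by_contra hcon
    push Not at hcon
    have : S \ S.image (fun x => x + d') = S := by
      ext z
      rw [mem_sdiff]
      exact ⟨fun hz => hz.1, fun hz => ⟨hz, hcon z hz⟩⟩
    rw [this] at hT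
    omega
  rw [mem_image] at hy'
  obtain ⟨x, hx, hxy⟩ := hy'
  obtain ⟨i, hi, hix⟩ := hrep x hx
  obtain ⟨j, hj, hjy⟩ := hrep y hy
  rcases lt_trichotomy i j with hij | hij | hij
  · -- d' = (j - i) d
    have he : d' = (j - i) • d := by
      have h3 : s + j • d = s + i • d + d' := by rw [hjy, hix, hxy]
      have h4 : j • d = (j - i) • d + i • d := by
        rw [← add_nsmul]
        congr 1
        omega
      rw [h4] at h3
      have : d' = (s + ((j - i) • d + i • d)) - (s + i • d) := by rw [h3]; abel
      rw [this]
      abel
    left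
    by_contra hne
    have he2 : 2 ≤ j - i := by
      by_contra h5
      have : j - i = 1 := by omega
      rw [this, one_nsmul] at he
      exact hne he
    have hno : ∀ a, a ≤ 1 → s + a • d ∈ S \ S.image (fun x => x + d') := by
      intro a ha
      rw [mem_sdiff]
      refine ⟨hmem a (by omega), ?_⟩
      intro h5
      rw [mem_image] at h5
      obtain ⟨z, hz, hz2⟩ := h5
      obtain ⟨b, hb, hbz⟩ := hrep z hz
      rw [← hbz, he] at hz2
      have h6 : (b + (j - i) - a) • d = 0 := by
        have h7 : (b + (j - i) - a) • d + a • d = b • d + (j - i) • d := by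
          rw [← add_nsmul, ← add_nsmul]
          congr 1
          omega
        have h8 : a • d = b • d + (j - i) • d := by
          have : s + (b • d + (j - i) • d) = s + a • d := by rw [← hz2]; abel
          exact (add_left_cancel this).symm
        rw [← h8] at h7
        simpa using h7
      exact APU_nz hd (by omega) (by omega) h6
    have h9 := card_le_one.1 hT _ (hno 0 (by omega)) _ (hno 1 (by omega))
    have h10 : 1 • d = 0 := by simpa using h9.symm
    exact APU_nz hd (by omega) (by omega) h10
  · exfalso
    subst hij
    rw [hix] at hjy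
    rw [← hjy] at hxy
    apply hd0
    simpa using hxy
  · have he : d' = -((i - j) • d) := by
      have h3 : s + j • d = s + i • d + d' := by rw [hjy, hix, hxy]
      have h4 : i • d = (i - j) • d + j • d := by
        rw [← add_nsmul]
        congr 1
        omega
      rw [h4] at h3
      have : d' = (s + j • d) - (s + ((i - j) • d + j • d)) := by rw [h3]; abel
      rw [this]
      abel
    right
    by_contra hne
    have he2 : 2 ≤ i - j := by
      by_contra h5
      have : i - j = 1 := by omega
      rw [this, one_nsmul] at he
      exact hne he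
    have hno : ∀ a, a ≤ 1 → s + (S.card - 1 - a) • d ∈ S \ S.image (fun x => x + d') := by
      intro a ha
      rw [mem_sdiff]
      refine ⟨hmem _ (by omega), ?_⟩
      intro h5
      rw [mem_image] at h5
      obtain ⟨z, hz, hz2⟩ := h5
      obtain ⟨b, hb, hbz⟩ := hrep z hz
      rw [← hbz, he] at hz2
      have h6 : (S.card - 1 - a + (i - j) - b) • d = 0 := by
        have h7 : (S.card - 1 - a + (i - j) - b) • d + b • d
            = (S.card - 1 - a) • d + (i - j) • d := by
          rw [← add_nsmul, ← add_nsmul]
          congr 1
          omega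
        have h8 : b • d = (S.card - 1 - a) • d + (i - j) • d := by
          have : s + ((S.card - 1 - a) • d + (i - j) • d) = s + b • d := by
            rw [← add_assoc, ← hz2]; abel
          exact (add_left_cancel this).symm
        rw [← h8] at h7
        simpa using h7
      exact APU_nz hd (by omega) (by omega) h6
    have h9 := card_le_one.1 hT _ (hno 0 (by omega)) _ (hno 1 (by omega))
    have h10 : 1 • d = 0 := by
      have h11 : (S.card - 1 - 0) • d = (S.card - 1 - 1) • d := add_left_cancel h9
      have h12 : (S.card - 1 - 0) • d = (S.card - 1 - 1) • d + 1 • d := by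
        rw [← add_nsmul]
        congr 1
        omega
      rw [h11] at h12
      simpa using h12.symm
    exact APU_nz hd (by omega) (by omega) h10

end ZSA
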