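import Pool.Agent.ZSA.Defs

/-!
ZSA, row BIPE: cores can be extended by any vertex in a robust complete bipartite structure.
-/

namespace ZSA

open Finset Classical ZST

section

variable {V : Type} [Fintype V] [DecidableEq V] {m : ℕ}

private theorem bipe_step {G : Type} [AddCommGroup G] {J : SimpleGraph V} {w : V → V → G}
    {K : Finset V} (hK : Core J w K) {k y : V} (hk : k ∈ K) (h : J.Adj k y) :
    ∃ K', Core J w K' ∧ K ⊆ K' ∧ y ∈ K' ∧ K'.card ≤ K.card + 1 := by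
  by_cases hy : y ∈ K
  · exact ⟨K, hK, Subset.refl K, hy, by omega⟩
  · obtain ⟨s, hs⟩ := hK
    exact ⟨insert y K, ⟨_, TR.add hs hk hy h⟩, subset_insert _ _, mem_insert_self _ _,
      card_insert_le _ _⟩

/-- ROW BIPE. -/
theorem bip_ext (hm : 1 ≤ m) {J : SimpleGraph V} {w : V → V → ZMod m} (A B : Finset V)
    (h : Bip m J A B) : ∀ K, Core J w K → ∀ y, ∃ K', Core J w K' ∧ K ⊆ K' ∧ y ∈ K' ∧
      K'.card ≤ K.card + 4 := by
  obtain ⟨hA, hB, -, hAB, hx⟩ := h
  obtain ⟨a, ha⟩ : A.Nonempty := card_pos.1 (by omega)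
  obtain ⟨b, hb⟩ : B.Nonempty := card_pos.1 (by omega)
  have hall : ∀ x, (J.Adj x a) ∨ (J.Adj x b) := by
    intro x
    by_cases h1 : x ∈ A
    · exact Or.inr (hAB x h1 b hb)
    · by_cases h2 : x ∈ B
      · exact Or.inl (hAB a ha x h2).symm
      · rcases hx x h1 h2 with h3 | h3
        · exact Or.inl (h3 a ha)
        · exact Or.inr (h3 b hb)
  have hab : J.Adj a b := hAB a ha b hb
  intro K hK y
  have hne : K.Nonempty := by
    obtain ⟨s, hs⟩ := hK
    cases hs with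
    | single v => exact ⟨v, by simp⟩
    | add h hu hv he => exact ⟨_, mem_insert_self _ _⟩
  obtain ⟨k, hk⟩ := hne
  have key : ∀ u v, J.Adj k u → J.Adj u v → J.Adj v y →
      ∃ K', Core J w K' ∧ K ⊆ K' ∧ y ∈ K' ∧ K'.card ≤ K.card + 4 := by
    intro u v h1 h2 h3
    obtain ⟨K1, c1, s1, m1, n1⟩ := bipe_step hK hk h1
    obtain ⟨K2, c2, s2, m2, n2⟩ := bipe_step c1 m1 h2
    obtain ⟨K3, c3, s3, m3, n3⟩ := bipe_step c2 m2 h3
    exact ⟨K3, c3, s1.trans (s2.trans s3), m3, by omega⟩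
  have key2 : ∀ u, J.Adj k u → J.Adj u y →
      ∃ K', Core J w K' ∧ K ⊆ K' ∧ y ∈ K' ∧ K'.card ≤ K.card + 4 := by
    intro u h1 h3
    obtain ⟨K1, c1, s1, m1, n1⟩ := bipe_step hK hk h1
    obtain ⟨K3, c3, s3, m3, n3⟩ := bipe_step c1 m1 h3
    exact ⟨K3, c3, s1.trans s3, m3, by omega⟩
  rcases hall k with h1 | h1
  · rcases hall y with h2 | h2
    · exact key2 a h1 h2.symm
    · exact key a b h1 hab h2.symm
  · rcases hall y with h2 | h2
    · exact key b a h1 hab.symm h2.symm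
    · exact key2 b h1 h2.symm

end

end ZSA
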