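import Pool.Agent.ZSA.Defs

/-!
# ROW BIPF: a robust complete bipartite structure excludes the flat structure
-/

namespace ZSA

open Finset Classical ZST

section

variable {V : Type} [Fintype V] [DecidableEq V] {m : ℕ}

private theorem bipf_cover (S Z Z' C _E : Finset V) :
    S.card ≤ (S ∩ Z).card + (S ∩ Z').card + C.card + (univ \ (Z ∪ Z' ∪ C)).card := by
  have h : S ⊆ (S ∩ Z) ∪ (S ∩ Z') ∪ C ∪ (univ \ (Z ∪ Z' ∪ C)) := by
    intro x hx
    simp only [mem_union, mem_inter, mem_sdiff, mem_univ, true_and]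
    tauto
  refine (card_le_card h).trans ?_
  refine (card_union_le _ _).trans ?_
  refine Nat.add_le_add_right ?_ _
  refine (card_union_le _ _).trans ?_
  exact Nat.add_le_add_right (card_union_le _ _) _

private theorem bipf_cover' (S Z Z' C E : Finset V) :
    S.card ≤ (S ∩ (Z \ E)).card + (S ∩ Z').card + (C.card + E.card) +
      (univ \ (Z ∪ Z' ∪ C)).card := by
  have h : S ⊆ (S ∩ (Z \ E)) ∪ (S ∩ Z') ∪ (C ∪ E) ∪ (univ \ (Z ∪ Z' ∪ C)) := by
    intro x hx
    simp only [mem_union, mem_inter, mem_sdiff, mem_univ, true_and]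
    tauto
  refine (card_le_card h).trans ?_
  refine (card_union_le _ _).trans ?_
  refine Nat.add_le_add_right ?_ _
  refine (card_union_le _ _).trans ?_
  exact Nat.add_le_add (card_union_le _ _) (card_union_le _ _)

private theorem bipf_cover'' (S Z Z' C E : Finset V) :
    S.card ≤ (S ∩ (Z \ E)).card + (S ∩ (Z' \ E)).card + (C.card + E.card) +
      (univ \ (Z ∪ Z' ∪ C)).card := by
  have h : S ⊆ (S ∩ (Z \ E)) ∪ (S ∩ (Z' \ E)) ∪ (C ∪ E) ∪ (univ \ (Z ∪ Z' ∪ C)) := by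
    intro x hx
    simp only [mem_union, mem_inter, mem_sdiff, mem_univ, true_and]
    tauto
  refine (card_le_card h).trans ?_
  refine (card_union_le _ _).trans ?_
  refine Nat.add_le_add_right ?_ _
  refine (card_union_le _ _).trans ?_
  exact Nat.add_le_add (card_union_le _ _) (card_union_le _ _)

private theorem bipf_half (_hm : 10 ^ 6 ≤ m) {J : SimpleGraph V} (A B : Finset V)
    (h : Bip m J A B) (Z Z' C E : Finset V)
    (hrest : 100 * (univ \ (Z ∪ Z' ∪ C)).card ≤ 2 * m)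
    (hCE : 100 * (C.card + E.card) ≤ 51 * m)
    (hZ : ∀ y ∈ Z \ E, 100 * (nb J y ∩ Z').card ≤ m)
    (hZ' : ∀ y ∈ Z' \ E, 100 * (nb J y ∩ Z).card ≤ m)
    (hne' : (Z' \ E).Nonempty) {y : V} (hyA : y ∈ A) (hy : y ∈ Z \ E) : False := by
  obtain ⟨hA, hB, hAB, hcomp, hout⟩ := h
  have hBZ' : 100 * (B ∩ Z').card ≤ m := by
    refine le_trans (Nat.mul_le_mul_left _ (card_le_card ?_)) (hZ y hy)
    intro b hb
    rw [mem_inter] at hb ⊢
    exact ⟨by simpa [nb] using hcomp y hyA b hb.1, hb.2⟩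
  have h1 := bipf_cover' B Z Z' C E
  have h2 : 0 < (B ∩ (Z \ E)).card := by omega
  obtain ⟨y', hy'⟩ := card_pos.1 h2
  rw [mem_inter] at hy'
  have hAZ' : 100 * (A ∩ Z').card ≤ m := by
    refine le_trans (Nat.mul_le_mul_left _ (card_le_card ?_)) (hZ y' hy'.2)
    intro a ha
    rw [mem_inter] at ha ⊢
    exact ⟨by simpa [nb] using (hcomp a ha.1 y' hy'.1).symm, ha.2⟩
  have h3 := bipf_cover A Z Z' C E
  have h4 := bipf_cover B Z Z' C E
  obtain ⟨x, hx⟩ := hne'
  have hx' := hZ' x hx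
  have hfull : (∀ a ∈ A, J.Adj x a) ∨ (∀ b ∈ B, J.Adj x b) := by
    by_cases hxA : x ∈ A
    · exact Or.inr (hcomp x hxA)
    · by_cases hxB : x ∈ B
      · exact Or.inl (fun a ha => (hcomp a ha x hxB).symm)
      · exact hout x hxA hxB
  rcases hfull with hf | hf
  · have h5 : (A ∩ Z).card ≤ (nb J x ∩ Z).card := by
      apply card_le_card
      intro a ha
      rw [mem_inter] at ha ⊢
      exact ⟨by simpa [nb] using hf a ha.1, ha.2⟩
    omega
  · have h5 : (B ∩ Z).card ≤ (nb J x ∩ Z).card := by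
      apply card_le_card
      intro a ha
      rw [mem_inter] at ha ⊢
      exact ⟨by simpa [nb] using hf a ha.1, ha.2⟩
    omega

/-- ROW BIPF. -/
theorem bip_flat (hm : 10 ^ 6 ≤ m) {J : SimpleGraph V} (A B : Finset V) (h : Bip m J A B)
    (h' : FLS m J) : False := by
  obtain ⟨_, Z, Z', C, E, hd1, hd2, hd3, hE, hn, hCE, hZ, hZ', hne, hne'⟩ := h'
  have hcard : (Z ∪ Z' ∪ C).card = Z.card + Z'.card + C.card := by
    rw [card_union_of_disjoint (disjoint_union_left.2 ⟨hd2, hd3⟩), card_union_of_disjoint hd1]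
  have hrest0 : (univ \ (Z ∪ Z' ∪ C)).card + (Z ∪ Z' ∪ C).card = Fintype.card V := by
    rw [card_sdiff_add_card_eq_card (subset_univ _), card_univ]
  have hrest : 100 * (univ \ (Z ∪ Z' ∪ C)).card ≤ 2 * m := by omega
  have hrest' : 100 * (univ \ (Z' ∪ Z ∪ C)).card ≤ 2 * m := by
    rw [union_comm Z' Z]; exact hrest
  have h1 := bipf_cover'' A Z Z' C E
  have hA := h.1
  have h2 : 0 < (A ∩ (Z \ E)).card ∨ 0 < (A ∩ (Z' \ E)).card := by omega
  rcases h2 with h2 | h2
  · obtain ⟨y, hy⟩ := card_pos.1 h2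
    rw [mem_inter] at hy
    exact bipf_half hm A B h Z Z' C E hrest hCE hZ hZ' hne' hy.1 hy.2
  · obtain ⟨y, hy⟩ := card_pos.1 h2
    rw [mem_inter] at hy
    exact bipf_half hm A B h Z' Z C E hrest' hCE hZ' hZ hne hy.1 hy.2

end

end ZSA
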