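import Pool.Agent.ZSA.Defs

/-!
# ZSA, row BIPT: a robust complete bipartite structure excludes two labels
-/

namespace ZSA

open Finset Classical ZST

set_option linter.unusedSectionVars false

variable {V : Type} [Fintype V] [DecidableEq V] {m : ℕ}

private theorem bipt_exit {Γ : SimpleGraph V} {S : Finset V} {a c : V} (h : Γ.Walk a c) :
    a ∈ S → c ∉ S → ∃ x ∈ S, ∃ y, y ∉ S ∧ Γ.Adj x y ∧ Γ.Reachable a y := by
  induction h with
  | nil => intro h1 h2; exact absurd h1 h2
  | @cons u v w huv q ih =>
    intro h1 h2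
    by_cases hv : v ∈ S
    · obtain ⟨x, hx, y, hy, hxy, hr⟩ := ih hv h2
      exact ⟨x, hx, y, hy, hxy, huv.reachable.trans hr⟩
    · exact ⟨u, h1, v, hv, huv, huv.reachable⟩

private theorem bipt_grow {G : Type} [AddCommGroup G] {H : SimpleGraph V} {w : V → V → G}
    (b : G) (v : V) (k : ℕ) (hk : k + 1 ≤ (comp H w b v).card) :
    ∃ S : Finset V, v ∈ S ∧ S ⊆ comp H w b v ∧ S.card = k + 1 ∧ TR H.Adj w S (k • b) := by
  induction k with
  | zero =>
    refine ⟨{v}, mem_singleton_self v, ?_, card_singleton v, ?_⟩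
    · intro x hx
      rw [mem_singleton] at hx
      subst hx
      unfold comp cp
      rw [mem_filter]
      exact ⟨mem_univ _, SimpleGraph.Reachable.refl x⟩
    · rw [zero_nsmul]
      exact TR.single v
  | succ k ih =>
    obtain ⟨S, hvS, hS, hc, hT⟩ := ih (by omega)
    have hne : ∃ z ∈ comp H w b v, z ∉ S := by
      by_contra hcon
      push Not at hcon
      have := card_le_card (show comp H w b v ⊆ S from fun z hz => hcon z hz)
      omega
    obtain ⟨z, hz, hzS⟩ := hne
    unfold comp cp at hz
    rw [mem_filter] at hz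
    obtain ⟨q⟩ := hz.2
    obtain ⟨x, hx, y, hy, hxy, hr⟩ := bipt_exit q hvS hzS
    refine ⟨insert y S, mem_insert_of_mem hvS, ?_, ?_, ?_⟩
    · intro a ha
      rcases mem_insert.1 ha with rfl | ha
      · unfold comp cp
        rw [mem_filter]
        exact ⟨mem_univ _, hr⟩
      · exact hS ha
    · rw [card_insert_of_notMem hy, hc]
    · have h2 := TR.add hT hx hy hxy.1
      rw [hxy.2.1] at h2
      rw [succ_nsmul]
      exact h2

private theorem bipt_comp_le {H : SimpleGraph V} {w : V → V → ZMod m}
    (hz : ZF m H w) (b : ZMod m) (v : V) : (comp H w b v).card ≤ m := by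
  by_contra hlt
  obtain ⟨S', -, -, hcard, hT⟩ := bipt_grow (H := H) (w := w) b v m (by omega)
  refine hz.2 S' hcard ?_
  rw [nsmul_eq_mul, ZMod.natCast_self, zero_mul] at hT
  exact hT

private theorem bipt_mem {J : SimpleGraph V} {w : V → V → ZMod m} {b : ZMod m} {u v : V} :
    v ∈ comp J w b u ↔ (lg J w b).Reachable u v := by
  unfold comp cp
  simp

private theorem bipt_key {J : SimpleGraph V} {w : V → V → ZMod m} (hs : ∀ u v, w u v = w v u)
    (b b' : ZMod m) {u v : V} (h : J.Adj u v) :
    (lg J w b).Reachable u v ∨ (lg J w b').Reachable u v ∨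
      v ∈ univ.filter (fun x => J.Adj u x ∧ w u x ≠ b ∧ w u x ≠ b') := by
  by_cases h1 : w u v = b
  · left
    have : (lg J w b).Adj u v := ⟨h, h1, by rw [hs]; exact h1⟩
    exact this.reachable
  · by_cases h2 : w u v = b'
    · right; left
      have : (lg J w b').Adj u v := ⟨h, h2, by rw [hs]; exact h2⟩
      exact this.reachable
    · right; right
      rw [mem_filter]
      exact ⟨mem_univ _, h, h1, h2⟩

private theorem bipt_main (hm : 10 ^ 13 ≤ m) {J : SimpleGraph V} {w : V → V → ZMod m}
    (hz : ZF m J w) (B P : Finset V) (hB : m + 1 ≤ B.card) (hP : 149 * m ≤ 100 * P.card)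
    (hPB : Disjoint P B) (hadj : ∀ p ∈ P, ∀ q ∈ B, J.Adj p q) (b b' : ZMod m)
    (hX : ∀ y, (univ.filter (fun x => J.Adj y x ∧ w y x ≠ b ∧ w y x ≠ b')).card ≤ 500000) :
    False := by
  set X : V → Finset V := fun y => univ.filter (fun x => J.Adj y x ∧ w y x ≠ b ∧ w y x ≠ b')
    with hXdef
  have hcX : ∀ y, (X y).card ≤ 500000 := hX
  have key : ∀ u v, J.Adj u v → (lg J w b).Reachable u v ∨ (lg J w b').Reachable u v ∨ v ∈ X u :=
    fun u v h => bipt_key hz.1 b b' h
  obtain ⟨x, hx⟩ : B.Nonempty := by
    rw [← card_pos]; omega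
  have c1 := bipt_comp_le hz b x
  have c2 := bipt_comp_le hz b' x
  have k1 : ∀ p ∈ P, (lg J w b).Reachable x p ∨ (lg J w b').Reachable x p ∨ p ∈ X x :=
    fun p hp => key x p (hadj p hp x hx).symm
  -- y1
  obtain ⟨y1, hy1, hy1b, hy1b'⟩ : ∃ y ∈ P, (lg J w b).Reachable x y ∧
      ¬ (lg J w b').Reachable x y := by
    by_contra hcon
    push Not at hcon
    have hs : P ⊆ comp J w b' x ∪ X x := by
      intro p hp
      rw [mem_union, bipt_mem]
      rcases k1 p hp with h | h | h
      · exact Or.inl (hcon p hp h)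
      · exact Or.inl h
      · exact Or.inr h
    have h1 := card_le_card hs
    have h2 := card_union_le (comp J w b' x) (X x)
    have h3 := hcX x
    omega
  obtain ⟨y2, hy2, hy2b', hy2b⟩ : ∃ y ∈ P, (lg J w b').Reachable x y ∧
      ¬ (lg J w b).Reachable x y := by
    by_contra hcon
    push Not at hcon
    have hs : P ⊆ comp J w b x ∪ X x := by
      intro p hp
      rw [mem_union, bipt_mem]
      rcases k1 p hp with h | h | h
      · exact Or.inl h
      · exact Or.inl (hcon p hp h)
      · exact Or.inr h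
    have h1 := card_le_card hs
    have h2 := card_union_le (comp J w b x) (X x)
    have h3 := hcX x
    omega
  -- the position of `B`
  have hBpos : ∀ q ∈ B, (((lg J w b).Reachable x q ∧ (lg J w b').Reachable x q) ∨
      ((lg J w b).Reachable y2 q ∧ (lg J w b').Reachable y1 q)) ∨ q ∈ X y1 ∪ X y2 := by
    intro q hq
    rw [mem_union]
    rcases key y1 q (hadj y1 hy1 q hq) with h1 | h1 | h1
    · rcases key y2 q (hadj y2 hy2 q hq) with h2 | h2 | h2
      · exact absurd ((hy1b.trans h1).trans h2.symm) hy2b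
      · exact Or.inl (Or.inl ⟨hy1b.trans h1, hy2b'.trans h2⟩)
      · exact Or.inr (Or.inr h2)
    · rcases key y2 q (hadj y2 hy2 q hq) with h2 | h2 | h2
      · exact Or.inl (Or.inr ⟨h2, h1⟩)
      · exact absurd ((hy2b'.trans h2).trans h1.symm) hy1b'
      · exact Or.inr (Or.inr h2)
    · exact Or.inr (Or.inl h1)
  have d1 := hcX x
  have d2 := hcX y1
  have d3 := hcX y2
  by_cases hcase : ∃ q ∈ B, (lg J w b).Reachable y2 q ∧ (lg J w b').Reachable y1 q
  · obtain ⟨x', hx', hx1, hx2⟩ := hcase
    have c3 := bipt_comp_le hz b y2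
    have d4 := hcX x'
    have hdis : Disjoint (comp J w b x) (comp J w b y2) := by
      rw [Finset.disjoint_left]
      intro z h1 h2
      rw [bipt_mem] at h1 h2
      exact hy2b (h1.trans h2.symm)
    have hs : P ∪ B ⊆ (comp J w b x ∪ comp J w b y2) ∪ ((X x ∪ X x') ∪ (X y1 ∪ X y2)) := by
      intro z hz'
      rcases mem_union.1 hz' with hz' | hz'
      · rcases k1 z hz' with h1 | h1 | h1
        · exact mem_union_left _ (mem_union_left _ (bipt_mem.2 h1))
        · rcases key x' z (hadj z hz' x' hx').symm with h2 | h2 | h2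
          · exact mem_union_left _ (mem_union_right _ (bipt_mem.2 (hx1.trans h2)))
          · exact absurd (h1.trans (hx2.trans h2).symm) hy1b'
          · exact mem_union_right _ (mem_union_left _ (mem_union_right _ h2))
        · exact mem_union_right _ (mem_union_left _ (mem_union_left _ h1))
      · rcases hBpos z hz' with (h1 | h1) | h1
        · exact mem_union_left _ (mem_union_left _ (bipt_mem.2 h1.1))
        · exact mem_union_left _ (mem_union_right _ (bipt_mem.2 h1.1))
        · exact mem_union_right _ (mem_union_right _ h1)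
    have t0 := card_le_card hs
    rw [card_union_of_disjoint hPB] at t0
    have t1 := card_union_le (comp J w b x ∪ comp J w b y2) ((X x ∪ X x') ∪ (X y1 ∪ X y2))
    have t2 := card_union_le (comp J w b x) (comp J w b y2)
    have t3 := card_union_le (X x ∪ X x') (X y1 ∪ X y2)
    have t4 := card_union_le (X x) (X x')
    have t5 := card_union_le (X y1) (X y2)
    omega
  · have hB' : B ⊆ (comp J w b x ∩ comp J w b' x) ∪ (X y1 ∪ X y2) := by
      intro z hz'
      rcases hBpos z hz' with (h1 | h1) | h1
      · exact mem_union_left _ (mem_inter.2 ⟨bipt_mem.2 h1.1, bipt_mem.2 h1.2⟩)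
      · exact absurd ⟨z, hz', h1⟩ hcase
      · exact mem_union_right _ h1
    have hs : P ∪ B ⊆ (comp J w b x ∪ comp J w b' x) ∪ (X x ∪ (X y1 ∪ X y2)) := by
      intro z hz'
      rcases mem_union.1 hz' with hz' | hz'
      · rcases k1 z hz' with h1 | h1 | h1
        · exact mem_union_left _ (mem_union_left _ (bipt_mem.2 h1))
        · exact mem_union_left _ (mem_union_right _ (bipt_mem.2 h1))
        · exact mem_union_right _ (mem_union_left _ h1)
      · rcases mem_union.1 (hB' hz') with h1 | h1
        · exact mem_union_left _ (mem_union_left _ (mem_inter.1 h1).1)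
        · exact mem_union_right _ (mem_union_right _ h1)
    have t0 := card_le_card hs
    rw [card_union_of_disjoint hPB] at t0
    have t1 := card_union_le (comp J w b x ∪ comp J w b' x) (X x ∪ (X y1 ∪ X y2))
    have t3 := card_union_le (X x) (X y1 ∪ X y2)
    have t5 := card_union_le (X y1) (X y2)
    have t6 := card_le_card hB'
    have t7 := card_union_le (comp J w b x ∩ comp J w b' x) (X y1 ∪ X y2)
    have t8 := card_union_add_card_inter (comp J w b x) (comp J w b' x)
    omega

/-- ROW BIPT. Uses COMPLEM. -/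
theorem bip_two [NeZero m] (hm : 10 ^ 13 ≤ m) {J : SimpleGraph V} {w : V → V → ZMod m}
    (hn : 3 * m - 1 ≤ Fintype.card V) (hz : ZF m J w) (A B : Finset V) (h : Bip m J A B)
    (h' : T2lab m J w) : False := by
  obtain ⟨hA, hB, hd, hadj, hout⟩ := h
  obtain ⟨b, b', -, hX⟩ := h'
  set P : Finset V := univ.filter (fun x => x ∉ B ∧ ∀ q ∈ B, J.Adj x q) with hPdef
  set P' : Finset V := univ.filter (fun x => x ∉ A ∧ ∀ q ∈ A, J.Adj x q) with hPdef'
  have hu : (univ : Finset V) ⊆ P ∪ P' := by
    intro x _
    rw [mem_union, hPdef, hPdef', mem_filter, mem_filter]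
    by_cases hxA : x ∈ A
    · left
      exact ⟨mem_univ _, fun h => (Finset.disjoint_left.1 hd) hxA h, fun q hq => hadj x hxA q hq⟩
    · by_cases hxB : x ∈ B
      · right
        exact ⟨mem_univ _, hxA, fun q hq => (hadj q hq x hxB).symm⟩
      · rcases hout x hxA hxB with h1 | h1
        · right; exact ⟨mem_univ _, hxA, h1⟩
        · left; exact ⟨mem_univ _, hxB, h1⟩
  have t0 := card_le_card hu
  rw [card_univ] at t0
  have t1 := card_union_le P P'
  rcases (show 149 * m ≤ 100 * P.card ∨ 149 * m ≤ 100 * P'.card by omega) with hc | hc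
  · refine bipt_main hm hz B P hB hc ?_ ?_ b b' hX
    · rw [Finset.disjoint_left]
      intro x hx hx'
      rw [hPdef, mem_filter] at hx
      exact hx.2.1 hx'
    · intro p hp q hq
      rw [hPdef, mem_filter] at hp
      exact hp.2.2 q hq
  · refine bipt_main hm hz A P' hA hc ?_ ?_ b b' hX
    · rw [Finset.disjoint_left]
      intro x hx hx'
      rw [hPdef', mem_filter] at hx
      exact hx.2.1 hx'
    · intro p hp q hq
      rw [hPdef', mem_filter] at hp
      exact hp.2.2 q hq

end ZSA
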