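import Pool.Agent.ZSA.Defs

/-!
# ZSA, row CHAIN: the common coset
-/

set_option autoImplicit false

namespace ZSA

open Finset Classical ZST

private theorem chain_half {G : Type} [AddCommGroup G] [Finite G] {J' J : AddSubgroup G}
    (h : J' < J) : 2 * Nat.card J' ≤ Nat.card J := by
  have h1 : Nat.card J' ∣ Nat.card J := AddSubgroup.card_dvd_of_le h.le
  obtain ⟨c, hc⟩ := h1
  have hpos : 0 < Nat.card J := Nat.card_pos
  have hc0 : c ≠ 0 := by
    rintro rfl
    omega
  have hc1 : c ≠ 1 := by
    rintro rfl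
    have := AddSubgroup.eq_of_le_of_card_ge h.le (by omega)
    exact h.ne this
  have : 2 ≤ c := by omega
  calc 2 * Nat.card J' = Nat.card J' * 2 := by ring
    _ ≤ Nat.card J' * c := Nat.mul_le_mul_left _ this
    _ = Nat.card J := hc.symm

private theorem chain_div {m a b c : ℕ} (hc : 0 < c) (ha : 2 * c ≤ a) (hb : 2 * c ≤ b) :
    m / a + m / b ≤ m / c := by
  have h1 : m / a ≤ m / (2 * c) := Nat.div_le_div_left ha (by omega)
  have h2 : m / b ≤ m / (2 * c) := Nat.div_le_div_left hb (by omega)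
  have h3 : m / (2 * c) = m / c / 2 := by rw [mul_comm, Nat.div_div_eq_div_mul]
  omega

/-- ROW CHAIN. -/
theorem chain {W : Type} {m : ℕ} [NeZero m] (A : W → Finset (ZMod m)) (X : Finset W)
    (hA : ∀ x ∈ X, (A x).Nonempty) (D : ℕ) (Q : Set (AddSubgroup (ZMod m) × ZMod m))
    (hQ : ∀ p ∈ Q, (exc A X p.1 p.2).card ≤ m / Nat.card p.1 + D)
    (hX : 2 * m + (Nat.log 2 m + 2) * D < X.card)
    (hrich : ∀ b, m + (Nat.log 2 m + 2) * D < (exc A X ⊥ b).card) :
    ∃ (J : AddSubgroup (ZMod m)) (p : ZMod m), J ≠ ⊥ ∧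
      (∀ a, a - p ∈ J ↔ ∀ r ∈ Q, a - r.2 ∈ r.1) ∧
      (exc A X J p).card ≤ m / Nat.card J + (Nat.log 2 m + 2) * D := by
  have hm : m ≠ 0 := NeZero.ne m
  let S : Set ℕ := {c | ∃ (J : AddSubgroup (ZMod m)) (p : ZMod m) (t : ℕ), Nat.card J = c ∧
    (∀ a, (∀ r ∈ Q, a - r.2 ∈ r.1) → a - p ∈ J) ∧
    (exc A X J p).card ≤ m / Nat.card J + t * D ∧ Nat.card J * 2 ^ t ≤ m}
  have hS : S.Nonempty := by
    refine ⟨_, ⊤, 0, 0, rfl, fun a _ => AddSubgroup.mem_top _, ?_, ?_⟩
    · have : exc A X (⊤ : AddSubgroup (ZMod m)) 0 = ∅ := by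
        rw [exc, filter_eq_empty_iff]
        intro x _
        simp
      rw [this]
      simp
    · rw [pow_zero, mul_one]
      have h1 : Nat.card (⊤ : AddSubgroup (ZMod m)) = m := by
        rw [AddSubgroup.card_top, Nat.card_zmod]
      exact h1.le
  obtain ⟨J, p, t, hJc, h1, h2, h3⟩ := Nat.sInf_mem hS
  have hmin : ∀ c ∈ S, Nat.card J ≤ c := fun c hc => hJc ▸ Nat.sInf_le hc
  have hJpos : 0 < Nat.card J := Nat.card_pos
  have ht : t ≤ Nat.log 2 m := by
    apply Nat.le_log_of_pow_le (by norm_num)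
    calc 2 ^ t = 1 * 2 ^ t := (one_mul _).symm
      _ ≤ Nat.card J * 2 ^ t := Nat.mul_le_mul_right _ hJpos
      _ ≤ m := h3
  have htD : t * D ≤ (Nat.log 2 m + 2) * D := Nat.mul_le_mul_right _ (by omega)
  have ht1D : (t + 1) * D ≤ (Nat.log 2 m + 2) * D := Nat.mul_le_mul_right _ (by omega)
  refine ⟨J, p, ?_, ?_, h2.trans (Nat.add_le_add_left htD _)⟩
  · rintro rfl
    have h4 := hrich p
    have h5 : m / Nat.card (⊥ : AddSubgroup (ZMod m)) ≤ m := Nat.div_le_self _ _
    omega
  · intro a
    refine ⟨?_, h1 a⟩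
    intro ha
    by_contra hcon
    push Not at hcon
    obtain ⟨⟨H, q⟩, hrQ, hrH⟩ := hcon
    have hrH' : a - q ∉ H := hrH
    have hQ' : (exc A X H q).card ≤ m / Nat.card H + D := hQ _ hrQ
    have e1 : m / Nat.card J ≤ m := Nat.div_le_self _ _
    have e2 : m / Nat.card H ≤ m := Nat.div_le_self _ _
    have hHpos : 0 < Nat.card H := Nat.card_pos
    have e3 : (t + 1) * D = t * D + D := by ring
    -- a vertex outside both exceptional sets
    obtain ⟨x, hxX, hxn⟩ : ∃ x ∈ X, x ∉ exc A X J p ∪ exc A X H q := by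
      by_contra hno
      push Not at hno
      have h5 : X ⊆ exc A X J p ∪ exc A X H q := hno
      have h6 := (card_le_card h5).trans (card_union_le _ _)
      omega
    obtain ⟨a0, ha0⟩ := hA x hxX
    rw [mem_union, not_or] at hxn
    have hJ0 : a0 - p ∈ J := by
      by_contra hno
      exact hxn.1 (mem_filter.2 ⟨hxX, a0, ha0, hno⟩)
    have hH0 : a0 - q ∈ H := by
      by_contra hno
      exact hxn.2 (mem_filter.2 ⟨hxX, a0, ha0, hno⟩)
    have hJH : ¬ J ≤ H := by
      intro hle
      apply hrH'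
      have h5 : a - q = (a - p) - (a0 - p) + (a0 - q) := by abel
      rw [h5]
      exact H.add_mem (hle (J.sub_mem ha hJ0)) hH0
    have hlt : J ⊓ H < J := lt_of_le_of_ne inf_le_left (fun h => hJH (inf_eq_left.1 h))
    have hhalf := chain_half hlt
    have hpos' : 0 < Nat.card (J ⊓ H : AddSubgroup (ZMod m)) := Nat.card_pos
    have hmem : Nat.card (J ⊓ H : AddSubgroup (ZMod m)) ∈ S := by
      refine ⟨J ⊓ H, a0, t + 1, rfl, ?_, ?_, ?_⟩
      · intro a' ha'
        refine AddSubgroup.mem_inf.2 ⟨?_, ?_⟩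
        · have h5 : a' - a0 = (a' - p) - (a0 - p) := by abel
          rw [h5]
          exact J.sub_mem (h1 a' ha') hJ0
        · have h5 : a' - a0 = (a' - q) - (a0 - q) := by abel
          rw [h5]
          exact H.sub_mem (ha' _ hrQ) hH0
      · by_cases hHJ : H ≤ J
        · have h5 : J ⊓ H = H := inf_eq_right.2 hHJ
          rw [h5]
          have h6 : exc A X H a0 ⊆ exc A X H q := by
            intro y hy
            obtain ⟨hyX, b, hb, hbn⟩ := mem_filter.1 hy
            refine mem_filter.2 ⟨hyX, b, hb, fun hb' => hbn ?_⟩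
            have h7 : b - a0 = (b - q) - (a0 - q) := by abel
            rw [h7]
            exact H.sub_mem hb' hH0
          have h7 := card_le_card h6
          omega
        · have hlt2 : J ⊓ H < H := lt_of_le_of_ne inf_le_right (fun h => hHJ (inf_eq_right.1 h))
          have hhalf2 := chain_half hlt2
          have h5 := chain_div (m := m) hpos' hhalf hhalf2
          have h6 : exc A X (J ⊓ H) a0 ⊆ exc A X J p ∪ exc A X H q := by
            intro y hy
            obtain ⟨hyX, b, hb, hbn⟩ := mem_filter.1 hy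
            by_contra hno
            rw [mem_union, not_or] at hno
            apply hbn
            refine AddSubgroup.mem_inf.2 ⟨?_, ?_⟩
            · have h7 : b - p ∈ J := by
                by_contra hno'
                exact hno.1 (mem_filter.2 ⟨hyX, b, hb, hno'⟩)
              have h8 : b - a0 = (b - p) - (a0 - p) := by abel
              rw [h8]
              exact J.sub_mem h7 hJ0
            · have h7 : b - q ∈ H := by
                by_contra hno'
                exact hno.2 (mem_filter.2 ⟨hyX, b, hb, hno'⟩)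
              have h8 : b - a0 = (b - q) - (a0 - q) := by abel
              rw [h8]
              exact H.sub_mem h7 hH0
          have h7 := (card_le_card h6).trans (card_union_le _ _)
          omega
      · calc Nat.card (J ⊓ H : AddSubgroup (ZMod m)) * 2 ^ (t + 1)
            = (2 * Nat.card (J ⊓ H : AddSubgroup (ZMod m))) * 2 ^ t := by ring
          _ ≤ Nat.card J * 2 ^ t := Nat.mul_le_mul_right _ hhalf
          _ ≤ m := h3
    have := hmin _ hmem
    omega

end ZSA
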