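import Pool.Agent.ZSA.Defs

/-!
# ZSA, row COMPLEM: components of one label have at most p vertices
-/

namespace ZSA

open Finset Classical ZST

set_option linter.unusedSectionVars false

variable {V : Type} [Fintype V] [DecidableEq V]

private theorem complem_exit {Γ : SimpleGraph V} {S : Finset V} {a c : V} (h : Γ.Walk a c) :
    a ∈ S → c ∉ S → ∃ x ∈ S, ∃ y, y ∉ S ∧ Γ.Adj x y ∧ Γ.Reachable a y := by
  induction h with
  | nil => intro h1 h2; exact absurd h1 h2
  | @cons u v w huv q ih =>
    intro h1 h2
    by_cases hv : v ∈ S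
    · obtain ⟨x, hx, y, hy, hxy, hr⟩ := ih hv h2
      exact ⟨x, hx, y, hy, hxy, huv.reachable.trans hr⟩
    · exact ⟨u, h1, v, hv, huv, huv.reachable⟩

private theorem complem_grow {G : Type} [AddCommGroup G] {H : SimpleGraph V} {w : V → V → G}
    (b : G) (v : V) (k : ℕ) (hk : k + 1 ≤ (comp H w b v).card) :
    ∃ S : Finset V, v ∈ S ∧ S ⊆ comp H w b v ∧ S.card = k + 1 ∧ TR H.Adj w S (k • b) := by
  induction k with
  | zero =>
    refine ⟨{v}, mem_singleton_self v, ?_, card_singleton v, ?_⟩
    · intro x hx
      rw [mem_singleton] at hx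
      subst hx
      unfold comp cp
      rw [mem_filter]
      exact ⟨mem_univ _, SimpleGraph.Reachable.refl x⟩
    · rw [zero_nsmul]
      exact TR.single v
  | succ k ih =>
    obtain ⟨S, hvS, hS, hc, hT⟩ := ih (by omega)
    have hne : ∃ z ∈ comp H w b v, z ∉ S := by
      by_contra hcon
      push Not at hcon
      have := card_le_card (show comp H w b v ⊆ S from fun z hz => hcon z hz)
      omega
    obtain ⟨z, hz, hzS⟩ := hne
    unfold comp cp at hz
    rw [mem_filter] at hz
    obtain ⟨q⟩ := hz.2
    obtain ⟨x, hx, y, hy, hxy, hr⟩ := complem_exit q hvS hzS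
    refine ⟨insert y S, mem_insert_of_mem hvS, ?_, ?_, ?_⟩
    · intro a ha
      rcases mem_insert.1 ha with rfl | ha
      · unfold comp cp
        rw [mem_filter]
        exact ⟨mem_univ _, hr⟩
      · exact hS ha
    · rw [card_insert_of_notMem hy, hc]
    · have h2 := TR.add hT hx hy hxy.1
      rw [hxy.2.1] at h2
      rw [succ_nsmul]
      exact h2

/-- ROW COMPLEM. Components of one label have at most `m` vertices. -/
theorem comp_le {m : ℕ} [NeZero m] {H : SimpleGraph V} {w : V → V → ZMod m} (hz : ZF m H w)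
    (b : ZMod m) (v : V) : (comp H w b v).card ≤ m := by
  by_contra hlt
  obtain ⟨S', -, -, hcard, hT⟩ := complem_grow (H := H) (w := w) b v m (by omega)
  refine hz.2 S' hcard ?_
  rw [nsmul_eq_mul, ZMod.natCast_self, zero_mul] at hT
  exact hT

end ZSA
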