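import Pool.Agent.ZSA.Defs

/-!
# ZSA, row CU: disjoint cross units
-/

namespace ZSA

open Finset Classical ZST

private theorem CU_pair {W G : Type} [AddCommGroup G] {A : W → Finset G} {Λ : AddSubgroup G}
    {x y : W} {a b : G} (ha : a ∈ A x) (hb : b ∈ A y) (hab : a - b ∉ Λ) :
    CUnit A Λ {x, y} := by
  refine ⟨card_le_two, b, a - b, hab, Rc.one (by simp) hb, ?_⟩
  rw [add_sub_cancel]
  exact Rc.one (by simp) ha

private theorem CU_nonempty {W G : Type} [AddCommGroup G] {A : W → Finset G}
    {Λ : AddSubgroup G} {U : Finset W} (h : CUnit A Λ U) : U.Nonempty := by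
  obtain ⟨-, a, d, -, ⟨L, hL, hc, -⟩, -⟩ := h
  have h1 : L.Nonempty := by
    rw [← card_pos]
    omega
  exact h1.mono hL

private theorem CU_step {W G : Type} [AddCommGroup G] (A : W → Finset G) (Y : Finset W)
    (hA : ∀ x ∈ Y, (A x).Nonempty) (Λ : AddSubgroup G) (k : ℕ) (hY : 2 * k ≤ Y.card)
    (he : ∀ q, k ≤ (exc A Y Λ q).card) (F : Finset (Finset W))
    (h1 : ∀ U ∈ F, U ⊆ Y ∧ CUnit A Λ U)
    (h2 : ∀ U ∈ F, ∀ U' ∈ F, U ≠ U' → Disjoint U U') (hk : F.card < k) :
    ∃ F' : Finset (Finset W), F'.card = F.card + 1 ∧ (∀ U ∈ F', U ⊆ Y ∧ CUnit A Λ U) ∧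
      ∀ U ∈ F', ∀ U' ∈ F', U ≠ U' → Disjoint U U' := by
  have hsub : ∀ V ∈ F, V ⊆ F.biUnion id := fun V hV => subset_biUnion_of_mem id hV
  have hB : (F.biUnion id).card ≤ F.card * 2 :=
    card_biUnion_le_card_mul _ _ _ fun V hV => (h1 V hV).2.1
  have hY' : 1 < (Y \ F.biUnion id).card := by
    have := le_card_sdiff (F.biUnion id) Y
    omega
  by_cases hU : ∃ U ⊆ Y \ F.biUnion id, CUnit A Λ U
  · obtain ⟨U, hUs, hUc⟩ := hU
    have hdis : ∀ V ∈ F, Disjoint U V := by
      intro V hV
      rw [Finset.disjoint_left]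
      intro z hz hz'
      exact (mem_sdiff.1 (hUs hz)).2 (hsub V hV hz')
    have hUF : U ∉ F := by
      intro h
      obtain ⟨z, hz⟩ := CU_nonempty hUc
      exact (Finset.disjoint_left.1 (hdis U h)) hz hz
    refine ⟨insert U F, card_insert_of_notMem hUF, ?_, ?_⟩
    · intro V hV
      rcases mem_insert.1 hV with rfl | hV
      · exact ⟨hUs.trans sdiff_subset, hUc⟩
      · exact h1 V hV
    · intro V hV V' hV' hne
      rcases mem_insert.1 hV with hVe | hW
      · rcases mem_insert.1 hV' with hVe' | hW'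
        · exact absurd (hVe.trans hVe'.symm) hne
        · rw [hVe]
          exact hdis V' hW'
      · rcases mem_insert.1 hV' with hVe' | hW'
        · rw [hVe']
          exact (hdis V hW).symm
        · exact h2 V hW V' hW' hne
  · obtain ⟨y, hy, y', hy', hyy⟩ := one_lt_card.1 hY'
    obtain ⟨b, hb⟩ := hA y (mem_sdiff.1 hy).1
    obtain ⟨b', hb'⟩ := hA y' (mem_sdiff.1 hy').1
    have hlab : ∀ x ∈ Y \ F.biUnion id, ∀ a ∈ A x, a - b ∈ Λ := by
      intro x hx a ha
      by_contra hab
      refine hU ⟨{x, y}, ?_, CU_pair ha hb hab⟩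
      intro z hz
      rcases mem_insert.1 hz with rfl | hz
      · exact hx
      · rw [mem_singleton.1 hz]
        exact hy
    have hex : exc A Y Λ b ⊆ F.biUnion fun U => exc A Y Λ b ∩ U := by
      intro x hx
      obtain ⟨hxY, a, ha, hab⟩ := mem_filter.1 hx
      have hxB : x ∈ F.biUnion id := by
        by_contra hxB
        exact hab (hlab x (mem_sdiff.2 ⟨hxY, hxB⟩) a ha)
      obtain ⟨U, hUF, hxU⟩ := mem_biUnion.1 hxB
      exact mem_biUnion.2 ⟨U, hUF, mem_inter.2 ⟨hx, hxU⟩⟩
    have hpig : ∃ U ∈ F, 1 < (exc A Y Λ b ∩ U).card := by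
      by_contra hcon
      push Not at hcon
      have h3 := card_le_card hex
      have h4 := card_biUnion_le_card_mul F (fun U => exc A Y Λ b ∩ U) 1 hcon
      have h5 := he b
      omega
    obtain ⟨U, hUF, hU1⟩ := hpig
    obtain ⟨x, hx, x', hx', hxx⟩ := one_lt_card.1 hU1
    obtain ⟨hxe, hxU⟩ := mem_inter.1 hx
    obtain ⟨hxe', hxU'⟩ := mem_inter.1 hx'
    obtain ⟨hxY, a, ha, hab⟩ := mem_filter.1 hxe
    obtain ⟨hxY', a', ha', hab'⟩ := mem_filter.1 hxe'
    have hyB : y ∉ F.biUnion id := (mem_sdiff.1 hy).2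
    have hyB' : y' ∉ F.biUnion id := (mem_sdiff.1 hy').2
    have hU1 : CUnit A Λ {x, y} := CU_pair ha hb hab
    have hU2 : CUnit A Λ {x', y'} := by
      refine CU_pair ha' hb' ?_
      intro h
      have h3 := hlab y' hy' b' hb'
      have h4 := Λ.add_mem h h3
      rw [sub_add_sub_cancel] at h4
      exact hab' h4
    have hd : ∀ z ∈ U, ∀ w, w ∉ F.biUnion id → ∀ V ∈ F.erase U,
        Disjoint ({z, w} : Finset W) V := by
      intro z hz w hw V hV
      obtain ⟨hVU, hVF⟩ := mem_erase.1 hV
      rw [Finset.disjoint_left]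
      intro t ht htV
      rcases mem_insert.1 ht with rfl | ht
      · exact (Finset.disjoint_left.1 (h2 V hVF U hUF hVU)) htV hz
      · rw [mem_singleton.1 ht] at htV
        exact hw (hsub V hVF htV)
    have hd2 : Disjoint ({x, y} : Finset W) {x', y'} := by
      have h3 : x ≠ y' := fun h => hyB' (h ▸ hsub U hUF hxU)
      have h4 : y ≠ x' := fun h => hyB (h ▸ hsub U hUF hxU')
      rw [Finset.disjoint_left]
      intro t ht ht'
      rcases mem_insert.1 ht with rfl | ht
      · rcases mem_insert.1 ht' with h | h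
        · exact hxx h
        · exact h3 (mem_singleton.1 h)
      · rw [mem_singleton.1 ht] at ht'
        rcases mem_insert.1 ht' with h | h
        · exact h4 h
        · exact hyy (mem_singleton.1 h)
    have hn2 : ({x', y'} : Finset W) ∉ F.erase U := by
      intro h
      exact (Finset.disjoint_left.1 (hd x' hxU' y' hyB' _ h)) (mem_insert_self _ _)
        (mem_insert_self _ _)
    have hn1 : ({x, y} : Finset W) ∉ insert ({x', y'} : Finset W) (F.erase U) := by
      intro h
      rcases mem_insert.1 h with h | h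
      · rw [← h] at hd2
        exact (Finset.disjoint_left.1 hd2) (mem_insert_self _ _) (mem_insert_self _ _)
      · exact (Finset.disjoint_left.1 (hd x hxU y hyB _ h)) (mem_insert_self _ _)
          (mem_insert_self _ _)
    have hpairs : ∀ z ∈ Y, ∀ w ∈ Y, ({z, w} : Finset W) ⊆ Y := by
      intro z hz w hw t ht
      rcases mem_insert.1 ht with rfl | ht
      · exact hz
      · rw [mem_singleton.1 ht]
        exact hw
    refine ⟨insert {x, y} (insert {x', y'} (F.erase U)), ?_, ?_, ?_⟩
    · rw [card_insert_of_notMem hn1, card_insert_of_notMem hn2, card_erase_of_mem hUF]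
      have : 0 < F.card := card_pos.2 ⟨U, hUF⟩
      omega
    · intro V hV
      rcases mem_insert.1 hV with rfl | hV
      · exact ⟨hpairs _ hxY _ (mem_sdiff.1 hy).1, hU1⟩
      · rcases mem_insert.1 hV with rfl | hV
        · exact ⟨hpairs _ hxY' _ (mem_sdiff.1 hy').1, hU2⟩
        · exact h1 V (mem_erase.1 hV).2
    · intro V hV V' hV' hne
      rcases mem_insert.1 hV with e1 | hW
      · rcases mem_insert.1 hV' with e2 | hW'
        · exact absurd (e1.trans e2.symm) hne
        · rcases mem_insert.1 hW' with e2 | hX'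
          · rw [e1, e2]
            exact hd2
          · rw [e1]
            exact hd x hxU y hyB V' hX'
      · rcases mem_insert.1 hW with e1 | hX
        · rcases mem_insert.1 hV' with e2 | hW'
          · rw [e1, e2]
            exact hd2.symm
          · rcases mem_insert.1 hW' with e2 | hX'
            · exact absurd (e1.trans e2.symm) hne
            · rw [e1]
              exact hd x' hxU' y' hyB' V' hX'
        · rcases mem_insert.1 hV' with e2 | hW'
          · rw [e2]
            exact (hd x hxU y hyB V hX).symm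
          · rcases mem_insert.1 hW' with e2 | hX'
            · rw [e2]
              exact (hd x' hxU' y' hyB' V hX).symm
            · exact h2 V (mem_erase.1 hX).2 V' (mem_erase.1 hX').2 hne

/-- ROW CU. -/
theorem cross_units {W G : Type} [AddCommGroup G] (A : W → Finset G) (Y : Finset W)
    (hA : ∀ x ∈ Y, (A x).Nonempty) (Λ : AddSubgroup G) (k : ℕ) (hY : 2 * k ≤ Y.card)
    (he : ∀ q, k ≤ (exc A Y Λ q).card) :
    ∃ F : Finset (Finset W), F.card = k ∧ (∀ U ∈ F, U ⊆ Y ∧ CUnit A Λ U) ∧
      ∀ U ∈ F, ∀ U' ∈ F, U ≠ U' → Disjoint U U' := by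
  have key : ∀ j, j ≤ k → ∃ F : Finset (Finset W), F.card = j ∧
      (∀ U ∈ F, U ⊆ Y ∧ CUnit A Λ U) ∧ ∀ U ∈ F, ∀ U' ∈ F, U ≠ U' → Disjoint U U' := by
    intro j
    induction j with
    | zero =>
      intro _
      exact ⟨∅, card_empty, by simp, by simp⟩
    | succ j ih =>
      intro hj
      obtain ⟨F, hF, h1, h2⟩ := ih (by omega)
      obtain ⟨F', hF', h1', h2'⟩ := CU_step A Y hA Λ k hY he F h1 h2 (by omega)
      exact ⟨F', by omega, h1', h2'⟩
  exact key k le_rfl

end ZSA
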