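import Pool.Agent.ZSA.Defs

/-! Row DOM4 of board zsa_modules (MP_8ab2db_co). -/

namespace ZSA

open Finset Classical ZST

variable {V : Type} [Fintype V] [DecidableEq V] {m : ℕ}

private theorem DOM4_step [Nonempty V] {H : SimpleGraph V} {w : V → V → ZMod m}
    (h : Kd m H w) (K : Finset V) (hK : Core H w K) :
    ∃ K', Core H w K' ∧ K'.card ≤ K.card + 4 ∧ 4 * (und H K').card ≤ 3 * (und H K).card := by
  have hdeg := h.deg
  have hn := h.hn'
  have hex : ∃ y : V, (und H K).card ≤ 4 * ((und H K).filter (fun x => H.Adj y x)).card := by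
    by_contra hcon
    push Not at hcon
    have hpos : 0 < (und H K).card := by
      obtain ⟨y⟩ := (inferInstance : Nonempty V)
      have := hcon y
      omega
    have h1 : ∑ y : V, 4 * ((und H K).filter (fun x => H.Adj y x)).card
        < ∑ _y : V, (und H K).card :=
      Finset.sum_lt_sum_of_nonempty Finset.univ_nonempty (fun y _ => hcon y)
    have h2 : ∑ y : V, ((und H K).filter (fun x => H.Adj y x)).card
        = ∑ x ∈ und H K, (nb H x).card := by
      simp only [Finset.card_filter, nb]
      rw [Finset.sum_comm]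
      refine Finset.sum_congr rfl (fun x _ => Finset.sum_congr rfl (fun y _ => ?_))
      by_cases h : H.Adj y x
      · simp [h, h.symm]
      · have h' : ¬ H.Adj x y := fun hc => h hc.symm
        simp [h, h']
    have h3 : (und H K).card * m ≤ ∑ x ∈ und H K, (nb H x).card := by
      have := Finset.card_nsmul_le_sum (und H K) (fun x => (nb H x).card) m
        (fun x _ => hdeg x)
      simpa [smul_eq_mul] using this
    rw [← Finset.mul_sum, h2] at h1
    simp only [Finset.sum_const, Finset.card_univ, smul_eq_mul] at h1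
    have h4 : Fintype.card V * (und H K).card ≤ 4 * m * (und H K).card :=
      Nat.mul_le_mul_right _ hn
    have h5 : 4 * m * (und H K).card = 4 * ((und H K).card * m) := by ring
    omega
  obtain ⟨y, hy⟩ := hex
  obtain ⟨K', hK', hsub, hyK, hcard⟩ := h.ext K hK y
  refine ⟨K', hK', hcard, ?_⟩
  have hsub2 : und H K' ⊆ (und H K).filter (fun x => ¬ H.Adj y x) := by
    intro x hx
    simp only [und, Finset.mem_filter, Finset.mem_univ, true_and] at hx ⊢
    exact ⟨⟨fun h => hx.1 (hsub h), fun k hk => hx.2 k (hsub hk)⟩, hx.2 y hyK⟩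
  have h1 := Finset.card_le_card hsub2
  have h2 : ((und H K).filter (fun x => H.Adj y x)).card
      + ((und H K).filter (fun x => ¬ H.Adj y x)).card = (und H K).card :=
    Finset.card_filter_add_card_filter_not (s := und H K) (fun x => H.Adj y x)
  omega

/-- ROW DOM4. As `ZST.exists_dom`. -/
theorem exists_dom4 [Nonempty V] {H : SimpleGraph V} {w : V → V → ZMod m} (h : Kd m H w) :
    ∃ K, Core H w K ∧ K.card ≤ 97 ∧ 200 * (und H K).card ≤ m := by
  have hn := h.hn'
  have hiter : ∀ j : ℕ, ∃ K, Core H w K ∧ K.card ≤ 1 + 4 * j ∧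
      4 ^ j * (und H K).card ≤ 3 ^ j * (4 * m) := by
    intro j
    induction j with
    | zero =>
      obtain ⟨v⟩ := (inferInstance : Nonempty V)
      refine ⟨{v}, ⟨0, TR.single v⟩, by simp, ?_⟩
      have : (und H {v}).card ≤ Fintype.card V := Finset.card_le_univ _
      simp only [pow_zero, one_mul]
      omega
    | succ j ih =>
      obtain ⟨K, hK, hc, hu⟩ := ih
      obtain ⟨K', hK', hc', hu'⟩ := DOM4_step h K hK
      refine ⟨K', hK', by omega, ?_⟩
      calc 4 ^ (j + 1) * (und H K').card = 4 ^ j * (4 * (und H K').card) := by ring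
        _ ≤ 4 ^ j * (3 * (und H K).card) := Nat.mul_le_mul_left _ hu'
        _ = 3 * (4 ^ j * (und H K).card) := by ring
        _ ≤ 3 * (3 ^ j * (4 * m)) := Nat.mul_le_mul_left _ hu
        _ = 3 ^ (j + 1) * (4 * m) := by ring
  obtain ⟨K, hK, hc, hu⟩ := hiter 24
  refine ⟨K, hK, by omega, ?_⟩
  norm_num at hu
  omega

end ZSA
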