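import Pool.Agent.ZST.Defs2

/-!
# ZSA: MP_8ab2db_co for all sufficiently large m. Definitions.
-/

namespace ZSA

open Finset Classical ZST

/-! ### Additive part -/

/-- `t` is the sum of labels of `k` different elements of `U` -/
def Rc {W G : Type} [AddCommGroup G] (A : W → Finset G) (U : Finset W) (k : ℕ) (t : G) : Prop :=
  ∃ L ⊆ U, L.card = k ∧ ∃ f : W → G, (∀ x ∈ L, f x ∈ A x) ∧ ∑ x ∈ L, f x = t

/-- the elements of `X` with a label outside `q + Λ` -/
noncomputable def exc {W G : Type} [AddCommGroup G] (A : W → Finset G) (X : Finset W)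
    (Λ : AddSubgroup G) (q : G) : Finset W :=
  X.filter (fun x => ∃ a ∈ A x, a - q ∉ Λ)

/-- `U` is a cross unit modulo `Λ`: at most two vertices, whose one-term sums contain two elements
which differ modulo `Λ` -/
def CUnit {W G : Type} [AddCommGroup G] (A : W → Finset G) (Λ : AddSubgroup G) (U : Finset W) :
    Prop :=
  U.card ≤ 2 ∧ ∃ a d, d ∉ Λ ∧ Rc A U 1 a ∧ Rc A U 1 (a + d)

theorem Rc.mono {W G : Type} [AddCommGroup G] {A : W → Finset G} {U U' : Finset W} {k : ℕ} {t : G}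
    (h : Rc A U k t) (hU : U ⊆ U') : Rc A U' k t := by
  obtain ⟨L, hL, h1, h2⟩ := h
  exact ⟨L, hL.trans hU, h1, h2⟩

theorem Rc.zero {W G : Type} [AddCommGroup G] (A : W → Finset G) (U : Finset W) :
    Rc A U 0 0 := ⟨∅, by simp, by simp, fun _ => 0, by simp, by simp⟩

theorem Rc.one {W G : Type} [AddCommGroup G] {A : W → Finset G} {U : Finset W} {x : W} {a : G}
    (hx : x ∈ U) (ha : a ∈ A x) : Rc A U 1 a :=
  ⟨{x}, by simpa using hx, by simp, fun _ => a, by simpa using ha, by simp⟩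

theorem Rc.add' {W G : Type} [AddCommGroup G] {A : W → Finset G} {U U' : Finset W} {k k' : ℕ}
    {t t' : G} (h : Rc A U k t) (h' : Rc A U' k' t') (hd : Disjoint U U') :
    Rc A (U ∪ U') (k + k') (t + t') := by
  obtain ⟨L, hL, h1, f, h2, h3⟩ := h
  obtain ⟨L', hL', h1', f', h2', h3'⟩ := h'
  have hLL : Disjoint L L' := disjoint_of_subset_left hL (disjoint_of_subset_right hL' hd)
  have hne : ∀ x ∈ L', x ∉ L := fun x hx hx' => (Finset.disjoint_left.1 hLL) hx' hx
  refine ⟨L ∪ L', union_subset_union hL hL', ?_, fun x => if x ∈ L then f x else f' x, ?_, ?_⟩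
  · rw [card_union_of_disjoint hLL, h1, h1']
  · intro x hx
    rw [mem_union] at hx
    by_cases hxL : x ∈ L
    · simp only [hxL, if_true]; exact h2 x hxL
    · rcases hx with hx | hx
      · exact absurd hx hxL
      · simp only [hxL, if_false]; exact h2' x hx
  · rw [sum_union hLL, ← h3, ← h3']
    congr 1
    · exact sum_congr rfl (fun x hx => by simp [hx])
    · exact sum_congr rfl (fun x hx => by simp [hne x hx])

theorem Rc.biUnion {W G : Type} [AddCommGroup G] {A : W → Finset G} (F : Finset (Finset W))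
    (hF : ∀ U ∈ F, ∀ U' ∈ F, U ≠ U' → Disjoint U U') (g : Finset W → G)
    (hg : ∀ U ∈ F, Rc A U 1 (g U)) : Rc A (F.biUnion id) F.card (∑ U ∈ F, g U) := by
  classical
  induction F using Finset.induction_on with
  | empty => simpa using Rc.zero A ∅
  | insert U F hU ih =>
    rw [biUnion_insert, card_insert_of_notMem hU, sum_insert hU, add_comm F.card 1]
    refine Rc.add' (hg U (mem_insert_self _ _)) (ih ?_ ?_) ?_
    · exact fun a ha b hb => hF a (mem_insert_of_mem ha) b (mem_insert_of_mem hb)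
    · exact fun a ha => hg a (mem_insert_of_mem ha)
    · rw [disjoint_biUnion_right]
      intro U' hU'
      exact hF U (mem_insert_self _ _) U' (mem_insert_of_mem hU') (fun h => hU (h ▸ hU'))

/-- `m ^ (1/4)` -/
def Rm (m : ℕ) : ℕ := Nat.sqrt (Nat.sqrt m)

/-- the error term, of order `m ^ (3/4)` -/
def Em (m : ℕ) : ℕ := 20 * (m / Rm m)

/-- the threshold for cosets of a subgroup of order `h` -/
def Tm (m h : ℕ) : ℕ := m / h + Em m * (1 + Nat.log 2 (m / h))

/-- `m` is large compared with `N` -/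
structure Big (N m : ℕ) : Prop where
  h1 : N ≤ Rm m
  h2 : N * (Em m * (Nat.log 2 m + 2) ^ 2) ≤ m
  h3 : 8 * Rm m ^ 2 + 4 * (m / Rm m) + 4 * Rm m + N ≤ Em m
  h4 : 10 ^ 13 ≤ m

theorem Big.mono {N N' m : ℕ} (h : Big N m) (hN : N' ≤ N) : Big N' m :=
  ⟨hN.trans h.h1, (Nat.mul_le_mul_right _ hN).trans h.h2,
    (Nat.add_le_add_left hN _).trans h.h3, h.h4⟩

theorem Big.N_le {N m : ℕ} (h : Big N m) : N ^ 4 ≤ m := by
  have h1 := h.h1
  unfold Rm at h1
  rw [Nat.le_sqrt, Nat.le_sqrt] at h1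
  calc N ^ 4 = N * N * (N * N) := by ring
    _ ≤ m := h1

theorem Big.Tm_le {N m : ℕ} (h : Big N m) (r : ℕ) : N * Tm m r ≤ N * (m / r) + m := by
  unfold Tm
  have h2 := h.h2
  have h3 : Nat.log 2 (m / r) ≤ Nat.log 2 m := Nat.log_mono_right (Nat.div_le_self _ _)
  have h4 : 1 + Nat.log 2 (m / r) ≤ (Nat.log 2 m + 2) ^ 2 := by nlinarith
  calc N * (m / r + Em m * (1 + Nat.log 2 (m / r)))
      = N * (m / r) + N * (Em m * (1 + Nat.log 2 (m / r))) := by ring
    _ ≤ N * (m / r) + N * (Em m * (Nat.log 2 m + 2) ^ 2) := by gcongr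
    _ ≤ N * (m / r) + m := by omega

/-! ### Cores -/

section

variable {V : Type} [Fintype V] [DecidableEq V] {m : ℕ}

/-- the outside vertices with a label (towards `K`) outside `q + Λ` -/
noncomputable def exq (H : SimpleGraph V) (w : V → V → ZMod m) (K : Finset V)
    (Λ : AddSubgroup (ZMod m)) (q : ZMod m) : Finset V :=
  univ.filter (fun x => x ∉ K ∧ ∃ a ∈ lab H w K x, a - q ∉ Λ)

/-- the outside vertices with a label (towards `K`) outside `M` -/
noncomputable def exs (H : SimpleGraph V) (w : V → V → ZMod m) (K : Finset V)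
    (M : Set (ZMod m)) : Finset V :=
  univ.filter (fun x => x ∉ K ∧ ∃ a ∈ lab H w K x, a ∉ M)

/-- the outside vertices with a label different from `b` and `b'` -/
noncomputable def ex2 (H : SimpleGraph V) (w : V → V → ZMod m) (K : Finset V)
    (b b' : ZMod m) : Finset V :=
  univ.filter (fun x => x ∉ K ∧ ∃ a ∈ lab H w K x, a ≠ b ∧ a ≠ b')

/-- `K` has a spanning tree with all labels in `M` -/
def QC (H : SimpleGraph V) (w : V → V → ZMod m) (K : Finset V) (M : Set (ZMod m)) : Prop :=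
  ∃ s, TR (fun u v => H.Adj u v ∧ w u v ∈ M) w K s

/-- the subgroup alternative for the core `K` -/
def THp (H : SimpleGraph V) (w : V → V → ZMod m) (K : Finset V) (Λ : AddSubgroup (ZMod m))
    (q : ZMod m) : Prop :=
  Λ ≠ ⊥ ∧ Λ ≠ ⊤ ∧ (exq H w K Λ q).card < Tm m (Nat.card Λ) ∧ ¬ QC H w K {a | a - q ∈ Λ}

/-- every core of size at most `N` above `K0` is of the subgroup type -/
def Flat (N : ℕ) (H : SimpleGraph V) (w : V → V → ZMod m) (K0 : Finset V) : Prop :=
  ∀ K, Core H w K → K0 ⊆ K → K.card ≤ N → ∃ Λ q, THp H w K Λ q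

/-- the labels which lie in all the cosets belonging to cores above `K` -/
def MK (N : ℕ) (H : SimpleGraph V) (w : V → V → ZMod m) (K : Finset V) : Set (ZMod m) :=
  {a | ∀ K', Core H w K' → K ⊆ K' → K'.card ≤ N → ∀ Λ q, THp H w K' Λ q → a - q ∈ Λ}

/-- `y` can be attached to `K` -/
def nice (N : ℕ) (H : SimpleGraph V) (w : V → V → ZMod m) (K : Finset V) (y : V) : Prop :=
  y ∉ K ∧ (∃ k ∈ K, H.Adj k y) ∧ ∀ a ∈ lab H w K y, a ∈ MK N H w K

/-- the nonempty proper subsets of `K` with no `M`-labelled edge to the rest of `K` -/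
noncomputable def Phi (H : SimpleGraph V) (w : V → V → ZMod m) (K : Finset V)
    (M : Set (ZMod m)) : Finset (Finset V) :=
  K.powerset.filter (fun P => P.Nonempty ∧ P ≠ K ∧
    ∀ u ∈ P, ∀ v ∈ K, v ∉ P → ¬ (H.Adj u v ∧ w u v ∈ M))

/-- the number of sets `Phi` does not change in `s` nice steps -/
def Stable (N : ℕ) (H : SimpleGraph V) (w : V → V → ZMod m) : ℕ → Finset V → Prop
  | 0, _ => True
  | s + 1, K => ∀ y, nice N H w K y →
      (Phi H w (insert y K) (MK N H w (insert y K))).card = (Phi H w K (MK N H w K)).card ∧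
      Stable N H w s (insert y K)

/-- the hypotheses on one kind -/
structure Kd (m : ℕ) (H : SimpleGraph V) (w : V → V → ZMod m) : Prop where
  zf : ZF m H w
  hn : 3 * m - 1 ≤ Fintype.card V
  hn' : Fintype.card V ≤ 4 * m
  deg : ∀ v, m ≤ (nb H v).card
  ext : ∀ K, Core H w K → ∀ y, ∃ K', Core H w K' ∧ K ⊆ K' ∧ y ∈ K' ∧ K'.card ≤ K.card + 4

/-- one label is typical -/
def T1typ (m : ℕ) (H : SimpleGraph V) (w : V → V → ZMod m) : Prop :=
  ∃ (b : ZMod m) (U : Finset V), 197 * m ≤ 100 * U.card ∧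
    ∀ u ∈ U, 100 * (univ.filter (fun x => H.Adj u x ∧ w u x ≠ b)).card ≤ m

/-- two labels suffice, up to a bounded number of edges at every vertex -/
def T2lab (m : ℕ) (H : SimpleGraph V) (w : V → V → ZMod m) : Prop :=
  ∃ b b', b ≠ b' ∧ ∀ y,
    (univ.filter (fun x => H.Adj y x ∧ w y x ≠ b ∧ w y x ≠ b')).card ≤ 500000

/-- the flat structure (no labels) -/
def FLS (m : ℕ) (H : SimpleGraph V) : Prop :=
  (∀ v, 100 * (nb H v).card ≤ 151 * m) ∧
  ∃ Z Z' C E : Finset V, Disjoint Z Z' ∧ Disjoint Z C ∧ Disjoint Z' C ∧ E ⊆ Z ∪ Z' ∧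
    100 * Fintype.card V ≤ 100 * (Z.card + Z'.card + C.card) + 2 * m ∧
    100 * (C.card + E.card) ≤ 51 * m ∧
    (∀ y ∈ Z \ E, 100 * (nb H y ∩ Z').card ≤ m) ∧
    (∀ y ∈ Z' \ E, 100 * (nb H y ∩ Z).card ≤ m) ∧
    (Z \ E).Nonempty ∧ (Z' \ E).Nonempty

/-- a robust complete bipartite structure -/
def Bip (m : ℕ) (J : SimpleGraph V) (A B : Finset V) : Prop :=
  m + 1 ≤ A.card ∧ m + 1 ≤ B.card ∧ Disjoint A B ∧ (∀ a ∈ A, ∀ b ∈ B, J.Adj a b) ∧
    ∀ x, x ∉ A → x ∉ B → (∀ a ∈ A, J.Adj x a) ∨ (∀ b ∈ B, J.Adj x b)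

end

end ZSA
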