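import Pool.Agent.ZSA.Defs

/-!
# ZSA, row EXT4: extending a connected core by one vertex, four steps
-/

namespace ZSA

open Finset Classical ZST

set_option linter.unusedSectionVars false

variable {V : Type} [Fintype V] [DecidableEq V] {m : ℕ}

private theorem ext4_step {H : SimpleGraph V} {w : V → V → ZMod m} {K : Finset V}
    (hK : Core H w K) {k z : V} (hk : k ∈ K) (h : z = k ∨ H.Adj k z) :
    ∃ K', Core H w K' ∧ K ⊆ K' ∧ z ∈ K' ∧ K'.card ≤ K.card + 1 := by
  by_cases hz : z ∈ K
  · exact ⟨K, hK, Finset.Subset.refl K, hz, by omega⟩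
  · rcases h with h | h
    · exact absurd (h ▸ hk) hz
    · obtain ⟨s, hs⟩ := hK
      refine ⟨insert z K, ⟨_, TR.add hs hk hz h⟩, Finset.subset_insert _ _,
        Finset.mem_insert_self _ _, ?_⟩
      rw [Finset.card_insert_of_notMem hz]

/-- ROW EXT4. -/
theorem ext4 {H : SimpleGraph V} {w : V → V → ZMod m} (hdeg : ∀ v, m ≤ (nb H v).card)
    (hno : ¬ ∃ A B, Bip m Hᶜ A B) : ∀ K, Core H w K → ∀ y, ∃ K', Core H w K' ∧ K ⊆ K' ∧
      y ∈ K' ∧ K'.card ≤ K.card + 4 := by
  intro K hK y
  have hne : K.Nonempty := by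
    obtain ⟨s, hs⟩ := hK
    cases hs with
    | single v => exact ⟨v, by simp⟩
    | add h hu hv he => exact ⟨_, Finset.mem_insert_self _ _⟩
  obtain ⟨k, hk⟩ := hne
  -- a chain of at most four steps
  have key : ∃ a x b, (a = k ∨ H.Adj k a) ∧ (x = a ∨ H.Adj a x) ∧ (b = x ∨ H.Adj x b) ∧
      (y = b ∨ H.Adj b y) := by
    by_contra hcon
    apply hno
    have hself : ∀ v : V, v ∉ nb H v := by
      intro v hv
      rw [nb, mem_filter] at hv
      exact H.loopless.irrefl _ hv.2
    have hcard : ∀ v : V, m + 1 ≤ (insert v (nb H v)).card := by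
      intro v
      rw [card_insert_of_notMem (hself v)]
      have := hdeg v
      omega
    have hA : ∀ a, a ∈ insert k (nb H k) → (a = k ∨ H.Adj k a) := by
      intro a ha
      rw [mem_insert, nb, mem_filter] at ha
      rcases ha with ha | ha
      · exact Or.inl ha
      · exact Or.inr ha.2
    have hB : ∀ b, b ∈ insert y (nb H y) → (y = b ∨ H.Adj b y) := by
      intro b hb
      rw [mem_insert, nb, mem_filter] at hb
      rcases hb with hb | hb
      · exact Or.inl hb.symm
      · exact Or.inr hb.2.symm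
    refine ⟨insert k (nb H k), insert y (nb H y), hcard k, hcard y, ?_, ?_, ?_⟩
    · rw [Finset.disjoint_left]
      intro z hz hz'
      exact hcon ⟨z, z, z, hA z hz, Or.inl rfl, Or.inl rfl, hB z hz'⟩
    · intro a ha b hb
      rw [SimpleGraph.compl_adj]
      refine ⟨?_, fun hab => hcon ⟨a, b, b, hA a ha, Or.inr hab, Or.inl rfl, hB b hb⟩⟩
      rintro rfl
      exact hcon ⟨a, a, a, hA a ha, Or.inl rfl, Or.inl rfl, hB a hb⟩
    · intro x hx hx'
      by_contra hc
      rw [not_or] at hc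
      obtain ⟨h1, h2⟩ := hc
      push Not at h1 h2
      obtain ⟨a, ha, ha'⟩ := h1
      obtain ⟨b, hb, hb'⟩ := h2
      have hxa : H.Adj a x := by
        by_contra hn
        apply ha'
        rw [SimpleGraph.compl_adj]
        refine ⟨?_, fun h => hn h.symm⟩
        rintro rfl
        exact hx ha
      have hxb : H.Adj x b := by
        by_contra hn
        apply hb'
        rw [SimpleGraph.compl_adj]
        refine ⟨?_, fun h => hn h⟩
        rintro rfl
        exact hx' hb
      exact hcon ⟨a, x, b, hA a ha, Or.inr hxa, Or.inr hxb, hB b hb⟩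
  obtain ⟨a, x, b, h1, h2, h3, h4⟩ := key
  obtain ⟨K1, hK1, hs1, hm1, hc1⟩ := ext4_step hK hk h1
  obtain ⟨K2, hK2, hs2, hm2, hc2⟩ := ext4_step hK1 hm1 h2
  obtain ⟨K3, hK3, hs3, hm3, hc3⟩ := ext4_step hK2 hm2 h3
  obtain ⟨K4, hK4, hs4, hm4, hc4⟩ := ext4_step hK3 hm3 h4
  exact ⟨K4, hK4, hs1.trans (hs2.trans (hs3.trans hs4)), hm4, by omega⟩

end ZSA
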