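import Pool.Agent.ZSA.STARM

/-! ZSA row STARQ: EGZ in a coset on the star of a vertex. -/

namespace ZSA

open Finset Classical ZST

section

/-- EGZ in a finite cyclic group. -/
theorem starq_egz {V G : Type} [AddCommGroup G] [Finite G] [IsAddCyclic G] (s : Finset V)
    (a : V → G) (hs : 2 * Nat.card G - 1 ≤ s.card) :
    ∃ t ⊆ s, t.card = Nat.card G ∧ ∑ x ∈ t, a x = 0 := by
  classical
  have e := zmodAddCyclicAddEquiv (G := G) inferInstance
  obtain ⟨t, ht, hc, hsum⟩ := ZMod.erdos_ginzburg_ziv (s := s) (fun x => e.symm (a x)) hs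
  refine ⟨t, ht, hc, ?_⟩
  rw [← map_sum] at hsum
  exact (AddEquiv.map_eq_zero_iff e.symm).1 hsum

/-- Several blocks. -/
theorem starq_blocks {V G : Type} [AddCommGroup G] [Finite G] [IsAddCyclic G] (s : Finset V)
    (a : V → G) (k : ℕ) (hs : k * Nat.card G + Nat.card G - 1 ≤ s.card) :
    ∃ t ⊆ s, t.card = k * Nat.card G ∧ ∑ x ∈ t, a x = 0 := by
  classical
  induction k with
  | zero => exact ⟨∅, by simp, by simp, by simp⟩
  | succ k ih =>
    have hpos : 0 < Nat.card G := Nat.card_pos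
    have e1 : (k + 1) * Nat.card G = k * Nat.card G + Nat.card G := by ring
    obtain ⟨t, ht, hc, hsum⟩ := ih (by omega)
    have h2 : (s \ t).card = s.card - t.card := card_sdiff_of_subset ht
    obtain ⟨t', ht', hc', hsum'⟩ := starq_egz (s \ t) a (by omega)
    have hd : Disjoint t t' :=
      disjoint_of_subset_right ht' disjoint_sdiff
    refine ⟨t ∪ t', union_subset ht (ht'.trans sdiff_subset), ?_, ?_⟩
    · rw [card_union_of_disjoint hd, hc, hc', e1]
    · rw [sum_union hd, hsum, hsum', add_zero]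

variable {V : Type} [Fintype V] [DecidableEq V] {m : ℕ}

/-- ROW STARQ. EGZ in a coset on the star of `v`. -/
theorem star_coset [NeZero m] {H : SimpleGraph V} {w : V → V → ZMod m} (hz : ZF m H w) (v : V)
    (Λ : AddSubgroup (ZMod m)) (q : ZMod m) :
    ((nb H v).filter (fun x => w v x - q ∈ Λ)).card + 2 ≤ m + Nat.card Λ := by
  classical
  by_contra hcon
  push Not at hcon
  have hpos := Nat.pos_of_ne_zero (NeZero.ne m)
  have hh : 0 < Nat.card Λ := Nat.card_pos
  obtain ⟨k, hk⟩ : Nat.card Λ ∣ m := by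
    have := AddSubgroup.card_addSubgroup_dvd_card Λ
    rwa [Nat.card_zmod] at this
  have hk' : k * Nat.card Λ = m := (mul_comm _ _).trans hk.symm
  set s := (nb H v).filter (fun x => w v x - q ∈ Λ) with hs
  let a : V → Λ := fun x => if h : w v x - q ∈ Λ then ⟨w v x - q, h⟩ else 0
  obtain ⟨t, ht, hc, hsum⟩ := starq_blocks s a k (by omega)
  rw [hk'] at hc
  refine starm_no_sum hz v t (ht.trans (filter_subset _ _)) hc ?_
  have h1 : ∑ x ∈ t, (w v x - q) = 0 := by
    have h2 : ((∑ x ∈ t, a x : Λ) : ZMod m) = ∑ x ∈ t, (w v x - q) := by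
      rw [AddSubgroup.val_finsetSum]
      refine sum_congr rfl fun x hx => ?_
      have h3 : w v x - q ∈ Λ := (mem_filter.1 (ht hx)).2
      show ((if h : w v x - q ∈ Λ then (⟨w v x - q, h⟩ : Λ) else 0 : Λ) : ZMod m) = _
      rw [dif_pos h3]
    rw [← h2, hsum]
    rfl
  rw [sum_sub_distrib, sum_const, hc, nsmul_eq_mul, ZMod.natCast_self, zero_mul, sub_zero] at h1
  exact h1

end

end ZSA
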