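import Pool.Agent.ZSA.Defs
import Pool.Agent.ZSA.STARQ

/-!
# ZSA, row FDEG: degrees in the flat case
-/

namespace ZSA

open Finset Classical ZST

set_option linter.unusedSectionVars false

variable {V : Type} [Fintype V] [DecidableEq V] {m : ℕ}

private theorem fdeg_div {m h : ℕ} (h2 : 2 ≤ h) (hd : h ∣ m) (hm : 2 * h ≤ m) :
    2 * (h + m / h) ≤ m + 4 := by
  obtain ⟨k, rfl⟩ := hd
  have hk : 2 ≤ k := by
    by_contra hc
    have : k ≤ 1 := by omega
    have : h * k ≤ h * 1 := Nat.mul_le_mul_left _ this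
    omega
  rw [Nat.mul_div_cancel_left _ (by omega)]
  obtain ⟨a, rfl⟩ := Nat.exists_eq_add_of_le h2
  obtain ⟨c, rfl⟩ := Nat.exists_eq_add_of_le hk
  nlinarith [Nat.zero_le (a * c)]

/-- ROW FDEG. Uses STARQ. -/
theorem flat_deg (N : ℕ) [NeZero m] (hB : Big (1000 + N) m) {H : SimpleGraph V}
    {w : V → V → ZMod m} (h : Kd m H w) (K0 : Finset V) (hK0 : Core H w K0)
    (hflat : Flat N H w K0) (hN : K0.card + 4 ≤ N) : ∀ v, 100 * (nb H v).card ≤ 151 * m := by
  intro v
  obtain ⟨K, hK, hKK, hv, hKc⟩ := h.ext K0 hK0 v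
  obtain ⟨Λ, q, hb, ht, hex, _⟩ := hflat K hK hKK (by omega)
  have hsub : nb H v ⊆ K ∪ (exq H w K Λ q ∪ (nb H v).filter (fun x => w v x - q ∈ Λ)) := by
    intro x hx
    by_cases hxK : x ∈ K
    · exact mem_union_left _ hxK
    · apply mem_union_right
      by_cases hl : w v x - q ∈ Λ
      · exact mem_union_right _ (mem_filter.2 ⟨hx, hl⟩)
      · apply mem_union_left
        rw [exq, mem_filter]
        refine ⟨mem_univ _, hxK, w v x, ?_, hl⟩
        refine (@Finset.mem_image _ _ (fun a b => Classical.propDecidable (a = b)) _ _ _).2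
          ⟨v, ?_, rfl⟩
        rw [mem_filter]
        rw [nb, mem_filter] at hx
        exact ⟨hv, hx.2⟩
  have h1 := card_le_card hsub
  have h2 := card_union_le K (exq H w K Λ q ∪ (nb H v).filter (fun x => w v x - q ∈ Λ))
  have h3 := card_union_le (exq H w K Λ q) ((nb H v).filter (fun x => w v x - q ∈ Λ))
  have h4 := star_coset h.zf v Λ q
  have hdvd : Nat.card Λ ∣ m := by
    have := AddSubgroup.card_addSubgroup_dvd_card Λ
    rwa [Nat.card_zmod] at this
  have hmpos : 0 < m := Nat.pos_of_ne_zero (NeZero.ne m)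
  have hne1 : Nat.card Λ ≠ 1 := by
    intro hc
    exact hb (AddSubgroup.card_eq_one.1 hc)
  have hne0 : Nat.card Λ ≠ 0 := by
    intro hc
    rw [hc, zero_dvd_iff] at hdvd
    omega
  have hnem : Nat.card Λ ≠ m := by
    intro hc
    apply ht
    apply AddSubgroup.eq_top_of_card_eq
    rw [hc, Nat.card_zmod]
  have hhalf : 2 * Nat.card Λ ≤ m := by
    obtain ⟨k, hk⟩ := hdvd
    have : k ≠ 0 := by
      rintro rfl
      omega
    have : k ≠ 1 := by
      rintro rfl
      rw [mul_one] at hk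
      exact hnem hk.symm
    have : 2 ≤ k := by omega
    calc 2 * Nat.card Λ = Nat.card Λ * 2 := by ring
      _ ≤ Nat.card Λ * k := Nat.mul_le_mul_left _ this
      _ = m := hk.symm
  have h5 := fdeg_div (by omega) hdvd hhalf
  have h6 : (1000 + N) * Tm m (Nat.card Λ) ≤ (1000 + N) * (m / Nat.card Λ) + m :=
    hB.Tm_le _
  have h7 : N ≤ m / 1000000 := by
    have := hB.N_le
    rw [Nat.le_div_iff_mul_le (by norm_num)]
    calc N * 1000000 ≤ (1000 + N) ^ 4 := by nlinarith [Nat.zero_le N, Nat.zero_le (N^2), Nat.zero_le (N^3)]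
      _ ≤ m := this
  have h8 : 1000 * (Tm m (Nat.card Λ) - m / Nat.card Λ) ≤ m := by
    have h9 : (1000 + N) * (Tm m (Nat.card Λ) - m / Nat.card Λ) ≤ m := by
      rw [Nat.mul_sub]
      omega
    calc 1000 * (Tm m (Nat.card Λ) - m / Nat.card Λ)
        ≤ (1000 + N) * (Tm m (Nat.card Λ) - m / Nat.card Λ) :=
          Nat.mul_le_mul_right _ (by omega)
      _ ≤ m := h9
  have h10 := hB.h4
  omega

end ZSA
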