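import Pool.Agent.ZSA.Defs

/-!
# ZSA, row FF: two flat structures for complementary graphs are impossible
-/

namespace ZSA

open Finset Classical ZST

set_option linter.unusedSectionVars false

variable {V : Type} [Fintype V] [DecidableEq V] {m : ℕ}

private structure FFD (m : ℕ) (H : SimpleGraph V) (Z Z' C E : Finset V) : Prop where
  dZ : Disjoint Z Z'
  dC : Disjoint Z C
  dC' : Disjoint Z' C
  hE : E ⊆ Z ∪ Z'
  hn : 100 * Fintype.card V ≤ 100 * (Z.card + Z'.card + C.card) + 2 * m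
  hCE : 100 * (C.card + E.card) ≤ 51 * m
  a : ∀ y ∈ Z \ E, 100 * (nb H y ∩ Z').card ≤ m
  a' : ∀ y ∈ Z' \ E, 100 * (nb H y ∩ Z).card ≤ m
  ne : (Z \ E).Nonempty
  ne' : (Z' \ E).Nonempty

private theorem FFD.symm {H : SimpleGraph V} {Z Z' C E : Finset V} (h : FFD m H Z Z' C E) :
    FFD m H Z' Z C E where
  dZ := h.dZ.symm
  dC := h.dC'
  dC' := h.dC
  hE := by rw [union_comm]; exact h.hE
  hn := by have := h.hn; omega
  hCE := h.hCE
  a := h.a'
  a' := h.a
  ne := h.ne'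
  ne' := h.ne

private theorem FFD.rest {H : SimpleGraph V} {Z Z' C E : Finset V} (h : FFD m H Z Z' C E) :
    100 * (univ \ (Z ∪ Z' ∪ C)).card ≤ 2 * m := by
  have h1 : (Z ∪ Z' ∪ C).card = Z.card + Z'.card + C.card := by
    rw [card_union_of_disjoint (disjoint_union_left.2 ⟨h.dC, h.dC'⟩),
      card_union_of_disjoint h.dZ]
  have h2 : (univ \ (Z ∪ Z' ∪ C)).card + (Z ∪ Z' ∪ C).card = Fintype.card V := by
    rw [card_sdiff_add_card_eq_card (subset_univ _), card_univ]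
  have := h.hn
  omega

private theorem ff_deg (H : SimpleGraph V) (v : V) :
    (nb H v).card + (nb Hᶜ v).card + 1 = Fintype.card V := by
  have h1 : Disjoint (nb H v) (nb Hᶜ v) := by
    rw [Finset.disjoint_left]
    intro x hx hx'
    simp only [nb, mem_filter, mem_univ, true_and, SimpleGraph.compl_adj] at hx hx'
    exact hx'.2 hx
  have h2 : insert v (nb H v ∪ nb Hᶜ v) = univ := by
    ext x
    simp only [nb, mem_insert, mem_union, mem_filter, mem_univ, true_and, iff_true,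
      SimpleGraph.compl_adj]
    by_cases hx : x = v
    · exact Or.inl hx
    · by_cases hxv : H.Adj v x
      · exact Or.inr (Or.inl hxv)
      · exact Or.inr (Or.inr ⟨fun h => hx h.symm, hxv⟩)
  have h3 : v ∉ nb H v ∪ nb Hᶜ v := by
    simp [nb]
  rw [← card_univ, ← h2, card_insert_of_notMem h3, card_union_of_disjoint h1]

private theorem FFD.size {H : SimpleGraph V} {Z Z' C E : Finset V} (h : FFD m H Z Z' C E)
    (hd : ∀ v, 149 * m ≤ 100 * (nb H v).card + 200) :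
    146 * m ≤ 100 * Z.card + 100 * C.card + 200 := by
  obtain ⟨y, hy⟩ := h.ne
  have h1 : nb H y ⊆ Z ∪ C ∪ (nb H y ∩ Z') ∪ (univ \ (Z ∪ Z' ∪ C)) := by
    intro x hx
    simp only [mem_union, mem_inter, mem_sdiff, mem_univ, true_and]
    tauto
  have h2 := card_le_card h1
  have h3 := card_union_le (Z ∪ C ∪ (nb H y ∩ Z')) (univ \ (Z ∪ Z' ∪ C))
  have h4 := card_union_le (Z ∪ C) (nb H y ∩ Z')
  have h5 := card_union_le Z C
  have h6 := h.a y hy
  have h7 := h.rest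
  have h8 := hd y
  omega

private theorem ff_cell {H : SimpleGraph V} {Z Z' C E F F' C' E' : Finset V}
    (h : FFD m H Z Z' C E) (h' : FFD m Hᶜ F F' C' E') (y : V) (hy : y ∈ Z ∩ F)
    (hE : y ∉ E ∪ E') : 100 * (Z' ∩ F').card ≤ 2 * m := by
  rw [mem_inter] at hy
  rw [mem_union, not_or] at hE
  have h1 := h.a y (mem_sdiff.2 ⟨hy.1, hE.1⟩)
  have h2 := h'.a y (mem_sdiff.2 ⟨hy.2, hE.2⟩)
  have h3 : Z' ∩ F' ⊆ (nb H y ∩ Z') ∪ (nb Hᶜ y ∩ F') := by
    intro x hx
    rw [mem_inter] at hx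
    have hxy : x ≠ y := by
      rintro rfl
      exact (Finset.disjoint_left.1 h.dZ) hy.1 hx.1
    rw [mem_union, mem_inter, mem_inter]
    by_cases hadj : H.Adj y x
    · left
      exact ⟨by simp [nb, hadj], hx.1⟩
    · right
      refine ⟨?_, hx.2⟩
      simp only [nb, mem_filter, mem_univ, true_and, SimpleGraph.compl_adj]
      exact ⟨fun h => hxy h.symm, hadj⟩
  have h4 := card_le_card h3
  have h5 := card_union_le (nb H y ∩ Z') (nb Hᶜ y ∩ F')
  omega

private theorem ff_sub {H : SimpleGraph V} {Z Z' C E F F' C' E' : Finset V}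
    (h : FFD m H Z Z' C E) (h' : FFD m Hᶜ F F' C' E') (hb : 2 * m < 100 * (Z' ∩ F').card) :
    Z ∩ F ⊆ E ∪ E' := by
  intro y hy
  by_contra hE
  have := ff_cell h h' y hy hE
  omega

private theorem ff_case (hm : 10 ^ 6 ≤ m) {H : SimpleGraph V} {Z Z' C E F F' C' E' : Finset V}
    (h : FFD m H Z Z' C E) (h' : FFD m Hᶜ F F' C' E')
    (hd : ∀ v, 149 * m ≤ 100 * (nb H v).card + 200)
    (hd' : ∀ v, 149 * m ≤ 100 * (nb Hᶜ v).card + 200)
    (h0 : 100 * (Z ∩ F).card ≤ 2 * m) : False := by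
  have hZ := h.size hd
  have hF := h'.size hd'
  have hr := h.rest
  have hr' := h'.rest
  have c1 := h.hCE
  have c2 := h'.hCE
  have s1 : Z ⊆ (Z ∩ F) ∪ (Z ∩ F') ∪ C' ∪ (univ \ (F ∪ F' ∪ C')) := by
    intro x hx
    simp only [mem_union, mem_inter, mem_sdiff, mem_univ, true_and]
    tauto
  have s2 : F ⊆ (Z ∩ F) ∪ (Z' ∩ F) ∪ C ∪ (univ \ (Z ∪ Z' ∪ C)) := by
    intro x hx
    simp only [mem_union, mem_inter, mem_sdiff, mem_univ, true_and]
    tauto
  have t1 := card_le_card s1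
  have t2 := card_union_le ((Z ∩ F) ∪ (Z ∩ F') ∪ C') (univ \ (F ∪ F' ∪ C'))
  have t3 := card_union_le ((Z ∩ F) ∪ (Z ∩ F')) C'
  have t4 := card_union_le (Z ∩ F) (Z ∩ F')
  have u1 := card_le_card s2
  have u2 := card_union_le ((Z ∩ F) ∪ (Z' ∩ F) ∪ C) (univ \ (Z ∪ Z' ∪ C))
  have u3 := card_union_le ((Z ∩ F) ∪ (Z' ∩ F)) C
  have u4 := card_union_le (Z ∩ F) (Z' ∩ F)
  have b1 : 2 * m < 100 * (Z ∩ F').card := by omega
  have b2 : 2 * m < 100 * (Z' ∩ F).card := by omega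
  have e1 : Z' ∩ F ⊆ E ∪ E' := ff_sub h.symm h' b1
  have e2 : Z ∩ F' ⊆ E ∪ E' := ff_sub h h'.symm b2
  have hdis : Disjoint (Z ∩ F') (Z' ∩ F) :=
    disjoint_of_subset_left inter_subset_left (disjoint_of_subset_right inter_subset_left h.dZ)
  have hle := card_le_card (union_subset e2 e1)
  rw [card_union_of_disjoint hdis] at hle
  have hle2 := card_union_le E E'
  omega

/-- ROW FF. -/
theorem flat_flat (hm : 10 ^ 6 ≤ m) {H : SimpleGraph V} (hn : 3 * m - 1 ≤ Fintype.card V)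
    (h : FLS m H) (h' : FLS m Hᶜ) : False := by
  obtain ⟨hdeg, Z, Z', C, E, q1, q2, q3, q4, q5, q6, q7, q8, q9, q10⟩ := h
  obtain ⟨hdeg', F, F', C', E', r1, r2, r3, r4, r5, r6, r7, r8, r9, r10⟩ := h'
  have hD : FFD m H Z Z' C E := ⟨q1, q2, q3, q4, q5, q6, q7, q8, q9, q10⟩
  have hD' : FFD m Hᶜ F F' C' E' := ⟨r1, r2, r3, r4, r5, r6, r7, r8, r9, r10⟩
  have hd : ∀ v, 149 * m ≤ 100 * (nb H v).card + 200 := by
    intro v
    have h1 := ff_deg H v
    have h2 := hdeg' v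
    omega
  have hd' : ∀ v, 149 * m ≤ 100 * (nb Hᶜ v).card + 200 := by
    intro v
    have h1 := ff_deg H v
    have h2 := hdeg v
    omega
  have g1 : 2 * m < 100 * (Z ∩ F).card := by
    by_contra hc
    exact ff_case hm hD hD' hd hd' (not_lt.1 hc)
  have g2 : 2 * m < 100 * (Z ∩ F').card := by
    by_contra hc
    exact ff_case hm hD hD'.symm hd hd' (not_lt.1 hc)
  have g3 : 2 * m < 100 * (Z' ∩ F).card := by
    by_contra hc
    exact ff_case hm hD.symm hD' hd hd' (not_lt.1 hc)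
  have g4 : 2 * m < 100 * (Z' ∩ F').card := by
    by_contra hc
    exact ff_case hm hD.symm hD'.symm hd hd' (not_lt.1 hc)
  have e1 : Z ∩ F ⊆ E ∪ E' := ff_sub hD hD' g4
  have e2 : Z ∩ F' ⊆ E ∪ E' := ff_sub hD hD'.symm g3
  have e3 : Z' ∩ F ⊆ E ∪ E' := ff_sub hD.symm hD' g2
  have e4 : Z' ∩ F' ⊆ E ∪ E' := ff_sub hD.symm hD'.symm g1
  have hu : (univ : Finset V) ⊆ (E ∪ E') ∪ (C ∪ C') ∪
      ((univ \ (Z ∪ Z' ∪ C)) ∪ (univ \ (F ∪ F' ∪ C'))) := by
    intro x _
    by_cases hx : x ∈ Z ∪ Z' ∪ C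
    · by_cases hx' : x ∈ F ∪ F' ∪ C'
      · refine mem_union_left _ ?_
        rcases mem_union.1 hx with hx | hx
        · rcases mem_union.1 hx' with hx' | hx'
          · refine mem_union_left _ ?_
            rcases mem_union.1 hx with hx | hx <;> rcases mem_union.1 hx' with hx' | hx'
            · exact e1 (mem_inter.2 ⟨hx, hx'⟩)
            · exact e2 (mem_inter.2 ⟨hx, hx'⟩)
            · exact e3 (mem_inter.2 ⟨hx, hx'⟩)
            · exact e4 (mem_inter.2 ⟨hx, hx'⟩)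
          · exact mem_union_right _ (mem_union_right _ hx')
        · exact mem_union_right _ (mem_union_left _ hx)
      · exact mem_union_right _ (mem_union_right _ (mem_sdiff.2 ⟨mem_univ _, hx'⟩))
    · exact mem_union_right _ (mem_union_left _ (mem_sdiff.2 ⟨mem_univ _, hx⟩))
  have t0 := card_le_card hu
  rw [card_univ] at t0
  have t1 := card_union_le ((E ∪ E') ∪ (C ∪ C'))
    ((univ \ (Z ∪ Z' ∪ C)) ∪ (univ \ (F ∪ F' ∪ C')))
  have t2 := card_union_le (E ∪ E') (C ∪ C')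
  have t3 := card_union_le E E'
  have t4 := card_union_le C C'
  have t5 := card_union_le (univ \ (Z ∪ Z' ∪ C)) (univ \ (F ∪ F' ∪ C'))
  have hr := hD.rest
  have hr' := hD'.rest
  omega

end ZSA
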