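import Pool.Agent.ZSA.Defs

/-! Row FILL of board zsa_modules (MP_8ab2db_co). -/

namespace ZSA

open Finset Classical ZST

private theorem fill_sum_mem {W G : Type} [AddCommGroup G] (H : AddSubgroup G) (q : G)
    (L : Finset W) (f : W → G) (hf : ∀ x ∈ L, f x - q ∈ H) :
    ∑ x ∈ L, f x - L.card • q ∈ H := by
  have h : ∑ x ∈ L, f x - L.card • q = ∑ x ∈ L, (f x - q) := by
    rw [sum_sub_distrib, sum_const]
  rw [h]
  exact AddSubgroup.sum_mem H hf

/-- ROW FILL. -/
theorem fill {W G : Type} [AddCommGroup G] (A : W → Finset G) (X : Finset W)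
    (H : AddSubgroup G) (q : G) (hA : ∀ x ∈ X, (A x).Nonempty ∧ ∀ a ∈ A x, a - q ∈ H)
    (U : Finset W) (hU : U ⊆ X) (k l : ℕ) (c : G) (hst : ∀ t, t - c ∈ H → Rc A U k t)
    (hk : k ≤ l) (hl : l + U.card ≤ X.card + k) : ∀ t, t - l • q ∈ H → Rc A X l t := by
  intro t ht
  have hc : c - k • q ∈ H := by
    obtain ⟨L, hL, h1, f, h2, h3⟩ := hst c (by simp)
    rw [← h3, ← h1]
    exact fill_sum_mem H q L f (fun x hx => (hA x (hU (hL hx))).2 _ (h2 x hx))
  have hcard : l - k ≤ (X \ U).card := by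
    rw [card_sdiff_of_subset hU]; omega
  obtain ⟨L', hL', hc'⟩ := exists_subset_card_eq hcard
  have hg : ∀ x : W, ∃ a : G, x ∈ X → a ∈ A x := by
    intro x
    by_cases hx : x ∈ X
    · obtain ⟨a, ha⟩ := (hA x hx).1
      exact ⟨a, fun _ => ha⟩
    · exact ⟨0, fun h => absurd h hx⟩
  choose g hg using hg
  have hLX : ∀ x ∈ L', x ∈ X := fun x hx => (mem_sdiff.1 (hL' hx)).1
  have hR : Rc A (X \ U) (l - k) (∑ x ∈ L', g x) :=
    ⟨L', hL', hc', g, fun x hx => hg x (hLX x hx), rfl⟩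
  have hs : ∑ x ∈ L', g x - (l - k) • q ∈ H := by
    rw [← hc']
    exact fill_sum_mem H q L' g (fun x hx => (hA x (hLX x hx)).2 _ (hg x (hLX x hx)))
  have h1 : Rc A U k (t - ∑ x ∈ L', g x) := by
    apply hst
    have e : t - ∑ x ∈ L', g x - c =
        (t - l • q) - (∑ x ∈ L', g x - (l - k) • q) - (c - k • q) := by
      have e2 : l • q = (l - k) • q + k • q := by
        rw [← add_nsmul, Nat.sub_add_cancel hk]
      rw [e2]; abel
    rw [e]
    exact H.sub_mem (H.sub_mem ht hs) hc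
  have h2 := Rc.add' h1 hR disjoint_sdiff
  rw [union_sdiff_of_subset hU, Nat.add_sub_cancel' hk, sub_add_cancel] at h2
  exact h2

end ZSA
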