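import Pool.Agent.ZSA.Defs
import Pool.Agent.ZST.CONVB

/-! Row FINM: `K_{4m}` always has a zero-sum star, for every `m`. -/

namespace ZSA

open Finset Classical ZST

private theorem FINM_star {V G : Type} [DecidableEq V] [AddCommGroup G] {E : V → V → Prop}
    {w : V → V → G} (v : V) (L : Finset V) (hv : v ∉ L) (hE : ∀ x ∈ L, E v x) :
    TR E w (insert v L) (∑ x ∈ L, w v x) := by
  induction L using Finset.induction_on with
  | empty =>
    rw [Finset.sum_empty, insert_empty_eq]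
    exact TR.single v
  | insert a s ha ih =>
    rw [Finset.insert_comm, Finset.sum_insert ha, add_comm]
    have hav : a ≠ v := fun h => hv (by rw [← h]; exact Finset.mem_insert_self a s)
    apply TR.add (ih (fun h => hv (Finset.mem_insert_of_mem h))
      (fun x hx => hE x (Finset.mem_insert_of_mem hx))) (Finset.mem_insert_self v s) _
      (hE a (Finset.mem_insert_self a s))
    intro h
    rcases Finset.mem_insert.1 h with h | h
    · exact hav h
    · exact ha h

private theorem FINM_kind (p n : ℕ) (W : Sym2 (Fin n) → ZMod p)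
    (P : Sym2 (Fin n) → Prop) (v : Fin n) (Y : Finset (Fin n))
    (hY : ∀ x ∈ Y, x ≠ v ∧ P s(v, x)) (h : 2 * p - 1 ≤ Y.card) :
    ∃ T : (⊤ : SimpleGraph (Fin n)).Subgraph, IsCopy p n T ∧ (∀ e ∈ T.edgeSet, P e) ∧
      ∑ᶠ e ∈ T.edgeSet, W e = 0 := by
  obtain ⟨L, hL, hLc, hL0⟩ := ZMod.erdos_ginzburg_ziv (fun x : Fin n => W s(v, x)) h
  have hv : v ∉ L := fun h1 => (hY _ (hL h1)).1 rfl
  have hT := FINM_star (E := fun u x => P s(u, x)) (w := fun u x => W s(u, x)) v L hv
    (fun x hx => (hY x (hL hx)).2)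
  have hc : (insert v L).card = p + 1 := by rw [Finset.card_insert_of_notMem hv, hLc]
  obtain ⟨T, hT1, hT2, hT3⟩ := copy_of_tr hc hT
  refine ⟨T, hT1, ?_, by rw [hT3]; exact hL0⟩
  intro e he
  induction e using Sym2.ind with
  | _ x y =>
    rw [SimpleGraph.Subgraph.mem_edgeSet] at he
    rcases hT2 x y he with h1 | h1
    · exact h1
    · rw [Sym2.eq_swap]; exact h1

/-- ROW FINM. As `ZST.hasZero_large`. -/
theorem hasZero_large' (m : ℕ) (hm : 1 ≤ m) : HasZero m (4 * m) := by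
  intro c
  have hpos : 0 < 4 * m := by omega
  let v : Fin (4 * m) := ⟨0, hpos⟩
  have hcov : (univ.filter (fun x : Fin (4 * m) => x ≠ v ∧ ∃ a, c s(v, x) = Sum.inl a)) ∪
      (univ.filter (fun x : Fin (4 * m) => x ≠ v ∧ ∃ a, c s(v, x) = Sum.inr a)) =
      univ.erase v := by
    ext x
    simp only [Finset.mem_union, Finset.mem_filter, Finset.mem_univ, true_and,
      Finset.mem_erase, and_true]
    constructor
    · rintro (⟨h, -⟩ | ⟨h, -⟩) <;> exact h
    · intro h
      rcases hcx : c s(v, x) with a | a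
      · exact Or.inl ⟨h, a, rfl⟩
      · exact Or.inr ⟨h, a, rfl⟩
  have hcard := Finset.card_union_le
    (univ.filter (fun x : Fin (4 * m) => x ≠ v ∧ ∃ a, c s(v, x) = Sum.inl a))
    (univ.filter (fun x : Fin (4 * m) => x ≠ v ∧ ∃ a, c s(v, x) = Sum.inr a))
  rw [hcov, Finset.card_erase_of_mem (Finset.mem_univ v), Finset.card_univ,
    Fintype.card_fin] at hcard
  have hor : 2 * m - 1 ≤
      (univ.filter (fun x : Fin (4 * m) => x ≠ v ∧ ∃ a, c s(v, x) = Sum.inl a)).card ∨
      2 * m - 1 ≤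
      (univ.filter (fun x : Fin (4 * m) => x ≠ v ∧ ∃ a, c s(v, x) = Sum.inr a)).card := by
    omega
  rcases hor with h | h
  · obtain ⟨T, h1, h2, h3⟩ := FINM_kind m (4 * m)
      (fun e => Sum.elim id (fun _ => (0 : ZMod m)) (c e)) (fun e => ∃ a, c e = Sum.inl a) v _
      (fun x hx => (Finset.mem_filter.1 hx).2) h
    exact ⟨T, h1, Or.inl ⟨h2, h3⟩⟩
  · obtain ⟨T, h1, h2, h3⟩ := FINM_kind m (4 * m)
      (fun e => Sum.elim (fun _ => (0 : ZMod m)) id (c e)) (fun e => ∃ a, c e = Sum.inr a) v _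
      (fun x hx => (Finset.mem_filter.1 hx).2) h
    exact ⟨T, h1, Or.inr ⟨h2, h3⟩⟩

end ZSA
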