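import Pool.Agent.ZSA.Defs

/-!
# ZSA: row PHN
-/

namespace ZSA

open Finset Classical ZST

/-- ROW PHN. -/
theorem phi_nonempty {V : Type} [Fintype V] [DecidableEq V] {m : ℕ}
    {H : SimpleGraph V} {w : V → V → ZMod m} (K : Finset V)
    (hK : Core H w K) (M : Set (ZMod m)) (hQ : ¬ QC H w K M) : (Phi H w K M).Nonempty := by
  have hne : K.Nonempty := by
    obtain ⟨s, hs⟩ := hK
    cases hs with
    | single v => exact ⟨v, by simp⟩
    | add h hu hv he => exact ⟨_, mem_insert_self _ _⟩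
  obtain ⟨k0, hk0⟩ := hne
  have hP : (K.powerset.filter (fun S => k0 ∈ S ∧
      ∃ s, TR (fun u v => H.Adj u v ∧ w u v ∈ M) w S s)).Nonempty := by
    refine ⟨{k0}, ?_⟩
    rw [mem_filter, mem_powerset]
    exact ⟨by simpa using hk0, by simp, 0, TR.single k0⟩
  obtain ⟨S, hS, hmax⟩ := exists_max_image _ card hP
  rw [mem_filter, mem_powerset] at hS
  obtain ⟨hSK, hkS, s, hs⟩ := hS
  refine ⟨S, ?_⟩
  unfold Phi
  rw [mem_filter, mem_powerset]
  refine ⟨hSK, ⟨k0, hkS⟩, ?_, ?_⟩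
  · rintro rfl
    exact hQ ⟨s, hs⟩
  · intro u hu v hv hvS he
    have h1 := hmax (insert v S) (by
      rw [mem_filter, mem_powerset]
      exact ⟨insert_subset hv hSK, mem_insert_of_mem hkS, _, TR.add hs hu hvS he⟩)
    rw [card_insert_of_notMem hvS] at h1
    omega

end ZSA
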