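import Pool.Agent.ZSA.Defs

/-!
# ZSA, row PHR: restriction of the closed sets
-/

set_option autoImplicit false

namespace ZSA

open Finset Classical ZST

variable {V : Type} [Fintype V] [DecidableEq V] {m : ℕ}

private theorem phr_mem {H : SimpleGraph V} {w : V → V → ZMod m} {K : Finset V}
    {M : Set (ZMod m)} {P : Finset V} : P ∈ Phi H w K M ↔ P ⊆ K ∧ P.Nonempty ∧ P ≠ K ∧
      ∀ u ∈ P, ∀ v ∈ K, v ∉ P → ¬ (H.Adj u v ∧ w u v ∈ M) := by
  simp only [Phi, mem_filter, mem_powerset]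

/-- ROW PHR. -/
theorem phi_restrict {H : SimpleGraph V} {w : V → V → ZMod m} (hsym : ∀ u v, w u v = w v u)
    (K : Finset V) (M M' : Set (ZMod m)) (hM : M ⊆ M') (y : V) (hy : y ∉ K)
    (hk : ∃ k ∈ K, H.Adj k y ∧ w k y ∈ M) :
    (Phi H w (insert y K) M').card ≤ (Phi H w K M).card ∧
    ((Phi H w (insert y K) M').card = (Phi H w K M).card →
      ∀ P ∈ Phi H w K M, ∃ P' ∈ Phi H w (insert y K) M', P' ∩ K = P) := by
  obtain ⟨k, hkK, hky, hkM⟩ := hk
  have hiff : ∀ P' ∈ Phi H w (insert y K) M', (k ∈ P' ↔ y ∈ P') := by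
    intro P' hP'
    rw [phr_mem] at hP'
    obtain ⟨h1, h2, h3, h4⟩ := hP'
    constructor
    · intro h
      by_contra hn
      exact h4 k h y (mem_insert_self _ _) hn ⟨hky, hM hkM⟩
    · intro h
      by_contra hn
      refine h4 y h k (mem_insert_of_mem hkK) hn ⟨hky.symm, ?_⟩
      rw [hsym]
      exact hM hkM
  have hmap : ∀ P' ∈ Phi H w (insert y K) M', P' ∩ K ∈ Phi H w K M := by
    intro P' hP'
    have hi := hiff P' hP'
    rw [phr_mem] at hP' ⊢
    obtain ⟨h1, ⟨x, hx⟩, h3, h4⟩ := hP'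
    refine ⟨inter_subset_right, ?_, ?_, ?_⟩
    · rcases mem_insert.1 (h1 hx) with rfl | hxK
      · exact ⟨k, mem_inter.2 ⟨hi.2 hx, hkK⟩⟩
      · exact ⟨x, mem_inter.2 ⟨hx, hxK⟩⟩
    · intro he
      apply h3
      have hKP : K ⊆ P' := by
        intro z hz
        rw [← he] at hz
        exact (mem_inter.1 hz).1
      refine Subset.antisymm h1 ?_
      intro z hz
      rcases mem_insert.1 hz with rfl | hzK
      · exact hi.1 (hKP hkK)
      · exact hKP hzK
    · intro u hu v hv hvP hE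
      refine h4 u (mem_inter.1 hu).1 v (mem_insert_of_mem hv) ?_ ⟨hE.1, hM hE.2⟩
      intro hvP'
      exact hvP (mem_inter.2 ⟨hvP', hv⟩)
  have hinj : Set.InjOn (fun P' => P' ∩ K) (Phi H w (insert y K) M' : Set (Finset V)) := by
    intro P1 hP1 P2 hP2 he
    have he' : P1 ∩ K = P2 ∩ K := he
    have i1 := hiff P1 hP1
    have i2 := hiff P2 hP2
    have s1 := (phr_mem.1 (mem_coe.1 hP1)).1
    have s2 := (phr_mem.1 (mem_coe.1 hP2)).1
    have hkk : k ∈ P1 ↔ k ∈ P2 := by
      have := Finset.ext_iff.1 he' k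
      simpa only [mem_inter, hkK, and_true] using this
    ext z
    constructor
    · intro hz
      rcases mem_insert.1 (s1 hz) with rfl | hzK
      · exact i2.1 (hkk.1 (i1.2 hz))
      · have : z ∈ P1 ∩ K := mem_inter.2 ⟨hz, hzK⟩
        rw [he'] at this
        exact (mem_inter.1 this).1
    · intro hz
      rcases mem_insert.1 (s2 hz) with rfl | hzK
      · exact i1.1 (hkk.2 (i2.2 hz))
      · have : z ∈ P2 ∩ K := mem_inter.2 ⟨hz, hzK⟩
        rw [← he'] at this
        exact (mem_inter.1 this).1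
  have himg : (Phi H w (insert y K) M').image (fun P' => P' ∩ K) ⊆ Phi H w K M := by
    intro P hP
    obtain ⟨P', hP', rfl⟩ := mem_image.1 hP
    exact hmap P' hP'
  have hcard : ((Phi H w (insert y K) M').image (fun P' => P' ∩ K)).card =
      (Phi H w (insert y K) M').card := card_image_of_injOn hinj
  refine ⟨hcard ▸ card_le_card himg, ?_⟩
  intro he P hP
  have heq := eq_of_subset_of_card_le himg (by rw [hcard, he])
  rw [← heq] at hP
  obtain ⟨P', hP', h⟩ := mem_image.1 hP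
  exact ⟨P', hP', h⟩

end ZSA
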