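import Pool.Agent.ZSA.Defs
import Pool.Agent.ZSA.PHN
import Pool.Agent.ZSA.PHR

/-!
# ZSA: row FLSTR, the structure of the flat case
-/

namespace ZSA

open Finset Classical ZST

section

variable {V : Type} [Fintype V] [DecidableEq V] {m : ℕ}

/-- the outside vertices which see both `P` and `L \ P` -/
private noncomputable def cr (H : SimpleGraph V) (L P : Finset V) : Finset V :=
  univ.filter (fun x => x ∉ L ∧ (∃ p ∈ P, H.Adj p x) ∧ ∃ q ∈ L, q ∉ P ∧ H.Adj q x)

/-- the outside vertices which see `P` but not `L \ P` -/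
private noncomputable def zz (H : SimpleGraph V) (L P : Finset V) : Finset V :=
  univ.filter (fun x => x ∉ L ∧ (∃ p ∈ P, H.Adj p x) ∧ ∀ q ∈ L, q ∉ P → ¬ H.Adj q x)

/-- the state of the walk -/
private structure St (N : ℕ) (H : SimpleGraph V) (w : V → V → ZMod m) (K : Finset V) (t : ℕ)
    (L P : Finset V) : Prop where
  core : Core H w L
  sub : K ⊆ L
  card : L.card ≤ K.card + t
  stable : Stable N H w (60 - t) L
  phi : P ∈ Phi H w L (MK N H w L)
  big : t * m ≤ 100 * (cr H L P).card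

private theorem mk_mono {N : ℕ} {H : SimpleGraph V} {w : V → V → ZMod m} {L L' : Finset V}
    (h : L ⊆ L') : MK N H w L ⊆ MK N H w L' :=
  fun _ ha K' h1 h2 h3 Λ q h4 => ha K' h1 (h.trans h2) h3 Λ q h4

private theorem phi_iff {H : SimpleGraph V} {w : V → V → ZMod m} {L P : Finset V}
    {M : Set (ZMod m)} : P ∈ Phi H w L M ↔ P ⊆ L ∧ P.Nonempty ∧ P ≠ L ∧
      ∀ u ∈ P, ∀ v ∈ L, v ∉ P → ¬ (H.Adj u v ∧ w u v ∈ M) := by
  unfold Phi
  rw [mem_filter, mem_powerset]

private theorem mem_cr {H : SimpleGraph V} {L P : Finset V} {x : V} : x ∈ cr H L P ↔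
    x ∉ L ∧ (∃ p ∈ P, H.Adj p x) ∧ ∃ q ∈ L, q ∉ P ∧ H.Adj q x := by
  unfold cr
  rw [mem_filter]
  exact ⟨fun h => h.2, fun h => ⟨mem_univ _, h⟩⟩

private theorem mem_zz {H : SimpleGraph V} {L P : Finset V} {x : V} : x ∈ zz H L P ↔
    x ∉ L ∧ (∃ p ∈ P, H.Adj p x) ∧ ∀ q ∈ L, q ∉ P → ¬ H.Adj q x := by
  unfold zz
  rw [mem_filter]
  exact ⟨fun h => h.2, fun h => ⟨mem_univ _, h⟩⟩

private theorem mem_exs {H : SimpleGraph V} {w : V → V → ZMod m} {K : Finset V}
    {M : Set (ZMod m)} {x : V} : x ∈ exs H w K M ↔ x ∉ K ∧ ∃ a ∈ lab H w K x, a ∉ M := by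
  unfold exs
  rw [mem_filter]
  exact ⟨fun h => h.2, fun h => ⟨mem_univ _, h⟩⟩

omit [Fintype V] [DecidableEq V] in
private theorem mem_lab {H : SimpleGraph V} {w : V → V → ZMod m} {K : Finset V} {k x : V}
    (hk : k ∈ K) (ha : H.Adj k x) : w k x ∈ lab H w K x := by
  unfold lab
  simp only [mem_image, mem_filter]
  exact ⟨k, ⟨hk, ha⟩, rfl⟩

/-- complements -/
private theorem phi_compl {H : SimpleGraph V} {w : V → V → ZMod m} (hsym : ∀ u v, w u v = w v u)
    {L P : Finset V} {M : Set (ZMod m)} (h : P ∈ Phi H w L M) : L \ P ∈ Phi H w L M := by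
  rw [phi_iff] at h ⊢
  obtain ⟨h1, h2, h3, h4⟩ := h
  refine ⟨sdiff_subset, ?_, ?_, ?_⟩
  · rw [sdiff_nonempty]
    exact fun h5 => h3 (Subset.antisymm h1 h5)
  · intro h5
    obtain ⟨p, hp⟩ := h2
    have h6 : p ∈ L \ P := by rw [h5]; exact h1 hp
    exact (mem_sdiff.1 h6).2 hp
  · intro u hu v hv hvP h5
    have hvP' : v ∈ P := by
      by_contra h6
      exact hvP (mem_sdiff.2 ⟨hv, h6⟩)
    refine h4 v hvP' u (mem_sdiff.1 hu).1 (mem_sdiff.1 hu).2 ⟨h5.1.symm, ?_⟩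
    rw [hsym]
    exact h5.2

private theorem cr_compl {H : SimpleGraph V} {L P : Finset V} (h : P ⊆ L) :
    cr H L (L \ P) = cr H L P := by
  ext x
  rw [mem_cr, mem_cr]
  constructor
  · rintro ⟨h1, ⟨p, hp, hpx⟩, q, hq, hqP, hqx⟩
    have hq' : q ∈ P := by
      by_contra h6
      exact hqP (mem_sdiff.2 ⟨hq, h6⟩)
    exact ⟨h1, ⟨q, hq', hqx⟩, p, (mem_sdiff.1 hp).1, (mem_sdiff.1 hp).2, hpx⟩
  · rintro ⟨h1, ⟨p, hp, hpx⟩, q, hq, hqP, hqx⟩
    exact ⟨h1, ⟨q, mem_sdiff.2 ⟨hq, hqP⟩, hqx⟩, p, h hp, fun h2 => (mem_sdiff.1 h2).2 hp, hpx⟩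

private theorem St.compl {N : ℕ} {H : SimpleGraph V} {w : V → V → ZMod m}
    (hsym : ∀ u v, w u v = w v u) {K : Finset V} {t : ℕ} {L P : Finset V}
    (h : St N H w K t L P) : St N H w K t L (L \ P) :=
  ⟨h.core, h.sub, h.card, h.stable, phi_compl hsym h.phi, by
    rw [cr_compl (phi_iff.1 h.phi).1]
    exact h.big⟩

/-- the extension of `P` by a nice vertex -/
private theorem ext_nice {N : ℕ} {H : SimpleGraph V} {w : V → V → ZMod m}
    (hsym : ∀ u v, w u v = w v u) {L P : Finset V} {s : ℕ} (hst : Stable N H w (s + 1) L)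
    (hP : P ∈ Phi H w L (MK N H w L)) {y : V} (hy : nice N H w L y) :
    Stable N H w s (insert y L) ∧
    ∃ P' ∈ Phi H w (insert y L) (MK N H w (insert y L)), P' ∩ L = P ∧
      ((∃ p ∈ P, H.Adj p y) → y ∈ P') ∧ ((∃ q ∈ L, q ∉ P ∧ H.Adj q y) → y ∉ P') := by
  obtain ⟨h1, h2⟩ := hst y hy
  obtain ⟨hyL, ⟨k, hk, hky⟩, hlab⟩ := hy
  have hM : MK N H w L ⊆ MK N H w (insert y L) := mk_mono (subset_insert _ _)
  obtain ⟨P', hP', hPL⟩ := (phi_restrict hsym L (MK N H w L) (MK N H w (insert y L)) hM y hyL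
    ⟨k, hk, hky, hlab _ (mem_lab hk hky)⟩).2 h1 P hP
  refine ⟨h2, P', hP', hPL, ?_, ?_⟩
  · rintro ⟨p, hp, hpy⟩
    by_contra hyP
    have hpL : p ∈ L := (phi_iff.1 hP).1 hp
    have hpP' : p ∈ P' := by
      rw [← hPL] at hp
      exact (mem_inter.1 hp).1
    exact (phi_iff.1 hP').2.2.2 p hpP' y (mem_insert_self _ _) hyP
      ⟨hpy, hM (hlab _ (mem_lab hpL hpy))⟩
  · rintro ⟨q, hq, hqP, hqy⟩ hyP
    have hqP' : q ∉ P' := by
      intro h3
      apply hqP
      rw [← hPL]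
      exact mem_inter.2 ⟨h3, hq⟩
    refine (phi_iff.1 hP').2.2.2 y hyP q (mem_insert_of_mem hq) hqP' ⟨hqy.symm, ?_⟩
    rw [hsym]
    exact hM (hlab _ (mem_lab hq hqy))

private theorem cr_sub {N : ℕ} {H : SimpleGraph V} {w : V → V → ZMod m}
    (hsym : ∀ u v, w u v = w v u) {L P : Finset V} {s : ℕ} (hst : Stable N H w (s + 1) L)
    (hP : P ∈ Phi H w L (MK N H w L)) : cr H L P ⊆ exs H w L (MK N H w L) := by
  intro x hx
  rw [mem_cr] at hx
  obtain ⟨h1, ⟨p, hp, hpx⟩, q, hq, hqP, hqx⟩ := hx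
  rw [mem_exs]
  refine ⟨h1, ?_⟩
  by_contra hno
  push Not at hno
  obtain ⟨-, P', _, _, h2, h3⟩ := ext_nice hsym hst hP
    ⟨h1, ⟨p, (phi_iff.1 hP).1 hp, hpx⟩, hno⟩
  exact h3 ⟨q, hq, hqP, hqx⟩ (h2 ⟨p, hp, hpx⟩)

/-- one step of the walk -/
private theorem St.step {N : ℕ} {H : SimpleGraph V} {w : V → V → ZMod m}
    (hsym : ∀ u v, w u v = w v u) {K : Finset V} {t : ℕ} (ht : t ≤ 59) {L P : Finset V}
    (h : St N H w K t L P) {y : V} (hy : y ∈ zz H L P)
    (hyE : y ∉ exs H w L (MK N H w L)) (hbig : m < 100 * (nb H y ∩ zz H L (L \ P)).card) :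
    ∃ L' P', St N H w K (t + 1) L' P' := by
  obtain ⟨s, hs⟩ : ∃ s, 60 - t = s + 1 := ⟨59 - t, by omega⟩
  have hst := h.stable
  rw [hs] at hst
  have hy' := mem_zz.1 hy
  obtain ⟨hyL, ⟨p, hp, hpy⟩, hno⟩ := hy'
  have hPL := (phi_iff.1 h.phi).1
  have hlab : ∀ a ∈ lab H w L y, a ∈ MK N H w L := by
    intro a ha
    by_contra h1
    exact hyE (mem_exs.2 ⟨hyL, a, ha, h1⟩)
  obtain ⟨h1, P', hP', hPP, h2, -⟩ := ext_nice hsym hst h.phi ⟨hyL, ⟨p, hPL hp, hpy⟩, hlab⟩
  have hyP' : y ∈ P' := h2 ⟨p, hp, hpy⟩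
  have hPP' : P ⊆ P' := by
    rw [← hPP]
    exact inter_subset_left
  have hPP'' : ∀ q ∈ L, q ∉ P → q ∉ P' := by
    intro q hq hqP hqP'
    apply hqP
    rw [← hPP]
    exact mem_inter.2 ⟨hqP', hq⟩
  refine ⟨insert y L, P', ?_, h.sub.trans (subset_insert _ _), ?_, ?_, hP', ?_⟩
  · obtain ⟨s0, hs0⟩ := h.core
    exact ⟨_, TR.add hs0 (hPL hp) hyL hpy⟩
  · rw [card_insert_of_notMem hyL]
    have := h.card
    omega
  · have : 60 - (t + 1) = s := by omega
    rw [this]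
    exact h1
  · have hd : Disjoint (cr H L P) (nb H y ∩ zz H L (L \ P)) := by
      rw [Finset.disjoint_left]
      intro x hx hx'
      obtain ⟨-, ⟨p', hp', hpx⟩, -⟩ := mem_cr.1 hx
      refine (mem_zz.1 (mem_inter.1 hx').2).2.2 p' (hPL hp') ?_ hpx
      exact fun h3 => (mem_sdiff.1 h3).2 hp'
    have hsub : cr H L P ∪ (nb H y ∩ zz H L (L \ P)) ⊆ cr H (insert y L) P' := by
      intro x hx
      rw [mem_cr]
      rcases mem_union.1 hx with hx | hx
      · obtain ⟨hxL, ⟨p', hp', hpx⟩, q, hq, hqP, hqx⟩ := mem_cr.1 hx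
        refine ⟨?_, ⟨p', hPP' hp', hpx⟩, q, mem_insert_of_mem hq, hPP'' q hq hqP, hqx⟩
        intro h3
        rcases mem_insert.1 h3 with h3 | h3
        · rw [h3] at hqx
          exact hno q hq hqP hqx
        · exact hxL h3
      · obtain ⟨hxy, hxz⟩ := mem_inter.1 hx
        have hadj : H.Adj y x := by
          unfold nb at hxy
          exact (mem_filter.1 hxy).2
        obtain ⟨hxL, ⟨q, hq, hqx⟩, -⟩ := mem_zz.1 hxz
        refine ⟨?_, ⟨y, hyP', hadj⟩, q, mem_insert_of_mem (mem_sdiff.1 hq).1,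
          hPP'' q (mem_sdiff.1 hq).1 (mem_sdiff.1 hq).2, hqx⟩
        intro h3
        rcases mem_insert.1 h3 with h3 | h3
        · rw [h3] at hadj
          exact H.loopless.irrefl _ hadj
        · exact hxL h3
    have hc := card_le_card hsub
    rw [card_union_of_disjoint hd] at hc
    have h3 := h.big
    have e : (t + 1) * m = t * m + m := by ring
    omega

/-- both parts are large -/
private theorem St.nonempty {N : ℕ} (hm : 10 ^ 13 ≤ m) (hNm : 10000 * N ≤ m)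
    {H : SimpleGraph V} {w : V → V → ZMod m} (hdeg : ∀ v, m ≤ (nb H v).card)
    {K : Finset V} {t : ℕ} {L P : Finset V}
    (h : St N H w K t L P) (hLN : L.card ≤ N) (hcr : cr H L P ⊆ exs H w L (MK N H w L))
    (hex : 100 * (exs H w L (MK N H w L)).card ≤ 51 * m) :
    (zz H L P \ exs H w L (MK N H w L)).Nonempty := by
  obtain ⟨p, hp⟩ := (phi_iff.1 h.phi).2.1
  have hPL := (phi_iff.1 h.phi).1
  by_contra hne
  rw [not_nonempty_iff_eq_empty] at hne
  have hsub : nb H p ⊆ L ∪ exs H w L (MK N H w L) := by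
    intro x hx
    unfold nb at hx
    have hadj := (mem_filter.1 hx).2
    rw [mem_union]
    by_cases hxL : x ∈ L
    · exact Or.inl hxL
    · right
      by_cases hq : ∃ q ∈ L, q ∉ P ∧ H.Adj q x
      · exact hcr (mem_cr.2 ⟨hxL, ⟨p, hp, hadj⟩, hq⟩)
      · push Not at hq
        by_contra hxe
        have h1 : x ∈ zz H L P \ exs H w L (MK N H w L) :=
          mem_sdiff.2 ⟨mem_zz.2 ⟨hxL, ⟨p, hp, hadj⟩, hq⟩, hxe⟩
        rw [hne] at h1
        exact notMem_empty _ h1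
  have h1 := (card_le_card hsub).trans (card_union_le _ _)
  have h2 := hdeg p
  omega

/-- ROW FLSTR. Uses PHN, PHR. The structure of the flat case (all but the degree bound). -/
theorem flat_structure (N : ℕ) (hm : 10 ^ 13 ≤ m) (hNm : 10000 * N ≤ m) {H : SimpleGraph V}
    {w : V → V → ZMod m} (h : Kd m H w) (K0 : Finset V) (hund : 200 * (und H K0).card ≤ m)
    (hflat : Flat N H w K0)
    (hMK : ∀ K, Core H w K → K0 ⊆ K → K.card ≤ N → 100 * (exs H w K (MK N H w K)).card ≤ 51 * m)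
    (K : Finset V) (hK : Core H w K) (hKK : K0 ⊆ K) (hKN : K.card + 60 ≤ N)
    (hst : Stable N H w 60 K) (hdeg : ∀ v, 100 * (nb H v).card ≤ 151 * m) : FLS m H := by
  have hsym := h.zf.1
  -- the first state
  have hQ : ¬ QC H w K (MK N H w K) := by
    obtain ⟨Λ, q, hT⟩ := hflat K hK hKK (by omega)
    rintro ⟨s, hs⟩
    refine hT.2.2.2 ⟨s, ?_⟩
    have hmono : ∀ (S : Finset V) (s : ZMod m),
        TR (fun u v => H.Adj u v ∧ w u v ∈ MK N H w K) w S s →
        TR (fun u v => H.Adj u v ∧ w u v ∈ {a | a - q ∈ Λ}) w S s := by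
      intro S s hS
      induction hS with
      | single v => exact TR.single v
      | add _ hu hv he ih =>
        exact TR.add ih hu hv ⟨he.1, he.2 K hK (Subset.refl _) (by omega) Λ q hT⟩
    exact hmono _ _ hs
  obtain ⟨P0, hP0⟩ := phi_nonempty K hK (MK N H w K) hQ
  have hinit : St N H w K 0 K P0 := ⟨hK, Subset.refl _, by omega, hst, hP0, by omega⟩
  -- facts valid at all states
  have hall : ∀ t, t ≤ 59 → ∀ L P, St N H w K t L P → L.card ≤ N ∧
      cr H L P ⊆ exs H w L (MK N H w L) ∧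
      100 * (exs H w L (MK N H w L)).card ≤ 51 * m ∧ t ≤ 51 := by
    intro t ht L P hS
    obtain ⟨s, hs⟩ : ∃ s, 60 - t = s + 1 := ⟨59 - t, by omega⟩
    have hst' := hS.stable
    rw [hs] at hst'
    have hc := hS.card
    have hLN : L.card ≤ N := by omega
    have h1 := cr_sub hsym hst' hS.phi
    have h2 := hMK L hS.core (hKK.trans hS.sub) hLN
    refine ⟨hLN, h1, h2, ?_⟩
    have h3 := card_le_card h1
    have h4 := hS.big
    by_contra h5
    have h6 : 52 * m ≤ t * m := Nat.mul_le_mul_right m (by omega)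
    omega
  -- the last state
  obtain ⟨t, ht, L, P, hS, hmax⟩ : ∃ t, t ≤ 59 ∧ ∃ L P, St N H w K t L P ∧
      ¬ ∃ L' P', St N H w K (t + 1) L' P' := by
    by_contra hno
    push Not at hno
    have : ∀ t, t ≤ 59 → ∃ L P, St N H w K t L P := by
      intro t
      induction t with
      | zero => exact fun _ => ⟨K, P0, hinit⟩
      | succ t ih =>
        intro ht
        obtain ⟨L, P, hS⟩ := ih (by omega)
        exact hno t (by omega) L P hS
    obtain ⟨L, P, hS⟩ := this 59 le_rfl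
    have := (hall 59 le_rfl L P hS).2.2.2
    omega
  obtain ⟨hLN, hcr, hex, -⟩ := hall t ht L P hS
  have hS' := hS.compl hsym
  have hPL := (phi_iff.1 hS.phi).1
  have hcc : L \ (L \ P) = P := by
    rw [sdiff_sdiff_right_self]
    exact inter_eq_right.2 hPL
  have hnL : ∀ {x q}, q ∈ L → q ∉ P → H.Adj q x → x ∉ zz H L P := by
    intro x q hq hqP hqx hx
    exact (mem_zz.1 hx).2.2 q hq hqP hqx
  have hd1 : Disjoint (zz H L P) (zz H L (L \ P)) := by
    rw [Finset.disjoint_left]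
    intro x hx hx'
    obtain ⟨_, ⟨q, hq, hqx⟩, _⟩ := mem_zz.1 hx'
    exact hnL (mem_sdiff.1 hq).1 (mem_sdiff.1 hq).2 hqx hx
  have hd2 : Disjoint (zz H L P) (cr H L P) := by
    rw [Finset.disjoint_left]
    intro x hx hx'
    obtain ⟨_, _, q, hq, hqP, hqx⟩ := mem_cr.1 hx'
    exact hnL hq hqP hqx hx
  have hd3 : Disjoint (zz H L (L \ P)) (cr H L P) := by
    rw [Finset.disjoint_left]
    intro x hx hx'
    obtain ⟨_, ⟨p, hp, hpx⟩, _⟩ := mem_cr.1 hx'
    exact (mem_zz.1 hx).2.2 p (hPL hp) (fun h1 => (mem_sdiff.1 h1).2 hp) hpx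
  refine ⟨hdeg, zz H L P, zz H L (L \ P), cr H L P,
    exs H w L (MK N H w L) ∩ (zz H L P ∪ zz H L (L \ P)), hd1, hd2, hd3, inter_subset_right,
    ?_, ?_, ?_, ?_, ?_, ?_⟩
  · have hcov : (univ : Finset V) ⊆
        (L ∪ und H K0) ∪ ((zz H L P ∪ zz H L (L \ P)) ∪ cr H L P) := by
      intro x _
      simp only [mem_union]
      by_cases hxL : x ∈ L
      · exact Or.inl (Or.inl hxL)
      · by_cases h1 : ∃ p ∈ P, H.Adj p x
        · by_cases h2 : ∃ q ∈ L, q ∉ P ∧ H.Adj q x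
          · exact Or.inr (Or.inr (mem_cr.2 ⟨hxL, h1, h2⟩))
          · push Not at h2
            exact Or.inr (Or.inl (Or.inl (mem_zz.2 ⟨hxL, h1, h2⟩)))
        · by_cases h2 : ∃ q ∈ L, q ∉ P ∧ H.Adj q x
          · obtain ⟨q, hq, hqP, hqx⟩ := h2
            push Not at h1
            refine Or.inr (Or.inl (Or.inr (mem_zz.2 ⟨hxL, ⟨q, mem_sdiff.2 ⟨hq, hqP⟩, hqx⟩, ?_⟩)))
            intro p hp hp'
            refine h1 p ?_
            by_contra h3
            exact hp' (mem_sdiff.2 ⟨hp, h3⟩)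
          · left
            right
            push Not at h1 h2
            unfold und
            refine mem_filter.2 ⟨mem_univ _, fun h3 => hxL (hS.sub (hKK h3)), ?_⟩
            intro k hk hkx
            have hkL := hS.sub (hKK hk)
            by_cases hkP : k ∈ P
            · exact h1 k hkP hkx
            · exact h2 k hkL hkP hkx
    have h1 := card_le_card hcov
    rw [card_univ] at h1
    have h2 := card_union_le (L ∪ und H K0) ((zz H L P ∪ zz H L (L \ P)) ∪ cr H L P)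
    have h3 := card_union_le L (und H K0)
    have h4 := card_union_le (zz H L P ∪ zz H L (L \ P)) (cr H L P)
    have h5 := card_union_le (zz H L P) (zz H L (L \ P))
    omega
  · have hd : Disjoint (cr H L P)
        (exs H w L (MK N H w L) ∩ (zz H L P ∪ zz H L (L \ P))) := by
      refine disjoint_of_subset_right inter_subset_right ?_
      rw [disjoint_union_right]
      exact ⟨hd2.symm, hd3.symm⟩
    have h1 : cr H L P ∪ (exs H w L (MK N H w L) ∩ (zz H L P ∪ zz H L (L \ P))) ⊆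
        exs H w L (MK N H w L) := union_subset hcr inter_subset_left
    have h2 := card_le_card h1
    rw [card_union_of_disjoint hd] at h2
    omega
  · intro y hy
    by_contra hbig
    rw [mem_sdiff] at hy
    refine hmax (hS.step hsym ht hy.1 ?_ (by omega))
    intro h1
    exact hy.2 (mem_inter.2 ⟨h1, mem_union_left _ hy.1⟩)
  · intro y hy
    by_contra hbig
    rw [mem_sdiff] at hy
    refine hmax (hS'.step hsym ht hy.1 ?_ ?_)
    · intro h1
      exact hy.2 (mem_inter.2 ⟨h1, mem_union_right _ hy.1⟩)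
    · rw [hcc]
      omega
  · obtain ⟨x, hx⟩ := hS.nonempty hm hNm h.deg hLN hcr hex
    rw [mem_sdiff] at hx
    exact ⟨x, mem_sdiff.2 ⟨hx.1, fun h1 => hx.2 (mem_inter.1 h1).1⟩⟩
  · obtain ⟨x, hx⟩ := hS'.nonempty hm hNm h.deg hLN (by rw [cr_compl hPL]; exact hcr) hex
    rw [mem_sdiff] at hx
    exact ⟨x, mem_sdiff.2 ⟨hx.1, fun h1 => hx.2 (mem_inter.1 h1).1⟩⟩

end

end ZSA
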