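import Pool.Agent.ZSA.COMPLEM

/-!
# ZSA, row FT: a flat kind against a two-label kind
-/

namespace ZSA

open Finset Classical ZST

variable {V : Type} [Fintype V] [DecidableEq V] {m : ℕ}

/-- the abstract counting -/
private lemma FT_aux (P Q : Finset V) (cb cb' : V → Finset V)
    (hcb : ∀ x, x ∈ cb x) (hcb' : ∀ x, x ∈ cb' x)
    (he : ∀ x y, y ∈ cb x → cb y = cb x) (he' : ∀ x y, y ∈ cb' x → cb' y = cb' x)
    (hm : 1 ≤ m)
    (hcard : ∀ x, (cb x).card ≤ m) (hcard' : ∀ x, (cb' x).card ≤ m)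
    (hdis : Disjoint P Q)
    (hP : ∀ y ∈ P, 1000 * (Q \ (cb y ∪ cb' y)).card ≤ 11 * m)
    (hQ : ∀ y ∈ Q, 1000 * (P \ (cb y ∪ cb' y)).card ≤ 11 * m)
    (hsum : 2460 * m ≤ 1000 * (P.card + Q.card)) (hle : Q.card ≤ P.card)
    (hQne : Q.Nonempty) : False := by
  have hd : ∀ x y z, z ∈ cb x → z ∈ cb y → cb x = cb y := fun x y z h1 h2 => by
    rw [← he x z h1, ← he y z h2]
  have hd' : ∀ x y z, z ∈ cb' x → z ∈ cb' y → cb' x = cb' y := fun x y z h1 h2 => by
    rw [← he' x z h1, ← he' y z h2]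
  obtain ⟨x, hx⟩ := hQne
  have hPx := hQ x hx
  -- cardinality splitting
  have split : ∀ (S T : Finset V), S.card = (S ∩ T).card + (S \ T).card := fun S T => by
    rw [Finset.card_inter_add_card_sdiff]
  have hB := hcard x
  have hB' := hcard' x
  have hPB := split P (cb x ∪ cb' x)
  -- y1 in P, in cb x, not in cb' x
  obtain ⟨y1, hy1P, hy1, hy1'⟩ : ∃ y ∈ P, y ∈ cb x ∧ y ∉ cb' x := by
    by_contra hcon
    push Not at hcon
    have h1 : P ∩ (cb x ∪ cb' x) ⊆ cb' x := by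
      intro z hz
      rw [Finset.mem_inter, Finset.mem_union] at hz
      rcases hz.2 with h | h
      · exact hcon z hz.1 h
      · exact h
    have h2 := Finset.card_le_card h1
    omega
  obtain ⟨y2, hy2P, hy2', hy2⟩ : ∃ y ∈ P, y ∈ cb' x ∧ y ∉ cb x := by
    by_contra hcon
    push Not at hcon
    have h1 : P ∩ (cb x ∪ cb' x) ⊆ cb x := by
      intro z hz
      rw [Finset.mem_inter, Finset.mem_union] at hz
      rcases hz.2 with h | h
      · exact h
      · exact hcon z hz.1 h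
    have h2 := Finset.card_le_card h1
    omega
  have e1 : cb y1 = cb x := he x y1 hy1
  have e2 : cb' y2 = cb' x := he' x y2 hy2'
  have hQ1 := hP y1 hy1P
  have hQ2 := hP y2 hy2P
  rw [e1] at hQ1
  rw [e2] at hQ2
  -- the inclusion for Q
  have hc1 : Disjoint (cb' y1) (cb' x) := by
    rw [Finset.disjoint_left]
    intro z h1 h2
    apply hy1'
    rw [← hd' y1 x z h1 h2]
    exact hcb' y1
  have hr2 : Disjoint (cb y2) (cb x) := by
    rw [Finset.disjoint_left]
    intro z h1 h2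
    apply hy2
    rw [← hd y2 x z h1 h2]
    exact hcb y2
  have hQsub : Q ⊆ (Q ∩ (cb x ∩ cb' x)) ∪ (Q ∩ (cb' y1 ∩ cb y2)) ∪ (Q \ (cb x ∪ cb' y1)) ∪
      (Q \ (cb y2 ∪ cb' x)) := by
    intro z hz
    by_cases h1 : z ∈ cb x ∪ cb' y1
    · by_cases h2 : z ∈ cb y2 ∪ cb' x
      · rw [Finset.mem_union] at h1 h2
        rcases h1 with h1 | h1 <;> rcases h2 with h2 | h2
        · exact absurd h1 (Finset.disjoint_left.1 hr2 h2)
        · simp [hz, h1, h2]
        · simp [hz, h1, h2]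
        · exact absurd h2 (Finset.disjoint_left.1 hc1 h1)
      · have : z ∈ Q \ (cb y2 ∪ cb' x) := Finset.mem_sdiff.2 ⟨hz, h2⟩
        simp only [Finset.mem_union]
        exact Or.inr this
    · have : z ∈ Q \ (cb x ∪ cb' y1) := Finset.mem_sdiff.2 ⟨hz, h1⟩
      simp only [Finset.mem_union]
      exact Or.inl (Or.inr this)
  have hQc := Finset.card_le_card hQsub
  have hu1 := Finset.card_union_le ((Q ∩ (cb x ∩ cb' x)) ∪ (Q ∩ (cb' y1 ∩ cb y2)) ∪
    (Q \ (cb x ∪ cb' y1))) (Q \ (cb y2 ∪ cb' x))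
  have hu2 := Finset.card_union_le ((Q ∩ (cb x ∩ cb' x)) ∪ (Q ∩ (cb' y1 ∩ cb y2)))
    (Q \ (cb x ∪ cb' y1))
  have hu3 := Finset.card_union_le (Q ∩ (cb x ∩ cb' x)) (Q ∩ (cb' y1 ∩ cb y2))
  rcases (Q ∩ (cb' y1 ∩ cb y2)).eq_empty_or_nonempty with hemp | ⟨x', hx'⟩
  · -- case 2
    rw [hemp, Finset.card_empty] at hu3
    have h1 : (P ∩ (cb x ∪ cb' x)) ∪ (Q ∩ (cb x ∩ cb' x)) ⊆ cb x ∪ cb' x := by
      intro z hz
      simp only [Finset.mem_union, Finset.mem_inter] at hz ⊢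
      tauto
    have h2 := Finset.card_le_card h1
    rw [Finset.card_union_of_disjoint (Finset.disjoint_of_subset_left Finset.inter_subset_left
      (Finset.disjoint_of_subset_right Finset.inter_subset_left hdis))] at h2
    have h3 := Finset.card_union_le (cb x) (cb' x)
    have h4 : (Q ∩ (cb x ∩ cb' x)).card ≤ (cb x ∩ cb' x).card :=
      Finset.card_le_card Finset.inter_subset_right
    rw [hemp] at hu2 hu1 hQc
    rw [Finset.union_empty] at hu2 hu1 hQc
    omega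
  · -- case 1
    simp only [Finset.mem_inter] at hx'
    obtain ⟨hx'Q, hx'1, hx'2⟩ := hx'
    have hP2 := hQ x' hx'Q
    have e3 : cb x' = cb y2 := he y2 x' hx'2
    have e4 : cb' x' = cb' y1 := he' y1 x' hx'1
    rw [e3, e4] at hP2
    have hPsub : P ⊆ (P ∩ (cb y2 ∩ cb' x)) ∪ (P ∩ (cb' y1 ∩ cb x)) ∪ (P \ (cb x ∪ cb' x)) ∪
        (P \ (cb y2 ∪ cb' y1)) := by
      intro z hz
      by_cases h1 : z ∈ cb x ∪ cb' x
      · by_cases h2 : z ∈ cb y2 ∪ cb' y1
        · rw [Finset.mem_union] at h1 h2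
          rcases h1 with h1 | h1 <;> rcases h2 with h2 | h2
          · exact absurd h1 (Finset.disjoint_left.1 hr2 h2)
          · simp [hz, h1, h2]
          · simp [hz, h1, h2]
          · exact absurd h1 (Finset.disjoint_left.1 hc1 h2)
        · have : z ∈ P \ (cb y2 ∪ cb' y1) := Finset.mem_sdiff.2 ⟨hz, h2⟩
          simp only [Finset.mem_union]
          exact Or.inr this
      · have : z ∈ P \ (cb x ∪ cb' x) := Finset.mem_sdiff.2 ⟨hz, h1⟩
        simp only [Finset.mem_union]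
        exact Or.inl (Or.inr this)
    have hPc := Finset.card_le_card hPsub
    have hv1 := Finset.card_union_le ((P ∩ (cb y2 ∩ cb' x)) ∪ (P ∩ (cb' y1 ∩ cb x)) ∪
      (P \ (cb x ∪ cb' x))) (P \ (cb y2 ∪ cb' y1))
    have hv2 := Finset.card_union_le ((P ∩ (cb y2 ∩ cb' x)) ∪ (P ∩ (cb' y1 ∩ cb x)))
      (P \ (cb x ∪ cb' x))
    have hv3 := Finset.card_union_le (P ∩ (cb y2 ∩ cb' x)) (P ∩ (cb' y1 ∩ cb x))
    -- inside cb y2
    have k1 : (P ∩ (cb y2 ∩ cb' x)) ∪ (Q ∩ (cb' y1 ∩ cb y2)) ⊆ cb y2 := by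
      intro z hz
      simp only [Finset.mem_union, Finset.mem_inter] at hz
      tauto
    have k1c := Finset.card_le_card k1
    rw [Finset.card_union_of_disjoint (Finset.disjoint_of_subset_left Finset.inter_subset_left
      (Finset.disjoint_of_subset_right Finset.inter_subset_left hdis))] at k1c
    have k2 : (P ∩ (cb' y1 ∩ cb x)) ∪ (Q ∩ (cb x ∩ cb' x)) ⊆ cb x := by
      intro z hz
      simp only [Finset.mem_union, Finset.mem_inter] at hz
      tauto
    have k2c := Finset.card_le_card k2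
    rw [Finset.card_union_of_disjoint (Finset.disjoint_of_subset_left Finset.inter_subset_left
      (Finset.disjoint_of_subset_right Finset.inter_subset_left hdis))] at k2c
    have hy2c := hcard y2
    omega

private lemma FT_self (Γ : SimpleGraph V) (v : V) : v ∈ cp Γ v := by
  unfold cp
  rw [Finset.mem_filter]
  exact ⟨Finset.mem_univ _, SimpleGraph.Reachable.refl _⟩

private lemma FT_eq (Γ : SimpleGraph V) (v u : V) (h : u ∈ cp Γ v) : cp Γ u = cp Γ v := by
  unfold cp at h ⊢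
  rw [Finset.mem_filter] at h
  ext z
  simp only [Finset.mem_filter, Finset.mem_univ, true_and]
  exact ⟨fun hz => h.2.trans hz, fun hz => h.2.symm.trans hz⟩

/-- the vertices of `S` outside the two components of `y` -/
private lemma FT_out {H : SimpleGraph V} {w' : V → V → ZMod m} (hsym : ∀ u v, w' u v = w' v u)
    (b b' : ZMod m) (hm : 10 ^ 13 ≤ m)
    (hb : ∀ y, (univ.filter (fun x => Hᶜ.Adj y x ∧ w' y x ≠ b ∧ w' y x ≠ b')).card ≤ 500000)
    (y : V) (S : Finset V) (hS : y ∉ S) (hn : 100 * (nb H y ∩ S).card ≤ m) :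
    1000 * (S \ (cp (lg Hᶜ w' b) y ∪ cp (lg Hᶜ w' b') y)).card ≤ 11 * m := by
  have hsub : S \ (cp (lg Hᶜ w' b) y ∪ cp (lg Hᶜ w' b') y) ⊆ (nb H y ∩ S) ∪
      (univ.filter (fun x => Hᶜ.Adj y x ∧ w' y x ≠ b ∧ w' y x ≠ b')) := by
    intro x hx
    rw [Finset.mem_sdiff, Finset.mem_union, not_or] at hx
    obtain ⟨hxS, hx1, hx2⟩ := hx
    rw [Finset.mem_union]
    by_cases hH : H.Adj y x
    · left
      rw [Finset.mem_inter]
      exact ⟨by unfold nb; simpa using hH, hxS⟩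
    · right
      have hne : y ≠ x := fun h => hS (h ▸ hxS)
      have hc : Hᶜ.Adj y x := (SimpleGraph.compl_adj H y x).2 ⟨hne, hH⟩
      rw [Finset.mem_filter]
      refine ⟨Finset.mem_univ _, hc, fun h => hx1 ?_, fun h => hx2 ?_⟩
      · unfold cp
        rw [Finset.mem_filter]
        have ha : (lg Hᶜ w' b).Adj y x := ⟨hc, h, by rw [hsym, h]⟩
        exact ⟨Finset.mem_univ _, ha.reachable⟩
      · unfold cp
        rw [Finset.mem_filter]
        have ha : (lg Hᶜ w' b').Adj y x := ⟨hc, h, by rw [hsym, h]⟩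
        exact ⟨Finset.mem_univ _, ha.reachable⟩
  have h1 := Finset.card_le_card hsub
  have h2 := Finset.card_union_le (nb H y ∩ S)
    (univ.filter (fun x => Hᶜ.Adj y x ∧ w' y x ≠ b ∧ w' y x ≠ b'))
  have h3 := hb y
  norm_num at hm
  omega

/-- ROW FT. Uses COMPLEM. -/
theorem flat_two [NeZero m] (hm : 10 ^ 13 ≤ m) {H : SimpleGraph V} {w' : V → V → ZMod m}
    (hn : 3 * m - 1 ≤ Fintype.card V) (h : FLS m H) (hz' : ZF m Hᶜ w') (h' : T2lab m Hᶜ w') :
    False := by
  obtain ⟨_, Z, Z', C, E, hZZ, hZC, hZC', hE, hV, hCE, h1, h2, hne1, hne2⟩ := h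
  obtain ⟨b, b', _, hb⟩ := h'
  have hm1 : 1 ≤ m := le_trans (by norm_num) hm
  have hcb : ∀ x, (cp (lg Hᶜ w' b) x).card ≤ m := fun x => comp_le hz' b x
  have hcb' : ∀ x, (cp (lg Hᶜ w' b') x).card ≤ m := fun x => comp_le hz' b' x
  have hdis : Disjoint (Z \ E) (Z' \ E) := Finset.disjoint_of_subset_left Finset.sdiff_subset
    (Finset.disjoint_of_subset_right Finset.sdiff_subset hZZ)
  have hP : ∀ y ∈ Z \ E, 1000 * ((Z' \ E) \ (cp (lg Hᶜ w' b) y ∪ cp (lg Hᶜ w' b') y)).card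
      ≤ 11 * m := by
    intro y hy
    refine FT_out hz'.1 b b' hm (fun y => by convert hb y) y (Z' \ E) (Finset.disjoint_left.1 hdis hy) ?_
    have := h1 y hy
    have h3 : (nb H y ∩ (Z' \ E)).card ≤ (nb H y ∩ Z').card :=
      Finset.card_le_card (Finset.inter_subset_inter_left Finset.sdiff_subset)
    omega
  have hQ : ∀ y ∈ Z' \ E, 1000 * ((Z \ E) \ (cp (lg Hᶜ w' b) y ∪ cp (lg Hᶜ w' b') y)).card
      ≤ 11 * m := by
    intro y hy
    refine FT_out hz'.1 b b' hm (fun y => by convert hb y) y (Z \ E) (Finset.disjoint_right.1 hdis hy) ?_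
    have := h2 y hy
    have h3 : (nb H y ∩ (Z \ E)).card ≤ (nb H y ∩ Z).card :=
      Finset.card_le_card (Finset.inter_subset_inter_left Finset.sdiff_subset)
    omega
  have hsum : 2460 * m ≤ 1000 * ((Z \ E).card + (Z' \ E).card) := by
    have h3 : Z ∪ Z' ⊆ (Z \ E) ∪ (Z' \ E) ∪ E := by
      intro z hz
      by_cases hzE : z ∈ E
      · exact Finset.mem_union_right _ hzE
      · apply Finset.mem_union_left
        rw [Finset.mem_union] at hz ⊢
        rcases hz with hz | hz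
        · exact Or.inl (Finset.mem_sdiff.2 ⟨hz, hzE⟩)
        · exact Or.inr (Finset.mem_sdiff.2 ⟨hz, hzE⟩)
    have h4 := Finset.card_le_card h3
    rw [Finset.card_union_of_disjoint hZZ] at h4
    have h5 := Finset.card_union_le ((Z \ E) ∪ (Z' \ E)) E
    have h6 := Finset.card_union_le (Z \ E) (Z' \ E)
    norm_num at hm
    omega
  rcases le_total (Z' \ E).card (Z \ E).card with hle | hle
  · exact FT_aux (Z \ E) (Z' \ E) (cp (lg Hᶜ w' b)) (cp (lg Hᶜ w' b')) (FT_self _) (FT_self _)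
      (FT_eq _) (FT_eq _) hm1 hcb hcb' hdis hP hQ hsum hle hne2
  · exact FT_aux (Z' \ E) (Z \ E) (cp (lg Hᶜ w' b)) (cp (lg Hᶜ w' b')) (FT_self _) (FT_self _)
      (FT_eq _) (FT_eq _) hm1 hcb hcb' hdis.symm hQ hP (by rw [add_comm (Z' \ E).card]; exact hsum)
      hle hne1

end ZSA
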