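import Pool.Agent.ZSA.SHORT
import Pool.Agent.ZSA.APU

/-!
# ZSA, row GAIN
-/

namespace ZSA

open Finset Classical ZST

/-- a unit whose difference has small order -/
private def GU {W : Type} {m : ℕ} (A : W → Finset (ZMod m)) (n : ℕ) (U : Finset W) : Prop :=
  U.card ≤ 2 ∧ ∃ a d, d ≠ 0 ∧ addOrderOf d ≤ n ∧ Rc A U 1 a ∧ Rc A U 1 (a + d)

private theorem rc_one_nonempty {W G : Type} [AddCommGroup G] {A : W → Finset G} {U : Finset W}
    {t : G} (h : Rc A U 1 t) : U.Nonempty := by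
  obtain ⟨L, hL, h1, -⟩ := h
  have : L.Nonempty := by rw [← Finset.card_pos]; omega
  exact this.mono hL

/-- a maximal family of disjoint units -/
private theorem exists_fam {W : Type} (Y : Finset W) (P : Finset W → Prop)
    (hP : ∀ U, P U → U.Nonempty) :
    ∃ F : Finset (Finset W), (∀ U ∈ F, U ⊆ Y ∧ P U) ∧
      (∀ U ∈ F, ∀ U' ∈ F, U ≠ U' → Disjoint U U') ∧
      ∀ U ⊆ Y, Disjoint U (F.biUnion id) → ¬ P U := by
  classical
  let Fs : Finset (Finset (Finset W)) := Y.powerset.powerset.filter (fun F =>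
    (∀ U ∈ F, P U) ∧ ∀ U ∈ F, ∀ U' ∈ F, U ≠ U' → Disjoint U U')
  have hne : Fs.Nonempty := ⟨∅, by simp [Fs]⟩
  obtain ⟨F, hF, hmax⟩ := Fs.exists_max_image (fun F => F.card) hne
  rw [mem_filter, mem_powerset] at hF
  obtain ⟨hF1, hF2, hF3⟩ := hF
  refine ⟨F, fun U hU => ⟨mem_powerset.1 (hF1 hU), hF2 U hU⟩, hF3, ?_⟩
  intro U hU hd hPU
  have hUF : U ∉ F := by
    intro h
    obtain ⟨x, hx⟩ := hP U hPU
    exact (Finset.disjoint_left.1 hd) hx (mem_biUnion.2 ⟨U, h, hx⟩)
  have hdis : ∀ U' ∈ F, Disjoint U U' := fun U' hU' =>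
    disjoint_of_subset_right (subset_biUnion_of_mem id hU') hd
  have hins : insert U F ∈ Fs := by
    rw [mem_filter, mem_powerset]
    refine ⟨?_, ?_, ?_⟩
    · intro V hV
      rcases mem_insert.1 hV with h | h
      · rw [h, mem_powerset]; exact hU
      · exact hF1 h
    · intro V hV
      rcases mem_insert.1 hV with h | h
      · rw [h]; exact hPU
      · exact hF2 V h
    · intro V hV V' hV' hne
      rcases mem_insert.1 hV with h | h
      · rcases mem_insert.1 hV' with h' | h'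
        · exact absurd (h.trans h'.symm) hne
        · rw [h]; exact hdis V' h'
      · rcases mem_insert.1 hV' with h' | h'
        · rw [h']; exact (hdis V h).symm
        · exact hF3 V h V' h' hne
  have := hmax _ hins
  rw [card_insert_of_notMem hUF] at this
  omega

/-- units with the same difference -/
private theorem gain_cyc {W : Type} {m : ℕ} [NeZero m] (A : W → Finset (ZMod m)) (X : Finset W)
    (d : ZMod m) (hd : d ≠ 0) (F : Finset (Finset W))
    (hF : ∀ U ∈ F, U ⊆ X ∧ U.card ≤ 2 ∧ ∃ a, Rc A U 1 a ∧ Rc A U 1 (a + d))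
    (hFd : ∀ U ∈ F, ∀ U' ∈ F, U ≠ U' → Disjoint U U') (hc : addOrderOf d ≤ F.card + 1) :
    ∃ Λ : AddSubgroup (ZMod m), Λ ≠ ⊥ ∧ Nat.card Λ = addOrderOf d ∧ ∃ U ⊆ X, ∃ k c,
      U.card ≤ 2 * k ∧ k + 1 ≤ Nat.card Λ ∧ ∀ t, t - c ∈ Λ → Rc A U k t := by
  classical
  have hpos : 0 < addOrderOf d := addOrderOf_pos d
  obtain ⟨F', hF', hF'c⟩ := Finset.exists_subset_card_eq (s := F) (n := addOrderOf d - 1) (by omega)
  choose! a ha using fun U (hU : U ∈ F) => (hF U hU).2.2
  refine ⟨AddSubgroup.zmultiples d, ?_, Nat.card_zmultiples d, F'.biUnion id, ?_, F'.card,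
    ∑ U ∈ F', a U, ?_, ?_, ?_⟩
  · rw [Ne, AddSubgroup.zmultiples_eq_bot]; exact hd
  · intro x hx
    obtain ⟨U, hU, hxU⟩ := mem_biUnion.1 hx
    exact (hF U (hF' hU)).1 hxU
  · calc (F'.biUnion id).card ≤ ∑ U ∈ F', (id U).card := card_biUnion_le
      _ ≤ ∑ _U ∈ F', 2 := sum_le_sum (fun U hU => (hF U (hF' hU)).2.1)
      _ = 2 * F'.card := by rw [sum_const, smul_eq_mul, mul_comm]
  · rw [Nat.card_zmultiples, hF'c]; omega
  · intro t ht
    rw [mem_zmultiples_iff_mem_range_addOrderOf, mem_image] at ht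
    obtain ⟨j, hj, hjt⟩ := ht
    rw [mem_range] at hj
    obtain ⟨J, hJ, hJc⟩ := Finset.exists_subset_card_eq (s := F') (n := j) (by omega)
    have h := Rc.biUnion (A := A) F' (fun U hU U' hU' => hFd U (hF' hU) U' (hF' hU'))
      (fun U => a U + if U ∈ J then d else 0) (by
        intro U hU
        by_cases hUJ : U ∈ J
        · simp only [hUJ, if_true]; exact (ha U (hF' hU)).2
        · simp only [hUJ, if_false, add_zero]; exact (ha U (hF' hU)).1)
    have hs : ∑ U ∈ F', (a U + if U ∈ J then d else 0) = t := by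
      rw [sum_add_distrib, ← sum_filter, Finset.filter_mem_eq_inter,
        Finset.inter_eq_right.2 hJ, sum_const, hJc]
      have : j • d = t - ∑ U ∈ F', a U := hjt
      rw [this]; abel
    rw [hs] at h
    exact h

private theorem gain_step {W : Type} {m : ℕ} [NeZero m] (A : W → Finset (ZMod m)) (X : Finset W)
    (n C t : ℕ) (hn : 2 ≤ n) (hC : 2 * (t + 1) + 2 * (2 * n) ^ 3 < C)
    (hX : ∀ x ∈ X, (A x).Nonempty) (he : ∀ b, C ≤ (exc A X ⊥ b).card)
    (U : Finset W) (hU : U ⊆ X) (hUc : U.card ≤ 2 * (t + 1)) (S : Finset (ZMod m))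
    (hS : 2 * (t + 1) ≤ S.card) (hSn : S.card ≤ n) (hR : ∀ s ∈ S, Rc A U (t + 1) s) :
    (∃ U' ⊆ X, U'.card ≤ 2 * (t + 2) ∧ ∃ S' : Finset (ZMod m), 2 * (t + 2) ≤ S'.card ∧
      S'.card ≤ 2 * S.card ∧ ∀ s ∈ S', Rc A U' (t + 2) s) ∨
    (∃ Λ : AddSubgroup (ZMod m), Λ ≠ ⊥ ∧ Nat.card Λ ≤ C ∧ ∃ U ⊆ X, ∃ k c, U.card ≤ 2 * k ∧
        k + 1 ≤ Nat.card Λ ∧ ∀ t, t - c ∈ Λ → Rc A U k t) ∨
    (∃ b d, d ≠ 0 ∧ (X.filter (fun x => ∃ a ∈ A x, a ≠ b ∧ a ≠ b + d)).card ≤ C) := by
  classical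
  obtain ⟨F, hF1, hF2, hF3⟩ := exists_fam (X \ U) (GU A (2 * n))
    (fun V hV => rc_one_nonempty hV.2.choose_spec.choose_spec.2.2.1)
  have hn3 : (2 * n) ^ 2 * (2 * n) = (2 * n) ^ 3 := by ring
  have hn4 : 2 * n ≤ (2 * n) ^ 3 := by
    calc 2 * n = (2 * n) ^ 1 := (pow_one _).symm
      _ ≤ (2 * n) ^ 3 := Nat.pow_le_pow_right (by omega) (by norm_num)
  by_cases hFc : (2 * n) ^ 3 < F.card
  · -- many units with small differences
    right; left
    choose! a d hd0 hdn ha1 ha2 using fun V (hV : V ∈ F) => (hF1 V hV).2.2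
    obtain ⟨y, hy, hyc⟩ := Finset.exists_lt_card_fiber_of_mul_lt_card_of_maps_to
      (s := F) (t := univ.filter (fun x : ZMod m => addOrderOf x ≤ 2 * n)) (f := d) (n := 2 * n)
      (fun V hV => by rw [mem_filter]; exact ⟨mem_univ _, hdn V hV⟩)
      (by
        calc _ ≤ (2 * n) ^ 2 * (2 * n) := Nat.mul_le_mul_right _ (card_short m (2 * n))
          _ = (2 * n) ^ 3 := hn3
          _ < F.card := hFc)
    rw [mem_filter] at hy
    have hne : (F.filter (fun V => d V = y)).Nonempty := by rw [← Finset.card_pos]; omega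
    obtain ⟨V0, hV0⟩ := hne
    rw [mem_filter] at hV0
    have hy0 : y ≠ 0 := by rw [← hV0.2]; exact hd0 V0 hV0.1
    obtain ⟨Λ, h1, h2, V, hV, k, c, h3, h4, h5⟩ := gain_cyc A X y hy0 (F.filter (fun V => d V = y))
      (by
        intro V hV
        rw [mem_filter] at hV
        refine ⟨(hF1 V hV.1).1.trans sdiff_subset, (hF1 V hV.1).2.1, a V, ha1 V hV.1, ?_⟩
        rw [← hV.2]; exact ha2 V hV.1)
      (fun V hV V' hV' => hF2 V (mem_filter.1 hV).1 V' (mem_filter.1 hV').1) (by omega)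
    exact ⟨Λ, h1, by omega, V, hV, k, c, h3, h4, h5⟩
  · have hFb : (F.biUnion id).card ≤ 2 * (2 * n) ^ 3 := by
      calc (F.biUnion id).card ≤ ∑ V ∈ F, (id V).card := card_biUnion_le
        _ ≤ ∑ _V ∈ F, 2 := sum_le_sum (fun V hV => (hF1 V hV).2.1)
        _ = 2 * F.card := by rw [sum_const, smul_eq_mul, mul_comm]
        _ ≤ 2 * (2 * n) ^ 3 := by omega
    set B : Finset W := U ∪ F.biUnion id with hB
    have hBc : B.card < C := by
      calc B.card ≤ U.card + (F.biUnion id).card := card_union_le _ _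
        _ < C := by omega
    -- a pair of labels outside B
    have hpair : ∀ x ∈ X, x ∉ B → ∀ x' ∈ X, x' ∉ B → ∀ a ∈ A x, ∀ a' ∈ A x', a' - a ≠ 0 →
        2 * n < addOrderOf (a' - a) := by
      intro x hx hxB x' hx' hxB' a ha a' ha' hne
      by_contra hcon
      rw [hB, mem_union, not_or] at hxB hxB'
      refine hF3 {x, x'} ?_ ?_ ⟨card_le_two, a, a' - a, hne, by omega, ?_, ?_⟩
      · intro z hz
        rw [mem_insert, mem_singleton] at hz
        rcases hz with rfl | rfl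
        · exact mem_sdiff.2 ⟨hx, hxB.1⟩
        · exact mem_sdiff.2 ⟨hx', hxB'.1⟩
      · rw [Finset.disjoint_left]
        intro z hz
        rw [mem_insert, mem_singleton] at hz
        rcases hz with rfl | rfl
        · exact hxB.2
        · exact hxB'.2
      · exact Rc.one (mem_insert_self _ _) ha
      · rw [add_sub_cancel]
        exact Rc.one (mem_insert_of_mem (mem_singleton_self _)) ha'
    by_cases hbig : ∃ x ∈ X, x ∉ B ∧ ∃ x' ∈ X, x' ∉ B ∧ ∃ a ∈ A x, ∃ a' ∈ A x',
        S.card + 2 ≤ (S ∪ S.image (fun s => s + (a' - a))).card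
    · left
      obtain ⟨x, hx, hxB, x', hx', hxB', a, ha, a', ha', hcard⟩ := hbig
      rw [hB, mem_union, not_or] at hxB hxB'
      have hdisj : Disjoint U {x, x'} := by
        rw [Finset.disjoint_right]
        intro z hz
        rw [mem_insert, mem_singleton] at hz
        rcases hz with rfl | rfl
        · exact hxB.1
        · exact hxB'.1
      refine ⟨U ∪ {x, x'}, ?_, ?_, (S ∪ S.image (fun s => s + (a' - a))).image (fun s => s + a),
        ?_, ?_, ?_⟩
      · intro z hz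
        rw [mem_union, mem_insert, mem_singleton] at hz
        rcases hz with hz | rfl | rfl
        · exact hU hz
        · exact hx
        · exact hx'
      · calc (U ∪ {x, x'}).card ≤ U.card + ({x, x'} : Finset W).card := card_union_le _ _
          _ ≤ 2 * (t + 1) + 2 := Nat.add_le_add hUc card_le_two
          _ = 2 * (t + 2) := by ring
      · rw [card_image_of_injective _ (add_left_injective a)]
        omega
      · calc _ ≤ (S ∪ S.image (fun s => s + (a' - a))).card := card_image_le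
          _ ≤ S.card + (S.image (fun s => s + (a' - a))).card := card_union_le _ _
          _ ≤ S.card + S.card := Nat.add_le_add_left card_image_le _
          _ = 2 * S.card := by ring
      · intro s hs
        rw [mem_image] at hs
        obtain ⟨s1, hs1, rfl⟩ := hs
        rw [mem_union, mem_image] at hs1
        rcases hs1 with hs1 | ⟨s2, hs2, rfl⟩
        · exact (hR s1 hs1).add' (Rc.one (mem_insert_self _ _) ha) hdisj
        · have h := (hR s2 hs2).add' (Rc.one (A := A) (U := {x, x'}) (x := x')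
            (mem_insert_of_mem (mem_singleton_self _)) ha') hdisj
          have : s2 + (a' - a) + a = s2 + a' := by abel
          rw [this]
          exact h
    · right; right
      push Not at hbig
      have hsm : ∀ x ∈ X, x ∉ B → ∀ x' ∈ X, x' ∉ B → ∀ a ∈ A x, ∀ a' ∈ A x',
          (S ∪ S.image (fun s => s + (a' - a))).card ≤ S.card + 1 := by
        intro x hx hxB x' hx' hxB' a ha a' ha'
        have := hbig x hx hxB x' hx' hxB' a ha a' ha'
        omega
      -- two labels outside B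
      have hex : ∀ b, ∃ x ∈ X, x ∉ B ∧ ∃ a ∈ A x, a ≠ b := by
        intro b
        have h1 : ∃ x ∈ exc A X ⊥ b, x ∉ B := by
          by_contra hcon
          push Not at hcon
          have := card_le_card (show exc A X ⊥ b ⊆ B from hcon)
          have := he b
          omega
        obtain ⟨x, hx, hxB⟩ := h1
        unfold exc at hx
        rw [mem_filter] at hx
        obtain ⟨hx, a, ha, hab⟩ := hx
        rw [AddSubgroup.mem_bot, sub_eq_zero] at hab
        exact ⟨x, hx, hxB, a, ha, hab⟩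
      obtain ⟨x0, hx0, hx0B, b0, hb0, -⟩ := hex 0
      obtain ⟨x1, hx1, hx1B, b1, hb1, hb1n⟩ := hex b0
      have hd0 : b1 - b0 ≠ 0 := sub_ne_zero.2 hb1n
      have hord := hpair x0 hx0 hx0B x1 hx1 hx1B b0 hb0 b1 hb1 hd0
      have hS1 := hsm x0 hx0 hx0B x1 hx1 hx1B b0 hb0 b1 hb1
      have hkey : ∀ x ∈ X, x ∉ B → ∀ x' ∈ X, x' ∉ B → ∀ a ∈ A x, ∀ a' ∈ A x',
          a' - a = 0 ∨ a' - a = b1 - b0 ∨ a' - a = -(b1 - b0) := by
        intro x hx hxB x' hx' hxB' a ha a' ha'
        by_cases h0 : a' - a = 0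
        · exact Or.inl h0
        · right
          refine ap_unique S n (by omega) hSn (b1 - b0) (a' - a) (Or.inr hord)
            (Or.inr (hpair x hx hxB x' hx' hxB' a ha a' ha' h0)) ?_ ?_
          · refine (card_le_card (fun y hy => ?_)).trans hS1
            rw [@mem_union _ (_), @mem_image _ _ (_)] at hy ⊢
            exact hy
          · refine (card_le_card (fun y hy => ?_)).trans (hsm x hx hxB x' hx' hxB' a ha a' ha')
            rw [@mem_union _ (_), @mem_image _ _ (_)] at hy ⊢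
            exact hy
      refine ⟨b0, b1 - b0, hd0, ?_⟩
      refine le_trans (card_le_card (t := B) ?_) hBc.le
      intro x hx
      rw [mem_filter] at hx
      obtain ⟨hx, a, ha, h1, h2⟩ := hx
      by_contra hxB
      have hk0 := hkey x0 hx0 hx0B x hx hxB b0 hb0 a ha
      have hk1 := hkey x1 hx1 hx1B x hx hxB b1 hb1 a ha
      have hno : ∀ k : ℕ, 1 ≤ k → k ≤ 3 → k • (b1 - b0) ≠ 0 := by
        intro k hk1 hk3 h
        have := addOrderOf_le_of_nsmul_eq_zero hk1 h
        omega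
      rcases hk0 with h | h | h
      · exact h1 (sub_eq_zero.1 h)
      · apply h2
        rw [← h]; abel
      · have ha' : a = b0 - (b1 - b0) := by
          have : a = (a - b0) + b0 := by abel
          rw [this, h]; abel
        rw [ha'] at hk1
        rcases hk1 with h' | h' | h'
        · apply hno 2 (by norm_num) (by norm_num)
          have : (2 : ℕ) • (b1 - b0) = -(b0 - (b1 - b0) - b1) := by rw [two_nsmul]; abel
          rw [this, h', neg_zero]
        · apply hno 3 (by norm_num) (by norm_num)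
          have : (3 : ℕ) • (b1 - b0) = (b1 - b0) - (b0 - (b1 - b0) - b1) := by
            rw [show (3 : ℕ) = 2 + 1 from rfl, succ_nsmul, two_nsmul]; abel
          rw [this, h', sub_self]
        · apply hno 1 (by norm_num) (by norm_num)
          have : (1 : ℕ) • (b1 - b0) = -(b1 - b0) - (b0 - (b1 - b0) - b1) := by
            rw [one_nsmul]; abel
          rw [this, h', sub_self]

/-- ROW GAIN. Uses SHORT, APU, CU. -/
theorem gain (g : ℕ) : ∃ C : ℕ, ∀ (m : ℕ) [NeZero m] (W : Type) (A : W → Finset (ZMod m))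
    (X : Finset W), (∀ x ∈ X, (A x).Nonempty) → (∀ b, C ≤ (exc A X ⊥ b).card) →
    (∃ U ⊆ X, U.card ≤ 2 * (g + 1) ∧ ∃ S : Finset (ZMod m), 2 * (g + 1) ≤ S.card ∧
        ∀ t ∈ S, Rc A U (g + 1) t) ∨
    (∃ Λ : AddSubgroup (ZMod m), Λ ≠ ⊥ ∧ Nat.card Λ ≤ C ∧ ∃ U ⊆ X, ∃ k c, U.card ≤ 2 * k ∧
        k + 1 ≤ Nat.card Λ ∧ ∀ t, t - c ∈ Λ → Rc A U k t) ∨
    (∃ b d, d ≠ 0 ∧ (X.filter (fun x => ∃ a ∈ A x, a ≠ b ∧ a ≠ b + d)).card ≤ C) := by
  classical
  refine ⟨2 * (g + 1) + 2 * (2 * 2 ^ (g + 1)) ^ 3 + 1, ?_⟩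
  intro m _ W A X hX he
  set C := 2 * (g + 1) + 2 * (2 * 2 ^ (g + 1)) ^ 3 + 1 with hC
  by_cases h2 : (∃ Λ : AddSubgroup (ZMod m), Λ ≠ ⊥ ∧ Nat.card Λ ≤ C ∧ ∃ U ⊆ X, ∃ k c,
      U.card ≤ 2 * k ∧ k + 1 ≤ Nat.card Λ ∧ ∀ t, t - c ∈ Λ → Rc A U k t) ∨
    (∃ b d, d ≠ 0 ∧ (X.filter (fun x => ∃ a ∈ A x, a ≠ b ∧ a ≠ b + d)).card ≤ C)
  · exact Or.inr h2
  left
  have hmain : ∀ t, t ≤ g → ∃ U ⊆ X, U.card ≤ 2 * (t + 1) ∧ ∃ S : Finset (ZMod m),
      2 * (t + 1) ≤ S.card ∧ S.card ≤ 2 ^ (t + 1) ∧ ∀ s ∈ S, Rc A U (t + 1) s := by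
    intro t
    induction t with
    | zero =>
      intro _
      have hex : ∀ b, ∃ x ∈ X, ∃ a ∈ A x, a ≠ b := by
        intro b
        have h1 : (exc A X ⊥ b).Nonempty := by
          rw [← Finset.card_pos]
          have := he b
          omega
        obtain ⟨x, hx⟩ := h1
        unfold exc at hx
        rw [mem_filter] at hx
        obtain ⟨hx, a, ha, hab⟩ := hx
        rw [AddSubgroup.mem_bot, sub_eq_zero] at hab
        exact ⟨x, hx, a, ha, hab⟩
      obtain ⟨x0, hx0, b0, hb0, -⟩ := hex 0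
      obtain ⟨x1, hx1, b1, hb1, hb1n⟩ := hex b0
      refine ⟨{x0, x1}, ?_, card_le_two, {b0, b1}, ?_, card_le_two, ?_⟩
      · intro z hz
        rw [mem_insert, mem_singleton] at hz
        rcases hz with rfl | rfl
        · exact hx0
        · exact hx1
      · rw [card_pair (Ne.symm hb1n)]
      · intro s hs
        rw [mem_insert, mem_singleton] at hs
        rcases hs with rfl | rfl
        · exact Rc.one (mem_insert_self _ _) hb0
        · exact Rc.one (mem_insert_of_mem (mem_singleton_self _)) hb1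
    | succ t ih =>
      intro ht
      obtain ⟨U, hU, hUc, S, hS, hSc, hR⟩ := ih (by omega)
      have hp1 : 2 ^ (t + 1) ≤ 2 ^ (g + 1) := Nat.pow_le_pow_right (by norm_num) (by omega)
      have hp2 : 2 ≤ 2 ^ (g + 1) := by
        calc 2 = 2 ^ 1 := (pow_one _).symm
          _ ≤ 2 ^ (g + 1) := Nat.pow_le_pow_right (by norm_num) (by omega)
      rcases gain_step A X (2 ^ (g + 1)) C t hp2 (by omega) hX he U hU hUc S hS
        (hSc.trans hp1) hR with h | h
      · obtain ⟨U', hU', hUc', S', hS', hSc', hR'⟩ := h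
        refine ⟨U', hU', hUc', S', hS', ?_, hR'⟩
        calc S'.card ≤ 2 * S.card := hSc'
          _ ≤ 2 * 2 ^ (t + 1) := by omega
          _ = 2 ^ (t + 1 + 1) := by rw [pow_succ]; ring
      · exact absurd h h2
  obtain ⟨U, hU, hUc, S, hS, -, hR⟩ := hmain g le_rfl
  exact ⟨U, hU, hUc, S, hS, hR⟩

end ZSA
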