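import Pool.Agent.ZSA.Defs

/-!
# The theorem of Moser and Scherk on sums of sets in which zero has one representation
-/

namespace ZSA

open Finset Classical ZST

/-- ROW SCHERK. -/
theorem scherk {G : Type} [AddCommGroup G] (A B : Finset G) (hA : 0 ∈ A) (hB : 0 ∈ B)
    (hu : ∀ a ∈ A, ∀ b ∈ B, a + b = 0 → a = 0 ∧ b = 0) :
    A.card + B.card ≤ ((A ×ˢ B).image (fun x => x.1 + x.2)).card + 1 := by
  induction hn : B.card using Nat.strong_induction_on generalizing A B with
  | _ n ih =>
    by_cases hB1 : ∃ b ∈ B, b ≠ 0
    · obtain ⟨b0, hb0, hb0'⟩ := hB1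
      have hex : ∃ e ∈ A, ∃ b ∈ B, e + b ∉ A := by
        by_contra hcon
        push Not at hcon
        have hsub : A.image (fun a => a + b0) ⊆ A := by
          intro x hx
          obtain ⟨a, ha, rfl⟩ := mem_image.1 hx
          exact hcon a ha b0 hb0
        have hc : (A.image (fun a => a + b0)).card = A.card :=
          card_image_of_injective _ (add_left_injective b0)
        have heq : A.image (fun a => a + b0) = A := eq_of_subset_of_card_le hsub hc.ge
        rw [← heq] at hA
        obtain ⟨a, ha, ha0⟩ := mem_image.1 hA
        exact hb0' (hu a ha b0 hb0 ha0).2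
      obtain ⟨e, he, b, hb, hbe⟩ := hex
      set A' := A ∪ B.image (fun y => e + y) with hA'
      set B' := B.filter (fun y => e + y ∈ A) with hB'
      have hlt : B'.card < n := by
        rw [← hn]
        apply card_lt_card
        refine ⟨filter_subset _ _, fun h => ?_⟩
        exact hbe (mem_filter.1 (h hb)).2
      have hcard : A'.card + B'.card = A.card + B.card := by
        have h1 : A ∩ B.image (fun y => e + y) = B'.image (fun y => e + y) := by
          ext x
          simp only [mem_inter, mem_image, hB', mem_filter]
          constructor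
          · rintro ⟨h, y, hy, rfl⟩
            exact ⟨y, ⟨hy, h⟩, rfl⟩
          · rintro ⟨y, ⟨hy, h⟩, rfl⟩
            exact ⟨h, y, hy, rfl⟩
        have h2 : (B'.image (fun y => e + y)).card = B'.card :=
          card_image_of_injective _ (add_right_injective e)
        have h3 : (B.image (fun y => e + y)).card = B.card :=
          card_image_of_injective _ (add_right_injective e)
        have h4 := card_union_add_card_inter A (B.image (fun y => e + y))
        rw [h1, h2, h3] at h4
        exact h4
      have hA0 : 0 ∈ A' := mem_union_left _ hA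
      have hB0 : 0 ∈ B' := mem_filter.2 ⟨hB, by rwa [add_zero]⟩
      have hu' : ∀ x ∈ A', ∀ y ∈ B', x + y = 0 → x = 0 ∧ y = 0 := by
        intro x hx y hy hxy
        obtain ⟨hyB, hyA⟩ := mem_filter.1 hy
        rcases mem_union.1 hx with hx | hx
        · exact hu x hx y hyB hxy
        · obtain ⟨z, hz, rfl⟩ := mem_image.1 hx
          have h1 : (e + y) + z = 0 := by
            rw [← hxy]
            abel
          obtain ⟨h2, h3⟩ := hu _ hyA z hz h1
          obtain ⟨h4, h5⟩ := hu e he y hyB h2
          exact ⟨by rw [h4, h3, add_zero], h5⟩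
      have h5 := ih _ hlt A' B' hA0 hB0 hu' rfl
      have hsub : (A' ×ˢ B').image (fun x => x.1 + x.2) ⊆
          (A ×ˢ B).image (fun x => x.1 + x.2) := by
        intro s hs
        obtain ⟨⟨x, y⟩, hxy, rfl⟩ := mem_image.1 hs
        obtain ⟨hx, hy⟩ := mem_product.1 hxy
        obtain ⟨hyB, hyA⟩ := mem_filter.1 hy
        rcases mem_union.1 hx with hx | hx
        · exact mem_image.2 ⟨(x, y), mem_product.2 ⟨hx, hyB⟩, rfl⟩
        · obtain ⟨z, hz, hz'⟩ := mem_image.1 hx
          refine mem_image.2 ⟨(e + y, z), mem_product.2 ⟨hyA, hz⟩, ?_⟩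
          show e + y + z = x + y
          have hz'' : x = e + z := hz'.symm
          rw [hz'']
          abel
      have h6 := card_le_card hsub
      omega
    · push Not at hB1
      have hB2 : B = {0} := by
        apply eq_singleton_iff_unique_mem.2
        exact ⟨hB, hB1⟩
      have hc : n = 1 := by
        rw [← hn, hB2, card_singleton]
      have hsub : A ⊆ (A ×ˢ B).image (fun x => x.1 + x.2) := by
        intro a ha
        exact mem_image.2 ⟨(a, 0), mem_product.2 ⟨ha, hB⟩, add_zero a⟩
      have h6 := card_le_card hsub
      omega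

end ZSA
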