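import Pool.Agent.ZSA.Defs
import Pool.Agent.ZSA.SCHERK

/-!
# ZSA, row ROOTM: a tree with `m` edges has a zero-sum subtree with at least one edge
-/

namespace ZSA

open Finset Classical ZST

variable {V : Type} [Fintype V] [DecidableEq V]

section aux

variable {U : Type} [DecidableEq U]

/-- joining two disjoint trees by an edge -/
private theorem rtm_join {G : Type} [AddCommGroup G] {E : U → U → Prop} {w : U → U → G}
    (hE : ∀ u v, E u v → E v u) (hsym : ∀ u v, w u v = w v u) {T : Finset U} {b : G}
    (hT : TR E w T b) :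
    ∀ (S : Finset U) (a : G) (r c : U), TR E w S a → r ∈ S → c ∈ T → Disjoint S T → E r c →
      TR E w (S ∪ T) (a + w r c + b) := by
  induction hT with
  | single v =>
    intro S a r c hS hr hc hd he
    rw [mem_singleton] at hc
    subst hc
    rw [disjoint_singleton_right] at hd
    have h := TR.add hS hr hd he
    have e : S ∪ {c} = insert c S := by
      ext x; simp only [mem_union, mem_singleton, mem_insert]; tauto
    rw [e, add_zero]
    exact h
  | @add T b u v hT hu hv he ih =>
    intro S a r c hS hr hc hd her
    have hd1 : Disjoint S T := hd.mono_right (subset_insert v T)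
    have hvS : v ∉ S := fun h => (disjoint_left.1 hd h) (mem_insert_self v T)
    rcases eq_or_ne c v with hcv | hcv
    · subst hcv
      have h1 := TR.add hS hr hvS her
      have hd2 : Disjoint (insert c S) T := by
        rw [disjoint_insert_left]; exact ⟨hv, hd1⟩
      have h2 := ih (insert c S) (a + w r c) c u h1 (mem_insert_self c S) hu hd2 (hE _ _ he)
      have e : insert c S ∪ T = S ∪ insert c T := by
        ext x; simp only [mem_union, mem_insert]; tauto
      have e2 : a + w r c + w c u + b = a + w r c + (b + w u c) := by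
        rw [hsym c u]; abel
      rw [e, e2] at h2
      exact h2
    · have hcT : c ∈ T := by
        rcases mem_insert.1 hc with h | h
        · exact absurd h hcv
        · exact h
      have h1 := ih S a r c hS hr hcT hd1 her
      have hv2 : v ∉ S ∪ T := by
        rw [mem_union]; tauto
      have h2 := TR.add h1 (mem_union_right S hu) hv2 he
      have e : insert v (S ∪ T) = S ∪ insert v T := by
        ext x; simp only [mem_union, mem_insert]; tauto
      have e2 : a + w r c + b + w u v = a + w r c + (b + w u v) := by abel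
      rw [e, e2] at h2
      exact h2

/-- rooted trees -/
private inductive RtmT (E : U → U → Prop) : U → Finset U → Prop
  | single (v : U) : RtmT E v {v}
  | join {r c : U} {S T : Finset U} (h1 : RtmT E r S) (h2 : RtmT E c T) (hd : Disjoint S T)
      (he : E r c) : RtmT E r (S ∪ T)

private theorem rtm_mem {E : U → U → Prop} {r : U} {S : Finset U} (h : RtmT E r S) : r ∈ S := by
  induction h with
  | single v => exact mem_singleton_self v
  | join h1 h2 hd he ih1 ih2 => exact mem_union_left _ ih1

private theorem rtm_leaf {E : U → U → Prop} {r : U} {S : Finset U} (h : RtmT E r S)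
    {u v : U} (he : E u v) : u ∈ S → v ∉ S → RtmT E r (insert v S) := by
  induction h with
  | single x =>
    intro hu hv
    rw [mem_singleton] at hu hv
    subst hu
    have h := RtmT.join (RtmT.single (E := E) u) (RtmT.single (E := E) v)
      (by rw [disjoint_singleton_right, mem_singleton]; exact hv) he
    have e : ({u} ∪ {v} : Finset U) = insert v {u} := by
      ext x; simp only [mem_union, mem_singleton, mem_insert]; tauto
    rw [← e]
    exact h
  | @join r c S T h1 h2 hd her ih1 ih2 =>
    intro hu hv
    rw [mem_union, not_or] at hv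
    by_cases huS : u ∈ S
    · have h := RtmT.join (ih1 huS hv.1) h2
        (by rw [disjoint_insert_left]; exact ⟨hv.2, hd⟩) her
      have e : insert v S ∪ T = insert v (S ∪ T) := by
        ext x; simp only [mem_union, mem_insert]; tauto
      rw [← e]; exact h
    · have huT : u ∈ T := by
        rcases mem_union.1 hu with h | h
        · exact absurd h huS
        · exact h
      have h := RtmT.join h1 (ih2 huT hv.2)
        (by rw [disjoint_insert_right]; exact ⟨hv.1, hd⟩) her
      have e : S ∪ insert v T = insert v (S ∪ T) := by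
        ext x; simp only [mem_union, mem_insert]; tauto
      rw [← e]; exact h

private theorem rtm_of_tr {G : Type} [AddCommGroup G] {E : U → U → Prop} {w : U → U → G}
    (hE : ∀ u v, E u v → E v u) {S : Finset U} {s : G} (h : TR E w S s) :
    ∀ r ∈ S, RtmT E r S := by
  induction h with
  | single v =>
    intro r hr
    rw [mem_singleton] at hr
    subst hr
    exact RtmT.single r
  | @add S s u v hS hu hv he ih =>
    intro r hr
    rcases eq_or_ne r v with hrv | hrv
    · subst hrv
      have h := RtmT.join (RtmT.single (E := E) r) (ih u hu)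
        (by rw [disjoint_singleton_left]; exact hv) (hE _ _ he)
      have e : ({r} ∪ S : Finset U) = insert r S := by
        ext x; simp only [mem_union, mem_singleton, mem_insert]
      rw [← e]; exact h
    · have hrS : r ∈ S := by
        rcases mem_insert.1 hr with h | h
        · exact absurd h hrv
        · exact h
      exact rtm_leaf (ih r hrS) he hu hv

variable {m : ℕ} [NeZero m]

/-- the sums of the subtrees of `S` which contain `r` -/
private noncomputable def rtmA (E : U → U → Prop) (w : U → U → ZMod m) (r : U) (S : Finset U) :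
    Finset (ZMod m) :=
  univ.filter (fun a => ∃ S' ⊆ S, r ∈ S' ∧ TR E w S' a)

private theorem rtm_memA {E : U → U → Prop} {w : U → U → ZMod m} {r : U} {S : Finset U}
    {a : ZMod m} : a ∈ rtmA E w r S ↔ ∃ S' ⊆ S, r ∈ S' ∧ TR E w S' a := by
  unfold rtmA
  rw [mem_filter]
  exact ⟨fun h => h.2, fun h => ⟨mem_univ _, h⟩⟩

private theorem rtm_zero {E : U → U → Prop} {w : U → U → ZMod m} {r : U} {S : Finset U}
    (hr : r ∈ S) : (0 : ZMod m) ∈ rtmA E w r S :=
  rtm_memA.2 ⟨{r}, by simpa using hr, mem_singleton_self r, TR.single r⟩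

private theorem rtm_comb {E : U → U → Prop} {w : U → U → ZMod m}
    (hE : ∀ u v, E u v → E v u) (hsym : ∀ u v, w u v = w v u) {r c : U} {S T : Finset U}
    (hd : Disjoint S T) (he : E r c) {a b : ZMod m} (ha : a ∈ rtmA E w r S)
    (hb : b ∈ rtmA E w c T) :
    ∃ S' ⊆ S ∪ T, r ∈ S' ∧ 2 ≤ S'.card ∧ TR E w S' (a + w r c + b) := by
  obtain ⟨S1, hS1, hr1, hT1⟩ := rtm_memA.1 ha
  obtain ⟨S2, hS2, hr2, hT2⟩ := rtm_memA.1 hb
  have hd' : Disjoint S1 S2 := hd.mono hS1 hS2
  refine ⟨S1 ∪ S2, union_subset_union hS1 hS2, mem_union_left _ hr1, ?_,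
    rtm_join hE hsym hT2 S1 a r c hT1 hr1 hr2 hd' he⟩
  rw [card_union_of_disjoint hd']
  have h1 : 0 < S1.card := card_pos.2 ⟨r, hr1⟩
  have h2 : 0 < S2.card := card_pos.2 ⟨c, hr2⟩
  omega

private theorem rtm_main {E : U → U → Prop} {w : U → U → ZMod m}
    (hE : ∀ u v, E u v → E v u) (hsym : ∀ u v, w u v = w v u) {r : U} {S : Finset U}
    (h : RtmT E r S) : (∃ S' ⊆ S, 2 ≤ S'.card ∧ TR E w S' 0) ∨
      S.card ≤ (rtmA E w r S).card := by
  induction h with
  | single v =>
    right
    rw [card_singleton]
    exact card_pos.2 ⟨0, rtm_zero (mem_singleton_self v)⟩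
  | @join r c S T h1 h2 hd he ih1 ih2 =>
    rcases ih1 with ⟨S', hS', h⟩ | hA
    · exact Or.inl ⟨S', hS'.trans subset_union_left, h⟩
    rcases ih2 with ⟨S', hS', h⟩ | hB
    · exact Or.inl ⟨S', hS'.trans subset_union_right, h⟩
    by_cases h0 : ∃ a ∈ rtmA E w r S, ∃ b ∈ rtmA E w c T, a + w r c + b = 0
    · left
      obtain ⟨a, ha, b, hb, hab⟩ := h0
      obtain ⟨S', hS', _, hc', ht⟩ := rtm_comb hE hsym hd he ha hb
      exact ⟨S', hS', hc', by rwa [hab] at ht⟩
    · right
      push Not at h0
      set A := rtmA E w r S with hAdef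
      set B := rtmA E w c T with hBdef
      have hA0 : (0 : ZMod m) ∈ A := rtm_zero (rtm_mem h1)
      set X := insert (0 : ZMod m) (B.image (fun b => w r c + b)) with hX
      have hXc : X.card = B.card + 1 := by
        rw [hX, card_insert_of_notMem, card_image_of_injective _ (add_right_injective _)]
        rw [mem_image]
        rintro ⟨b, hb, hb0⟩
        exact h0 0 hA0 b hb (by rw [zero_add]; exact hb0)
      have hu : ∀ a ∈ A, ∀ x ∈ X, a + x = 0 → a = 0 ∧ x = 0 := by
        intro a ha x hx hax
        rw [hX, mem_insert, mem_image] at hx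
        rcases hx with rfl | ⟨b, hb, rfl⟩
        · exact ⟨by rwa [add_zero] at hax, rfl⟩
        · exact absurd (by rw [add_assoc]; exact hax) (h0 a ha b hb)
      have hcd : A.card + X.card ≤ ((A ×ˢ X).image (fun x => x.1 + x.2)).card + 1 := by
        refine (scherk A X hA0 (mem_insert_self _ _) hu).trans
          (Nat.add_le_add_right (card_le_card (fun y hy => ?_)) 1)
        rw [@mem_image _ _ (_)] at hy ⊢
        exact hy
      have hsub : (A ×ˢ X).image (fun x => x.1 + x.2) ⊆ rtmA E w r (S ∪ T) := by
        intro z hz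
        obtain ⟨⟨a, x⟩, hax, rfl⟩ := mem_image.1 hz
        obtain ⟨ha, hx⟩ := mem_product.1 hax
        simp only at ha hx ⊢
        rw [hX, mem_insert, mem_image] at hx
        rcases hx with rfl | ⟨b, hb, rfl⟩
        · obtain ⟨S1, hS1, hr1, hT1⟩ := rtm_memA.1 ha
          rw [add_zero]
          exact rtm_memA.2 ⟨S1, hS1.trans subset_union_left, hr1, hT1⟩
        · obtain ⟨S', hS', hr', _, ht⟩ := rtm_comb hE hsym hd he ha hb
          rw [← add_assoc]
          exact rtm_memA.2 ⟨S', hS', hr', ht⟩
      have hcard := card_le_card hsub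
      rw [card_union_of_disjoint hd]
      omega

end aux

/-- ROW ROOTM. A tree with `m` edges has a zero-sum subtree with at least one edge. -/
theorem zero_subtree' {m : ℕ} [NeZero m] {H : SimpleGraph V} {w : V → V → ZMod m}
    (hsym : ∀ u v, w u v = w v u) {S : Finset V} {s : ZMod m} (hT : TR H.Adj w S s)
    (hc : S.card = m + 1) : ∃ S' ⊆ S, 2 ≤ S'.card ∧ TR H.Adj w S' 0 := by
  have hE : ∀ u v, H.Adj u v → H.Adj v u := fun u v h => h.symm
  have hne : S.Nonempty := by
    rw [← card_pos, hc]; omega
  obtain ⟨r, hr⟩ := hne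
  rcases rtm_main hE hsym (rtm_of_tr hE hT r hr) with h | h
  · exact h
  · exfalso
    have h1 : (rtmA H.Adj w r S).card ≤ Fintype.card (ZMod m) := card_le_univ _
    rw [ZMod.card] at h1
    omega

end ZSA
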