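import Pool.Agent.ZSA.Defs
import Pool.Agent.ZSA.ROOTM
import Pool.Agent.ZST.GROW

/-! # ZSA: row KEYM -/

namespace ZSA

open Finset Classical ZST

variable {V : Type} [Fintype V] [DecidableEq V]


private theorem key_mono {G : Type} [AddCommGroup G] {E E' : V → V → Prop} {w : V → V → G}
    (hE : ∀ u v, E u v → E' u v) {S : Finset V} {s : G} (h : TR E w S s) : TR E' w S s := by
  induction h with
  | single v => exact TR.single v
  | add _ hu hv he ih => exact TR.add ih hu hv (hE _ _ he)

private theorem key_pos {G : Type} [AddCommGroup G] {E : V → V → Prop} {w : V → V → G}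
    {S : Finset V} {s : G} (h : TR E w S s) : 1 ≤ S.card := by
  induction h with
  | single v => simp
  | add _ _ hv _ ih =>
    rw [card_insert_of_notMem hv]
    omega

private theorem key_shift {G : Type} [AddCommGroup G] {E : V → V → Prop} {w : V → V → G} (b : G)
    {S : Finset V} {s : G} (h : TR E w S s) :
    TR E (fun u v => w u v + b) S (s + (S.card - 1) • b) := by
  induction h with
  | single v =>
    have := TR.single (E := E) (w := fun u v => w u v + b) v
    simpa using this
  | @add S s u v h hu hv he ih =>
    have h1 := TR.add ih hu hv he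
    have h2 := key_pos h
    have h3 : s + w u v + ((insert v S).card - 1) • b =
        s + (S.card - 1) • b + (w u v + b) := by
      rw [card_insert_of_notMem hv]
      have h4 : S.card + 1 - 1 = (S.card - 1) + 1 := by omega
      rw [h4, add_smul, one_smul]
      abel
    rw [h3]
    exact h1

private theorem key_edge {G : Type} [AddCommGroup G] {E : V → V → Prop} {w : V → V → G}
    {S : Finset V} {s : G} (h : TR E w S s) (hc : 2 ≤ S.card) :
    ∃ x ∈ S, ∃ y ∈ S, E x y := by
  cases h with
  | single v => simp at hc
  | @add S s u v h hu hv he => exact ⟨u, mem_insert_of_mem hu, v, mem_insert_self _ _, he⟩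

/-- ROW KEYM. As `ZST.key`. Uses ROOTM, GROW. -/
theorem key' {m : ℕ} [NeZero m] {H : SimpleGraph V} {w : V → V → ZMod m} (hz : ZF m H w)
    (b : ZMod m) (hbig : ∀ v, m + 1 ≤ 2 * (comp H w b v).card) (S : Finset V)
    (hS : S.card = m + 1) (s : ZMod m) : ¬ TR (btw H w b).Adj w S s := by
  intro hT
  -- reweight
  have h1 := key_shift (-b) hT
  obtain ⟨S', hS'S, hS'2, hT'⟩ := zero_subtree' (H := btw H w b)
    (w := fun u v => w u v + -b) (fun u v => by rw [hz.1 u v]) h1 hS
  have h2 := key_shift b hT'
  have h3 : (fun u v => w u v + -b + b) = w := by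
    funext u v
    abel
  rw [h3, zero_add] at h2
  obtain ⟨x, hx, y, hy, hxy⟩ := key_edge h2 hS'2
  have h4 : TR H.Adj w S' ((S'.card - 1) • b) := key_mono (fun u v h => h.1) h2
  have hS'c : S'.card ≤ m + 1 := hS ▸ card_le_card hS'S
  -- the two components are disjoint
  have hdisj : Disjoint (comp H w b x) (comp H w b y) := by
    rw [disjoint_left]
    intro z hz1 hz2
    have h5 : (lg H w b).Reachable x z := (mem_filter.1 hz1).2
    have h6 : (lg H w b).Reachable y z := (mem_filter.1 hz2).2
    exact hxy.2 (h5.trans h6.symm)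
  have hself : ∀ v, v ∈ comp H w b v := fun v =>
    mem_filter.2 ⟨mem_univ _, SimpleGraph.Reachable.refl v⟩
  have hcard : m + 1 ≤ (comp H w b x ∪ comp H w b y).card := by
    rw [card_union_of_disjoint hdisj]
    have h5 := hbig x
    have h6 := hbig y
    omega
  -- grow inside the first component
  obtain ⟨S1, hS1, hS1', hS1c, hT1⟩ := grow h4 ⟨x, hx, hself x⟩
    (min (m + 1) (S' ∪ comp H w b x).card)
    (le_min hS'c (card_le_card subset_union_left)) (min_le_right _ _)
  have hS1p : S1.card ≤ m + 1 := by
    rw [hS1c]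
    exact min_le_left _ _
  have hk2 : m + 1 ≤ (S1 ∪ comp H w b y).card := by
    rcases le_total (m + 1) (S' ∪ comp H w b x).card with h | h
    · rw [min_eq_left h] at hS1c
      rw [← hS1c]
      exact card_le_card subset_union_left
    · rw [min_eq_right h] at hS1c
      have h5 : S1 = S' ∪ comp H w b x := eq_of_subset_of_card_le hS1' hS1c.ge
      refine hcard.trans (card_le_card ?_)
      rw [h5]
      exact union_subset_union_left subset_union_right
  obtain ⟨S2, _, _, hS2c, hT2⟩ := grow hT1 ⟨y, hS1 hy, hself y⟩ (m + 1) hS1p hk2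
  refine hz.2 S2 hS2c ?_
  have h5 := key_pos h4
  have h6 : S'.card ≤ S1.card := card_le_card hS1
  have h7 : (S'.card - 1) • b + (min (m + 1) (S' ∪ comp H w b x).card - S'.card) • b +
      (m + 1 - S1.card) • b = 0 := by
    rw [← hS1c, ← add_smul, ← add_smul]
    have h8 : S'.card - 1 + (S1.card - S'.card) + (m + 1 - S1.card) = m := by omega
    rw [h8, nsmul_eq_mul, CharP.cast_eq_zero, zero_mul]
  rw [h7] at hT2
  exact hT2

end ZSA
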