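import Pool.Agent.ZSA.Defs

/-!
# ZSA, row L1
-/

set_option autoImplicit false

namespace ZSA

open Finset Classical ZST

/-- the stabiliser of a set, inside `Λ` -/
private def l1Stab {G : Type} [AddCommGroup G] (Λ : AddSubgroup G) (S : Set G) :
    AddSubgroup G where
  carrier := {g | g ∈ Λ ∧ ∀ x, x + g ∈ S ↔ x ∈ S}
  zero_mem' := ⟨Λ.zero_mem, fun x => by rw [add_zero]⟩
  add_mem' := fun {a b} ha hb => ⟨Λ.add_mem ha.1 hb.1, fun x => by
    rw [← add_assoc, hb.2 (x + a), ha.2 x]⟩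
  neg_mem' := fun {a} ha => ⟨Λ.neg_mem ha.1, fun x => by
    have h := ha.2 (x + -a)
    rw [neg_add_cancel_right] at h
    exact h.symm⟩

private theorem l1_card {G : Type} [AddCommGroup G] [Finite G] (Λ : AddSubgroup G) (S : Set G)
    (hSΛ : S ⊆ Λ) (hS : ∃ x ∈ Λ, x ∉ S) :
    S.ncard + Nat.card (l1Stab Λ S) ≤ Nat.card Λ := by
  obtain ⟨x, hxΛ, hx⟩ := hS
  have h1 : (fun g => x + g) '' (l1Stab Λ S : Set G) ⊆ (Λ : Set G) \ S := by
    rintro _ ⟨g, hg, rfl⟩
    have hg' : g ∈ Λ ∧ ∀ y, y + g ∈ S ↔ y ∈ S := hg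
    refine ⟨Λ.add_mem hxΛ hg'.1, ?_⟩
    intro h
    exact hx ((hg'.2 x).1 h)
  have h2 := Set.ncard_le_ncard h1 (Set.toFinite _)
  rw [Set.ncard_image_of_injective _ (add_right_injective x)] at h2
  have h3 := Set.ncard_sdiff_add_ncard_of_subset hSΛ (Set.toFinite _)
  have h4 : (l1Stab Λ S : Set G).ncard = Nat.card (l1Stab Λ S) := rfl
  have h5 : (Λ : Set G).ncard = Nat.card Λ := rfl
  omega

private theorem l1_aux {G ι : Type} [AddCommGroup G] [Finite G] (d : ι → G) (n : ℕ) :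
    ∀ (Λ : AddSubgroup G), Nat.card Λ = n → Λ ≠ ⊥ → ∀ I : Finset ι,
    (∀ i ∈ I, d i ∈ Λ ∧ d i ≠ 0) → Nat.card Λ ≤ I.card + 1 →
    ∃ H : AddSubgroup G, H ≠ ⊥ ∧ H ≤ Λ ∧ ∃ I' ⊆ I, I'.card + 1 ≤ Nat.card H ∧
      ∀ h ∈ H, ∃ J ⊆ I', ∑ i ∈ J, d i = h := by
  induction n using Nat.strong_induction_on with
  | _ n ih =>
    intro Λ hn hΛ I hd hI
    let SS : Finset ι → Set G := fun I' => {t | ∃ J ⊆ I', ∑ i ∈ J, d i = t}
    have hSSΛ : ∀ I' ⊆ I, SS I' ⊆ Λ := by
      rintro I' hI' _ ⟨J, hJ, rfl⟩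
      exact Λ.sum_mem (fun i hi => (hd i (hI' (hJ hi))).1)
    let P : Finset (Finset ι) := I.powerset.filter (fun I' => I'.card + 1 ≤ (SS I').ncard)
    have hP0 : ∅ ∈ P := by
      refine mem_filter.2 ⟨empty_mem_powerset I, ?_⟩
      rw [card_empty, zero_add, Nat.one_le_iff_ne_zero, Ne, Set.ncard_eq_zero (Set.toFinite _)]
      exact Set.Nonempty.ne_empty ⟨0, ∅, Subset.refl _, sum_empty⟩
    obtain ⟨I', hI'P, hmax⟩ := exists_max_image P Finset.card ⟨∅, hP0⟩
    obtain ⟨hI'I, hI'c⟩ := mem_filter.1 hI'P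
    rw [mem_powerset] at hI'I
    by_cases hall : ∀ t ∈ Λ, t ∈ SS I'
    · refine ⟨Λ, hΛ, le_rfl, I', hI'I, ?_, hall⟩
      have h1 := Set.ncard_le_ncard (hSSΛ I' hI'I) (Set.toFinite _)
      have h5 : (Λ : Set G).ncard = Nat.card Λ := rfl
      omega
    · push Not at hall
      have hins : ∀ i ∈ I, i ∉ I' → d i ∈ l1Stab Λ (SS I') := by
        intro i hi hiI'
        have hsub : SS I' ⊆ SS (insert i I') := by
          rintro t ⟨J, hJ, rfl⟩
          exact ⟨J, hJ.trans (subset_insert _ _), rfl⟩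
        have hsub2 : (fun x => x + d i) '' SS I' ⊆ SS (insert i I') := by
          rintro _ ⟨t, ⟨J, hJ, rfl⟩, rfl⟩
          refine ⟨insert i J, insert_subset_insert _ hJ, ?_⟩
          have hiJ : i ∉ J := fun h => hiI' (hJ h)
          show ∑ i ∈ insert i J, d i = ∑ i ∈ J, d i + d i
          rw [sum_insert hiJ]
          abel
        have hcard : (SS (insert i I')).ncard ≤ (SS I').ncard := by
          by_contra hlt
          push Not at hlt
          have h1 : insert i I' ∈ P := by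
            refine mem_filter.2 ⟨mem_powerset.2 (insert_subset hi hI'I), ?_⟩
            rw [card_insert_of_notMem hiI']
            omega
          have h2 := hmax _ h1
          rw [card_insert_of_notMem hiI'] at h2
          omega
        have heq : SS I' = SS (insert i I') :=
          Set.eq_of_subset_of_ncard_le hsub hcard (Set.toFinite _)
        rw [← heq] at hsub2
        have heq2 : (fun x => x + d i) '' SS I' = SS I' := by
          refine Set.eq_of_subset_of_ncard_le hsub2 ?_ (Set.toFinite _)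
          rw [Set.ncard_image_of_injective _ (add_left_injective (d i))]
        refine ⟨(hd i hi).1, ?_⟩
        intro x
        constructor
        · intro hx
          rw [← heq2] at hx
          obtain ⟨y, hy, hyx⟩ := hx
          have : y = x := add_right_cancel hyx
          rwa [← this]
        · intro hx
          exact hsub2 ⟨x, hx, rfl⟩
      set L := l1Stab Λ (SS I') with hL
      have hLc : (SS I').ncard + Nat.card L ≤ Nat.card Λ := l1_card Λ _ (hSSΛ I' hI'I) hall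
      have hLpos : 0 < Nat.card L := Nat.card_pos
      have hLΛ : L ≤ Λ := fun g hg => hg.1
      have hdiff : (I \ I').card + I'.card = I.card := card_sdiff_add_card_eq_card hI'I
      have hSpos : 0 < (SS I').ncard := by omega
      -- |I'| + 1 ≤ |S|
      have hLI : Nat.card L ≤ (I \ I').card := by omega
      have hLbot : L ≠ ⊥ := by
        intro hb
        obtain ⟨i, hi⟩ : (I \ I').Nonempty := by
          rw [← card_pos]
          omega
        rw [mem_sdiff] at hi
        have h1 := hins i hi.1 hi.2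
        rw [hb, AddSubgroup.mem_bot] at h1
        exact (hd i hi.1).2 h1
      obtain ⟨H, hH, hHL, I2, hI2, hc, hsum⟩ := ih (Nat.card L) (by omega) L rfl hLbot (I \ I')
        (fun i hi => by
          rw [mem_sdiff] at hi
          exact ⟨hins i hi.1 hi.2, (hd i hi.1).2⟩) (by omega)
      exact ⟨H, hH, hHL.trans hLΛ, I2, hI2.trans sdiff_subset, hc, hsum⟩

/-- ROW L1. -/
theorem l1 {G ι : Type} [AddCommGroup G] [Finite G] (Λ : AddSubgroup G) (hΛ : Λ ≠ ⊥)
    (I : Finset ι) (d : ι → G) (hd : ∀ i ∈ I, d i ∈ Λ ∧ d i ≠ 0)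
    (hI : Nat.card Λ ≤ I.card + 1) :
    ∃ H : AddSubgroup G, H ≠ ⊥ ∧ H ≤ Λ ∧ ∃ I' ⊆ I, I'.card + 1 ≤ Nat.card H ∧
      ∀ h ∈ H, ∃ J ⊆ I', ∑ i ∈ J, d i = h :=
  l1_aux d _ Λ rfl hΛ I hd hI

end ZSA
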