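import Pool.Agent.ZSA.L1

/-!
# ZSA, row L1P
-/

set_option autoImplicit false

namespace ZSA

open Finset Classical ZST

/-- the stabiliser of a set -/
private def l1pStab {G : Type} [AddCommGroup G] (S : Set G) : AddSubgroup G where
  carrier := {g | ∀ x, x + g ∈ S ↔ x ∈ S}
  zero_mem' := fun x => by rw [add_zero]
  add_mem' := fun {a b} ha hb x => by
    rw [← add_assoc, hb (x + a), ha x]
  neg_mem' := fun {a} ha x => by
    have h := ha (x + -a)
    rw [neg_add_cancel_right] at h
    exact h.symm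

private theorem l1p_card {G : Type} [AddCommGroup G] [Finite G] (S : Set G)
    (hS : ∃ x, x ∉ S) : S.ncard + Nat.card (l1pStab S) ≤ Nat.card G := by
  obtain ⟨x, hx⟩ := hS
  have h1 : (fun g => x + g) '' (l1pStab S : Set G) ⊆ Sᶜ := by
    rintro _ ⟨g, hg, rfl⟩
    have hg' : ∀ y, y + g ∈ S ↔ y ∈ S := hg
    intro h
    exact hx ((hg' x).1 h)
  have h2 := Set.ncard_le_ncard h1 (Set.toFinite _)
  rw [Set.ncard_image_of_injective _ (add_right_injective x)] at h2
  have h3 := Set.ncard_add_ncard_compl S (Set.toFinite _) (Set.toFinite _)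
  have h4 : (l1pStab S : Set G).ncard = Nat.card (l1pStab S) := rfl
  omega

/-- ROW L1P. Uses L1. -/
theorem l1p {G ι : Type} [AddCommGroup G] [Finite G] (S0 : Finset G) (g s0 : ℕ)
    (hS0 : s0 + 1 + g ≤ S0.card) (I : Finset ι) (d : ι → G) (hd : ∀ i ∈ I, d i ≠ 0)
    (hI : Nat.card G ≤ I.card + 1) :
    (∃ I' ⊆ I, I'.card + s0 + g + 1 ≤ Nat.card G ∧
      ∀ t, ∃ s ∈ S0, ∃ J ⊆ I', s + ∑ i ∈ J, d i = t) ∨
    (∃ H : AddSubgroup G, H ≠ ⊥ ∧ H ≠ ⊤ ∧ ∃ I' ⊆ I, I'.card + 1 ≤ Nat.card H ∧
      ∀ h ∈ H, ∃ J ⊆ I', ∑ i ∈ J, d i = h) := by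
  let SS : Finset ι → Set G := fun I' => {t | ∃ s ∈ S0, ∃ J ⊆ I', s + ∑ i ∈ J, d i = t}
  -- a maximal good subset
  let P : Finset (Finset ι) := I.powerset.filter (fun I' => S0.card + I'.card ≤ (SS I').ncard)
  have hP0 : ∅ ∈ P := by
    refine mem_filter.2 ⟨empty_mem_powerset I, ?_⟩
    rw [card_empty, add_zero, ← Set.ncard_coe_finset S0]
    refine Set.ncard_le_ncard ?_ (Set.toFinite _)
    intro s hs
    exact ⟨s, hs, ∅, Subset.refl _, by rw [sum_empty, add_zero]⟩
  obtain ⟨I', hI'P, hmax⟩ := exists_max_image P Finset.card ⟨∅, hP0⟩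
  obtain ⟨hI'I, hI'c⟩ := mem_filter.1 hI'P
  rw [mem_powerset] at hI'I
  have hSle : (SS I').ncard ≤ Nat.card G := by
    rw [← Set.ncard_univ]
    exact Set.ncard_le_ncard (Set.subset_univ _) (Set.toFinite _)
  by_cases hall : ∀ t, t ∈ SS I'
  · left
    exact ⟨I', hI'I, by omega, hall⟩
  · right
    push Not at hall
    have hins : ∀ i ∈ I, i ∉ I' → d i ∈ l1pStab (SS I') := by
      intro i hi hiI'
      -- otherwise the set grows
      have hsub : SS I' ⊆ SS (insert i I') := by
        rintro t ⟨s, hs, J, hJ, rfl⟩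
        exact ⟨s, hs, J, hJ.trans (subset_insert _ _), rfl⟩
      have hsub2 : (fun x => x + d i) '' SS I' ⊆ SS (insert i I') := by
        rintro _ ⟨t, ⟨s, hs, J, hJ, rfl⟩, rfl⟩
        refine ⟨s, hs, insert i J, insert_subset_insert _ hJ, ?_⟩
        have hiJ : i ∉ J := fun h => hiI' (hJ h)
        show s + ∑ i ∈ insert i J, d i = s + ∑ i ∈ J, d i + d i
        rw [sum_insert hiJ]
        abel
      have hcard : (SS (insert i I')).ncard ≤ (SS I').ncard := by
        by_contra hlt
        push Not at hlt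
        have h1 : insert i I' ∈ P := by
          refine mem_filter.2 ⟨mem_powerset.2 (insert_subset hi hI'I), ?_⟩
          rw [card_insert_of_notMem hiI']
          omega
        have h2 := hmax _ h1
        rw [card_insert_of_notMem hiI'] at h2
        omega
      have heq : SS I' = SS (insert i I') :=
        Set.eq_of_subset_of_ncard_le hsub hcard (Set.toFinite _)
      rw [← heq] at hsub2
      have heq2 : (fun x => x + d i) '' SS I' = SS I' := by
        refine Set.eq_of_subset_of_ncard_le hsub2 ?_ (Set.toFinite _)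
        rw [Set.ncard_image_of_injective _ (add_left_injective (d i))]
      show ∀ x, x + d i ∈ SS I' ↔ x ∈ SS I'
      intro x
      constructor
      · intro hx
        rw [← heq2] at hx
        obtain ⟨y, hy, hyx⟩ := hx
        have : y = x := add_right_cancel hyx
        rwa [← this]
      · intro hx
        exact hsub2 ⟨x, hx, rfl⟩
    set L := l1pStab (SS I') with hL
    have hLc : (SS I').ncard + Nat.card L ≤ Nat.card G := l1p_card _ hall
    have hLpos : 0 < Nat.card L := Nat.card_pos
    have hdiff : (I \ I').card + I'.card = I.card := card_sdiff_add_card_eq_card hI'I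
    have hLI : Nat.card L ≤ (I \ I').card := by omega
    have hLbot : L ≠ ⊥ := by
      intro hb
      obtain ⟨i, hi⟩ : (I \ I').Nonempty := by
        rw [← card_pos]
        omega
      rw [mem_sdiff] at hi
      have h1 := hins i hi.1 hi.2
      rw [hb, AddSubgroup.mem_bot] at h1
      exact hd i hi.1 h1
    have hLtop : L ≠ ⊤ := by
      intro ht
      have h1 : Nat.card L = Nat.card G := by rw [ht, AddSubgroup.card_top]
      have h2 : 0 < (SS I').ncard := by omega
      omega
    obtain ⟨H, hH, hHL, I2, hI2, hc, hsum⟩ := l1 L hLbot (I \ I') d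
      (fun i hi => by
        rw [mem_sdiff] at hi
        exact ⟨hins i hi.1 hi.2, hd i hi.1⟩) (by omega)
    refine ⟨H, hH, ?_, I2, hI2.trans sdiff_subset, hc, hsum⟩
    intro ht
    rw [ht, top_le_iff] at hHL
    exact hLtop hHL

end ZSA
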