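import Pool.Agent.ZSA.Defs
import Pool.Agent.ZSA.L1

/-!
# ZSA row L1Q: subset sums modulo a subgroup
-/

namespace ZSA

open Finset Classical ZST

private theorem L1Q_card {G : Type} [AddCommGroup G] (H' K : AddSubgroup G) (h : H' ≤ K) :
    Nat.card K = Nat.card (K.map (QuotientAddGroup.mk' H')) * Nat.card H' := by
  have h1 := AddSubgroup.relIndex_ker (QuotientAddGroup.mk' H') (K := K)
  rw [QuotientAddGroup.ker_mk'] at h1
  have h2 := AddSubgroup.relIndex_mul_relIndex (⊥ : AddSubgroup G) H' K bot_le h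
  rw [AddSubgroup.relIndex_bot_left, AddSubgroup.relIndex_bot_left, h1] at h2
  rw [← h2, mul_comm]

/-- ROW L1Q. Uses L1 in `G ⧸ H'`. -/
theorem l1q {G ι : Type} [AddCommGroup G] [Finite G] (H' H : AddSubgroup G) (hH : H' < H)
    (I : Finset ι) (d : ι → G) (hd : ∀ i ∈ I, d i ∈ H ∧ d i ∉ H')
    (hI : Nat.card H ≤ (I.card + 1) * Nat.card H') :
    ∃ H'' : AddSubgroup G, H' < H'' ∧ H'' ≤ H ∧ ∃ I' ⊆ I,
      (I'.card + 1) * Nat.card H' ≤ Nat.card H'' ∧
      ∀ h ∈ H'', ∃ J ⊆ I', ∑ i ∈ J, d i - h ∈ H' := by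
  have hpos : 0 < Nat.card H' := Nat.card_pos
  have hmem : ∀ x : G, QuotientAddGroup.mk' H' x = 0 ↔ x ∈ H' := by
    intro x
    rw [← AddMonoidHom.mem_ker, QuotientAddGroup.ker_mk']
  obtain ⟨x0, hx0, hx0'⟩ := SetLike.exists_of_lt hH
  obtain ⟨Hq, hq0, hqH, I', hI', hc, hs⟩ := l1 (H.map (QuotientAddGroup.mk' H'))
    (by
      intro h
      have h1 : QuotientAddGroup.mk' H' x0 ∈ H.map (QuotientAddGroup.mk' H') :=
        AddSubgroup.mem_map_of_mem _ hx0
      rw [h, AddSubgroup.mem_bot] at h1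
      exact hx0' ((hmem x0).1 h1))
    I (fun i => QuotientAddGroup.mk' H' (d i))
    (fun i hi => ⟨AddSubgroup.mem_map_of_mem _ (hd i hi).1,
      fun h => (hd i hi).2 ((hmem _).1 h)⟩)
    (by
      have h1 := L1Q_card H' H hH.le
      rw [h1] at hI
      exact Nat.le_of_mul_le_mul_right hI hpos)
  have hle : H' ≤ Hq.comap (QuotientAddGroup.mk' H') := by
    intro x hx
    rw [AddSubgroup.mem_comap, (hmem x).2 hx]
    exact Hq.zero_mem
  have hsurj : Function.Surjective (QuotientAddGroup.mk' H') := QuotientAddGroup.mk'_surjective H'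
  have hmc : (Hq.comap (QuotientAddGroup.mk' H')).map (QuotientAddGroup.mk' H') = Hq :=
    AddSubgroup.map_comap_eq_self_of_surjective hsurj Hq
  refine ⟨Hq.comap (QuotientAddGroup.mk' H'), lt_of_le_of_ne hle ?_, ?_, I', hI', ?_, ?_⟩
  · intro h
    apply hq0
    rw [← hmc, ← h, AddSubgroup.eq_bot_iff_forall]
    intro x hx
    obtain ⟨y, hy, rfl⟩ := AddSubgroup.mem_map.1 hx
    exact (hmem y).2 hy
  · intro x hx
    rw [AddSubgroup.mem_comap] at hx
    obtain ⟨y, hy, hyx⟩ := AddSubgroup.mem_map.1 (hqH hx)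
    have h1 : x - y ∈ H' := by
      rw [← hmem, map_sub, hyx, sub_self]
    have h2 := H.add_mem (hH.le h1) hy
    rwa [sub_add_cancel] at h2
  · rw [L1Q_card H' _ hle, hmc]
    exact Nat.mul_le_mul_right _ hc
  · intro h hh
    obtain ⟨J, hJ, hJs⟩ := hs _ (AddSubgroup.mem_comap.1 hh)
    refine ⟨J, hJ, ?_⟩
    rw [← hmem, map_sub, map_sum, hJs, sub_self]

end ZSA
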