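import Pool.Agent.ZSA.LIFTG

/-! ROW LIFT2 of board zsa_modules. -/

namespace ZSA

open Finset Classical ZST

private theorem LIFT2_ab {a b c : ℕ} (ha : 1 ≤ a) (hb : 1 ≤ b) (h : a * b = c) :
    a + b ≤ c + 1 := by
  subst h
  obtain ⟨a', rfl⟩ := Nat.exists_eq_add_of_le ha
  obtain ⟨b', rfl⟩ := Nat.exists_eq_add_of_le hb
  nlinarith [Nat.zero_le (a' * b')]

private theorem LIFT2_idx {G : Type} [AddCommGroup G] [Finite G] {H1 H2 H3 : AddSubgroup G}
    (h12 : H1 ≤ H2) (h23 : H2 ≤ H3) :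
    Nat.card H3 / Nat.card H2 + Nat.card H2 / Nat.card H1 ≤ Nat.card H3 / Nat.card H1 + 1 := by
  have hd1 : Nat.card H1 ∣ Nat.card H2 := AddSubgroup.card_dvd_of_le h12
  have hd2 : Nat.card H2 ∣ Nat.card H3 := AddSubgroup.card_dvd_of_le h23
  have p1 : 0 < Nat.card H1 := Nat.card_pos
  have p2 : 0 < Nat.card H2 := Nat.card_pos
  have p3 : 0 < Nat.card H3 := Nat.card_pos
  refine LIFT2_ab (Nat.div_pos (Nat.le_of_dvd p3 hd2) p2)
    (Nat.div_pos (Nat.le_of_dvd p2 hd1) p1) ?_
  obtain ⟨b, hb⟩ := hd1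
  obtain ⟨c, hc⟩ := hd2
  have e1 : Nat.card H3 / Nat.card H2 = c := by
    rw [hc]; exact Nat.mul_div_cancel_left _ p2
  have e2 : Nat.card H2 / Nat.card H1 = b := by
    rw [hb]; exact Nat.mul_div_cancel_left _ p1
  have e3 : Nat.card H3 / Nat.card H1 = b * c := by
    rw [hc, hb, mul_assoc]; exact Nat.mul_div_cancel_left _ p1
  rw [e1, e2, e3, mul_comm]

private theorem LIFT2_exc {W G : Type} [AddCommGroup G] (A : W → Finset G) (X Y Z : Finset W)
    (H : AddSubgroup G) (p : G) (n : ℕ) (hZ : Z.card ≤ n) (hXYZ : X ⊆ Y ∪ Z) :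
    (exc A X H p).card ≤ (exc A Y H p).card + n := by
  have : exc A X H p ⊆ exc A Y H p ∪ Z := by
    intro x hx
    rw [exc, mem_filter] at hx
    rw [mem_union, exc, mem_filter]
    rcases mem_union.1 (hXYZ hx.1) with h | h
    · exact Or.inl ⟨h, hx.2⟩
    · exact Or.inr h
  calc (exc A X H p).card ≤ (exc A Y H p ∪ Z).card := card_le_card this
    _ ≤ (exc A Y H p).card + Z.card := card_union_le _ _
    _ ≤ _ := by omega

/-- ROW LIFT2. Uses LIFTG twice. -/
theorem lift_full {W : Type} {m : ℕ} [NeZero m] (A : W → Finset (ZMod m))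
    (H : AddSubgroup (ZMod m)) (q : ZMod m) (X Res : Finset W) (hRX : Res ⊆ X)
    (hA : ∀ x ∈ X, (A x).Nonempty ∧ ∀ a ∈ A x, a - q ∈ H) (R E : ℕ) (hR : 1 ≤ R) (hRm : R ≤ m)
    (hE : 8 * R ^ 2 + 4 * (m / R) + 4 * R ≤ E)
    (hX : 2 * Nat.card H + E ≤ X.card)
    (he : ∀ H'' : AddSubgroup (ZMod m), H'' < H → ∀ p,
      Nat.card H / Nat.card H'' + E ≤ (exc A X H'' p).card)
    (hRc : Res.card ≤ 8 * R ^ 2)
    (hRes : ∀ H'' : AddSubgroup (ZMod m), H'' < H → Nat.card H < R * Nat.card H'' →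
        4 * R ≤ Res.card ∧ ∀ p, 4 * R ≤ (exc A Res H'' p).card)
    (H' : AddSubgroup (ZMod m)) (hH' : H' ≤ H) (U : Finset W) (hUX : U ⊆ X)
    (hU : Disjoint U Res) (k : ℕ) (hUk : U.card ≤ 2 * k) (hk : k + 1 ≤ Nat.card H')
    (c : ZMod m) (hst : ∀ t, t - c ∈ H' → Rc A U k t) :
    ∃ U' ⊆ X, ∃ k' c', U'.card ≤ 2 * k' ∧ k' + 1 ≤ k + Nat.card H / Nat.card H' ∧
      ∀ t, t - c' ∈ H → Rc A U' k' t := by
  classical
  have hcard : Nat.card H ≤ m := by
    have h1 : Nat.card H ∣ Nat.card (ZMod m) := AddSubgroup.card_addSubgroup_dvd_card H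
    rw [Nat.card_zmod] at h1
    exact Nat.le_of_dvd (Nat.pos_of_ne_zero (NeZero.ne m)) h1
  have hYX : (X \ Res) \ U ⊆ X := sdiff_subset.trans sdiff_subset
  have hXc : X ⊆ ((X \ Res) \ U) ∪ (Res ∪ U) := by
    intro x hx
    simp only [mem_union, mem_sdiff]
    tauto
  have hRUc : (Res ∪ U).card ≤ 8 * R ^ 2 + 2 * k :=
    (card_union_le _ _).trans (by omega)
  -- phase 1
  obtain ⟨H1, hH1, hH1H, hact1, D1, hD1, j1, c1, hj1, hD1c, hst1⟩ :=
    lift_gen A H q (fun H'' => R * Nat.card H'' ≤ Nat.card H) ((X \ Res) \ U)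
      (fun x hx => hA x (hYX hx)) H' hH'
      (by
        intro H'' h1 h2 h3
        have h3' : R * Nat.card H'' ≤ Nat.card H := h3
        have hq : Nat.card H'' ≤ m / R := by
          rw [Nat.le_div_iff_mul_le (by omega)]
          rw [mul_comm]
          exact h3'.trans hcard
        have hle : Nat.card H' ≤ Nat.card H'' :=
          Nat.le_of_dvd Nat.card_pos (AddSubgroup.card_dvd_of_le h1)
        have hd1 : Nat.card H / Nat.card H'' ≤ Nat.card H := Nat.div_le_self _ _
        have hd2 : Nat.card H'' / Nat.card H' ≤ Nat.card H'' := Nat.div_le_self _ _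
        constructor
        · have hc := card_le_card hXc
          have hc2 := card_union_le ((X \ Res) \ U) (Res ∪ U)
          omega
        · intro p
          have hc := LIFT2_exc A X ((X \ Res) \ U) (Res ∪ U) H'' p _ hRUc hXc
          have := he H'' h2 p
          omega)
      U (by
        rw [Finset.disjoint_left]
        intro x hx hx'
        exact (mem_sdiff.1 hx').2 hx) k c hst
  have hD1X : D1 ⊆ X := hD1.trans hYX
  have hD1R : Disjoint D1 Res := by
    rw [Finset.disjoint_left]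
    intro x hx hx'
    exact (mem_sdiff.1 (mem_sdiff.1 (hD1 hx)).1).2 hx'
  -- phase 2
  obtain ⟨H2, hH2, hH2H, hact2, D2, hD2, j2, c2, hj2, hD2c, hst2⟩ :=
    lift_gen A H q (fun _ => True) Res
      (fun x hx => hA x (hRX hx)) H1 hH1H
      (by
        intro H'' h1 h2 _
        rcases hact1 with h | h
        · exact absurd (h ▸ h1) (not_le_of_gt h2)
        · have h' : Nat.card H < R * Nat.card H1 := by
            have : ¬ (R * Nat.card H1 ≤ Nat.card H) := h
            omega
          have hle : Nat.card H1 ≤ Nat.card H'' :=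
            Nat.le_of_dvd Nat.card_pos (AddSubgroup.card_dvd_of_le h1)
          have h4 : Nat.card H < R * Nat.card H'' :=
            lt_of_lt_of_le h' (Nat.mul_le_mul_left _ hle)
          obtain ⟨h5, h6⟩ := hRes H'' h2 h4
          have h7 := LIFT2_idx h1 h2.le
          have h8 : Nat.card H / Nat.card H1 < R := by
            rw [Nat.div_lt_iff_lt_mul Nat.card_pos]
            exact h'
          constructor
          · omega
          · intro p
            have h9 := h6 p
            have h10 : ∀ a b z r e : ℕ, a + b ≤ z + 1 → z < r → 4 * r ≤ e → a + 2 * b ≤ e := by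
              intros; omega
            exact h10 _ _ _ _ _ h7 h8 h9)
      (U ∪ D1) (by
        rw [disjoint_union_left]
        exact ⟨hU, hD1R⟩) (k + j1) c1 hst1
  have hH2' : H2 = H := by
    rcases hact2 with h | h
    · exact h
    · exact absurd trivial h
  subst hH2'
  refine ⟨(U ∪ D1) ∪ D2, ?_, k + j1 + j2, c2, ?_, ?_, hst2⟩
  · exact union_subset (union_subset hUX hD1X) (hD2.trans hRX)
  · have h1 := card_union_le (U ∪ D1) D2
    have h2 := card_union_le U D1
    omega
  · have h1 := LIFT2_idx hH1 hH1H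
    omega

end ZSA
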