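import Pool.Agent.ZSA.L1Q

/-! # Row STEP of ZSA -/

namespace ZSA

open Finset Classical ZST

private theorem STEP_mem {W G : Type} [AddCommGroup G] {A : W → Finset G} {H : AddSubgroup G}
    {q : G} {U : Finset W} (hq : ∀ x ∈ U, ∀ a ∈ A x, a - q ∈ H) {t : G} (h : Rc A U 1 t) :
    t - q ∈ H := by
  obtain ⟨L, hL, h1, f, h2, h3⟩ := h
  obtain ⟨x, rfl⟩ := card_eq_one.1 h1
  rw [sum_singleton] at h3
  rw [← h3]
  exact hq x (hL (mem_singleton_self x)) _ (h2 x (mem_singleton_self x))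

/-- ROW STEP. Uses L1Q. -/
theorem lift_step {W G : Type} [AddCommGroup G] [Finite G] (A : W → Finset G)
    (H' H : AddSubgroup G) (hH : H' < H) (q : G) (U : Finset W) (k : ℕ) (c : G)
    (hst : ∀ t, t - c ∈ H' → Rc A U k t)
    (F : Finset (Finset W)) (hF : ∀ U' ∈ F, Disjoint U U' ∧ CUnit A H' U')
    (hFd : ∀ U' ∈ F, ∀ U'' ∈ F, U' ≠ U'' → Disjoint U' U'')
    (hFq : ∀ U' ∈ F, ∀ x ∈ U', ∀ a ∈ A x, a - q ∈ H)
    (hc : Nat.card H ≤ (F.card + 1) * Nat.card H') :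
    ∃ H'' : AddSubgroup G, H' < H'' ∧ H'' ≤ H ∧ ∃ F' ⊆ F,
      (F'.card + 1) * Nat.card H' ≤ Nat.card H'' ∧
      ∃ c'', ∀ t, t - c'' ∈ H'' → Rc A (U ∪ F'.biUnion id) (k + F'.card) t := by
  have h0 : ∀ U' : Finset W, ∃ a d : G, U' ∈ F →
      d ∉ H' ∧ Rc A U' 1 a ∧ Rc A U' 1 (a + d) := by
    intro U'
    by_cases h : U' ∈ F
    · obtain ⟨-, a, d, h1⟩ := (hF U' h).2
      exact ⟨a, d, fun _ => h1⟩
    · exact ⟨0, 0, fun h' => absurd h' h⟩
  choose a d had using h0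
  have hd : ∀ U' ∈ F, d U' ∈ H ∧ d U' ∉ H' := by
    intro U' hU'
    obtain ⟨h1, h2, h3⟩ := had U' hU'
    refine ⟨?_, h1⟩
    have h4 := STEP_mem (hFq U' hU') h2
    have h5 := STEP_mem (hFq U' hU') h3
    have h6 := H.sub_mem h5 h4
    have h7 : a U' + d U' - q - (a U' - q) = d U' := by abel
    rwa [h7] at h6
  obtain ⟨H'', hH1, hH2, F', hF', hcard, hsum⟩ := l1q H' H hH F d hd hc
  refine ⟨H'', hH1, hH2, F', hF', hcard, c + ∑ U' ∈ F', a U', ?_⟩
  intro t ht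
  obtain ⟨J, hJ, hJs⟩ := hsum _ ht
  have h1 : Rc A U k (t - (∑ U' ∈ F', a U' + ∑ U' ∈ J, d U')) := by
    apply hst
    have h2 := H'.neg_mem hJs
    have h3 : -(∑ U' ∈ J, d U' - (t - (c + ∑ U' ∈ F', a U')))
        = t - (∑ U' ∈ F', a U' + ∑ U' ∈ J, d U') - c := by abel
    rwa [h3] at h2
  have h2 := Rc.biUnion (A := A) F' (fun V hV V' hV' => hFd V (hF' hV) V' (hF' hV'))
    (fun U' => if U' ∈ J then a U' + d U' else a U') (by
      intro V hV
      obtain ⟨-, h3, h4⟩ := had V (hF' hV)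
      by_cases hVJ : V ∈ J
      · simpa [hVJ] using h4
      · simpa [hVJ] using h3)
  have h3 : ∑ U' ∈ F', (if U' ∈ J then a U' + d U' else a U')
      = ∑ U' ∈ F', a U' + ∑ U' ∈ J, d U' := by
    have h4 : ∀ U' ∈ F', (if U' ∈ J then a U' + d U' else a U')
        = a U' + (if U' ∈ J then d U' else 0) := by
      intro U' _
      split_ifs
      · rfl
      · rw [add_zero]
    rw [sum_congr rfl h4, sum_add_distrib, sum_ite_mem, inter_eq_right.2 hJ]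
  rw [h3] at h2
  have hdis : Disjoint U (F'.biUnion id) := by
    rw [disjoint_biUnion_right]
    intro V hV
    exact (hF V (hF' hV)).1
  have h5 := Rc.add' h1 h2 hdis
  rwa [sub_add_cancel] at h5

end ZSA
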