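import Pool.Agent.ZSA.CU
import Pool.Agent.ZSA.STEP

/-! ROW LIFTG: lifting a state along a chain of subgroups. -/

namespace ZSA

open Finset Classical ZST

private theorem liftg_card_dvd {G : Type} [AddCommGroup G] [Finite G] {H' H : AddSubgroup G}
    (h : H' ≤ H) : Nat.card H' ∣ Nat.card H := AddSubgroup.card_dvd_of_le h

private theorem liftg_pos {G : Type} [AddCommGroup G] [Finite G] (H : AddSubgroup G) :
    0 < Nat.card H := Nat.card_pos

theorem lift_gen {W G : Type} [AddCommGroup G] [Finite G] (A : W → Finset G)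
    (H : AddSubgroup G) (q : G) (Act : AddSubgroup G → Prop) (Y : Finset W)
    (hA : ∀ x ∈ Y, (A x).Nonempty ∧ ∀ a ∈ A x, a - q ∈ H)
    (H' : AddSubgroup G) (hH' : H' ≤ H)
    (hact : ∀ H'' : AddSubgroup G, H' ≤ H'' → H'' < H → Act H'' →
      2 * (Nat.card H / Nat.card H'' + Nat.card H'' / Nat.card H') ≤ Y.card ∧
      ∀ p, Nat.card H / Nat.card H'' + 2 * (Nat.card H'' / Nat.card H') ≤ (exc A Y H'' p).card)
    (U : Finset W) (hU : Disjoint U Y) (k : ℕ) (c : G) (hst : ∀ t, t - c ∈ H' → Rc A U k t) :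
    ∃ H'' : AddSubgroup G, H' ≤ H'' ∧ H'' ≤ H ∧ (H'' = H ∨ ¬ Act H'') ∧ ∃ D ⊆ Y, ∃ j c'',
      j + 1 ≤ Nat.card H'' / Nat.card H' ∧ D.card ≤ 2 * j ∧
      ∀ t, t - c'' ∈ H'' → Rc A (U ∪ D) (k + j) t := by
  have hpos' := liftg_pos H'
  set Good : AddSubgroup G → Prop := fun H'' => H' ≤ H'' ∧ H'' ≤ H ∧ ∃ D ⊆ Y, ∃ j c'',
      j + 1 ≤ Nat.card H'' / Nat.card H' ∧ D.card ≤ 2 * j ∧
      ∀ t, t - c'' ∈ H'' → Rc A (U ∪ D) (k + j) t with hGood
  haveI : Finite (AddSubgroup G) := Finite.of_injective (fun K : AddSubgroup G => (K : Set G))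
    SetLike.coe_injective
  haveI : Fintype (AddSubgroup G) := Fintype.ofFinite _
  have hne : (univ.filter Good).Nonempty := by
    refine ⟨H', mem_filter.2 ⟨mem_univ _, le_rfl, hH', ∅, empty_subset _, 0, c, ?_, by simp, ?_⟩⟩
    · rw [Nat.div_self hpos']
    · intro t ht
      simpa using hst t ht
  obtain ⟨M, hM, hmax⟩ := exists_max_image (univ.filter Good) (fun K => Nat.card K) hne
  obtain ⟨hM1, hM2, D, hD, j, c2, hj, hDj, hst2⟩ := (mem_filter.1 hM).2
  by_cases hend : M = H ∨ ¬ Act M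
  · exact ⟨M, hM1, hM2, hend, D, hD, j, c2, hj, hDj, hst2⟩
  exfalso
  push Not at hend
  obtain ⟨hne1, hAct⟩ := hend
  have hlt : M < H := lt_of_le_of_ne hM2 hne1
  obtain ⟨hY, hexc⟩ := hact M hM1 hlt hAct
  have hposM := liftg_pos M
  have hposH := liftg_pos H
  obtain ⟨a, ha⟩ := liftg_card_dvd hM2
  obtain ⟨b, hb⟩ := liftg_card_dvd hM1
  have hda : Nat.card H / Nat.card M = a := by rw [ha, Nat.mul_div_cancel_left _ hposM]
  have hdb : Nat.card M / Nat.card H' = b := by rw [hb, Nat.mul_div_cancel_left _ hpos']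
  rw [hda, hdb] at hY
  rw [hdb] at hj
  have ha1 : 1 ≤ a := by
    rcases Nat.eq_zero_or_pos a with h | h
    · rw [h, mul_zero] at ha; omega
    · exact h
  have hYD : Y.card ≤ (Y \ D).card + D.card := by
    have := card_sdiff_add_card_inter Y D
    have h2 := card_le_card (inter_subset_right : Y ∩ D ⊆ D)
    omega
  obtain ⟨F, hFc, hFU, hFd⟩ := cross_units A (Y \ D) (fun x hx => (hA x (mem_sdiff.1 hx).1).1) M
    (a - 1) (by omega) (by
      intro p
      have h1 := hexc p
      rw [hda, hdb] at h1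
      have h2 : exc A Y M p ⊆ exc A (Y \ D) M p ∪ D := by
        intro x hx
        unfold exc at hx ⊢
        rw [mem_filter] at hx
        rw [mem_union, mem_filter, mem_sdiff]
        by_cases hxD : x ∈ D
        · exact Or.inr hxD
        · exact Or.inl ⟨⟨hx.1, hxD⟩, hx.2⟩
      have h3 := (card_le_card h2).trans (card_union_le _ _)
      omega)
  have hFsub : ∀ U' ∈ F, U' ⊆ Y := fun U' h => (hFU U' h).1.trans sdiff_subset
  obtain ⟨M2, hM2a, hM2b, F', hF', hcard, c3, hst3⟩ := lift_step A M H hlt q (U ∪ D) (k + j) c2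
    hst2 F (by
      intro U' hU'
      refine ⟨?_, (hFU U' hU').2⟩
      rw [disjoint_union_left]
      refine ⟨disjoint_of_subset_right (hFsub U' hU') hU, ?_⟩
      exact disjoint_of_subset_right (hFU U' hU').1 disjoint_sdiff)
    hFd (by
      intro U' hU' x hx a' ha'
      exact (hA x (hFsub U' hU' hx)).2 a' ha')
    (by
      rw [hFc, Nat.sub_add_cancel ha1, mul_comm, ha])
  have hlt2 : Nat.card M < Nat.card M2 := by
    have h1 : ((M : Set G)) ⊂ (M2 : Set G) := SetLike.coe_ssubset_coe.2 hM2a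
    exact Set.Finite.card_lt_card (Set.toFinite _) h1
  refine absurd (hmax M2 (mem_filter.2 ⟨mem_univ _, hM1.trans hM2a.le, hM2b,
    D ∪ F'.biUnion id, ?_, j + F'.card, c3, ?_, ?_, ?_⟩)) (not_le.2 hlt2)
  · refine union_subset hD ?_
    rw [biUnion_subset]
    intro U' hU'
    exact hFsub U' (hF' hU')
  · rw [Nat.le_div_iff_mul_le hpos']
    calc (j + F'.card + 1) * Nat.card H' ≤ ((F'.card + 1) * b) * Nat.card H' := by
          refine Nat.mul_le_mul_right _ ?_
          nlinarith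
      _ = (F'.card + 1) * Nat.card M := by rw [hb]; ring
      _ ≤ Nat.card M2 := hcard
  · have h1 : (F'.biUnion id).card ≤ F'.card * 2 := by
      refine card_biUnion_le_card_mul _ _ _ ?_
      intro U' hU'
      exact (hFU U' (hF' hU')).2.1
    have h2 := card_union_le D (F'.biUnion id)
    omega
  · intro t ht
    have := hst3 t ht
    rw [union_assoc, add_assoc] at this
    exact this

end ZSA
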