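import Pool.Agent.ZSA.CHAIN

/-!
# ZSA, row MKB: few vertices with a label outside the common coset
-/

set_option autoImplicit false

namespace ZSA

open Finset Classical ZST

/-- ROW MKB. Uses CHAIN. -/
theorem mk_bound (N : ℕ) : ∃ C, ∀ (m : ℕ) [NeZero m], Big C m → ∀ (V : Type) [Fintype V]
    [DecidableEq V] (H : SimpleGraph V) (w : V → V → ZMod m), Kd m H w →
    ∀ K0, Core H w K0 → 200 * (und H K0).card ≤ m →
    (∀ b, 101 * m < 100 * (zlab H w K0 b).card) →
    ∀ K, Core H w K → K0 ⊆ K → K.card ≤ N →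
    100 * (exs H w K (MK N H w K)).card ≤ 51 * m := by
  refine ⟨1000 * (N + 1), ?_⟩
  intro m _ hB V _ _ H w hKd K0 hK0 hund hz K hK hKK hKN
  set Lg := Nat.log 2 m with hLg
  set D : ℕ := Em m * (1 + Lg) + N with hD
  -- numerical bounds
  have hm13 := hB.h4
  have hNm : 1000 * (N + 1) ≤ m := by
    have h4 := hB.N_le
    have h1 : 1000 * (N + 1) ≤ (1000 * (N + 1)) ^ 4 := Nat.le_self_pow (by norm_num) _
    omega
  have hEm : 1 ≤ Em m := by
    have := hB.h3
    omega
  have hE2 : 1000 * (N + 1) * (Em m * (Lg + 2) ^ 2) ≤ m := hB.h2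
  have hD1 : 500 * ((Lg + 2) * D) ≤ m := by
    have h1 : (Lg + 2) * D ≤ (N + 1) * (Em m * (Lg + 2) ^ 2) := by
      have h2 : D ≤ (N + 1) * (Em m * (Lg + 2)) := by
        rw [hD]
        have : N ≤ N * (Em m * (Lg + 2)) :=
          Nat.le_mul_of_pos_right _ (Nat.mul_pos hEm (by omega))
        nlinarith
      calc (Lg + 2) * D ≤ (Lg + 2) * ((N + 1) * (Em m * (Lg + 2))) := Nat.mul_le_mul_left _ h2
        _ = (N + 1) * (Em m * (Lg + 2) ^ 2) := by ring
    nlinarith
  -- the data
  set X := outN H K with hX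
  set A : V → Finset (ZMod m) := fun x => lab H w K x with hA
  have hlab : ∀ (K' : Finset V) (x : V) (a : ZMod m), a ∈ lab H w K' x ↔
      ∃ k ∈ K', H.Adj k x ∧ w k x = a := by
    intro K' x a
    unfold lab
    simp only [mem_image, mem_filter, and_assoc]
  have hlabmono : ∀ (K' : Finset V), K ⊆ K' → ∀ x a, a ∈ lab H w K x → a ∈ lab H w K' x := by
    intro K' hs x a ha
    rw [hlab] at ha ⊢
    obtain ⟨k, hk, h⟩ := ha
    exact ⟨k, hs hk, h⟩
  let Q : Set (AddSubgroup (ZMod m) × ZMod m) :=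
    {r | ∃ K', Core H w K' ∧ K ⊆ K' ∧ K'.card ≤ N ∧ THp H w K' r.1 r.2}
  have hAne : ∀ x ∈ X, (A x).Nonempty := by
    intro x hx
    rw [hX, outN, mem_filter] at hx
    obtain ⟨-, -, k, hk, hkx⟩ := hx
    exact ⟨w k x, (hlab K x _).2 ⟨k, hk, hkx, rfl⟩⟩
  have hQ : ∀ p ∈ Q, (exc A X p.1 p.2).card ≤ m / Nat.card p.1 + D := by
    rintro ⟨Λ, q⟩ ⟨K', hK', hs, hc, ht⟩
    have h1 : exc A X Λ q ⊆ exq H w K' Λ q ∪ K' := by
      intro x hx
      rw [exc, mem_filter] at hx
      obtain ⟨hxX, a, ha, haΛ⟩ := hx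
      rw [mem_union]
      by_cases hxK : x ∈ K'
      · exact Or.inr hxK
      · refine Or.inl ?_
        rw [exq, mem_filter]
        exact ⟨mem_univ _, hxK, a, hlabmono K' hs x a ha, haΛ⟩
    have h2 := (card_le_card h1).trans (card_union_le _ _)
    have h3 : (exq H w K' Λ q).card < Tm m (Nat.card Λ) := ht.2.2.1
    unfold Tm at h3
    have h4 : Nat.log 2 (m / Nat.card Λ) ≤ Lg := Nat.log_mono_right (Nat.div_le_self _ _)
    have h5 : Em m * (1 + Nat.log 2 (m / Nat.card Λ)) ≤ Em m * (1 + Lg) :=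
      Nat.mul_le_mul_left _ (by omega)
    show (exc A X Λ q).card ≤ m / Nat.card Λ + D
    omega
  have hXc : X.card + K.card + (und H K).card = Fintype.card V := by
    have h1 : X.card + (und H K).card = (univ.filter (fun x => x ∉ K)).card := by
      rw [← card_union_of_disjoint]
      · congr 1
        ext x
        simp only [hX, outN, und, mem_union, mem_filter, mem_univ, true_and]
        constructor
        · rintro (h | h) <;> exact h.1
        · intro h
          by_cases he : ∃ k ∈ K, H.Adj k x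
          · exact Or.inl ⟨h, he⟩
          · refine Or.inr ⟨h, ?_⟩
            push Not at he
            exact he
      · rw [Finset.disjoint_left]
        intro x hx hx'
        rw [hX, outN, mem_filter] at hx
        rw [und, mem_filter] at hx'
        obtain ⟨-, -, k, hk, hkx⟩ := hx
        exact hx'.2.2 k hk hkx
    have h2 : (univ.filter (fun x => x ∉ K)).card + K.card = Fintype.card V := by
      have h3 : (univ.filter (fun x => x ∉ K)) = univ \ K := by
        ext x
        simp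
      rw [h3, card_sdiff_add_card_eq_card (subset_univ K), card_univ]
    omega
  have hundK : (und H K).card ≤ (und H K0).card := by
    apply card_le_card
    intro x hx
    rw [und, mem_filter] at hx ⊢
    exact ⟨mem_univ _, fun h => hx.2.1 (hKK h), fun k hk => hx.2.2 k (hKK hk)⟩
  have hn := hKd.hn
  have hXbig : 2 * m + (Lg + 2) * D < X.card := by omega
  have hexc0 : ∀ b, zlab H w K0 b ⊆ exc A X ⊥ b ∪ K := by
    intro b x hx
    simp only [zlab, mem_filter] at hx
    obtain ⟨-, hxK0, a, ha, hab⟩ := hx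
    rw [mem_union]
    by_cases hxK : x ∈ K
    · exact Or.inr hxK
    · refine Or.inl ?_
      have ha' : a ∈ lab H w K x := by
        rw [hlab] at ha ⊢
        obtain ⟨k, hk, h⟩ := ha
        exact ⟨k, hKK hk, h⟩
      rw [exc, mem_filter, hX, outN, mem_filter]
      refine ⟨⟨mem_univ _, hxK, ?_⟩, a, ha', ?_⟩
      · obtain ⟨k, hk, h, -⟩ := (hlab K x a).1 ha'
        exact ⟨k, hk, h⟩
      · rw [AddSubgroup.mem_bot, sub_eq_zero]
        exact hab
  have hrich : ∀ b, m + (Lg + 2) * D < (exc A X ⊥ b).card := by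
    intro b
    have h1 := (card_le_card (hexc0 b)).trans (card_union_le _ _)
    have h2 := hz b
    omega
  obtain ⟨J, p, hJ, hJp, hJc⟩ := chain A X hAne D Q hQ hXbig hrich
  have hMK : ∀ a, a ∈ MK N H w K ↔ a - p ∈ J := by
    intro a
    rw [hJp]
    constructor
    · rintro h ⟨Λ, q⟩ ⟨K', hK', hs, hc, ht⟩
      exact h K' hK' hs hc Λ q ht
    · intro h K' hK' hs hc Λ q ht
      exact h (Λ, q) ⟨K', hK', hs, hc, ht⟩
  have hexs : exs H w K (MK N H w K) ⊆ exc A X J p := by
    intro x hx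
    rw [exs, mem_filter] at hx
    obtain ⟨-, hxK, a, ha, haM⟩ := hx
    rw [exc, mem_filter, hX, outN, mem_filter]
    refine ⟨⟨mem_univ _, hxK, ?_⟩, a, ha, fun h => haM ((hMK a).2 h)⟩
    obtain ⟨k, hk, h, -⟩ := (hlab K x a).1 ha
    exact ⟨k, hk, h⟩
  have hJ2 : 2 ≤ Nat.card J := by
    have : Nontrivial J := (AddSubgroup.nontrivial_iff_ne_bot J).2 hJ
    exact Nat.succ_le_of_lt Finite.one_lt_card
  have hdiv : m / Nat.card J ≤ m / 2 := Nat.div_le_div_left hJ2 (by norm_num)
  have hfin := card_le_card hexs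
  have hJc' : (exc A X J p).card ≤ m / Nat.card J + (Lg + 2) * D := hJc
  omega

end ZSA
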