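import Pool.Agent.ZSA.Defs
import Pool.Agent.ZSA.DOM4
import Pool.Agent.ZST.STAB

/-! Row STAB4: a stable core. -/

namespace ZSA

open Finset Classical ZST

variable {V : Type} [Fintype V] [DecidableEq V] {m : ℕ}

/-- enlarging the core by `y` makes the labels at `y` visible -/
private theorem stab4_step {G : Type} {H : SimpleGraph V} {w : V → V → G} {K K' : Finset V}
    (h : K ⊆ K') (y : V) (hy : y ∈ K') (hc : K'.card ≤ K.card + 4) (b : G) (F : Finset V)
    (hF : ∀ x ∈ F, x ∉ K ∧ lab H w K x = {b} ∧ H.Adj y x ∧ w y x ≠ b) :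
    (zlab H w K b).card + F.card ≤ (zlab H w K' b).card + 4 := by
  have hdis : Disjoint (zlab H w K b) F := by
    rw [Finset.disjoint_left]
    intro x hx hx'
    rw [zlab, Finset.mem_filter] at hx
    obtain ⟨a, ha, hab⟩ := hx.2.2
    rw [(hF x hx').2.1, Finset.mem_singleton] at ha
    exact hab ha
  have hsub : zlab H w K b ∪ F ⊆ zlab H w K' b ∪ (K' \ K) := by
    intro x hx
    rw [Finset.mem_union] at hx ⊢
    have hxK : x ∉ K := by
      rcases hx with hx | hx
      · rw [zlab, Finset.mem_filter] at hx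
        exact hx.2.1
      · exact (hF x hx).1
    by_cases hxK' : x ∈ K'
    · right
      exact Finset.mem_sdiff.2 ⟨hxK', hxK⟩
    · left
      rcases hx with hx | hx
      · rw [zlab, Finset.mem_filter] at hx ⊢
        obtain ⟨a, ha, hab⟩ := hx.2.2
        exact ⟨Finset.mem_univ _, hxK', a, stab_lab h x ha, hab⟩
      · have hx' := hF x hx
        rw [zlab, Finset.mem_filter]
        refine ⟨Finset.mem_univ _, hxK', w y x, ?_, hx'.2.2.2⟩
        rw [lab, Finset.mem_image]
        exact ⟨y, Finset.mem_filter.2 ⟨hy, hx'.2.2.1⟩, rfl⟩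
  have h1 := Finset.card_le_card hsub
  rw [Finset.card_union_of_disjoint hdis] at h1
  have h2 := Finset.card_union_le (zlab H w K' b) (K' \ K)
  have h3 := Finset.card_sdiff_add_card_eq_card h
  omega

/-- ROW STAB4. As `ZST.stable_core`. Uses DOM4. -/
theorem stable_core4 [Nonempty V] (hm : 10 ^ 13 ≤ m) {H : SimpleGraph V}
    {w : V → V → ZMod m} (h : Kd m H w)
    (hW : ∀ K, Core H w K → K.card ≤ 200000 → 200 * (und H K).card ≤ m →
      ∃ b, 100 * (zlab H w K b).card ≤ 101 * m) :
    ∃ K b, Core H w K ∧ K.card ≤ 200000 ∧ 200 * (und H K).card ≤ m ∧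
      100 * (zlab H w K b).card ≤ 101 * m ∧
      ∀ y, 40000 * (univ.filter (fun x => x ∉ K ∧ lab H w K x = {b} ∧ H.Adj y x ∧
        w y x ≠ b)).card ≤ m := by
  have hn := h.hn
  obtain ⟨K0, hK0, hK0c, hK0u⟩ := exists_dom4 h
  obtain ⟨b0, hb0⟩ := hW K0 hK0 (by omega) hK0u
  have hund : ∀ K, K0 ⊆ K → 200 * (und H K).card ≤ m := by
    intro K hK
    have := Finset.card_le_card (stab_und (H := H) hK)
    omega
  have hclaim : ∀ K, Core H w K → K0 ⊆ K → K.card ≤ 200000 →
      100 * (zlab H w K b0).card ≤ 101 * m := by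
    intro K hK hKK hKc
    obtain ⟨b, hb⟩ := hW K hK hKc (hund K hKK)
    by_cases hbb : b = b0
    · rw [← hbb]; exact hb
    · exfalso
      have := stab_count (H := H) (w := w) hKK b b0 hbb
      omega
  by_contra hcon
  push Not at hcon
  have hstep : ∀ j : ℕ, j ≤ 40401 → ∃ K, Core H w K ∧ K0 ⊆ K ∧ K.card ≤ 97 + 4 * j ∧
      j * (m - 160000) ≤ 40000 * (zlab H w K b0).card := by
    intro j
    induction j with
    | zero =>
      intro _
      exact ⟨K0, hK0, Finset.Subset.refl _, by omega, by simp⟩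
    | succ j ih =>
      intro hj
      obtain ⟨K, hK, hKK, hKc, hKz⟩ := ih (by omega)
      have hz := hclaim K hK hKK (by omega)
      obtain ⟨y, hy⟩ := hcon K b0 hK (by omega) (hund K hKK) hz
      obtain ⟨K', hK', hKK', hyK', hKc'⟩ := h.ext K hK y
      refine ⟨K', hK', hKK.trans hKK', by omega, ?_⟩
      have hex : ∃ F : Finset V, (∀ x ∈ F, x ∉ K ∧ lab H w K x = {b0} ∧ H.Adj y x ∧
          w y x ≠ b0) ∧ m < 40000 * F.card := by
        refine ⟨_, ?_, hy⟩
        intro x hx
        exact (Finset.mem_filter.1 hx).2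
      obtain ⟨F, hF, hFc⟩ := hex
      have h1 := stab4_step (H := H) (w := w) hKK' y hyK' hKc' b0 F hF
      have h2 : (j + 1) * (m - 160000) = j * (m - 160000) + (m - 160000) := by ring
      omega
  obtain ⟨K, hK, hKK, hKc, hKz⟩ := hstep 40401 le_rfl
  have hz := hclaim K hK hKK (by omega)
  omega

end ZSA
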