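import Pool.Agent.ZSA.PHR

/-!
# ZSA, row STSEL: stable cores exist
-/

set_option autoImplicit false

namespace ZSA

open Finset Classical ZST

variable {V : Type} [Fintype V] [DecidableEq V] {m : ℕ}

private theorem stsel_MK_mono (N : ℕ) (H : SimpleGraph V) (w : V → V → ZMod m) {K K' : Finset V}
    (h : K ⊆ K') : MK N H w K ⊆ MK N H w K' :=
  fun _ ha K'' hc hs hN Λ q ht => ha K'' hc (h.trans hs) hN Λ q ht

private theorem stsel_core {H : SimpleGraph V} {w : V → V → ZMod m} {N : ℕ} {K : Finset V}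
    (hK : Core H w K) {y : V} (hy : nice N H w K y) : Core H w (insert y K) := by
  obtain ⟨s, hs⟩ := hK
  obtain ⟨hyK, ⟨k, hk, hky⟩, -⟩ := hy
  exact ⟨_, TR.add hs hk hyK hky⟩

private theorem stsel_le {H : SimpleGraph V} {w : V → V → ZMod m}
    (hsym : ∀ u v, w u v = w v u) {N : ℕ} {K : Finset V} {y : V} (hy : nice N H w K y) :
    (Phi H w (insert y K) (MK N H w (insert y K))).card ≤ (Phi H w K (MK N H w K)).card := by
  obtain ⟨hyK, ⟨k, hk, hky⟩, hall⟩ := hy
  refine (phi_restrict hsym K (MK N H w K) (MK N H w (insert y K))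
    (stsel_MK_mono N H w (subset_insert _ _)) y hyK ⟨k, hk, hky, hall _ ?_⟩).1
  unfold lab
  simp only [mem_image, mem_filter]
  exact ⟨k, ⟨hk, hky⟩, rfl⟩

private theorem stsel_drop {H : SimpleGraph V} {w : V → V → ZMod m}
    (hsym : ∀ u v, w u v = w v u) (N : ℕ) (t : ℕ) : ∀ K : Finset V, Core H w K →
    ¬ Stable N H w t K → ∃ K', Core H w K' ∧ K ⊆ K' ∧ K'.card ≤ K.card + t ∧
      (Phi H w K' (MK N H w K')).card < (Phi H w K (MK N H w K)).card := by
  induction t with
  | zero => intro K _ h; exact absurd trivial h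
  | succ t ih =>
    intro K hK h
    rw [Stable] at h
    push Not at h
    obtain ⟨y, hy, h⟩ := h
    have hcard : (insert y K).card = K.card + 1 := card_insert_of_notMem hy.1
    by_cases he : (Phi H w (insert y K) (MK N H w (insert y K))).card =
        (Phi H w K (MK N H w K)).card
    · obtain ⟨K', h1, h2, h3, h4⟩ := ih _ (stsel_core hK hy) (h he)
      refine ⟨K', h1, (subset_insert _ _).trans h2, by omega, by omega⟩
    · refine ⟨insert y K, stsel_core hK hy, subset_insert _ _, by omega, ?_⟩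
      exact lt_of_le_of_ne (stsel_le hsym hy) he

private theorem stsel_aux {H : SimpleGraph V} {w : V → V → ZMod m}
    (hsym : ∀ u v, w u v = w v u) (N s : ℕ) (K0 : Finset V) (n : ℕ) : ∀ K : Finset V,
    Core H w K → K0 ⊆ K → (Phi H w K (MK N H w K)).card = n → K.card + s * n + s ≤ N →
    ∃ K, Core H w K ∧ K0 ⊆ K ∧ K.card + s ≤ N ∧ Stable N H w s K := by
  induction n using Nat.strong_induction_on with
  | _ n ih =>
    intro K hK hK0 hn hN
    by_cases hst : Stable N H w s K
    · exact ⟨K, hK, hK0, by omega, hst⟩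
    · obtain ⟨K', h1, h2, h3, h4⟩ := stsel_drop hsym N s K hK hst
      rw [hn] at h4
      refine ih _ h4 K' h1 (hK0.trans h2) rfl ?_
      have h5 : s * ((Phi H w K' (MK N H w K')).card + 1) ≤ s * n := Nat.mul_le_mul_left _ h4
      rw [mul_add, mul_one] at h5
      omega

/-- ROW STSEL. Uses PHR. -/
theorem stable_exists {H : SimpleGraph V} {w : V → V → ZMod m} (hsym : ∀ u v, w u v = w v u)
    (N s : ℕ) (K0 : Finset V) (hK0 : Core H w K0)
    (hN : K0.card + s * 2 ^ K0.card + s ≤ N) :
    ∃ K, Core H w K ∧ K0 ⊆ K ∧ K.card + s ≤ N ∧ Stable N H w s K := by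
  refine stsel_aux hsym N s K0 _ K0 hK0 subset_rfl rfl ?_
  have h1 : (Phi H w K0 (MK N H w K0)).card ≤ 2 ^ K0.card := by
    unfold Phi
    exact (card_filter_le _ _).trans (card_powerset K0).le
  have h2 := Nat.mul_le_mul_left s h1
  omega

end ZSA
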