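import Pool.Agent.ZSA.TRIC
import Pool.Agent.ZSA.STARQ
import Pool.Agent.ZSA.COMPLEM

/-!
# ZSA, row TC4: the one-label case is impossible
-/

namespace ZSA

open Finset Classical ZST

variable {V : Type} [Fintype V] [DecidableEq V]

private theorem tc4_mem_comp {G : Type} {H : SimpleGraph V} {w : V → V → G} {b : G} {v x : V} :
    x ∈ comp H w b v ↔ (lg H w b).Reachable v x := by
  simp [comp, cp]

private theorem tc4_adj {p : ℕ} {H : SimpleGraph V} {w : V → V → ZMod p} (hz : ZF p H w)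
    {b : ZMod p} {u x : V} (h : H.Adj u x) (hb : w u x = b) : (lg H w b).Adj u x :=
  ⟨h, hb, by rw [hz.1 x u]; exact hb⟩

private theorem tc4_mem_outN {H : SimpleGraph V} {K : Finset V} {x : V} :
    x ∈ outN H K ↔ x ∉ K ∧ ∃ k ∈ K, H.Adj k x := by
  unfold outN
  rw [Finset.mem_filter]
  exact ⟨fun h => h.2, fun h => ⟨Finset.mem_univ _, h⟩⟩

private theorem tc4_mem_zlab {G : Type} {H : SimpleGraph V} {w : V → V → G} {K : Finset V}
    {x : V} {b : G} : x ∈ zlab H w K b ↔ x ∉ K ∧ ∃ a ∈ lab H w K x, a ≠ b := by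
  unfold zlab
  rw [Finset.mem_filter]
  exact ⟨fun h => h.2, fun h => ⟨Finset.mem_univ _, h⟩⟩

private theorem tc4_mem_lab {G : Type} {H : SimpleGraph V} {w : V → V → G} {K : Finset V}
    {x : V} {a : G} : a ∈ lab H w K x ↔ ∃ k ∈ K, H.Adj k x ∧ w k x = a := by
  unfold lab
  rw [Finset.mem_image]
  constructor
  · rintro ⟨k, hk, rfl⟩
    rw [Finset.mem_filter] at hk
    exact ⟨k, hk.1, hk.2, rfl⟩
  · rintro ⟨k, hk, h, rfl⟩
    exact ⟨k, Finset.mem_filter.2 ⟨hk, h⟩, rfl⟩

/-- sizes of subgroups of `ZMod m` -/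
private theorem tc4_card_sub {m : ℕ} [NeZero m] (Λ : AddSubgroup (ZMod m)) (h0 : Λ ≠ ⊥)
    (h1 : Λ ≠ ⊤) : 2 * (Nat.card Λ + m / Nat.card Λ) ≤ m + 4 := by
  have hm : Nat.card (ZMod m) = m := Nat.card_zmod m
  have hdvd : Nat.card Λ ∣ m := by
    conv_rhs => rw [← hm]
    exact Λ.card_addSubgroup_dvd_card
  obtain ⟨r, hr⟩ := hdvd
  have hpos : 0 < Nat.card Λ := Nat.card_pos
  have h2 : Nat.card Λ ≠ 1 := by
    intro h
    exact h0 (AddSubgroup.card_eq_one.1 h)
  have h3 : Nat.card Λ ≠ m := by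
    intro h
    apply h1
    apply AddSubgroup.eq_top_of_card_eq
    rw [h, hm]
  have hr' : m / Nat.card Λ = r := Nat.div_eq_of_eq_mul_right hpos hr
  rw [hr']
  have hr0 : r ≠ 0 := by
    rintro rfl
    exact NeZero.ne m (by simpa using hr)
  have hr1 : r ≠ 1 := by
    rintro rfl
    exact h3 (by simpa using hr.symm)
  obtain ⟨a, ha⟩ : ∃ a, Nat.card Λ = a + 2 := ⟨Nat.card Λ - 2, by omega⟩
  obtain ⟨c, hc⟩ : ∃ c, r = c + 2 := ⟨r - 2, by omega⟩
  have hr2 : m = (a + 2) * (c + 2) := by rw [← ha, ← hc]; exact hr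
  rw [ha, hc]
  nlinarith [Nat.zero_le (a * c)]

private theorem tc4_mem_nb {H : SimpleGraph V} {v x : V} : x ∈ nb H v ↔ H.Adj v x := by
  unfold nb
  simp

/-- the subgroup alternative is impossible for a pair -/
private theorem tc4_noTHp {m : ℕ} [NeZero m] (hB : Big 1000 m) {H : SimpleGraph V}
    {w w' : V → V → ZMod m} (hz : ZF m H w) (hz' : ZF m Hᶜ w')
    (hn : 3 * m - 1 ≤ Fintype.card V) (b : ZMod m) (u v : V)
    (hu : 100 * (univ.filter (fun x => H.Adj u x ∧ w u x ≠ b)).card ≤ m)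
    (Λ : AddSubgroup (ZMod m)) (q : ZMod m) : ¬ THp Hᶜ w' {u, v} Λ q := by
  rintro ⟨h0, h1, h2, -⟩
  have hm := hB.h4
  have hT := hB.Tm_le (Nat.card Λ)
  have hL := tc4_card_sub Λ h0 h1
  have hS := star_coset hz' u Λ q
  have hcu : (comp H w b u).card ≤ m := comp_le hz b u
  set Bu := univ.filter (fun x => H.Adj u x ∧ w u x ≠ b) with hBu
  set St := (nb Hᶜ u).filter (fun x => w' u x - q ∈ Λ) with hSt
  have hsub : (univ : Finset V) ⊆
      ({u, v} : Finset V) ∪ (exq Hᶜ w' {u, v} Λ q ∪ (St ∪ (comp H w b u ∪ Bu))) := by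
    intro x _
    by_cases hxK : x ∈ ({u, v} : Finset V)
    · exact mem_union_left _ hxK
    refine mem_union_right _ ?_
    have hxu : u ≠ x := by
      rintro rfl
      exact hxK (by simp)
    by_cases hadj : Hᶜ.Adj u x
    · by_cases hq : w' u x - q ∈ Λ
      · refine mem_union_right _ (mem_union_left _ ?_)
        rw [hSt, mem_filter]
        exact ⟨tc4_mem_nb.2 hadj, hq⟩
      · refine mem_union_left _ ?_
        unfold exq
        rw [mem_filter]
        exact ⟨mem_univ _, hxK, w' u x, tc4_mem_lab.2 ⟨u, by simp, hadj, rfl⟩, hq⟩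
    · refine mem_union_right _ (mem_union_right _ ?_)
      have hH : H.Adj u x := by
        by_contra h
        exact hadj ((SimpleGraph.compl_adj H u x).2 ⟨hxu, h⟩)
      by_cases hb : w u x = b
      · exact mem_union_left _ (tc4_mem_comp.2 (tc4_adj hz hH hb).reachable)
      · exact mem_union_right _ (mem_filter.2 ⟨mem_univ _, hH, hb⟩)
  have c1 := card_le_card hsub
  have c2 := card_union_le ({u, v} : Finset V) (exq Hᶜ w' {u, v} Λ q ∪ (St ∪ (comp H w b u ∪ Bu)))
  have c3 := card_union_le (exq Hᶜ w' {u, v} Λ q) (St ∪ (comp H w b u ∪ Bu))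
  have c4 := card_union_le St (comp H w b u ∪ Bu)
  have c5 := card_union_le (comp H w b u) Bu
  have c6 : ({u, v} : Finset V).card ≤ 2 := card_le_two
  rw [card_univ] at c1
  omega

/-- the key step for one pair `u, v` -/
private theorem tc4_pair {m C0 : ℕ} [NeZero m] (hB : Big (C0 + 1000) m)
    (hC0 : ∀ (H : SimpleGraph V) (w : V → V → ZMod m), ZF m H w → ∀ K, Core H w K →
      2 ≤ K.card → K.card ≤ 2 → 5 * m ≤ 2 * (outN H K).card →
      (∃ b, (zlab H w K b).card < Tm m 1) ∨
      (3 ≤ K.card ∧ ∃ b d, AddSubgroup.zmultiples d = ⊤ ∧ (ex2 H w K b (b + d)).card ≤ C0) ∨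
      (∃ Λ q, THp H w K Λ q))
    {H : SimpleGraph V}
    {w w' : V → V → ZMod m} (hz : ZF m H w) (hz' : ZF m Hᶜ w')
    (hn : 3 * m - 1 ≤ Fintype.card V) (b : ZMod m) (C2 : Finset V) (u v : V)
    (hu : 100 * (univ.filter (fun x => H.Adj u x ∧ w u x ≠ b)).card ≤ m)
    (hv : 100 * (univ.filter (fun x => H.Adj v x ∧ w v x ≠ b)).card ≤ m)
    (hC : comp H w b v = C2) (huC : u ∉ C2) (huv : Hᶜ.Adj u v) :
    ∃ b', w' u v ≠ b' ∧
      95 * m ≤ 100 * (C2.filter (fun x => Hᶜ.Adj u x ∧ w' u x = b')).card := by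
  have hB1 : Big 1000 m := hB.mono (by omega)
  have hm := hB1.h4
  have hTm := hB1.Tm_le 1
  rw [Nat.div_one] at hTm
  set Bu := univ.filter (fun x => H.Adj u x ∧ w u x ≠ b) with hBu
  set Bv := univ.filter (fun x => H.Adj v x ∧ w v x ≠ b) with hBv
  have hcu : (comp H w b u).card ≤ m := comp_le hz b u
  have hnotreach : ¬ (lg H w b).Reachable v u := by
    intro h
    exact huC (hC ▸ tc4_mem_comp.2 h)
  have hHu : ∀ x, x ≠ u → ¬ Hᶜ.Adj u x → x ∈ Bu ∨ x ∈ comp H w b u := by
    intro x hxu hx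
    have hadj : H.Adj u x := by
      by_contra h
      exact hx ((SimpleGraph.compl_adj H u x).2 ⟨hxu.symm, h⟩)
    by_cases hb : w u x = b
    · right
      exact tc4_mem_comp.2 (tc4_adj hz hadj hb).reachable
    · left
      rw [hBu, mem_filter]
      exact ⟨mem_univ _, hadj, hb⟩
  have hHv : ∀ x, x ≠ v → ¬ Hᶜ.Adj v x → x ∈ Bv ∨ x ∈ comp H w b v := by
    intro x hxu hx
    have hadj : H.Adj v x := by
      by_contra h
      exact hx ((SimpleGraph.compl_adj H v x).2 ⟨hxu.symm, h⟩)
    by_cases hb : w v x = b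
    · right
      exact tc4_mem_comp.2 (tc4_adj hz hadj hb).reachable
    · left
      rw [hBv, mem_filter]
      exact ⟨mem_univ _, hadj, hb⟩
  -- outN is big
  have hout : (univ : Finset V) ⊆ outN Hᶜ {u, v} ∪ ({u, v} ∪ (Bu ∪ Bv)) := by
    intro x _
    by_cases hx : x = u ∨ x = v
    · refine mem_union_right _ (mem_union_left _ ?_)
      simpa using hx
    · push Not at hx
      by_cases h1 : Hᶜ.Adj u x
      · refine mem_union_left _ ?_
        rw [tc4_mem_outN]
        exact ⟨by simpa using hx, u, by simp, h1⟩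
      by_cases h2 : Hᶜ.Adj v x
      · refine mem_union_left _ ?_
        rw [tc4_mem_outN]
        exact ⟨by simpa using hx, v, by simp, h2⟩
      rcases hHu x hx.1 h1 with h3 | h3
      · exact mem_union_right _ (mem_union_right _ (mem_union_left _ h3))
      rcases hHv x hx.2 h2 with h4 | h4
      · exact mem_union_right _ (mem_union_right _ (mem_union_right _ h4))
      exact absurd ((tc4_mem_comp.1 h4).trans (tc4_mem_comp.1 h3).symm) hnotreach
  have hcard2 : ({u, v} : Finset V).card ≤ 2 := card_le_two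
  have hout' : Fintype.card V ≤ (outN Hᶜ {u, v}).card + (2 + (Bu.card + Bv.card)) := by
    have h1 := card_le_card hout
    have h2 := card_union_le (outN Hᶜ {u, v}) ({u, v} ∪ (Bu ∪ Bv))
    have h3 := card_union_le ({u, v} : Finset V) (Bu ∪ Bv)
    have h4 := card_union_le Bu Bv
    rw [card_univ] at h1
    omega
  have hcore : Core Hᶜ w' {u, v} := by
    refine ⟨0 + w' u v, ?_⟩
    have h := TR.add (TR.single (E := Hᶜ.Adj) (w := w') u) (mem_singleton_self u)
      (v := v) (by simpa using huv.ne.symm) huv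
    rwa [pair_comm] at h
  obtain ⟨b', hb'⟩ : ∃ b', (zlab Hᶜ w' {u, v} b').card < Tm m 1 := by
    rcases hC0 Hᶜ w' hz' {u, v} hcore (by rw [card_pair huv.ne]) (by rw [card_pair huv.ne])
      (by omega) with h | h | ⟨Λ, q, h⟩
    · exact h
    · rw [card_pair huv.ne] at h
      omega
    · exact absurd h (tc4_noTHp hB1 hz hz' hn b u v hu Λ q)
  set P := outN Hᶜ {u, v} \ zlab Hᶜ w' {u, v} b' with hP
  have hPcard : (outN Hᶜ {u, v}).card ≤ P.card + (zlab Hᶜ w' {u, v} b').card := by
    exact card_le_card_sdiff_add_card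
  have hPx : ∀ x ∈ P, x ≠ u ∧ x ≠ v ∧ (Hᶜ.Adj u x ∨ Hᶜ.Adj v x) ∧
      (Hᶜ.Adj u x → w' u x = b') ∧ (Hᶜ.Adj v x → w' v x = b') := by
    intro x hx
    rw [hP, mem_sdiff, tc4_mem_outN, tc4_mem_zlab] at hx
    obtain ⟨⟨hxK, k, hk, hkx⟩, hnz⟩ := hx
    have hxK' : x ≠ u ∧ x ≠ v := by simpa using hxK
    have hlab : ∀ k ∈ ({u, v} : Finset V), Hᶜ.Adj k x → w' k x = b' := by
      intro k hk hkx
      by_contra hne
      apply hnz
      exact ⟨hxK, w' k x, tc4_mem_lab.2 ⟨k, hk, hkx, rfl⟩, hne⟩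
    refine ⟨hxK'.1, hxK'.2, ?_, hlab u (by simp), hlab v (by simp)⟩
    have hk' : k = u ∨ k = v := by simpa using hk
    rcases hk' with rfl | rfl
    · exact Or.inl hkx
    · exact Or.inr hkx
  have hnr : ¬ (lg Hᶜ w' b').Reachable u v := by
    intro hr
    have hsub : P ⊆ comp Hᶜ w' b' u := by
      intro x hx
      obtain ⟨-, -, h1, h2, h3⟩ := hPx x hx
      rcases h1 with h1 | h1
      · exact tc4_mem_comp.2 (tc4_adj hz' h1 (h2 h1)).reachable
      · exact tc4_mem_comp.2 (hr.trans (tc4_adj hz' h1 (h3 h1)).reachable)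
    have h1 := card_le_card hsub
    have h2 := comp_le hz' b' u
    omega
  refine ⟨b', ?_, ?_⟩
  · intro hEq
    exact hnr (tc4_adj hz' huv hEq).reachable
  · set T := C2.filter (fun x => Hᶜ.Adj u x ∧ w' u x = b') with hT
    have hsub : P ⊆ T ∪ (Bv ∪ (comp H w b u ∪ Bu)) := by
      intro x hx
      obtain ⟨hxu, hxv, h1, h2, h3⟩ := hPx x hx
      by_cases h4 : Hᶜ.Adj u x
      · have h5 : ¬ Hᶜ.Adj v x := by
          intro h5
          exact hnr ((tc4_adj hz' h4 (h2 h4)).reachable.trans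
            (tc4_adj hz' h5 (h3 h5)).reachable.symm)
        rcases hHv x hxv h5 with h6 | h6
        · exact mem_union_right _ (mem_union_left _ h6)
        · refine mem_union_left _ ?_
          rw [hT, mem_filter]
          exact ⟨hC ▸ h6, h4, h2 h4⟩
      · rcases hHu x hxu h4 with h6 | h6
        · exact mem_union_right _ (mem_union_right _ (mem_union_right _ h6))
        · exact mem_union_right _ (mem_union_right _ (mem_union_left _ h6))
    have h1 := card_le_card hsub
    have h2 := card_union_le T (Bv ∪ (comp H w b u ∪ Bu))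
    have h3 := card_union_le Bv (comp H w b u ∪ Bu)
    have h4 := card_union_le (comp H w b u) Bu
    omega

/-- ROW TC4. As `ZST.no_typical`. Uses TRIC with `K = {u, v}`, STARQ, COMPLEM. -/
theorem no_typical4 : ∃ C, ∀ (m : ℕ) [NeZero m], Big C m → ∀ (V : Type) [Fintype V]
    [DecidableEq V] (H : SimpleGraph V) (w w' : V → V → ZMod m), ZF m H w → ZF m Hᶜ w' →
    (∀ v, m ≤ (nb H v).card) → 3 * m - 1 ≤ Fintype.card V → Fintype.card V ≤ 4 * m →
    ¬ T1typ m H w := by
  obtain ⟨C0, hC0⟩ := core_tri 2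
  refine ⟨C0 + 1000, ?_⟩
  intro m _ hB V _ _ H w w' hz hz' hdeg hn hn'
  rintro ⟨b, U, hU, hUt⟩
  have hm := hB.h4
  -- components of typical vertices are large
  have hbig : ∀ u ∈ U, 99 * m ≤ 100 * (comp H w b u).card := by
    intro u hu
    have hsub : nb H u ⊆ comp H w b u ∪ univ.filter (fun x => H.Adj u x ∧ w u x ≠ b) := by
      intro x hx
      have hx' : H.Adj u x := by
        rw [nb, mem_filter] at hx
        exact hx.2
      by_cases hb : w u x = b
      · exact mem_union_left _ (tc4_mem_comp.2 (tc4_adj hz hx' hb).reachable)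
      · refine mem_union_right _ ?_
        rw [mem_filter]
        exact ⟨mem_univ _, hx', hb⟩
    have h1 := card_le_card hsub
    have h2 := card_union_le (comp H w b u) (univ.filter (fun x => H.Adj u x ∧ w u x ≠ b))
    have h3 := hdeg u
    have h4 := hUt u hu
    omega
  -- a component with many typical vertices
  obtain ⟨x0, hx0⟩ : ∃ x0, 48 * m ≤ 100 * (U.filter (fun v => v ∈ comp H w b x0)).card := by
    by_contra hcon
    push Not at hcon
    have hcount : ∑ v ∈ U, (comp H w b v).card =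
        ∑ x : V, (U.filter (fun v => v ∈ comp H w b x)).card := by
      have h1 : ∀ v ∈ U, (comp H w b v).card = ∑ x : V, if x ∈ comp H w b v then 1 else 0 := by
        intro v _
        rw [← card_filter]
        congr 1
        ext x
        simp
      rw [sum_congr rfl h1, sum_comm]
      refine sum_congr rfl (fun x _ => ?_)
      rw [card_filter]
      refine sum_congr rfl (fun v _ => ?_)
      have : x ∈ comp H w b v ↔ v ∈ comp H w b x := by
        rw [tc4_mem_comp, tc4_mem_comp]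
        exact ⟨fun h => h.symm, fun h => h.symm⟩
      simp only [this]
    have hlow : U.card * (99 * m) ≤ 100 * ∑ v ∈ U, (comp H w b v).card := by
      rw [mul_sum, ← smul_eq_mul, ← sum_const]
      exact sum_le_sum hbig
    have hup : 100 * ∑ x : V, (U.filter (fun v => v ∈ comp H w b x)).card ≤
        Fintype.card V * (48 * m) := by
      rw [mul_sum, ← card_univ, ← smul_eq_mul (a := (univ : Finset V).card), ← sum_const]
      exact sum_le_sum (fun x _ => (hcon x).le)
    rw [hcount] at hlow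
    have h1 : U.card * (99 * m) ≤ Fintype.card V * (48 * m) := hlow.trans hup
    have h2 : Fintype.card V * (48 * m) ≤ 4 * m * (48 * m) := Nat.mul_le_mul_right _ hn'
    have h3 : 197 * m * (99 * m) ≤ 100 * U.card * (99 * m) := Nat.mul_le_mul_right _ hU
    have hp0 : 0 < m * m := by positivity
    nlinarith
  set C2 := comp H w b x0 with hC2
  have hC2card : C2.card ≤ m := comp_le hz b x0
  have hC2v : ∀ v ∈ C2, comp H w b v = C2 := by
    intro v hv
    rw [hC2, tc4_mem_comp] at hv
    ext x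
    rw [hC2, tc4_mem_comp, tc4_mem_comp]
    exact ⟨fun h => hv.trans h, fun h => hv.symm.trans h⟩
  obtain ⟨u, huU, huC⟩ : ∃ u ∈ U, u ∉ C2 := by
    by_contra hcon
    push Not at hcon
    have h1 : U.card ≤ C2.card := card_le_card hcon
    omega
  set S := C2.filter (fun v => v ∈ U ∧ Hᶜ.Adj u v) with hS
  have hScard : 47 * m ≤ 100 * S.card := by
    have hsub : U.filter (fun v => v ∈ C2) ⊆
        S ∪ univ.filter (fun x => H.Adj u x ∧ w u x ≠ b) := by
      intro v hv
      rw [mem_filter] at hv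
      have hne : u ≠ v := fun h => huC (h ▸ hv.2)
      by_cases h1 : H.Adj u v
      · refine mem_union_right _ ?_
        rw [mem_filter]
        refine ⟨mem_univ _, h1, fun hb => huC ?_⟩
        have h2 := hv.2
        rw [hC2, tc4_mem_comp] at h2
        rw [hC2, tc4_mem_comp]
        exact h2.trans (tc4_adj hz h1 hb).reachable.symm
      · refine mem_union_left _ ?_
        rw [hS, mem_filter]
        exact ⟨hv.2, hv.1, (SimpleGraph.compl_adj H u v).2 ⟨hne, h1⟩⟩
    have h1 := card_le_card hsub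
    have h2 := card_union_le S (univ.filter (fun x => H.Adj u x ∧ w u x ≠ b))
    have h4 := hUt u huU
    omega
  have hkey : ∀ v ∈ S, ∃ b', w' u v ≠ b' ∧
      95 * m ≤ 100 * (C2.filter (fun x => Hᶜ.Adj u x ∧ w' u x = b')).card := by
    intro v hv
    rw [hS, mem_filter] at hv
    exact tc4_pair hB (hC0 m (hB.mono (by omega)) V) hz hz' hn b C2 u v (hUt u huU) (hUt v hv.2.1) (hC2v v hv.1) huC hv.2.2
  have hSne : S.Nonempty := by
    rw [← card_pos]
    omega
  obtain ⟨v, hv⟩ := hSne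
  obtain ⟨b1, -, hb1⟩ := hkey v hv
  set T1 := C2.filter (fun x => Hᶜ.Adj u x ∧ w' u x = b1) with hT1
  have hinter : (S ∩ T1).Nonempty := by
    rw [← card_pos]
    have h1 := card_union_add_card_inter S T1
    have h2 : (S ∪ T1).card ≤ C2.card :=
      card_le_card (union_subset (filter_subset _ _) (filter_subset _ _))
    omega
  obtain ⟨v', hv'⟩ := hinter
  rw [mem_inter] at hv'
  obtain ⟨b2, hb2ne, hb2⟩ := hkey v' hv'.1
  have hv1 : w' u v' = b1 := by
    have := hv'.2
    rw [hT1, mem_filter] at this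
    exact this.2.2
  set T2 := C2.filter (fun x => Hᶜ.Adj u x ∧ w' u x = b2) with hT2
  have hdis : Disjoint T1 T2 := by
    rw [Finset.disjoint_left]
    intro x hx1 hx2
    rw [hT1, mem_filter] at hx1
    rw [hT2, mem_filter] at hx2
    exact hb2ne (by rw [hv1, ← hx1.2.2, hx2.2.2])
  have h1 : (T1 ∪ T2).card ≤ C2.card :=
    card_le_card (union_subset (filter_subset _ _) (filter_subset _ _))
  rw [card_union_of_disjoint hdis] at h1
  omega

end ZSA
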