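import Pool.Agent.ZSA.TRIA
import Pool.Agent.ZST.FAN

/-!
# ZSA: row TRIC
-/

namespace ZSA

open Finset Classical ZST

variable {V : Type} [Fintype V] [DecidableEq V] {m : ℕ}

private lemma tric_lab {V : Type} {G : Type} {H : SimpleGraph V} {w : V → V → G} {K : Finset V} {x : V} {a : G} :
    a ∈ lab H w K x ↔ ∃ k ∈ K, H.Adj k x ∧ w k x = a := by
  unfold lab
  simp only [mem_image, mem_filter, and_assoc]

private lemma tric_mono {H : SimpleGraph V} {w : V → V → ZMod m} {E : V → V → Prop}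
    (hE : ∀ u v, E u v → H.Adj u v) {K : Finset V} {s : ZMod m} (h : TR E w K s) :
    TR H.Adj w K s := by
  induction h with
  | single v => exact TR.single v
  | add h hu hv he ih => exact TR.add ih hu hv (hE _ _ he)

private lemma tric_coset {H : SimpleGraph V} {w : V → V → ZMod m} {Λ : AddSubgroup (ZMod m)}
    {q : ZMod m} {K : Finset V} {s : ZMod m}
    (h : TR (fun u v => H.Adj u v ∧ w u v ∈ {a | a - q ∈ Λ}) w K s) :
    s + q - K.card • q ∈ Λ := by
  induction h with
  | single v => simp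
  | @add S s u v h hu hv he ih =>
    rw [card_insert_of_notMem hv]
    have h1 : w u v - q ∈ Λ := he.2
    have h2 := Λ.add_mem ih h1
    have h3 : s + q - S.card • q + (w u v - q) = s + w u v + q - (S.card + 1) • q := by
      rw [add_smul, one_smul]; abel
    rwa [h3] at h2

private lemma tric_end {H : SimpleGraph V} {w : V → V → ZMod m} (hz : ZF m H w)
    {K : Finset V} {s : ZMod m} (hK : TR H.Adj w K s) (hm : K.card ≤ m + 1)
    (h : Rc (lab H w K) (outN H K) (m + 1 - K.card) (-s)) : False := by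
  obtain ⟨L, hL, hLc, f, hf, hs⟩ := h
  have h1 : ∀ x ∈ L, ∃ k ∈ K, H.Adj k x ∧ w k x = f x := by
    intro x hx
    exact tric_lab.1 (hf x hx)
  choose! g hg using h1
  have hd : Disjoint K L := by
    rw [disjoint_left]
    intro x hxK hxL
    have h2 := hL hxL
    unfold outN at h2
    rw [mem_filter] at h2
    exact h2.2.1 hxK
  have h3 := TR.fan hK L hd g (fun x hx => ⟨(hg x hx).1, (hg x hx).2.1⟩)
  have h4 : ∑ x ∈ L, w (g x) x = -s := by
    rw [← hs]
    exact sum_congr rfl (fun x hx => (hg x hx).2.2)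
  rw [h4, add_neg_cancel] at h3
  refine hz.2 (K ∪ L) ?_ h3
  rw [card_union_of_disjoint hd, hLc]
  omega

private lemma tric_exc {H : SimpleGraph V} {w : V → V → ZMod m} (K : Finset V)
    (Λ : AddSubgroup (ZMod m)) (q : ZMod m) :
    exq H w K Λ q = exc (lab H w K) (outN H K) Λ q := by
  ext x
  unfold exq exc outN
  simp only [mem_filter, mem_univ, true_and]
  constructor
  · rintro ⟨h1, a, ha, h2⟩
    refine ⟨⟨h1, ?_⟩, a, ha, h2⟩
    obtain ⟨k, hk, hk2, _⟩ := tric_lab.1 ha
    exact ⟨k, hk, hk2⟩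
  · rintro ⟨⟨h1, _⟩, h2⟩
    exact ⟨h1, h2⟩

/-- ROW TRIC. Uses TRIA, FAN. -/
theorem core_tri (N : ℕ) : ∃ C, ∀ (m : ℕ) [NeZero m], Big C m → ∀ (V : Type) [Fintype V]
    [DecidableEq V] (H : SimpleGraph V) (w : V → V → ZMod m), ZF m H w → ∀ K, Core H w K →
    2 ≤ K.card → K.card ≤ N → 5 * m ≤ 2 * (outN H K).card →
    (∃ b, (zlab H w K b).card < Tm m 1) ∨
    (3 ≤ K.card ∧ ∃ b d, AddSubgroup.zmultiples d = ⊤ ∧ (ex2 H w K b (b + d)).card ≤ C) ∨
    (∃ Λ q, THp H w K Λ q) := by
  obtain ⟨C, hC⟩ := tri_add N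
  refine ⟨max C N, ?_⟩
  intro m _ hB V _ _ H w hz K hK h2 hN h5
  obtain ⟨s, hs⟩ := hK
  have hNm : N ≤ m := by
    have h1 := (hB.mono (le_max_right C N)).N_le
    calc N ≤ N ^ 4 := Nat.le_self_pow (by norm_num) N
      _ ≤ m := h1
  have hA : ∀ x ∈ outN H K, (lab H w K x).Nonempty := by
    intro x hx
    unfold outN at hx
    rw [mem_filter] at hx
    obtain ⟨_, _, k, hk, hkx⟩ := hx
    exact ⟨w k x, tric_lab.2 ⟨k, hk, hkx, rfl⟩⟩
  rcases hC m (hB.mono (le_max_left C N)) V (lab H w K) (outN H K) K.card h2 hN hA h5 with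
    h | h | h | h
  · left
    obtain ⟨b, hb⟩ := h
    refine ⟨b, lt_of_le_of_lt (le_of_eq ?_) hb⟩
    rw [← tric_exc]
    congr 1
    ext x
    unfold zlab exq
    simp only [mem_filter, mem_univ, true_and, AddSubgroup.mem_bot, sub_eq_zero]
  · right; left
    obtain ⟨h3, b, d, hd, h4⟩ := h
    refine ⟨h3, b, d, hd, le_trans ?_ (h4.trans (le_max_left C N))⟩
    apply card_le_card
    intro x hx
    unfold ex2 at hx
    rw [mem_filter] at hx
    obtain ⟨_, hxK, a, ha, hab⟩ := hx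
    rw [mem_filter]
    refine ⟨?_, a, ha, hab⟩
    unfold outN
    rw [mem_filter]
    refine ⟨mem_univ _, hxK, ?_⟩
    obtain ⟨k, hk, hk2, _⟩ := tric_lab.1 ha
    exact ⟨k, hk, hk2⟩
  · right; right
    obtain ⟨Λ, q, h3, h4, h5, h6⟩ := h
    refine ⟨Λ, q, h3, h4, by rw [tric_exc]; exact h5, ?_⟩
    rintro ⟨s', hs'⟩
    have h7 := tric_coset hs'
    have h8 : TR H.Adj w K s' := tric_mono (fun u v h => h.1) hs'
    refine tric_end hz h8 (by omega) (h6 (-s') ?_)
    have h9 : (m : ℕ) • q = 0 := by simp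
    have h10 : -s' - (m + 1 - K.card) • q = -(s' + q - K.card • q) := by
      have h11 : (m + 1 - K.card) • q + K.card • q = q := by
        rw [← add_smul, Nat.sub_add_cancel (by omega), add_smul, one_smul, h9, zero_add]
      have h12 : (m + 1 - K.card) • q = q - K.card • q := by
        rw [eq_sub_iff_add_eq]; exact h11
      rw [h12]; abel
    rw [h10]
    exact Λ.neg_mem h7
  · exact absurd (h (-s)) (fun h => tric_end hz hs (by omega) h)

end ZSA
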