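import Pool.Agent.ZSA.T2C

/-!
# ZSA, row TWOL4: two labels everywhere
-/

namespace ZSA

open Finset Classical ZST

section

set_option linter.unusedSectionVars false

variable {V : Type} [Fintype V] [DecidableEq V] {m : ℕ}

private theorem TWOL4_memz {G : Type} {H : SimpleGraph V} {w : V → V → G} {K : Finset V}
    {b : G} {x : V} : x ∈ zlab H w K b ↔ x ∉ K ∧ ∃ a ∈ lab H w K x, a ≠ b := by
  unfold zlab
  rw [Finset.mem_filter]
  exact ⟨fun h => h.2, fun h => ⟨Finset.mem_univ _, h⟩⟩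

private theorem TWOL4_memn {G : Type} {H : SimpleGraph V} {w : V → V → G} {K : Finset V}
    {b : G} {x : V} : x ∈ nlab H w K b ↔ x ∉ K ∧ b ∈ lab H w K x := by
  unfold nlab
  rw [Finset.mem_filter]
  exact ⟨fun h => h.2, fun h => ⟨Finset.mem_univ _, h⟩⟩

private theorem TWOL4_lab {G : Type} {H : SimpleGraph V} {w : V → V → G} {K K' : Finset V}
    (h : K ⊆ K') (x : V) : lab H w K x ⊆ lab H w K' x := by
  unfold lab
  exact Finset.image_subset_image (Finset.filter_subset_filter _ h)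

private theorem TWOL4_meml {G : Type} {H : SimpleGraph V} {w : V → V → G} {K : Finset V}
    {x y : V} (hy : y ∈ K) (h : H.Adj y x) : w y x ∈ lab H w K x := by
  unfold lab
  rw [Finset.mem_image]
  exact ⟨y, Finset.mem_filter.2 ⟨hy, h⟩, rfl⟩

/-- a label different from `b'` on the small core is the label `b` -/
private theorem TWOL4_nlab {H : SimpleGraph V} {w : V → V → ZMod m} {K0 K K' : Finset V}
    (h0 : K0 ⊆ K) (h0' : K0 ⊆ K') (b b' : ZMod m) :
    (zlab H w K0 b').card ≤
      (nlab H w K' b).card + (K' \ K0).card + K.card + (ex2 H w K b b').card := by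
  have h1 : zlab H w K0 b' ⊆ ((nlab H w K' b ∪ (K' \ K0)) ∪ K) ∪ ex2 H w K b b' := by
    intro x hx
    obtain ⟨hxK, a, ha, hab⟩ := TWOL4_memz.1 hx
    rw [Finset.mem_union, Finset.mem_union, Finset.mem_union]
    by_cases hK : x ∈ K
    · exact Or.inl (Or.inr hK)
    by_cases hK' : x ∈ K'
    · exact Or.inl (Or.inl (Or.inr (Finset.mem_sdiff.2 ⟨hK', hxK⟩)))
    by_cases h : a = b
    · left; left; left
      exact TWOL4_memn.2 ⟨hK', TWOL4_lab h0' x (h ▸ ha)⟩
    · right
      unfold ex2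
      exact Finset.mem_filter.2 ⟨Finset.mem_univ _, hK, a, TWOL4_lab h0 x ha, h, hab⟩
  have h2 := Finset.card_le_card h1
  have h3 := Finset.card_union_le ((nlab H w K' b ∪ (K' \ K0)) ∪ K) (ex2 H w K b b')
  have h4 := Finset.card_union_le (nlab H w K' b ∪ (K' \ K0)) K
  have h5 := Finset.card_union_le (nlab H w K' b) (K' \ K0)
  omega

private theorem TWOL4_union {H : SimpleGraph V} {w : V → V → ZMod m} {K0 K K' : Finset V}
    (h0 : K0 ⊆ K) (h0' : K0 ⊆ K') (b b' : ZMod m) :
    Fintype.card V ≤ (nlab H w K' b ∪ nlab H w K' b').card + K'.card + K.card +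
      (ex2 H w K b b').card + (und H K0).card := by
  have h1 : (univ : Finset V) ⊆ ((((nlab H w K' b ∪ nlab H w K' b') ∪ K') ∪ K) ∪
      ex2 H w K b b') ∪ und H K0 := by
    intro x _
    rw [Finset.mem_union, Finset.mem_union, Finset.mem_union, Finset.mem_union]
    by_cases hK : x ∈ K
    · exact Or.inl (Or.inl (Or.inr hK))
    by_cases hK' : x ∈ K'
    · exact Or.inl (Or.inl (Or.inl (Or.inr hK')))
    by_cases hu : x ∈ und H K0
    · exact Or.inr hu
    unfold und at hu
    rw [Finset.mem_filter] at hu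
    push Not at hu
    obtain ⟨k, hk, hk2⟩ := hu (Finset.mem_univ _) (fun h => hK (h0 h))
    have hl : w k x ∈ lab H w K0 x := TWOL4_meml hk hk2
    by_cases h : w k x = b
    · left; left; left; left
      rw [Finset.mem_union]
      left
      exact TWOL4_memn.2 ⟨hK', TWOL4_lab h0' x (h ▸ hl)⟩
    by_cases h' : w k x = b'
    · left; left; left; left
      rw [Finset.mem_union]
      right
      exact TWOL4_memn.2 ⟨hK', TWOL4_lab h0' x (h' ▸ hl)⟩
    · left; right
      unfold ex2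
      exact Finset.mem_filter.2 ⟨Finset.mem_univ _, hK, w k x, TWOL4_lab h0 x hl, h, h'⟩
  have h2 := Finset.card_le_card h1
  rw [Finset.card_univ] at h2
  have h3 := Finset.card_union_le ((((nlab H w K' b ∪ nlab H w K' b') ∪ K') ∪ K) ∪
      ex2 H w K b b') (und H K0)
  have h4 := Finset.card_union_le (((nlab H w K' b ∪ nlab H w K' b') ∪ K') ∪ K)
      (ex2 H w K b b')
  have h5 := Finset.card_union_le ((nlab H w K' b ∪ nlab H w K' b') ∪ K') K
  have h6 := Finset.card_union_le (nlab H w K' b ∪ nlab H w K' b') K'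
  omega

/-- an extension with at least two vertices -/
private theorem TWOL4_ext {H : SimpleGraph V} {w : V → V → ZMod m} (h : Kd m H w)
    (hV : 2 ≤ Fintype.card V) (K0 : Finset V) (hK0 : Core H w K0) (y : V) :
    ∃ K', Core H w K' ∧ K0 ⊆ K' ∧ y ∈ K' ∧ 2 ≤ K'.card ∧ K'.card ≤ K0.card + 8 := by
  obtain ⟨K1, h1, h2, h3, h4⟩ := h.ext K0 hK0 y
  by_cases hc : 2 ≤ K1.card
  · exact ⟨K1, h1, h2, h3, hc, by omega⟩
  · have : Nontrivial V := Fintype.one_lt_card_iff_nontrivial.1 (by omega)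
    obtain ⟨z, hz⟩ := exists_ne y
    obtain ⟨K2, g1, g2, g3, g4⟩ := h.ext K1 h1 z
    refine ⟨K2, g1, h2.trans g2, g2 h3, ?_, by omega⟩
    have hs : ({y, z} : Finset V) ⊆ K2 := by
      intro x hx
      rw [Finset.mem_insert, Finset.mem_singleton] at hx
      rcases hx with rfl | rfl
      · exact g2 h3
      · exact g3
    have := Finset.card_le_card hs
    rwa [Finset.card_pair hz.symm] at this

end

/-- ROW TWOL4. Uses T2C. -/
theorem two_labels4 (N : ℕ) : ∃ C, ∀ (m : ℕ) [NeZero m], Big C m → ∀ (V : Type) [Fintype V]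
    [DecidableEq V] (H : SimpleGraph V) (w : V → V → ZMod m), Kd m H w →
    ∀ K0, Core H w K0 → K0.card ≤ 200000 → 200 * (und H K0).card ≤ m →
    (∀ b, 101 * m < 100 * (zlab H w K0 b).card) →
    ∀ K, Core H w K → K0 ⊆ K → K.card ≤ N → ∀ b d, AddSubgroup.zmultiples d = ⊤ →
    (ex2 H w K b (b + d)).card ≤ N → T2lab m H w := by
  refine ⟨1000 * (N + 1), ?_⟩
  intro m _ hB V _ _ H w hk K0 hK0 hc0 hund hz K hK hKK hKN b d hd hex
  have hm := hB.h4
  have hN : 1000 * (N + 1) ≤ m := by
    refine le_trans ?_ hB.N_le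
    exact Nat.le_self_pow (by norm_num) _
  have hn := hk.hn
  have hd0 : d ≠ 0 := by
    rintro rfl
    have : Fact (1 < m) := ⟨by omega⟩
    have h1 : (1 : ZMod m) ∈ AddSubgroup.zmultiples (0 : ZMod m) := by rw [hd]; trivial
    rw [AddSubgroup.zmultiples_zero_eq_bot, AddSubgroup.mem_bot] at h1
    exact one_ne_zero h1
  have hex' : (ex2 H w K (b + d) b).card ≤ N := by
    refine le_trans (Finset.card_le_card ?_) hex
    intro x hx
    unfold ex2 at hx ⊢
    rw [Finset.mem_filter] at hx ⊢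
    obtain ⟨h1, h2, a, ha, h3, h4⟩ := hx
    exact ⟨h1, h2, a, ha, h4, h3⟩
  refine ⟨b, b + d, fun h => hd0 (by simpa using h.symm), fun y => ?_⟩
  obtain ⟨K', hK', h0', hy, h2, hc'⟩ := TWOL4_ext hk (by omega) K0 hK0 y
  have hdiff : (K' \ K0).card ≤ 8 := by
    rw [Finset.card_sdiff_of_subset h0']
    omega
  have e1 := TWOL4_nlab (H := H) (w := w) hKK h0' b (b + d)
  have e2 := TWOL4_nlab (H := H) (w := w) hKK h0' (b + d) b
  have e3 := TWOL4_union (H := H) (w := w) hKK h0' b (b + d)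
  have e4 := hz b
  have e5 := hz (b + d)
  have e6 := core_two hk.zf K' hK' h2 (by omega) b d hd (by omega) (by omega) (by omega)
  have h1 : (univ.filter (fun x => H.Adj y x ∧ w y x ≠ b ∧ w y x ≠ b + d)) ⊆
      K' ∪ ex2 H w K' b (b + d) := by
    intro x hx
    rw [Finset.mem_filter] at hx
    rw [Finset.mem_union]
    by_cases hxK' : x ∈ K'
    · exact Or.inl hxK'
    · right
      unfold ex2
      rw [Finset.mem_filter]
      exact ⟨Finset.mem_univ _, hxK', w y x, TWOL4_meml hy hx.2.1, hx.2.2.1, hx.2.2.2⟩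
  have h2 := Finset.card_le_card h1
  have h3 := Finset.card_union_le K' (ex2 H w K' b (b + d))
  omega

end ZSA
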