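import Pool.Agent.ZSA.STARM
import Pool.Agent.ZSA.TRIC
import Pool.Agent.ZSA.STAB4
import Pool.Agent.ZSA.TYP4
import Pool.Agent.ZSA.TC4
import Pool.Agent.ZSA.TWOL4
import Pool.Agent.ZSA.MKB
import Pool.Agent.ZSA.STSEL
import Pool.Agent.ZSA.FLSTR
import Pool.Agent.ZSA.FDEG
import Pool.Agent.ZSA.FF
import Pool.Agent.ZSA.FT
import Pool.Agent.ZSA.BIPE
import Pool.Agent.ZSA.BIPF
import Pool.Agent.ZSA.BIPT
import Pool.Agent.ZSA.EXT4

namespace ZSA

open Finset Classical ZST

section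

variable {V : Type} [Fintype V] [DecidableEq V] {m : ℕ}

theorem struct_card (H : SimpleGraph V) (K : Finset V) :
    K.card + (outN H K).card + (und H K).card = Fintype.card V := by
  have h1 : Disjoint K (outN H K) := by
    rw [Finset.disjoint_left]
    intro x hx hx'
    simp only [outN, mem_filter, mem_univ, true_and] at hx'
    exact hx'.1 hx
  have h2 : Disjoint (K ∪ outN H K) (und H K) := by
    rw [Finset.disjoint_left]
    intro x hx hx'
    simp only [outN, und, mem_union, mem_filter, mem_univ, true_and] at hx hx'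
    rcases hx with hx | hx
    · exact hx'.1 hx
    · obtain ⟨_, k, hk, hadj⟩ := hx
      exact hx'.2 k hk hadj
  have h3 : (K ∪ outN H K) ∪ und H K = univ := by
    ext x
    simp only [outN, und, mem_union, mem_filter, mem_univ, true_and, iff_true]
    by_cases hx : x ∈ K
    · exact Or.inl (Or.inl hx)
    · by_cases h : ∃ k ∈ K, H.Adj k x
      · exact Or.inl (Or.inr ⟨hx, h⟩)
      · right
        refine ⟨hx, fun k hk hadj => h ⟨k, hk, hadj⟩⟩
  rw [← card_univ, ← h3, card_union_of_disjoint h2, card_union_of_disjoint h1]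

theorem struct_und {H : SimpleGraph V} {K0 K : Finset V} (h : K0 ⊆ K) :
    (und H K).card ≤ (und H K0).card := by
  apply card_le_card
  intro x hx
  simp only [und, mem_filter, mem_univ, true_and] at hx ⊢
  exact ⟨fun h' => hx.1 (h h'), fun k hk => hx.2 k (h hk)⟩

theorem struct_zlab {H : SimpleGraph V} {w : V → V → ZMod m} {K0 K : Finset V} (h : K0 ⊆ K)
    (b : ZMod m) : (zlab H w K0 b).card ≤ (zlab H w K b).card + K.card := by
  have : zlab H w K0 b ⊆ zlab H w K b ∪ K := by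
    intro x hx
    by_cases hxK : x ∈ K
    · exact mem_union_right _ hxK
    · refine mem_union_left _ ?_
      simp only [zlab, mem_filter, mem_univ, true_and] at hx ⊢
      refine ⟨hxK, ?_⟩
      obtain ⟨_, a, ha, hab⟩ := hx
      refine ⟨a, ?_, hab⟩
      simp only [lab, mem_image, mem_filter] at ha ⊢
      obtain ⟨k, ⟨hk, hadj⟩, rfl⟩ := ha
      exact ⟨k, ⟨h hk, hadj⟩, rfl⟩
  exact (card_le_card this).trans (card_union_le _ _)

theorem struct_core_nonempty {G : Type} [AddCommGroup G] {H : SimpleGraph V} {w : V → V → G}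
    {K : Finset V} (h : Core H w K) : K.Nonempty := by
  obtain ⟨s, h⟩ := h
  induction h with
  | single v => exact ⟨v, mem_singleton_self v⟩
  | add h hu hv he ih => exact ⟨_, mem_insert_self _ _⟩

theorem struct_two [NeZero m] {H : SimpleGraph V} {w : V → V → ZMod m} (h : Kd m H w)
    (hm : 10 ^ 13 ≤ m) {K : Finset V} (hK : Core H w K) (hu : 200 * (und H K).card ≤ m) :
    2 ≤ K.card := by
  obtain ⟨v, hv⟩ := struct_core_nonempty hK
  by_contra hcon
  have h1 : K.card = 1 := by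
    have := card_pos.2 ⟨v, hv⟩
    omega
  obtain ⟨v', hv'⟩ := card_eq_one.1 h1
  have h2 : (outN H K).card ≤ (nb H v').card := by
    apply card_le_card
    intro x hx
    simp only [outN, nb, hv', mem_filter, mem_univ, true_and, mem_singleton] at hx ⊢
    obtain ⟨_, k, rfl, hk⟩ := hx
    exact hk
  have h3 := nb_le h.zf v'
  have h4 := struct_card H K
  have h5 := h.hn
  omega

end

theorem struct : ∃ C, ∀ (m : ℕ) [NeZero m], Big C m → ∀ (V : Type) [Fintype V]
    [DecidableEq V] [Nonempty V] (H : SimpleGraph V) (w : V → V → ZMod m), Kd m H w →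
    T1typ m H w ∨ T2lab m H w ∨ FLS m H := by
  obtain ⟨P, hP⟩ : ∃ P : ℕ, P = 2 ^ 200000 := ⟨_, rfl⟩
  obtain ⟨N, hN⟩ : ∃ N : ℕ, N = 200000 + 60 * P + 60 := ⟨_, rfl⟩
  obtain ⟨C1, hC1⟩ := core_tri N
  obtain ⟨C2, hC2⟩ := two_labels4 (N + C1)
  obtain ⟨C3, hC3⟩ := mk_bound N
  refine ⟨C1 + C2 + C3 + 10000 * N + 1000, ?_⟩
  intro m _ hB V _ _ _ H w hKd
  have hm := hB.h4
  by_cases hpoor : ∀ K, Core H w K → K.card ≤ 200000 → 200 * (und H K).card ≤ m →
      ∃ b, 100 * (zlab H w K b).card ≤ 101 * m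
  · left
    obtain ⟨K, b, _, h2, h3, h4, h5⟩ := stable_core4 hm hKd hpoor
    exact typical4 hm hKd K b h2 h3 h4 h5
  right
  push Not at hpoor
  obtain ⟨K0, hK0, hc0, hu0, hr0⟩ := hpoor
  have hNm : 10000 * N ≤ m := by
    have h1 := (hB.mono (show 10000 * N ≤ C1 + C2 + C3 + 10000 * N + 1000 by omega)).N_le
    exact le_trans (Nat.le_self_pow (by norm_num) _) h1
  by_cases hT2 : ∃ K, Core H w K ∧ K0 ⊆ K ∧ K.card ≤ N ∧ ∃ b d, AddSubgroup.zmultiples d = ⊤ ∧
      (ex2 H w K b (b + d)).card ≤ C1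
  · left
    obtain ⟨K, h1, h2, h3, b, d, hd, h4⟩ := hT2
    exact hC2 m (hB.mono (by omega)) V H w hKd K0 hK0 hc0 hu0 hr0 K h1 h2 (by omega) b d hd
      (by omega)
  right
  have h2K0 : 2 ≤ K0.card := struct_two hKd hm hK0 hu0
  have hflat : Flat N H w K0 := by
    intro K hK hKK hKN
    have hc : 2 ≤ K.card := h2K0.trans (card_le_card hKK)
    have hout : 5 * m ≤ 2 * (outN H K).card := by
      have h1 := struct_card H K
      have h2 := struct_und (H := H) hKK
      have h3 := hKd.hn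
      omega
    rcases hC1 m (hB.mono (by omega)) V H w hKd.zf K hK hc hKN hout with h | h | h
    · exfalso
      obtain ⟨b, hb⟩ := h
      have h1 := struct_zlab (H := H) (w := w) hKK b
      have h2 := hr0 b
      have h3 := (hB.mono (show 1000 ≤ C1 + C2 + C3 + 10000 * N + 1000 by omega)).Tm_le 1
      rw [Nat.div_one] at h3
      omega
    · exfalso
      obtain ⟨_, b, d, hd, he⟩ := h
      exact hT2 ⟨K, hK, hKK, hKN, b, d, hd, he⟩
    · exact h
  have hN0 : K0.card + 60 * 2 ^ K0.card + 60 ≤ N := by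
    have h1 : 2 ^ K0.card ≤ P := by
      rw [hP]; exact Nat.pow_le_pow_right (by norm_num) hc0
    generalize 2 ^ K0.card = x at h1 ⊢
    omega
  obtain ⟨K, hK, hKK, hKN, hst⟩ := stable_exists hKd.zf.1 N 60 K0 hK0 hN0
  have hdeg := flat_deg N (hB.mono (by omega)) hKd K0 hK0 hflat (by
    generalize 2 ^ K0.card = x at hN0
    omega)
  exact flat_structure N hm hNm hKd K0 hu0 hflat
    (hC3 m (hB.mono (by omega)) V H w hKd K0 hK0 hu0 hr0) K hK hKK hKN hst hdeg

/-- DIAM: the complement has no `Bip`. -/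
theorem no_bip : ∃ C, ∀ (m : ℕ) [NeZero m], Big C m → ∀ (V : Type) [Fintype V]
    [DecidableEq V] [Nonempty V] (H : SimpleGraph V) (w w' : V → V → ZMod m), ZF m H w →
    ZF m Hᶜ w' → (∀ v, m ≤ (nb H v).card) → 3 * m - 1 ≤ Fintype.card V →
    Fintype.card V ≤ 4 * m → ¬ ∃ A B, Bip m H A B := by
  obtain ⟨C1, hC1⟩ := struct
  obtain ⟨C2, hC2⟩ := no_typical4
  refine ⟨C1 + C2, ?_⟩
  intro m _ hB V _ _ _ H w w' hz hz' hdeg hn hn' hcon
  obtain ⟨A, B, hAB⟩ := hcon
  have hm := hB.h4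
  have hKd : Kd m H w := ⟨hz, hn, hn', hdeg, bip_ext (by omega) A B hAB⟩
  rcases hC1 m (hB.mono (by omega)) V H w hKd with h | h | h
  · exact hC2 m (hB.mono (by omega)) V H w w' hz hz' hdeg hn hn' h
  · exact bip_two hm hn hz A B hAB h
  · exact bip_flat (by omega) A B hAB h

/-- Both kinds have two labels. -/
theorem two_two : ∃ C, ∀ (m : ℕ) [NeZero m], Big C m → ∀ (V : Type) [Fintype V]
    [DecidableEq V] [Nonempty V] (H : SimpleGraph V) (w w' : V → V → ZMod m), ZF m H w →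
    ZF m Hᶜ w' → (∀ v, m ≤ (nb H v).card) → (∀ v, m ≤ (nb Hᶜ v).card) →
    3 * m - 1 ≤ Fintype.card V → Fintype.card V ≤ 4 * m → T2lab m H w ∧ T2lab m Hᶜ w' := by
  obtain ⟨C1, hC1⟩ := struct
  obtain ⟨C2, hC2⟩ := no_typical4
  obtain ⟨C3, hC3⟩ := no_bip
  refine ⟨C1 + C2 + C3, ?_⟩
  intro m _ hB V _ _ _ H w w' hz hz' hdeg hdeg' hn hn'
  have hm := hB.h4
  have hcc : Hᶜᶜ = H := compl_compl H
  have hzc : ZF m Hᶜᶜ w := by rw [hcc]; exact hz
  have hKd : Kd m H w := ⟨hz, hn, hn', hdeg,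
    ext4 hdeg (hC3 m (hB.mono (by omega)) V Hᶜ w' w hz' hzc hdeg' hn hn')⟩
  have hno' : ¬ ∃ A B, Bip m Hᶜᶜ A B := by
    rw [hcc]; exact hC3 m (hB.mono (by omega)) V H w w' hz hz' hdeg hn hn'
  have hKd' : Kd m Hᶜ w' := ⟨hz', hn, hn', hdeg', ext4 hdeg' hno'⟩
  have hFFcc : FLS m H → FLS m Hᶜᶜ := by rw [hcc]; exact id
  have hT2cc : T2lab m H w → T2lab m Hᶜᶜ w := by rw [hcc]; exact id
  rcases hC1 m (hB.mono (by omega)) V H w hKd with h | h | h
  · exact absurd h (hC2 m (hB.mono (by omega)) V H w w' hz hz' hdeg hn hn')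
  · rcases hC1 m (hB.mono (by omega)) V Hᶜ w' hKd' with h' | h' | h'
    · exact absurd h' (hC2 m (hB.mono (by omega)) V Hᶜ w' w hz' hzc hdeg' hn hn')
    · exact ⟨h, h'⟩
    · exact (flat_two (H := Hᶜ) (w' := w) hm hn h' hzc (hT2cc h)).elim
  · rcases hC1 m (hB.mono (by omega)) V Hᶜ w' hKd' with h' | h' | h'
    · exact absurd h' (hC2 m (hB.mono (by omega)) V Hᶜ w' w hz' hzc hdeg' hn hn')
    · exact (flat_two hm hn h hz' h').elim
    · exact (flat_flat (by omega) hn h h').elim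

end ZSA
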