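import Pool.Agent.ZST.Main
import Pool.Agent.ZSA.STRUCT
import Pool.Agent.ZSA.KEYM
import Pool.Agent.ZSA.FINM
import Pool.Agent.ZSA.ANA
import Pool.Agent.ZSA.COMPLEM

namespace ZSA

open Finset Classical ZST

theorem hasZero_of_hasMono' : ∃ C, ∀ (m : ℕ) [NeZero m], Big C m → ∀ n, 3 * m - 1 ≤ n →
    HasMono m 4 n → HasZero m n := by
  obtain ⟨C, hC⟩ := two_two
  refine ⟨C, ?_⟩
  intro p _ hB n hn hM
  have hp := hB.h4
  by_contra hcon
  unfold HasZero at hcon
  push Not at hcon
  obtain ⟨c, hc0⟩ := hcon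
  have hc : ∀ T, IsCopy p n T → ¬ ZeroSum c T := fun T h1 => hc0 T h1
  have hz := zf_one c hc
  have hz' := zf_two c hc
  set H := kindOne c with hH
  set w : Fin n → Fin n → ZMod p :=
    (fun u v => Sum.elim id (fun _ => (0 : ZMod p)) (c s(u, v))) with hw
  set w' : Fin n → Fin n → ZMod p :=
    (fun u v => Sum.elim (fun _ => (0 : ZMod p)) id (c s(u, v))) with hw'
  have hcard : Fintype.card (Fin n) = n := Fintype.card_fin n
  have hn1 : 3 * p - 1 ≤ Fintype.card (Fin n) := by rw [hcard]; exact hn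
  have hpos : 0 < n := by omega
  have : Nonempty (Fin n) := ⟨⟨0, hpos⟩⟩
  have hcc : Hᶜᶜ = H := compl_compl H
  have hz'' : ZF p Hᶜᶜ w := by rw [hcc]; exact hz
  have hd1 : ∀ v, (nb H v).card ≤ 2 * p - 2 := fun v => nb_le hz v
  have hd2 : ∀ v, (nb Hᶜ v).card ≤ 2 * p - 2 := fun v => nb_le hz' v
  have hsum := fun v => nb_add_compl H v
  have hn2 : Fintype.card (Fin n) ≤ 4 * p := by
    have := hsum ⟨0, hpos⟩
    have a1 := hd1 ⟨0, hpos⟩
    have a2 := hd2 ⟨0, hpos⟩
    omega
  have hdeg : ∀ v, p ≤ (nb H v).card := by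
    intro v
    have := hsum v
    have a2 := hd2 v
    omega
  have hdeg' : ∀ v, p ≤ (nb Hᶜ v).card := by
    intro v
    have := hsum v
    have a2 := hd1 v
    omega
  obtain ⟨⟨b0, b1, hb01, hb⟩, ⟨b2, b3, hb23, hb'⟩⟩ := hC p hB (Fin n) H w w' hz hz' hdeg hdeg' hn1 hn2
  have hF : Four (Fin n) p 1000000 ![lg H w b0, lg H w b1, lg Hᶜ w' b2, lg Hᶜ w' b3] := by
    refine ⟨hp, by norm_num, hn1, hn2, ?_, ?_, ?_⟩
    · intro s t u v hst h1 h2
      fin_cases s <;> fin_cases t <;>
        simp only [lg, Fin.zero_eta, Fin.mk_one, Fin.reduceFinMk, Matrix.cons_val_zero,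
          Matrix.cons_val_one, Matrix.cons_val, ne_eq, not_true_eq_false, SimpleGraph.compl_adj]
          at hst h1 h2
      all_goals first
        | exact hb01 (h1.2.1.symm.trans h2.2.1)
        | exact hb01 (h2.2.1.symm.trans h1.2.1)
        | exact hb23 (h1.2.1.symm.trans h2.2.1)
        | exact hb23 (h2.2.1.symm.trans h1.2.1)
        | exact h1.1.2 h2.1
        | exact h2.1.2 h1.1
    · intro u
      have hsub : (univ.filter (fun v => v ≠ u ∧
          ∀ t, ¬ ((![lg H w b0, lg H w b1, lg Hᶜ w' b2, lg Hᶜ w' b3] : Fin 4 → _) t).Adj u v)) ⊆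
          (univ.filter (fun x => H.Adj u x ∧ w u x ≠ b0 ∧ w u x ≠ b1)) ∪
          (univ.filter (fun x => Hᶜ.Adj u x ∧ w' u x ≠ b2 ∧ w' u x ≠ b3)) := by
        intro x hx
        simp only [mem_filter, mem_univ, true_and] at hx
        obtain ⟨hx1, hx2⟩ := hx
        have t0 := hx2 0
        have t1 := hx2 1
        have t2 := hx2 2
        have t3 := hx2 3
        simp only [lg, Matrix.cons_val_zero, Matrix.cons_val_one, Matrix.cons_val] at t0 t1 t2 t3
        simp only [mem_union, mem_filter, mem_univ, true_and]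
        by_cases hA : H.Adj u x
        · left
          refine ⟨hA, fun h => t0 ⟨hA, h, ?_⟩, fun h => t1 ⟨hA, h, ?_⟩⟩
          · rw [← hz.1]; exact h
          · rw [← hz.1]; exact h
        · right
          have hA' : Hᶜ.Adj u x := by
            rw [SimpleGraph.compl_adj]; exact ⟨fun h => hx1 h.symm, hA⟩
          refine ⟨hA', fun h => t2 ⟨hA', h, ?_⟩, fun h => t3 ⟨hA', h, ?_⟩⟩
          · rw [← hz'.1]; exact h
          · rw [← hz'.1]; exact h
      refine (card_le_card hsub).trans ((card_union_le _ _).trans ?_)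
      exact (Nat.add_le_add (hb u) (by convert hb' u)).trans (by norm_num)
    · intro t v
      fin_cases t
      · exact comp_le hz b0 v
      · exact comp_le hz b1 v
      · exact comp_le hz' b2 v
      · exact comp_le hz' b3 v
  have hbig : ∀ v, p + 1 ≤ 2 * (comp H w b0 v).card := by
    intro v
    have h1 : 97 * p ≤ 100 * (comp H w b0 v).card := c_all hF v 0
    omega
  have hbig' : ∀ v, p + 1 ≤ 2 * (comp Hᶜ w' b2 v).card := by
    intro v
    have h1 : 97 * p ≤ 100 * (comp Hᶜ w' b2 v).card := c_all hF v 2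
    omega
  obtain ⟨T, hT, i, hi⟩ := hM (four H (lg H w b0) (lg Hᶜ w' b2))
  have hadj : ∀ u v, T.Adj u v → four H (lg H w b0) (lg Hᶜ w' b2) s(u, v) = i := by
    intro u v h
    exact hi _ (by rw [SimpleGraph.Subgraph.mem_edgeSet]; exact h)
  have hne : ∀ u v, T.Adj u v → u ≠ v := fun u v h => T.adj_sub h |>.ne
  fin_cases i
  · -- inside a component of b0
    obtain ⟨S, _, hS, hTR⟩ := tr_of_copy hT
      (fun e => Sum.elim id (fun _ => (0 : ZMod p)) (c e))
      (fun u v => (lg H w b0).Reachable u v) (by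
        intro u v h
        have := hadj u v h
        rw [four_mk] at this
        by_contra h'
        split_ifs at this <;> simp_all)
    obtain ⟨v, hv⟩ := reach_of_TR hTR (Γ := lg H w b0) (fun u v h => h)
    have h1 := card_le_card hv
    have h2 : (cp (lg H w b0) v).card ≤ p := comp_le hz b0 v
    omega
  · obtain ⟨S, _, hS, hTR⟩ := tr_of_copy hT
      (fun e => Sum.elim id (fun _ => (0 : ZMod p)) (c e))
      (btw H w b0).Adj (by
        intro u v h
        have := hadj u v h
        rw [four_mk] at this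
        split_ifs at this with h1 h2 h3 <;> first | exact ⟨h1, h2⟩ | (simp at this))
    exact key' hz b0 hbig S hS _ hTR
  · obtain ⟨S, _, hS, hTR⟩ := tr_of_copy hT
      (fun e => Sum.elim (fun _ => (0 : ZMod p)) id (c e))
      (fun u v => (lg Hᶜ w' b2).Reachable u v) (by
        intro u v h
        have := hadj u v h
        rw [four_mk] at this
        by_contra h'
        split_ifs at this <;> simp_all)
    obtain ⟨v, hv⟩ := reach_of_TR hTR (Γ := lg Hᶜ w' b2) (fun u v h => h)
    have h1 := card_le_card hv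
    have h2 : (cp (lg Hᶜ w' b2) v).card ≤ p := comp_le hz' b2 v
    omega
  · obtain ⟨S, _, hS, hTR⟩ := tr_of_copy hT
      (fun e => Sum.elim (fun _ => (0 : ZMod p)) id (c e))
      (btw Hᶜ w' b2).Adj (by
        intro u v h
        have := hadj u v h
        rw [four_mk] at this
        have hne' := hne u v h
        split_ifs at this with h1 h2 h3 <;>
          first
          | exact ⟨by rw [SimpleGraph.compl_adj]; exact ⟨hne', h1⟩, h3⟩
          | exact ⟨by rw [SimpleGraph.compl_adj]; exact ⟨hne', h1⟩, h2⟩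
          | (simp at this))
    exact key' hz' b2 hbig' S hS _ hTR


/-- **Main theorem.** -/
theorem main : ∃ m0, ∀ m, m0 ≤ m →
    (∀ n, HasMono m 4 n ↔ HasZero m n) ∧
    ∃ R, IsLeast {n | HasMono m 4 n} R ∧ IsLeast {n | HasZero m n} R := by
  obtain ⟨C, hC⟩ := hasZero_of_hasMono'
  obtain ⟨m0, hm0⟩ := exists_big C
  refine ⟨m0, ?_⟩
  intro m hm
  have hB := hm0 m hm
  have hB4 := hB.h4
  have : NeZero m := ⟨by omega⟩
  have h1 : ∀ n, HasMono m 4 n ↔ HasZero m n := by
    intro n
    constructor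
    · intro h
      by_cases hn : 3 * m - 1 ≤ n
      · exact hC m hB n hn h
      · exact absurd h (not_hasMono_low m n (by omega) (by omega))
    · exact hasMono_of_hasZero (by omega)
  refine ⟨h1, ?_⟩
  have hne : ∃ n, HasZero m n := ⟨4 * m, hasZero_large' m (by omega)⟩
  have heq : {n | HasMono m 4 n} = {n | HasZero m n} := by
    ext n; exact h1 n
  refine ⟨Nat.find hne, ?_, ?_⟩
  · rw [heq]
    exact ⟨Nat.find_spec hne, fun k hk => Nat.find_min' hne hk⟩
  · exact ⟨Nat.find_spec hne, fun k hk => Nat.find_min' hne hk⟩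

end ZSA
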