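import Pool.Agent.ZSA.CU

namespace ZSA

open Finset Classical ZST

/-- a subgroup of `ZMod m` is determined by its order -/
theorem res_sub_eq {m : ℕ} [NeZero m] (H1 H2 : AddSubgroup (ZMod m))
    (h : Nat.card H1 = Nat.card H2) : H1 = H2 := by
  have key : ∀ H : AddSubgroup (ZMod m), ∀ n, Nat.card H = n →
      (univ.filter (fun x : ZMod m => x ∈ H)) = univ.filter (fun x : ZMod m => n • x = 0) := by
    intro H n hn
    have hn0 : 0 < n := by rw [← hn]; exact Nat.card_pos
    apply Finset.eq_of_subset_of_card_le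
    · intro x hx
      rw [mem_filter] at hx ⊢
      refine ⟨mem_univ _, ?_⟩
      have h1 : addOrderOf (⟨x, hx.2⟩ : H) ∣ Nat.card H := addOrderOf_dvd_natCard _
      have h2 : addOrderOf x ∣ n := by
        rw [← hn]
        have : addOrderOf (⟨x, hx.2⟩ : H) = addOrderOf x := by
          rw [← AddSubgroup.addOrderOf_coe]
        rwa [this] at h1
      exact addOrderOf_dvd_iff_nsmul_eq_zero.1 h2
    · have h1 : (univ.filter (fun x : ZMod m => n • x = 0)).card ≤ n :=
        IsAddCyclic.card_nsmul_eq_zero_le hn0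
      have h2 : (univ.filter (fun x : ZMod m => x ∈ H)).card = n := by
        rw [← hn, Nat.card_eq_fintype_card, Fintype.card_subtype]
      omega
  have h1 := key H1 _ h
  have h2 := key H2 _ rfl
  rw [← h2] at h1
  ext x
  have := congrArg (fun s => x ∈ s) h1
  simpa using this

theorem res_unit {W G : Type} [AddCommGroup G] (A : W → Finset G) (Λ : AddSubgroup G)
    (U : Finset W) (hU : CUnit A Λ U) (p : G) : ∃ x ∈ U, ∃ a ∈ A x, a - p ∉ Λ := by
  obtain ⟨-, a, d, hd, h1, h2⟩ := hU
  have key : ∀ t, Rc A U 1 t → ∃ x ∈ U, t ∈ A x := by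
    intro t ht
    obtain ⟨L, hL, hc, f, hf, hs⟩ := ht
    obtain ⟨x, rfl⟩ := Finset.card_eq_one.1 hc
    refine ⟨x, hL (mem_singleton_self x), ?_⟩
    rw [sum_singleton] at hs
    rw [← hs]
    exact hf x (mem_singleton_self x)
  obtain ⟨x, hx, hxa⟩ := key _ h1
  obtain ⟨y, hy, hya⟩ := key _ h2
  by_cases h : a - p ∈ Λ
  · refine ⟨y, hy, a + d, hya, fun h' => hd ?_⟩
    have := Λ.sub_mem h' h
    have e : a + d - p - (a - p) = d := by abel
    rwa [e] at this
  · exact ⟨x, hx, a, hxa, h⟩

theorem res_exc_ge {W G : Type} [AddCommGroup G] (A : W → Finset G) (Λ : AddSubgroup G)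
    (F : Finset (Finset W)) (hF : ∀ U ∈ F, CUnit A Λ U)
    (hd : ∀ U ∈ F, ∀ U' ∈ F, U ≠ U' → Disjoint U U') (Y : Finset W) (hY : ∀ U ∈ F, U ⊆ Y)
    (p : G) : F.card ≤ (exc A Y Λ p).card := by
  have h1 : ∀ U ∈ F, 1 ≤ (exc A Y Λ p ∩ U).card := by
    intro U hU
    obtain ⟨x, hx, a, ha, h⟩ := res_unit A Λ U (hF U hU) p
    rw [Nat.one_le_iff_ne_zero, ← Nat.pos_iff_ne_zero, Finset.card_pos]
    refine ⟨x, mem_inter.2 ⟨?_, hx⟩⟩
    unfold exc
    exact mem_filter.2 ⟨hY U hU hx, a, ha, h⟩
  calc F.card = ∑ U ∈ F, 1 := by simp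
    _ ≤ ∑ U ∈ F, (exc A Y Λ p ∩ U).card := sum_le_sum h1
    _ = (F.biUnion (fun U => exc A Y Λ p ∩ U)).card := by
        rw [card_biUnion]
        intro U hU U' hU' hne
        exact disjoint_of_subset_left inter_subset_right
          (disjoint_of_subset_right inter_subset_right (hd U hU U' hU' hne))
    _ ≤ (exc A Y Λ p).card := by
        apply card_le_card
        intro x hx
        obtain ⟨U, -, hU⟩ := mem_biUnion.1 hx
        exact (mem_inter.1 hU).1

/-- ROW RES. Uses CU. -/
theorem exists_res {W : Type} {m : ℕ} [NeZero m] (A : W → Finset (ZMod m)) (X : Finset W)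
    (hA : ∀ x ∈ X, (A x).Nonempty) (H : AddSubgroup (ZMod m)) (R : ℕ) (hX : 8 * R ≤ X.card)
    (he : ∀ H'' : AddSubgroup (ZMod m), H'' < H → Nat.card H < R * Nat.card H'' →
      ∀ p, 4 * R ≤ (exc A X H'' p).card) :
    ∃ Res ⊆ X, Res.card ≤ 8 * R ^ 2 ∧
      ∀ H'' : AddSubgroup (ZMod m), H'' < H → Nat.card H < R * Nat.card H'' →
        4 * R ≤ Res.card ∧ ∀ p, 4 * R ≤ (exc A Res H'' p).card := by
  have hfin : Finite (AddSubgroup (ZMod m)) := inferInstance
  have := Fintype.ofFinite (AddSubgroup (ZMod m))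
  set S : Finset (AddSubgroup (ZMod m)) :=
    univ.filter (fun H'' => H'' < H ∧ Nat.card H < R * Nat.card H'') with hS
  have hScard : S.card ≤ R := by
    have : S.card ≤ (range R).card := by
      apply card_le_card_of_injOn (fun H'' : AddSubgroup (ZMod m) => Nat.card H / Nat.card H'')
      · intro H'' hH
        have hH := (mem_filter.1 hH).2
        have hpos : 0 < Nat.card H'' := Nat.card_pos
        simp only [coe_range, Set.mem_Iio]
        exact (Nat.div_lt_iff_lt_mul hpos).2 hH.2
      · intro H1 h1 H2 h2 heq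
        have h1 := (mem_filter.1 h1).2
        have h2 := (mem_filter.1 h2).2
        apply res_sub_eq
        have d1 : Nat.card H1 ∣ Nat.card H := AddSubgroup.card_dvd_of_le h1.1.le
        have d2 : Nat.card H2 ∣ Nat.card H := AddSubgroup.card_dvd_of_le h2.1.le
        have hpos : 0 < Nat.card H := Nat.card_pos
        simp only at heq
        obtain ⟨a, ha⟩ := d1
        obtain ⟨b, hb⟩ := d2
        have p1 : 0 < Nat.card H1 := Nat.card_pos
        have p2 : 0 < Nat.card H2 := Nat.card_pos
        have e1 : Nat.card H / Nat.card H1 = a := by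
          rw [ha]; exact Nat.mul_div_cancel_left _ p1
        have e2 : Nat.card H / Nat.card H2 = b := by
          rw [hb]; exact Nat.mul_div_cancel_left _ p2
        rw [e1, e2] at heq
        subst heq
        have ha0 : 0 < a := by
          rcases Nat.eq_zero_or_pos a with h0 | h0
          · rw [h0, mul_zero] at ha; omega
          · exact h0
        exact Nat.eq_of_mul_eq_mul_right ha0 (ha.symm.trans hb)
    simpa using this
  have hex : ∀ H'' ∈ S, ∃ F : Finset (Finset W), F.card = 4 * R ∧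
      (∀ U ∈ F, U ⊆ X ∧ CUnit A H'' U) ∧ ∀ U ∈ F, ∀ U' ∈ F, U ≠ U' → Disjoint U U' := by
    intro H'' hH
    have hH := (mem_filter.1 hH).2
    exact cross_units A X hA H'' (4 * R) (by omega) (he H'' hH.1 hH.2)
  choose! F hF1 hF2 hF3 using hex
  refine ⟨S.biUnion (fun H'' => (F H'').biUnion id), ?_, ?_, ?_⟩
  · intro x hx
    obtain ⟨H'', hH, hx⟩ := mem_biUnion.1 hx
    obtain ⟨U, hU, hxU⟩ := mem_biUnion.1 hx
    exact (hF2 H'' hH U hU).1 hxU
  · calc (S.biUnion (fun H'' => (F H'').biUnion id)).card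
        ≤ S.card * (8 * R) := by
          apply card_biUnion_le_card_mul
          intro H'' hH
          calc ((F H'').biUnion id).card ≤ (F H'').card * 2 := by
                apply card_biUnion_le_card_mul
                intro U hU
                exact (hF2 H'' hH U hU).2.1
            _ = 8 * R := by rw [hF1 H'' hH]; ring
      _ ≤ R * (8 * R) := Nat.mul_le_mul_right _ hScard
      _ = 8 * R ^ 2 := by ring
  · intro H'' h1 h2
    have hH : H'' ∈ S := mem_filter.2 ⟨mem_univ _, h1, h2⟩
    have key : ∀ p, 4 * R ≤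
        (exc A (S.biUnion (fun H'' => (F H'').biUnion id)) H'' p).card := by
      intro p
      rw [← hF1 H'' hH]
      apply res_exc_ge A H'' (F H'') (fun U hU => (hF2 H'' hH U hU).2) (hF3 H'' hH)
      intro U hU x hx
      exact mem_biUnion.2 ⟨H'', hH, mem_biUnion.2 ⟨U, hU, hx⟩⟩
    refine ⟨(key 0).trans ?_, key⟩
    apply card_le_card
    unfold exc
    exact filter_subset _ _

end ZSA
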