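import Pool.Agent.ZSA.Defs

/-!
# There are few elements of small order in `ZMod m`
-/

namespace ZSA

open Finset Classical ZST

/-- ROW SHORT. -/
theorem card_short (m n : ℕ) [NeZero m] :
    (univ.filter (fun x : ZMod m => addOrderOf x ≤ n)).card ≤ n ^ 2 := by
  have hsub : (univ.filter (fun x : ZMod m => addOrderOf x ≤ n)) ⊆
      (Finset.Icc 1 n).biUnion (fun j => univ.filter (fun x : ZMod m => j • x = 0)) := by
    intro x hx
    rw [mem_filter] at hx
    rw [mem_biUnion]
    refine ⟨addOrderOf x, ?_, ?_⟩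
    · rw [Finset.mem_Icc]
      exact ⟨addOrderOf_pos x, hx.2⟩
    · rw [mem_filter]
      exact ⟨mem_univ _, addOrderOf_nsmul_eq_zero x⟩
  have hj : ∀ j ∈ Finset.Icc 1 n,
      (univ.filter (fun x : ZMod m => j • x = 0)).card ≤ n := by
    intro j hj
    rw [Finset.mem_Icc] at hj
    exact (IsAddCyclic.card_nsmul_eq_zero_le hj.1).trans hj.2
  calc (univ.filter (fun x : ZMod m => addOrderOf x ≤ n)).card
      ≤ ((Finset.Icc 1 n).biUnion (fun j => univ.filter (fun x : ZMod m => j • x = 0))).card :=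
        card_le_card hsub
    _ ≤ (Finset.Icc 1 n).card * n := card_biUnion_le_card_mul _ _ _ hj
    _ = n ^ 2 := by rw [Nat.card_Icc, Nat.add_sub_cancel, pow_two]

end ZSA
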