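import Pool.Agent.ZSA.Defs

/-! ZSA rows STARM, STARQ: EGZ on the star of a vertex. -/

namespace ZSA

open Finset Classical ZST

section

variable {V : Type} [Fintype V] [DecidableEq V] {m : ℕ}

omit [Fintype V] in
theorem starm_aux {G : Type} [AddCommGroup G] {E : V → V → Prop} {w : V → V → G}
    (v : V) (L : Finset V) (hE : ∀ x ∈ L, E v x) (hv : v ∉ L) :
    TR E w (insert v L) (∑ x ∈ L, w v x) := by
  induction L using Finset.induction_on with
  | empty =>
    rw [Finset.sum_empty]
    have : insert v (∅ : Finset V) = {v} := by simp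
    rw [this]
    exact TR.single v
  | insert a s ha ih =>
    have h1 : v ∉ s := fun h => hv (Finset.mem_insert_of_mem h)
    have h2 := ih (fun x hx => hE x (Finset.mem_insert_of_mem hx)) h1
    have h3 : a ∉ insert v s := by
      rw [Finset.mem_insert, not_or]
      refine ⟨?_, ha⟩
      rintro rfl
      exact hv (Finset.mem_insert_self _ _)
    have h4 := TR.add h2 (Finset.mem_insert_self v s) h3 (hE a (Finset.mem_insert_self _ _))
    rw [Finset.sum_insert ha, add_comm, Finset.insert_comm]
    exact h4

theorem starm_no_sum {H : SimpleGraph V} {w : V → V → ZMod m} (hz : ZF m H w) (v : V)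
    (t : Finset V) (ht : t ⊆ nb H v) (hcard : t.card = m) (hsum : ∑ x ∈ t, w v x = 0) :
    False := by
  have hv : v ∉ t := by
    intro h
    have := ht h
    unfold nb at this
    exact H.loopless.irrefl v (Finset.mem_filter.mp this).2
  have h2 := starm_aux (E := H.Adj) (w := w) v t
    (fun x hx => (Finset.mem_filter.mp (ht hx)).2) hv
  rw [hsum] at h2
  exact hz.2 _ (by rw [Finset.card_insert_of_notMem hv, hcard]) h2

/-- ROW STARM. EGZ on the star of `v`. -/
theorem nb_le [NeZero m] {H : SimpleGraph V} {w : V → V → ZMod m}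
    (hz : ZF m H w) (v : V) : (nb H v).card ≤ 2 * m - 2 := by
  by_contra hcon
  have hpos := Nat.pos_of_ne_zero (NeZero.ne m)
  have h1 : 2 * m - 1 ≤ (nb H v).card := by omega
  obtain ⟨t, ht, hcard, hsum⟩ := ZMod.erdos_ginzburg_ziv (s := nb H v) (fun x => w v x) h1
  exact starm_no_sum hz v t ht hcard hsum

end

end ZSA
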