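import Pool.Agent.ZSA.Defs

/-!
# ZSA, row T2X
-/

namespace ZSA

open Finset Classical ZST

private theorem t2x_const {W : Type} {m : ℕ} (A : W → Finset (ZMod m)) (V : Finset W)
    (a : ZMod m) (h : ∀ v ∈ V, a ∈ A v) (j : ℕ) (hj : j ≤ V.card) : Rc A V j (j • a) := by
  obtain ⟨L, hL, hc⟩ := exists_subset_card_eq hj
  refine ⟨L, hL, hc, fun _ => a, fun x hx => h x (hL hx), ?_⟩
  rw [sum_const, hc]

private theorem t2x_step {W : Type} {m : ℕ} {A : W → Finset (ZMod m)} {U U' : Finset W} {n ℓ e : ℕ}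
    {β β' d : ZMod m} (h : ∀ i ≤ ℓ, Rc A U n (β + i • d)) (hd : Disjoint U U')
    (h0 : Rc A U' 1 β') (h1 : Rc A U' 1 (β' + e • d)) (he : e ≤ ℓ + 1) :
    ∀ i ≤ ℓ + e, Rc A (U ∪ U') (n + 1) (β + β' + i • d) := by
  intro i hi
  by_cases hi' : i ≤ ℓ
  · have h2 := (h i hi').add' h0 hd
    have e1 : β + i • d + β' = β + β' + i • d := by ring
    rwa [e1] at h2
  · have h2 := (h (i - e) (by omega)).add' h1 hd
    have e1 : β + (i - e) • d + (β' + e • d) = β + β' + i • d := by
      have e2 : i • d = (i - e) • d + e • d := by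
        rw [← add_smul]
        congr 1
        omega
      rw [e2]
      ring
    rwa [e1] at h2

private theorem t2x_mult {m : ℕ} [NeZero m] {d : ZMod m} (hd : AddSubgroup.zmultiples d = ⊤)
    (a : ZMod m) : ∃ c < m, c • d = a := by
  have h : a ∈ AddSubgroup.zmultiples d := by rw [hd]; trivial
  obtain ⟨z, hz⟩ := AddSubgroup.mem_zmultiples_iff.1 h
  refine ⟨(z : ZMod m).val, ZMod.val_lt _, ?_⟩
  rw [nsmul_eq_mul, ZMod.natCast_val, ZMod.cast_id', id, ← zsmul_eq_mul, hz]

private theorem t2x_main {W : Type} {m : ℕ} [NeZero m] (A : W → Finset (ZMod m)) (b d : ZMod m)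
    (hd : AddSubgroup.zmultiples d = ⊤) (k : ℕ) (hk : m ≤ 2 * k) (E : Finset W)
    (hE : ∀ x ∈ E, ∃ a ∈ A x, a ≠ b ∧ a ≠ b + d) :
    ∀ V V' : Finset W, Disjoint V V' → Disjoint E V → Disjoint E V' →
      (∀ v ∈ V, b ∈ A v) → (∀ v ∈ V', b + d ∈ A v) → k + E.card ≤ V.card →
      k + E.card ≤ V'.card →
      ∃ β : ZMod m, ∀ i ≤ k + 2 * E.card, Rc A (V ∪ V' ∪ E) (k + E.card) (β + i • d) := by
  induction E using Finset.induction_on with
  | empty =>
    intro V V' hVV' _ _ hV hV' hc hc'
    simp only [card_empty, add_zero] at hc hc'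
    refine ⟨k • b, fun i hi => ?_⟩
    simp only [card_empty, mul_zero, add_zero] at hi
    have h1 := t2x_const A V b hV (k - i) (by omega)
    have h2 := t2x_const A V' (b + d) hV' i (by omega)
    have h3 := h1.add' h2 hVV'
    have e1 : k - i + i = k := by omega
    have e2 : (k - i) • b + i • (b + d) = k • b + i • d := by
      have : k • b = (k - i) • b + i • b := by
        rw [← add_smul, e1]
      rw [this, smul_add]
      ring
    rw [e1, e2] at h3
    simpa using h3
  | insert x E hx ih =>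
    intro V V' hVV' hEV hEV' hV hV' hc hc'
    rw [card_insert_of_notMem hx] at hc hc' ⊢
    have ih' := ih fun y hy => hE y (mem_insert_of_mem hy)
    obtain ⟨a, ha, hab, habd⟩ := hE x (mem_insert_self _ _)
    obtain ⟨c, hcm, hcd⟩ := t2x_mult hd (a - b)
    have hac : a = b + c • d := by rw [hcd]; ring
    have hmd : m • d = 0 := by
      rw [nsmul_eq_mul, CharP.cast_eq_zero, zero_mul]
    have hc0 : c ≠ 0 := by
      rintro rfl
      rw [zero_smul, add_zero] at hac
      exact hab hac
    have hc1 : c ≠ 1 := by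
      rintro rfl
      rw [one_smul] at hac
      exact habd hac
    have hxV : x ∉ V := fun h => (disjoint_left.1 hEV) (mem_insert_self _ _) h
    have hxV' : x ∉ V' := fun h => (disjoint_left.1 hEV') (mem_insert_self _ _) h
    have hEV1 : Disjoint E V := disjoint_of_subset_left (subset_insert _ _) hEV
    have hEV1' : Disjoint E V' := disjoint_of_subset_left (subset_insert _ _) hEV'
    -- the two ways to use the new vertex
    have key : ∀ (v : W) (V₁ V₁' : Finset W), v ∈ V ∪ V' → Disjoint V₁ V₁' → V₁ ⊆ V → V₁' ⊆ V' →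
        v ∉ V₁ → v ∉ V₁' → k + E.card ≤ V₁.card → k + E.card ≤ V₁'.card →
        ∀ (β' : ZMod m) (e : ℕ), 2 ≤ e → e ≤ k + 1 → Rc A {x, v} 1 β' →
        Rc A {x, v} 1 (β' + e • d) →
        ∃ β : ZMod m, ∀ i ≤ k + 2 * (E.card + 1),
          Rc A (V ∪ V' ∪ insert x E) (k + (E.card + 1)) (β + i • d) := by
      intro v V₁ V₁' hv hd1 hs1 hs1' hv1 hv1' hk1 hk1' β' e he2 hem h0 h1
      obtain ⟨β, hβ⟩ := ih' V₁ V₁' hd1 (disjoint_of_subset_right hs1 hEV1)
        (disjoint_of_subset_right hs1' hEV1') (fun u hu => hV u (hs1 hu))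
        (fun u hu => hV' u (hs1' hu)) hk1 hk1'
      have hvE : v ∉ E := by
        intro h
        rcases mem_union.1 hv with h' | h'
        · exact (disjoint_left.1 hEV1) h h'
        · exact (disjoint_left.1 hEV1') h h'
      have hdis : Disjoint (V₁ ∪ V₁' ∪ E) {x, v} := by
        rw [disjoint_right]
        intro y hy
        rw [mem_insert, mem_singleton] at hy
        rw [mem_union, mem_union, not_or, not_or]
        rcases hy with rfl | rfl
        · exact ⟨⟨fun h => hxV (hs1 h), fun h => hxV' (hs1' h)⟩, hx⟩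
        · exact ⟨⟨hv1, hv1'⟩, hvE⟩
      have h2 := t2x_step hβ hdis h0 h1 (by omega)
      refine ⟨β + β', fun i hi => ?_⟩
      have h3 := h2 i (by omega)
      rw [← add_assoc]
      refine h3.mono ?_
      intro y hy
      rw [mem_union, mem_union, mem_union, mem_insert, mem_singleton] at hy
      rw [mem_union, mem_union, mem_insert]
      rcases hy with ((h | h) | h) | (h | h)
      · exact Or.inl (Or.inl (hs1 h))
      · exact Or.inl (Or.inr (hs1' h))
      · exact Or.inr (Or.inr h)
      · exact Or.inr (Or.inl h)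
      · rw [h]; exact Or.inl (mem_union.1 hv)
    have hx1 : ∀ v, Rc A {x, v} 1 a := fun v => Rc.one (mem_insert_self _ _) ha
    by_cases hcc : c = m - 1
    · -- use a vertex of `V'`
      have hne : V'.Nonempty := card_pos.1 (by omega)
      obtain ⟨v, hv⟩ := hne
      have hvV : v ∉ V := fun h => (disjoint_left.1 hVV') h hv
      refine key v V (V'.erase v) (mem_union_right _ hv)
        (disjoint_of_subset_right (erase_subset _ _) hVV') Subset.rfl (erase_subset _ _) hvV
        (notMem_erase _ _) (by omega) (by rw [card_erase_of_mem hv]; omega) a 2 le_rfl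
        (by omega) (hx1 v) ?_
      have e1 : a + 2 • d = b + d := by
        have e2 : c • d + 1 • d = 0 := by
          rw [← add_smul, hcc, show m - 1 + 1 = m by omega, hmd]
        rw [one_smul] at e2
        rw [hac, two_smul]
        calc b + c • d + (d + d) = b + d + (c • d + d) := by ring
          _ = b + d := by rw [e2, add_zero]
      rw [e1]
      exact Rc.one (mem_insert_of_mem (mem_singleton_self _)) (hV' v hv)
    · have hne : V.Nonempty := card_pos.1 (by omega)
      obtain ⟨v, hv⟩ := hne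
      have hvV : v ∉ V' := fun h => (disjoint_left.1 hVV') hv h
      have hv1 : Rc A {x, v} 1 b := Rc.one (mem_insert_of_mem (mem_singleton_self _)) (hV v hv)
      by_cases hc2 : 2 * c ≤ m
      · refine key v (V.erase v) V' (mem_union_left _ hv)
          (disjoint_of_subset_left (erase_subset _ _) hVV') (erase_subset _ _) Subset.rfl
          (notMem_erase _ _) hvV (by rw [card_erase_of_mem hv]; omega) (by omega) b c
          (by omega) (by omega) hv1 ?_
        rw [← hac]
        exact hx1 v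
      · refine key v (V.erase v) V' (mem_union_left _ hv)
          (disjoint_of_subset_left (erase_subset _ _) hVV') (erase_subset _ _) Subset.rfl
          (notMem_erase _ _) hvV (by rw [card_erase_of_mem hv]; omega) (by omega) a (m - c)
          (by omega) (by omega) (hx1 v) ?_
        have e1 : a + (m - c) • d = b := by
          have e2 : c • d + (m - c) • d = 0 := by
            rw [← add_smul, show c + (m - c) = m by omega, hmd]
          rw [hac, add_assoc, e2, add_zero]
        rw [e1]
        exact hv1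

private theorem t2x_split {W : Type} (S S' : Finset W) (p p' : ℕ) (h : p ≤ S.card)
    (h' : p' ≤ S'.card) (hu : p + p' ≤ (S ∪ S').card) :
    ∃ V V' : Finset W, V ⊆ S ∧ V' ⊆ S' ∧ Disjoint V V' ∧ V.card = p ∧ V'.card = p' := by
  by_cases h1 : p ≤ (S \ S').card
  · obtain ⟨V, hV, hc⟩ := exists_subset_card_eq h1
    obtain ⟨V', hV', hc'⟩ := exists_subset_card_eq h'
    refine ⟨V, V', hV.trans sdiff_subset, hV', ?_, hc, hc'⟩
    rw [disjoint_left]
    intro x hx hx'
    exact (mem_sdiff.1 (hV hx)).2 (hV' hx')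
  · obtain ⟨V, hV1, hV2, hc⟩ := exists_subsuperset_card_eq (sdiff_subset (s := S) (t := S'))
      (by omega : (S \ S').card ≤ p) h
    have h2 : p' ≤ (S' \ V).card := by
      have e : S' \ V = (S ∪ S') \ V := by
        ext x
        rw [mem_sdiff, mem_sdiff, mem_union]
        constructor
        · rintro ⟨h3, h4⟩
          exact ⟨Or.inr h3, h4⟩
        · rintro ⟨h3 | h3, h4⟩
          · refine ⟨?_, h4⟩
            by_contra h5
            exact h4 (hV1 (mem_sdiff.2 ⟨h3, h5⟩))
          · exact ⟨h3, h4⟩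
      rw [e]
      have h3 : V ⊆ S ∪ S' := hV2.trans subset_union_left
      rw [card_sdiff_of_subset h3]
      omega
    obtain ⟨V', hV', hc'⟩ := exists_subset_card_eq h2
    refine ⟨V, V', hV2, hV'.trans sdiff_subset, ?_, hc, hc'⟩
    rw [disjoint_left]
    intro x hx hx'
    exact (mem_sdiff.1 (hV' hx')).2 hx

/-- ROW T2X. -/
theorem two_x {W : Type} {m : ℕ} [NeZero m] (A : W → Finset (ZMod m)) (X : Finset W) (κ : ℕ)
    (h2 : 2 ≤ κ) (hm : 4 * κ ≤ m) (b d : ZMod m) (hd : AddSubgroup.zmultiples d = ⊤)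
    (hb : m ≤ (X.filter (fun x => b ∈ A x)).card)
    (hb' : m ≤ (X.filter (fun x => b + d ∈ A x)).card)
    (hu : 2 * m ≤ (X.filter (fun x => b ∈ A x ∨ b + d ∈ A x)).card)
    (hex : κ ≤ (X.filter (fun x => ∃ a ∈ A x, a ≠ b ∧ a ≠ b + d)).card + 2) :
    ∀ t, Rc A X (m + 1 - κ) t := by
  obtain ⟨E, hE, hEc⟩ := exists_subset_card_eq (by omega :
    κ - 2 ≤ (X.filter (fun x => ∃ a ∈ A x, a ≠ b ∧ a ≠ b + d)).card)
  set S := (X.filter (fun x => b ∈ A x)) \ E with hS
  set S' := (X.filter (fun x => b + d ∈ A x)) \ E with hS'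
  have h3 : m + 1 - κ ≤ S.card := by
    have : (X.filter (fun x => b ∈ A x)).card - E.card ≤ S.card := le_card_sdiff _ _
    omega
  have h4 : m + 1 - κ ≤ S'.card := by
    have : (X.filter (fun x => b + d ∈ A x)).card - E.card ≤ S'.card := le_card_sdiff _ _
    omega
  have h5 : (m + 1 - κ) + (m + 1 - κ) ≤ (S ∪ S').card := by
    have e : S ∪ S' = (X.filter (fun x => b ∈ A x ∨ b + d ∈ A x)) \ E := by
      rw [hS, hS', filter_or, union_sdiff_distrib]
    have h6 : (X.filter (fun x => b ∈ A x ∨ b + d ∈ A x)).card - E.card ≤ (S ∪ S').card := by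
      rw [e]
      exact le_card_sdiff _ _
    omega
  obtain ⟨V, V', hV, hV', hVV', hc, hc'⟩ := t2x_split S S' _ _ h3 h4 h5
  obtain ⟨β, hβ⟩ := t2x_main A b d hd (m + 3 - 2 * κ) (by omega) E
    (fun x hx => (mem_filter.1 (hE hx)).2) V V' hVV'
    (by
      rw [disjoint_left]
      intro x hx hx'
      exact (mem_sdiff.1 (hV hx')).2 hx)
    (by
      rw [disjoint_left]
      intro x hx hx'
      exact (mem_sdiff.1 (hV' hx')).2 hx)
    (fun v hv => (mem_filter.1 (mem_sdiff.1 (hV hv)).1).2)
    (fun v hv => (mem_filter.1 (mem_sdiff.1 (hV' hv)).1).2)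
    (by omega) (by omega)
  intro t
  obtain ⟨c, hcm, hcd⟩ := t2x_mult hd (t - β)
  have h6 := hβ c (by omega)
  have e1 : β + c • d = t := by rw [hcd]; ring
  have e2 : m + 3 - 2 * κ + E.card = m + 1 - κ := by omega
  rw [e1, e2] at h6
  refine h6.mono ?_
  intro x hx
  rw [mem_union, mem_union] at hx
  rcases hx with (h | h) | h
  · exact (mem_filter.1 (mem_sdiff.1 (hV h)).1).1
  · exact (mem_filter.1 (mem_sdiff.1 (hV' h)).1).1
  · exact (mem_filter.1 (hE h)).1

end ZSA
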