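import Pool.Agent.ZSA.Defs
import Pool.Agent.ZST.FAN
import Pool.Agent.ZSA.T2X

/-!
# ZSA, row T2C: a core with two typical labels has few exceptional vertices
-/

namespace ZSA

open Finset Classical ZST

set_option linter.unusedSectionVars false

variable {V : Type} [Fintype V] [DecidableEq V] {m : ℕ}

/-- ROW T2C. Uses T2X, FAN. -/
theorem core_two [NeZero m] {H : SimpleGraph V} {w : V → V → ZMod m} (hz : ZF m H w)
    (K : Finset V) (hK : Core H w K) (h2 : 2 ≤ K.card) (hm : 4 * K.card ≤ m) (b d : ZMod m)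
    (hd : AddSubgroup.zmultiples d = ⊤) (hb : m ≤ (nlab H w K b).card)
    (hb' : m ≤ (nlab H w K (b + d)).card)
    (hu : 2 * m ≤ (nlab H w K b ∪ nlab H w K (b + d)).card) :
    (ex2 H w K b (b + d)).card + 3 ≤ K.card := by
  by_contra hcon
  obtain ⟨s, hs⟩ := hK
  have hlab : ∀ x a, a ∈ lab H w K x → ∃ k ∈ K, H.Adj k x ∧ w k x = a := by
    intro x a ha
    obtain ⟨k, hk, hka⟩ :=
      (@Finset.mem_image _ _ (fun a b => Classical.propDecidable (a = b)) _ _ _).1 ha
    rw [mem_filter] at hk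
    exact ⟨k, hk.1, hk.2, hka⟩
  have hout : ∀ x a, x ∉ K → a ∈ lab H w K x → x ∈ outN H K := by
    intro x a hx ha
    obtain ⟨k, hk, hk', _⟩ := hlab x a ha
    rw [outN, mem_filter]
    exact ⟨mem_univ _, hx, k, hk, hk'⟩
  have e1 : ∀ c, nlab H w K c = (outN H K).filter (fun x => c ∈ lab H w K x) := by
    intro c
    ext x
    simp only [nlab, mem_filter, mem_univ, true_and]
    constructor
    · rintro ⟨h1, h2⟩
      exact ⟨hout x c h1 h2, h2⟩
    · rintro ⟨h1, h2⟩
      rw [outN, mem_filter] at h1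
      exact ⟨h1.2.1, h2⟩
  have e2 : ex2 H w K b (b + d) =
      (outN H K).filter (fun x => ∃ a ∈ lab H w K x, a ≠ b ∧ a ≠ b + d) := by
    ext x
    simp only [ex2, mem_filter, mem_univ, true_and]
    constructor
    · rintro ⟨h1, a, h2, h3⟩
      exact ⟨hout x a h1 h2, a, h2, h3⟩
    · rintro ⟨h1, h2⟩
      rw [outN, mem_filter] at h1
      exact ⟨h1.2.1, h2⟩
  have h := two_x (lab H w K) (outN H K) K.card h2 hm b d hd (by rw [← e1]; exact hb)
    (by rw [← e1]; exact hb') (by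
      rw [e1, e1, ← filter_or] at hu
      exact hu) (by
      rw [← e2]
      omega) (-s)
  obtain ⟨L, hL, hLc, f, hf, hfs⟩ := h
  have hg : ∀ x, ∃ k, x ∈ L → k ∈ K ∧ H.Adj k x ∧ w k x = f x := by
    intro x
    by_cases hx : x ∈ L
    · obtain ⟨k, h1, h2, h3⟩ := hlab x _ (hf x hx)
      exact ⟨k, fun _ => ⟨h1, h2, h3⟩⟩
    · exact ⟨x, fun h => absurd h hx⟩
  choose g hg using hg
  have hdis : Disjoint K L := by
    rw [Finset.disjoint_left]
    intro x hx hxL
    have := hL hxL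
    rw [outN, mem_filter] at this
    exact this.2.1 hx
  have h5 := TR.fan hs L hdis g (fun x hx => ⟨(hg x hx).1, (hg x hx).2.1⟩)
  have h6 : ∑ x ∈ L, w (g x) x = -s := by
    rw [← hfs]
    exact sum_congr rfl (fun x hx => (hg x hx).2.2)
  rw [h6, add_neg_cancel] at h5
  refine hz.2 (K ∪ L) ?_ h5
  rw [card_union_of_disjoint hdis, hLc]
  omega

end ZSA
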