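import Pool.Agent.ZSA.L1P
import Pool.Agent.ZSA.CU
import Pool.Agent.ZSA.RES
import Pool.Agent.ZSA.LIFT2
import Pool.Agent.ZSA.FILL
import Pool.Agent.ZSA.GAIN

/-! Row TOPADD of board zsa_modules (MP_8ab2db_co, all large m). -/

namespace ZSA

open Finset Classical ZST

private theorem TOPADD_exc {W G : Type} [AddCommGroup G] (A : W → Finset G) (X D : Finset W)
    (Λ : AddSubgroup G) (q : G) :
    (exc A X Λ q).card ≤ (exc A (X \ D) Λ q).card + D.card := by
  refine (card_le_card ?_).trans (card_union_le _ _)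
  intro x hx
  unfold exc at hx ⊢
  rw [mem_filter] at hx
  rw [mem_union, mem_filter, mem_sdiff]
  by_cases hD : x ∈ D
  · exact Or.inr hD
  · exact Or.inl ⟨⟨hx.1, hD⟩, hx.2⟩

private theorem TOPADD_sdiff {W : Type} (X D : Finset W) : X.card ≤ (X \ D).card + D.card := by
  refine (card_le_card ?_).trans (card_union_le _ _)
  intro x hx
  rw [mem_union, mem_sdiff]
  by_cases hD : x ∈ D
  · exact Or.inr hD
  · exact Or.inl ⟨hx, hD⟩

private theorem TOPADD_cardTop {m : ℕ} [NeZero m] :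
    Nat.card (⊤ : AddSubgroup (ZMod m)) = m := by
  rw [Nat.card_congr AddSubgroup.topEquiv.toEquiv, Nat.card_zmod]

/-- the numerical consequences of `Big` which are used -/
private theorem TOPADD_num {M m : ℕ} (hB : Big M m) (hM : 100 ≤ M) :
    1 ≤ Rm m ∧ Rm m ≤ m ∧ 8 * Rm m ^ 2 + 4 * (m / Rm m) + 4 * Rm m + M ≤ Em m ∧
      100 * Em m ≤ m ∧ 100 ≤ m ∧ 2 * M ≤ m := by
  have h1 := hB.h1
  have h3 := hB.h3
  have h2 := hB.h2
  have h4 := hB.N_le
  have hEm : 100 * Em m ≤ m := by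
    have h5 : 1 ≤ (Nat.log 2 m + 2) ^ 2 := Nat.one_le_pow _ _ (by omega)
    calc 100 * Em m ≤ M * Em m := Nat.mul_le_mul_right _ hM
      _ = M * (Em m * 1) := by ring
      _ ≤ M * (Em m * (Nat.log 2 m + 2) ^ 2) :=
          Nat.mul_le_mul_left _ (Nat.mul_le_mul_left _ h5)
      _ ≤ m := h2
  have hM4 : M ≤ M ^ 4 := Nat.le_self_pow (by norm_num) M
  have hRm : Rm m ≤ m := by
    have : 4 * Rm m ≤ Em m := by omega
    omega
  refine ⟨by omega, hRm, h3, hEm, by omega, ?_⟩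
  have : M ≤ Em m := by omega
  omega

private theorem TOPADD_res {W : Type} {m : ℕ} [NeZero m] {M : ℕ} (hB : Big M m) (hM : 100 ≤ M)
    (A : W → Finset (ZMod m)) (X : Finset W) (hA : ∀ x ∈ X, (A x).Nonempty)
    (hX : 5 * m ≤ 2 * X.card)
    (he : ∀ H : AddSubgroup (ZMod m), H < ⊤ → ∀ p, m / Nat.card H + Em m ≤ (exc A X H p).card)
    (U : Finset W) (hU : U.card ≤ M) :
    ∃ Res ⊆ X \ U, Res.card ≤ 8 * Rm m ^ 2 ∧
      ∀ H'' : AddSubgroup (ZMod m), H'' < ⊤ →
        Nat.card (⊤ : AddSubgroup (ZMod m)) < Rm m * Nat.card H'' →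
        4 * Rm m ≤ Res.card ∧ ∀ p, 4 * Rm m ≤ (exc A Res H'' p).card := by
  obtain ⟨h1, h2, h3, h4, h5, h6⟩ := TOPADD_num hB hM
  refine exists_res A (X \ U) (fun x hx => hA x (mem_sdiff.1 hx).1) ⊤ (Rm m) ?_ ?_
  · have := TOPADD_sdiff X U
    omega
  · intro H'' hH'' _ p
    have h7 := TOPADD_exc A X U H'' p
    have h8 : Em m ≤ (exc A X H'' p).card := le_trans (Nat.le_add_left _ _) (he H'' hH'' p)
    omega

private theorem TOPADD_end {W : Type} {m : ℕ} [NeZero m] {M : ℕ} (hB : Big M m) (hM : 100 ≤ M)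
    (A : W → Finset (ZMod m)) (X : Finset W) (hA : ∀ x ∈ X, (A x).Nonempty)
    (hX : 5 * m ≤ 2 * X.card)
    (he : ∀ H : AddSubgroup (ZMod m), H < ⊤ → ∀ p, m / Nat.card H + Em m ≤ (exc A X H p).card)
    (κ : ℕ) (Res : Finset W) (hRX : Res ⊆ X)
    (hRc : Res.card ≤ 8 * Rm m ^ 2)
    (hRes : ∀ H'' : AddSubgroup (ZMod m), H'' < ⊤ →
        Nat.card (⊤ : AddSubgroup (ZMod m)) < Rm m * Nat.card H'' →
        4 * Rm m ≤ Res.card ∧ ∀ p, 4 * Rm m ≤ (exc A Res H'' p).card)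
    (H' : AddSubgroup (ZMod m)) (U : Finset W) (hUX : U ⊆ X) (hU : Disjoint U Res)
    (k : ℕ) (hUk : U.card ≤ 2 * k) (hk : k + 1 ≤ Nat.card H') (c : ZMod m)
    (hst : ∀ t, t - c ∈ H' → Rc A U k t) (hκ2 : 2 ≤ κ)
    (hκ : k + m / Nat.card H' + κ ≤ m + 2) : ∀ t, Rc A X (m + 1 - κ) t := by
  obtain ⟨h1, h2, h3, h4, h5, h6⟩ := TOPADD_num hB hM
  have htop := TOPADD_cardTop (m := m)
  have hA' : ∀ x ∈ X, (A x).Nonempty ∧ ∀ a ∈ A x, a - 0 ∈ (⊤ : AddSubgroup (ZMod m)) :=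
    fun x hx => ⟨hA x hx, fun a _ => AddSubgroup.mem_top _⟩
  obtain ⟨U', hU'X, k', c', hU'k, hk', hst'⟩ := lift_full A ⊤ 0 X Res hRX hA' (Rm m) (Em m) h1 h2
    (by omega) (by rw [htop]; omega) (fun H'' hH'' p => by rw [htop]; exact he H'' hH'' p) hRc
    hRes H' le_top U hUX hU k hUk hk c hst
  rw [htop] at hk'
  intro t
  refine fill A X ⊤ 0 hA' U' hU'X k' (m + 1 - κ) c' hst' (by omega) (by omega) t
    (AddSubgroup.mem_top _)

private theorem TOPADD_main {W : Type} {m : ℕ} [NeZero m] {M : ℕ} (hB : Big M m) (hM : 100 ≤ M)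
    (A : W → Finset (ZMod m)) (X : Finset W) (hA : ∀ x ∈ X, (A x).Nonempty)
    (hX : 5 * m ≤ 2 * X.card)
    (he : ∀ H : AddSubgroup (ZMod m), H < ⊤ → ∀ p, m / Nat.card H + Em m ≤ (exc A X H p).card)
    (κ : ℕ) (hκ2 : 2 ≤ κ) (hκM : κ ≤ M) (U0 : Finset W) (hU0X : U0 ⊆ X) (s0 g : ℕ)
    (hg : g + 2 = κ) (hs0 : 2 * s0 ≤ M) (hU0 : U0.card ≤ 2 * s0) (S0 : Finset (ZMod m))
    (hS0 : s0 + 1 + g ≤ S0.card) (hst0 : ∀ t ∈ S0, Rc A U0 s0 t) :
    ∀ t, Rc A X (m + 1 - κ) t := by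
  obtain ⟨h1, h2, h3, h4, h5, h6⟩ := TOPADD_num hB hM
  obtain ⟨Res, hRX, hRc, hRes⟩ := TOPADD_res hB hM A X hA hX he U0 (by omega)
  have hcardG : Nat.card (ZMod m) = m := Nat.card_zmod m
  have hcardBot : Nat.card (⊥ : AddSubgroup (ZMod m)) = 1 := AddSubgroup.card_bot
  have hbt : (⊥ : AddSubgroup (ZMod m)) < ⊤ := by
    rw [bot_lt_iff_ne_bot]
    intro h
    have h7 := TOPADD_cardTop (m := m)
    rw [h, hcardBot] at h7
    omega
  have hYX : (X \ U0) \ Res ⊆ X := fun x hx => (mem_sdiff.1 (mem_sdiff.1 hx).1).1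
  have hY1 := TOPADD_sdiff X U0
  have hY2 := TOPADD_sdiff (X \ U0) Res
  obtain ⟨F, hFc, hFu, hFd⟩ := cross_units A ((X \ U0) \ Res) (fun x hx => hA x (hYX hx)) ⊥ (m - 1)
    (by omega) (fun q => by
      have h7 := TOPADD_exc A X U0 ⊥ q
      have h8 := TOPADD_exc A (X \ U0) Res ⊥ q
      have h9 := he ⊥ hbt q
      rw [hcardBot, Nat.div_one] at h9
      omega)
  have hu : ∀ U ∈ F, ∃ a d : ZMod m, d ≠ 0 ∧ Rc A U 1 a ∧ Rc A U 1 (a + d) := by
    intro U hU
    obtain ⟨-, a, d, hd, h7, h8⟩ := (hFu U hU).2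
    exact ⟨a, d, fun h => hd (by rw [h]; exact AddSubgroup.zero_mem _), h7, h8⟩
  choose! a d hd0 ha had using hu
  have hsum : ∀ I' ⊆ F, ∀ J ⊆ I', Rc A (I'.biUnion id) I'.card (∑ U ∈ I', a U + ∑ U ∈ J, d U) := by
    intro I' hI' J hJ
    have h7 := Rc.biUnion (A := A) I'
      (fun U hU U' hU' hne => hFd U (hI' hU) U' (hI' hU') hne)
      (fun U => a U + if U ∈ J then d U else 0) (fun U hU => by
        by_cases hUJ : U ∈ J
        · simp only [hUJ, if_true]
          exact had U (hI' hU)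
        · simp only [hUJ, if_false, add_zero]
          exact ha U (hI' hU))
    rw [sum_add_distrib, ← sum_filter, filter_mem_eq_inter,
      inter_eq_right.2 hJ] at h7
    exact h7
  have hsub : ∀ I' ⊆ F, I'.biUnion id ⊆ (X \ U0) \ Res := by
    intro I' hI'
    rw [biUnion_subset]
    intro U hU
    exact (hFu U (hI' hU)).1
  have hcard : ∀ I' ⊆ F, (I'.biUnion id).card ≤ 2 * I'.card := by
    intro I' hI'
    have h7 := card_biUnion_le_card_mul I' id 2 (fun U hU => (hFu U (hI' hU)).2.1)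
    omega
  rcases l1p (G := ZMod m) S0 g s0 hS0 F d (fun U hU => hd0 U hU) (by rw [hcardG]; omega) with
    ⟨I', hI', hI'c, hall⟩ | ⟨H, hHb, hHt, I', hI', hI'c, hall⟩
  · rw [hcardG] at hI'c
    have hdisj : Disjoint U0 (I'.biUnion id) := by
      rw [Finset.disjoint_left]
      intro x hx hx'
      exact (mem_sdiff.1 (mem_sdiff.1 (hsub I' hI' hx')).1).2 hx
    have hst : ∀ t, t - (∑ U ∈ I', a U) ∈ (⊤ : AddSubgroup (ZMod m)) →
        Rc A (U0 ∪ I'.biUnion id) (s0 + I'.card) t := by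
      intro t _
      obtain ⟨s, hs, J, hJ, hJs⟩ := hall (t - ∑ U ∈ I', a U)
      have h7 := Rc.add' (hst0 s hs) (hsum I' hI' J hJ) hdisj
      have h8 : s + (∑ U ∈ I', a U + ∑ U ∈ J, d U) = t := by
        rw [eq_sub_iff_add_eq] at hJs
        rw [← hJs]
        abel
      rwa [h8] at h7
    have hc7 := card_union_le U0 (I'.biUnion id)
    have hc8 := hcard I' hI'
    intro t
    refine fill A X ⊤ 0 (fun x hx => ⟨hA x hx, fun a _ => AddSubgroup.mem_top _⟩)
      (U0 ∪ I'.biUnion id) (union_subset hU0X ((hsub I' hI').trans hYX)) (s0 + I'.card)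
      (m + 1 - κ) _ hst (by omega) (by omega) t (AddSubgroup.mem_top _)
  · have hdisj : Disjoint (I'.biUnion id) Res := by
      rw [Finset.disjoint_left]
      intro x hx hx'
      exact (mem_sdiff.1 (hsub I' hI' hx)).2 hx'
    have hH2 : 2 ≤ Nat.card H := by
      have h7 : Nat.card H ≠ 1 := by
        intro h
        exact hHb (AddSubgroup.eq_bot_of_card_eq H h)
      have h8 : 0 < Nat.card H := Nat.card_pos
      omega
    have hHd : Nat.card H ∣ m := by
      have := AddSubgroup.card_addSubgroup_dvd_card H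
      rwa [hcardG] at this
    have hHm : Nat.card H ≠ m := by
      intro h
      apply hHt
      exact AddSubgroup.eq_top_of_card_eq H (by rw [h, hcardG])
    obtain ⟨e, he'⟩ := hHd
    have he2 : 2 ≤ e := by
      rcases Nat.lt_or_ge e 2 with h7 | h7
      · interval_cases e
        · omega
        · omega
      · exact h7
    have hdiv : m / Nat.card H = e := Nat.div_eq_of_eq_mul_right (by omega) he'
    have hprod : Nat.card H + e ≤ m / 2 + 2 := by
      obtain ⟨x, hx⟩ : ∃ x, Nat.card H = x + 2 := ⟨Nat.card H - 2, by omega⟩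
      obtain ⟨y, rfl⟩ : ∃ y, e = y + 2 := ⟨e - 2, by omega⟩
      rw [hx] at he' ⊢
      have h7 : m = x * y + 2 * x + 2 * y + 4 := by rw [he']; ring
      have h8 : 0 ≤ x * y := Nat.zero_le _
      omega
    refine TOPADD_end hB hM A X hA hX he κ Res (fun x hx => (mem_sdiff.1 (hRX hx)).1) hRc hRes H
      (I'.biUnion id) ((hsub I' hI').trans hYX) hdisj I'.card (hcard I' hI') hI'c
      (∑ U ∈ I', a U) ?_ hκ2 ?_
    · intro t ht
      obtain ⟨J, hJ, hJs⟩ := hall _ ht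
      have h7 := hsum I' hI' J hJ
      rw [hJs] at h7
      have h8 : ∑ U ∈ I', a U + (t - ∑ U ∈ I', a U) = t := by abel
      rwa [h8] at h7
    · rw [hdiv]
      omega

/-- ROW TOPADD. Uses GAIN, RES, CU, L1P, LIFT2, FILL. -/
theorem top_add (N : ℕ) : ∃ C, ∀ (m : ℕ) [NeZero m], Big C m → ∀ (W : Type)
    (A : W → Finset (ZMod m)) (X : Finset W) (κ : ℕ), 2 ≤ κ → κ ≤ N →
    (∀ x ∈ X, (A x).Nonempty) → 5 * m ≤ 2 * X.card →
    (∀ H : AddSubgroup (ZMod m), H < ⊤ → ∀ p, m / Nat.card H + Em m ≤ (exc A X H p).card) →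
    (∀ t, Rc A X (m + 1 - κ) t) ∨
    (3 ≤ κ ∧ ∃ b d, AddSubgroup.zmultiples d = ⊤ ∧
      (X.filter (fun x => ∃ a ∈ A x, a ≠ b ∧ a ≠ b + d)).card ≤ C) := by
  choose Cg hCg using gain
  let C0 : ℕ := ∑ g ∈ range (N + 1), Cg g
  have hC0 : ∀ g, g ≤ N → Cg g ≤ C0 := fun g hg =>
    single_le_sum (f := Cg) (fun _ _ => Nat.zero_le _) (mem_range.2 (by omega))
  refine ⟨4 * C0 + 4 * N + 200, ?_⟩
  intro m _ hB W A X κ hκ2 hκN hA hX he
  have hM : 100 ≤ 4 * C0 + 4 * N + 200 := by omega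
  obtain ⟨h1, h2, h3, h4, h5, h6⟩ := TOPADD_num hB hM
  have hcardG : Nat.card (ZMod m) = m := Nat.card_zmod m
  have hcardBot : Nat.card (⊥ : AddSubgroup (ZMod m)) = 1 := AddSubgroup.card_bot
  have hbt : (⊥ : AddSubgroup (ZMod m)) < ⊤ := by
    rw [bot_lt_iff_ne_bot]
    intro h
    have h7 := TOPADD_cardTop (m := m)
    rw [h, hcardBot] at h7
    omega
  rcases Nat.lt_or_ge κ 3 with hκ | hκ
  · left
    have hκ' : κ = 2 := by omega
    refine TOPADD_main hB hM A X hA hX he κ hκ2 (by omega) ∅ (empty_subset _) 0 0 (by omega)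
      (by omega) (by simp) {0} (by simp) ?_
    intro t ht
    rw [mem_singleton] at ht
    rw [ht]
    exact Rc.zero A ∅
  · obtain ⟨g, rfl⟩ : ∃ g, κ = g + 2 := ⟨κ - 2, by omega⟩
    have hg := hC0 g (by omega)
    rcases hCg g m W A X hA (fun b => by
      have h9 := he ⊥ hbt b
      rw [hcardBot, Nat.div_one] at h9
      omega) with ⟨U, hUX, hUc, S, hS, hSt⟩ | ⟨Λ, hΛb, hΛc, U, hUX, k, c, hUk, hk, hst⟩ |
        ⟨b, d, hd, hbd⟩
    · left
      refine TOPADD_main hB hM A X hA hX he (g + 2) hκ2 (by omega) U hUX (g + 1) g rfl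
        (by omega) hUc S (by omega) hSt
    · left
      obtain ⟨Res, hRX, hRc, hRes⟩ := TOPADD_res hB hM A X hA hX he U (by omega)
      have hΛ2 : 2 ≤ Nat.card Λ := by
        have h7 : Nat.card Λ ≠ 1 := by
          intro h
          exact hΛb (AddSubgroup.eq_bot_of_card_eq Λ h)
        have h8 : 0 < Nat.card Λ := Nat.card_pos
        omega
      have hdiv : m / Nat.card Λ ≤ m / 2 := Nat.div_le_div_left hΛ2 (by norm_num)
      refine TOPADD_end hB hM A X hA hX he (g + 2) Res (fun x hx => (mem_sdiff.1 (hRX hx)).1) hRc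
        hRes Λ U hUX ?_ k hUk hk c hst hκ2 ?_
      · rw [Finset.disjoint_left]
        intro x hx hx'
        exact (mem_sdiff.1 (hRX hx')).2 hx
      · omega
    · right
      refine ⟨hκ, b, d, ?_, by omega⟩
      by_contra htop
      have h7 : Em m ≤ (exc A X (AddSubgroup.zmultiples d) b).card :=
        le_trans (Nat.le_add_left _ _) (he (AddSubgroup.zmultiples d) (lt_top_iff_ne_top.2 htop) b)
      have h8 : (exc A X (AddSubgroup.zmultiples d) b).card ≤
          (X.filter (fun x => ∃ a ∈ A x, a ≠ b ∧ a ≠ b + d)).card := by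
        refine card_le_card ?_
        intro x hx
        unfold exc at hx
        rw [mem_filter] at hx ⊢
        obtain ⟨hxX, a, ha, haΛ⟩ := hx
        refine ⟨hxX, a, ha, ?_, ?_⟩
        · rintro rfl
          exact haΛ (by rw [sub_self]; exact AddSubgroup.zero_mem _)
        · rintro rfl
          exact haΛ (by rw [add_sub_cancel_left]; exact AddSubgroup.mem_zmultiples d)
      omega

end ZSA
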