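import Pool.Agent.ZSA.TOPADD
import Pool.Agent.ZSA.RES
import Pool.Agent.ZSA.LIFT2
import Pool.Agent.ZSA.FILL

/-!
# ZSA, row TRIA: the trichotomy for sums of labels
-/

namespace ZSA

open Finset Classical ZST

private lemma TRIA_num (m h h'' : ℕ) (_hm : 0 < m) (h1 : h'' ∣ h) (h2 : h ∣ m) (hlt : h'' < h)
    (hlt2 : h < m) : h / h'' + Em m + Tm m h ≤ Tm m h'' := by
  obtain ⟨s, rfl⟩ := h1
  obtain ⟨r, hr⟩ := h2
  have h0 : 0 < h'' := by
    rcases Nat.eq_zero_or_pos h'' with h | h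
    · rw [h] at hlt; simp at hlt
    · exact h
  have hs : 2 ≤ s := by
    by_contra hcon
    have : s ≤ 1 := by omega
    have := Nat.mul_le_mul_left h'' this
    omega
  have hr2 : 2 ≤ r := by
    by_contra hcon
    have : r ≤ 1 := by omega
    have := Nat.mul_le_mul_left (h'' * s) this
    omega
  have e1 : h'' * s / h'' = s := Nat.mul_div_cancel_left s h0
  have e2 : m / (h'' * s) = r := by
    rw [hr]; exact Nat.mul_div_cancel_left r (by positivity)
  have e3 : m / h'' = s * r := by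
    rw [hr, mul_assoc]; exact Nat.mul_div_cancel_left _ h0
  unfold Tm
  rw [e1, e2, e3]
  have hlog : Nat.log 2 r + 1 ≤ Nat.log 2 (s * r) := by
    have : Nat.log 2 (2 * r) ≤ Nat.log 2 (s * r) :=
      Nat.log_mono_right (Nat.mul_le_mul_right r hs)
    rw [mul_comm 2 r, Nat.log_mul_base (by norm_num) (by omega)] at this
    exact this
  have hE : Em m * (1 + (Nat.log 2 r + 1)) ≤ Em m * (1 + Nat.log 2 (s * r)) :=
    Nat.mul_le_mul_left _ (by omega)
  have hE2 : Em m * (1 + (Nat.log 2 r + 1)) = Em m * (1 + Nat.log 2 r) + Em m := by ring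
  have hsr : s + r ≤ s * r := by nlinarith
  omega

private lemma TRIA_card_lt {m : ℕ} [NeZero m] {H L : AddSubgroup (ZMod m)} (h : H < L) :
    Nat.card H < Nat.card L := by
  by_contra hcon
  push Not at hcon
  exact h.ne (AddSubgroup.eq_of_le_of_card_ge h.le hcon)

/-- ROW TRIA. Uses TOPADD, RES, LIFT2, FILL. -/
theorem tri_add (N : ℕ) : ∃ C, ∀ (m : ℕ) [NeZero m], Big C m → ∀ (W : Type)
    (A : W → Finset (ZMod m)) (X : Finset W) (κ : ℕ), 2 ≤ κ → κ ≤ N →
    (∀ x ∈ X, (A x).Nonempty) → 5 * m ≤ 2 * X.card →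
    (∃ b, (exc A X ⊥ b).card < Tm m 1) ∨
    (3 ≤ κ ∧ ∃ b d, AddSubgroup.zmultiples d = ⊤ ∧
      (X.filter (fun x => ∃ a ∈ A x, a ≠ b ∧ a ≠ b + d)).card ≤ C) ∨
    (∃ (H : AddSubgroup (ZMod m)) (q : ZMod m), H ≠ ⊥ ∧ H ≠ ⊤ ∧
      (exc A X H q).card < Tm m (Nat.card H) ∧
      ∀ t, t - (m + 1 - κ) • q ∈ H → Rc A X (m + 1 - κ) t) ∨
    (∀ t, Rc A X (m + 1 - κ) t) := by
  obtain ⟨C0, hC0⟩ := top_add N
  refine ⟨max C0 (N + 100), ?_⟩
  intro m _ hbig W A X κ hκ2 hκN hA hX
  have hm0 : 0 < m := Nat.pos_of_ne_zero (NeZero.ne m)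
  have hbig0 : Big C0 m := hbig.mono (le_max_left _ _)
  have hbig1 : Big (N + 100) m := hbig.mono (le_max_right _ _)
  have hcardT : Nat.card (⊤ : AddSubgroup (ZMod m)) = m := by
    rw [AddSubgroup.card_top, Nat.card_zmod]
  -- numerical facts
  have hEm : 400 * Em m ≤ m := by
    have h2 := hbig1.h2
    have h3 : 4 ≤ (Nat.log 2 m + 2) ^ 2 := by
      have := Nat.pow_le_pow_left (show 2 ≤ Nat.log 2 m + 2 by omega) 2
      omega
    have h4 : (N + 100) * (Em m * 4) ≤ (N + 100) * (Em m * (Nat.log 2 m + 2) ^ 2) := by gcongr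
    have h5 : 100 * (Em m * 4) ≤ (N + 100) * (Em m * 4) := Nat.mul_le_mul_right _ (by omega)
    omega
  have hRm : Rm m ≤ m := (Nat.sqrt_le_self _).trans (Nat.sqrt_le_self _)
  have h13 := hbig1.h4
  have hNm : N + 100 ≤ Rm m := hbig1.h1
  have hN4 : 4 * N + 4 ≤ m := by
    have h3 := hbig1.h3
    omega
  -- the minimal subgroup
  have hex : ∃ n, ∃ (L : AddSubgroup (ZMod m)) (q : ZMod m), Nat.card L = n ∧
      (exc A X L q).card < Tm m n := by
    refine ⟨m, ⊤, 0, hcardT, ?_⟩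
    have h1 : exc A X (⊤ : AddSubgroup (ZMod m)) 0 = ∅ := by
      unfold exc
      rw [Finset.filter_eq_empty_iff]
      rintro x _ ⟨a, _, ha⟩
      exact ha (AddSubgroup.mem_top _)
    rw [h1, Finset.card_empty]
    unfold Tm
    rw [Nat.div_self hm0]
    omega
  obtain ⟨L, q, hLn, hLq⟩ := Nat.find_spec hex
  have hmin : ∀ (H : AddSubgroup (ZMod m)), Nat.card H < Nat.card L → ∀ p,
      Tm m (Nat.card H) ≤ (exc A X H p).card := by
    intro H hH p
    by_contra hcon
    push Not at hcon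
    exact Nat.find_min hex (by rw [← hLn]; exact hH) ⟨H, p, rfl, hcon⟩
  rw [← hLn] at hLq
  have hdiv : Nat.card L ∣ m := by
    have := AddSubgroup.card_addSubgroup_dvd_card L
    rwa [Nat.card_zmod] at this
  by_cases hbot : L = ⊥
  · left
    refine ⟨q, ?_⟩
    rw [hbot] at hLq
    rwa [AddSubgroup.card_bot] at hLq
  by_cases htop : L = ⊤
  · have hcond : ∀ H : AddSubgroup (ZMod m), H < ⊤ → ∀ p,
        m / Nat.card H + Em m ≤ (exc A X H p).card := by
      intro H hH p
      refine le_trans ?_ (hmin H (by rw [htop]; exact TRIA_card_lt hH) p)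
      unfold Tm
      have : Em m * 1 ≤ Em m * (1 + Nat.log 2 (m / Nat.card H)) :=
        Nat.mul_le_mul_left _ (by omega)
      omega
    rcases hC0 m hbig0 W A X κ hκ2 hκN hA hX hcond with h | ⟨h3, b, d, hd, hc⟩
    · exact Or.inr (Or.inr (Or.inr h))
    · exact Or.inr (Or.inl ⟨h3, b, d, hd, hc.trans (le_max_left _ _)⟩)
  -- the subgroup case
  right; right; left
  have hLm : Nat.card L < m := by
    exact lt_of_lt_of_eq (TRIA_card_lt (lt_top_iff_ne_top.2 htop)) hcardT
  have hL2 : 2 ≤ Nat.card L := by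
    have := TRIA_card_lt (bot_lt_iff_ne_bot.2 hbot)
    rw [AddSubgroup.card_bot] at this
    omega
  have hLhalf : 2 * Nat.card L ≤ m := by
    obtain ⟨r, hr⟩ := hdiv
    have hr2 : 2 ≤ r := by
      by_contra hcon
      have : r ≤ 1 := by omega
      have := Nat.mul_le_mul_left (Nat.card L) this
      omega
    have := Nat.mul_le_mul_left (Nat.card L) hr2
    omega
  have hTm : 100 * Tm m (Nat.card L) ≤ 51 * m := by
    have h1 := hbig1.mono (show 100 ≤ N + 100 by omega) |>.Tm_le (Nat.card L)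
    have h2 : m / Nat.card L ≤ m / 2 := Nat.div_le_div_left hL2 (by norm_num)
    omega
  set Y := X \ exc A X L q with hY
  have hexX : exc A X L q ⊆ X := Finset.filter_subset _ _
  have hYX : Y ⊆ X := Finset.sdiff_subset
  have hYcard : Y.card + (exc A X L q).card = X.card := by
    rw [hY, Finset.card_sdiff_add_card_eq_card hexX]
  have hYA : ∀ x ∈ Y, (A x).Nonempty ∧ ∀ a ∈ A x, a - q ∈ L := by
    intro x hx
    rw [hY, Finset.mem_sdiff] at hx
    refine ⟨hA x hx.1, fun a ha => ?_⟩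
    by_contra hcon
    apply hx.2
    unfold exc
    rw [Finset.mem_filter]
    exact ⟨hx.1, a, ha, hcon⟩
  have hYe : ∀ H'' : AddSubgroup (ZMod m), H'' < L → ∀ p,
      Nat.card L / Nat.card H'' + Em m ≤ (exc A Y H'' p).card := by
    intro H'' hH'' p
    have hlt := TRIA_card_lt hH''
    have h1 := hmin H'' hlt p
    have h2 := TRIA_num m (Nat.card L) (Nat.card H'') hm0 (AddSubgroup.card_dvd_of_le hH''.le)
      hdiv hlt hLm
    have h3 : exc A X H'' p ⊆ exc A Y H'' p ∪ exc A X L q := by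
      intro x hx
      by_cases hxe : x ∈ exc A X L q
      · exact Finset.mem_union_right _ hxe
      · apply Finset.mem_union_left
        unfold exc at hx ⊢
        rw [Finset.mem_filter] at hx ⊢
        exact ⟨Finset.mem_sdiff.2 ⟨hx.1, hxe⟩, hx.2⟩
    have h4 := (Finset.card_le_card h3).trans (Finset.card_union_le _ _)
    omega
  have hb3 := hbig1.h3
  obtain ⟨Res, hResY, hResc, hRes⟩ := exists_res A Y (fun x hx => (hYA x hx).1) L (Rm m)
    (by omega) (fun H'' hH'' _ p => by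
      have h5 : Em m ≤ (exc A Y H'' p).card := (Nat.le_add_left _ _).trans (hYe H'' hH'' p)
      omega)
  obtain ⟨U', hU', k', c', hUk', hk', hst'⟩ := lift_full A L q Y Res hResY hYA (Rm m) (Em m)
    (by omega) hRm (by omega) (by omega) hYe hResc hRes ⊥ bot_le ∅ (Finset.empty_subset _)
    (Finset.disjoint_empty_left _) 0 (by simp) (by rw [AddSubgroup.card_bot]) 0
    (fun t ht => by
      rw [sub_zero, AddSubgroup.mem_bot] at ht
      rw [ht]
      exact Rc.zero A ∅)
  rw [AddSubgroup.card_bot, Nat.div_one] at hk'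
  refine ⟨L, q, hbot, htop, hLq, fun t ht => ?_⟩
  exact (fill A Y L q hYA U' hU' k' (m + 1 - κ) c' hst' (by omega) (by omega) t ht).mono hYX

end ZSA
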